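import Mathlib

/-!
# Biggs' conjecture on the odd graphs, all `k` (MP_e26f2a_co): definitions

Ground set of `O_k`: `P ⊕ N` plus one more point, `|P| = |N| = n = k - 1`. An `n`-set or an
`(n+1)`-set `A` of the ground set is coded by `X = A ∩ P` and `V = N \ A`.
-/

set_option autoImplicit false

namespace BG

open Finset

/-- The odd graph `O_k` has a proper edge colouring with `k` colours (frozen shape). -/
def Col (k : ℕ) : Prop :=
  ∃ c : Finset (Fin (2 * k - 1)) → Finset (Fin (2 * k - 1)) → Fin k,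
    (∀ s t : Finset (Fin (2 * k - 1)),
        s.card = k - 1 → t.card = k - 1 → Disjoint s t → c s t = c t s) ∧
    (∀ s t u : Finset (Fin (2 * k - 1)),
        s.card = k - 1 → t.card = k - 1 → u.card = k - 1 →
        Disjoint s t → Disjoint s u → t ≠ u → c s t ≠ c s u)

section
variable {T : Type} [DecidableEq T]

/-- shadow sum of a set function -/
noncomputable def sh (g : Finset T → ℝ) (V : Finset T) : ℝ := ∑ v ∈ V, g (V.erase v)

/-- sum of a flow `f (V \ v) v` over all `v ∈ V` -/
noncomputable def dn (f : Finset T → T → ℝ) (V : Finset T) : ℝ := ∑ v ∈ V, f (V.erase v) v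

/-- `(-1)^|X ∩ Q|` -/
noncomputable def chi (Q X : Finset T) : ℝ := (-1) ^ (X ∩ Q).card

/-- flow depending only on `|X ∩ Q|` and on whether the new element is in `Q` -/
noncomputable def fch (Q : Finset T) (FQ Fc : ℕ → ℝ) (X : Finset T) (x : T) : ℝ :=
  chi Q X * (if x ∈ Q then FQ (X ∩ Q).card else Fc (X ∩ Q).card)

end

/-! ## The modified sign functions -/

section
variable {h : ℕ}

/-- odd case, ground set `Bool ⊕ (Fin h × Bool)`: number of elements `(i, true)` -/
def trO (V : Finset (Bool ⊕ (Fin h × Bool))) : ℕ :=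
  (univ.filter fun i : Fin h => Sum.inr (i, true) ∈ V).card

/-- the flipped sets, odd case -/
def mO (V : Finset (Bool ⊕ (Fin h × Bool))) : Prop :=
  (∀ i : Fin h, Sum.inr (i, true) ∈ V ↔ Sum.inr (i, false) ∉ V) ∧
  ((Sum.inl true ∈ V ∧ Sum.inl false ∉ V ∧ h ≤ trO V + 1) ∨
    (Sum.inl false ∈ V ∧ Sum.inl true ∉ V ∧ trO V ≤ 1))

instance (V : Finset (Bool ⊕ (Fin h × Bool))) : Decidable (mO V) := by
  unfold mO; infer_instance

/-- the modified sign, odd case (integer valued) -/
def bO (V : Finset (Bool ⊕ (Fin h × Bool))) : ℤ :=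
  if mO V then -(-1) ^ trO V else (-1) ^ trO V

/-- even case, ground set `Option (Fin h × Bool)`: number of elements `(i, true)` -/
def trE (V : Finset (Option (Fin h × Bool))) : ℕ :=
  (univ.filter fun i : Fin h => some (i, true) ∈ V).card

/-- the flipped sets, even case -/
def mE (V : Finset (Option (Fin h × Bool))) : Prop :=
  none ∉ V ∧ (∀ i : Fin h, some (i, true) ∈ V ↔ some (i, false) ∉ V) ∧ trE V ≤ 1

instance (V : Finset (Option (Fin h × Bool))) : Decidable (mE V) := by
  unfold mE; infer_instance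

/-- non-split sets -/
def nsE (V : Finset (Option (Fin h × Bool))) : Prop :=
  ∀ i : Fin h, some (i, true) ∈ V ↔ some (i, false) ∈ V

instance (V : Finset (Option (Fin h × Bool))) : Decidable (nsE V) := by
  unfold nsE; infer_instance

/-- the modified sign, even case (integer valued) -/
def bE (𝒟 : Finset (Finset (Option (Fin h × Bool)))) (V : Finset (Option (Fin h × Bool))) : ℤ :=
  if mE V ∨ V ∈ 𝒟 then -(-1) ^ trE V else (-1) ^ trE V

end

/-! ## Constants -/

noncomputable def om1 (K : ℕ) : ℝ :=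
  (K:ℝ) * ((K-1).choose ((K-1)/2) : ℕ) / (((K-1).choose ((K+1)/2) : ℕ) * (K.choose ((K+1)/2-1) : ℕ))

noncomputable def om2 (K : ℕ) : ℝ :=
  ((K:ℝ)-1) * ((K-1).choose (K/2) : ℕ) / (((K-1).choose ((K+1)/2) : ℕ) * (K.choose ((K+1)/2-2) : ℕ))

/-- The half chain recursion: value `(q i, c i)`. -/
noncomputable def hch (lo p L r : ℝ) : ℕ → ℝ × ℝ
  | 0 => (L / p, 0)
  | i+1 =>
    let c := (lo + i + 1) * (hch lo p L r i).1 / (r - i)
    ((L - 2 * (i+1) - (i+1) * c) / (p - (i+1)), c)

end BG
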