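import Pool.Agent.Lib.MP_e26f2a_co.BG.Pair

/-!
# Cardinalities and complements for pairs (MP_e26f2a_co, Biggs project, pieces P2, P3)
-/

set_option autoImplicit false

namespace BG

open Finset

section
variable {ι : Type} [DecidableEq ι] [Fintype ι]

theorem card_pairs (X : Finset (ι × Bool)) : X.card = (Qs X).card + 2 * (Fs X).card := by
  have h1 : X.card = ∑ i : ι,
      ((if (i, true) ∈ X then 1 else 0) + (if (i, false) ∈ X then 1 else 0)) := by
    have : X.card = ∑ x : ι × Bool, if x ∈ X then 1 else 0 := by simp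
    rw [this, Fintype.sum_prod_type]
    exact sum_congr rfl fun i _ => Fintype.sum_bool _
  rw [h1, Qs, Fs, card_filter, card_filter, mul_sum, ← sum_add_distrib]
  refine sum_congr rfl fun i _ => ?_
  by_cases a : (i, true) ∈ X <;> by_cases b : (i, false) ∈ X <;> simp [a, b]

theorem card_univ_pairs (X : Finset (ι × Bool)) :
    (Qs X).card + (Fs X).card + (Es X).card = Fintype.card ι := by
  have h : Fintype.card ι = ∑ i : ι, 1 := by simp
  rw [h, Qs, Fs, Es, card_filter, card_filter, card_filter, ← sum_add_distrib,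
    ← sum_add_distrib]
  refine sum_congr rfl fun i _ => ?_
  by_cases a : (i, true) ∈ X <;> by_cases b : (i, false) ∈ X <;> simp [a, b]

theorem abs_ch (X : Finset (ι × Bool)) : |ch X| = 1 := by
  unfold ch
  rw [abs_pow, abs_neg, abs_one, one_pow]

theorem Qs_compl (X : Finset (ι × Bool)) : Qs Xᶜ = Qs X := by
  ext i
  simp only [Qs, mem_filter, mem_univ, true_and, mem_compl]
  tauto

theorem Fs_compl (X : Finset (ι × Bool)) : Fs Xᶜ = Es X := by
  ext i
  simp only [Fs, Es, mem_filter, mem_univ, true_and, mem_compl]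

theorem Es_compl (X : Finset (ι × Bool)) : Es Xᶜ = Fs X := by
  ext i
  simp only [Fs, Es, mem_filter, mem_univ, true_and, mem_compl, not_not]

theorem ch_compl (X : Finset (ι × Bool)) : ch Xᶜ = (-1) ^ (Qs X).card * ch X := by
  have hsub : Ng X ⊆ Qs X := by
    intro i
    simp only [Ng, Qs, mem_filter, mem_univ, true_and]
    tauto
  have hN : Ng Xᶜ = Qs X \ Ng X := by
    ext i
    simp only [Ng, Qs, mem_filter, mem_univ, true_and, mem_compl, mem_sdiff]
    tauto
  have hc : (Qs X).card = (Ng Xᶜ).card + (Ng X).card := by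
    rw [hN, card_sdiff_of_subset hsub]
    have := card_le_card hsub
    omega
  unfold ch
  rw [hc, pow_add, mul_assoc, ← pow_add, ← two_mul, pow_mul]
  simp

end

end BG
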