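import Pool.Agent.Lib.MP_e26f2a_co.BG.EvenDefs
import Pool.Agent.Lib.MP_e26f2a_co.BG.PairCard

/-!
# Inserting a point, and the transfer flows: auxiliary facts (MP_e26f2a_co, Biggs project)
-/

set_option autoImplicit false

namespace BG

open Finset

section
variable {ι : Type} [DecidableEq ι] [Fintype ι]

theorem bd_mem_Qs (X : Finset (ι × Bool)) (i : ι) :
    i ∈ Qs X ↔ ((i, true) ∈ X ∧ (i, false) ∉ X) ∨ ((i, true) ∉ X ∧ (i, false) ∈ X) := by
  unfold Qs
  rw [mem_filter]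
  simp only [mem_univ, true_and]

theorem bd_mem_Fs (X : Finset (ι × Bool)) (i : ι) :
    i ∈ Fs X ↔ (i, true) ∈ X ∧ (i, false) ∈ X := by
  unfold Fs
  rw [mem_filter]
  simp only [mem_univ, true_and]

theorem bd_mem_Es (X : Finset (ι × Bool)) (i : ι) :
    i ∈ Es X ↔ (i, true) ∉ X ∧ (i, false) ∉ X := by
  unfold Es
  rw [mem_filter]
  simp only [mem_univ, true_and]

theorem bd_mem_Ng (X : Finset (ι × Bool)) (i : ι) :
    i ∈ Ng X ↔ (i, true) ∉ X ∧ (i, false) ∈ X := by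
  unfold Ng
  rw [mem_filter]
  simp only [mem_univ, true_and]

omit [Fintype ι] in
theorem bd_mem_ins_ne (X : Finset (ι × Bool)) (i j : ι) (b c : Bool) (h : j ≠ i) :
    (j, c) ∈ insert (i, b) X ↔ (j, c) ∈ X := by
  rw [mem_insert]
  constructor
  · rintro (h2 | h2)
    · rw [Prod.mk.injEq] at h2
      exact absurd h2.1 h
    · exact h2
  · exact fun h => Or.inr h

omit [Fintype ι] in
theorem bd_mem_ins_self (X : Finset (ι × Bool)) (i : ι) (b c : Bool) :
    (i, c) ∈ insert (i, b) X ↔ c = b ∨ (i, c) ∈ X := by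
  rw [mem_insert, Prod.mk.injEq]
  simp

theorem bd_not_Q_E (X : Finset (ι × Bool)) (i : ι) (h : i ∈ Es X) : i ∉ Qs X := by
  rw [bd_mem_Es] at h
  rw [bd_mem_Qs]
  tauto

theorem bd_not_F_E (X : Finset (ι × Bool)) (i : ι) (h : i ∈ Es X) : i ∉ Fs X := by
  rw [bd_mem_Es] at h
  rw [bd_mem_Fs]
  tauto

theorem bd_cases (X : Finset (ι × Bool)) (i : ι) (b : Bool) (h : (i, b) ∉ X) :
    i ∈ Qs X ∨ i ∈ Es X := by
  rw [bd_mem_Es, bd_mem_Qs]
  cases b
  · tauto
  · tauto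

/-! ## inserting a point of an empty pair -/

theorem bd_Qs_insE (X : Finset (ι × Bool)) (i : ι) (b : Bool) (h : i ∈ Es X) :
    Qs (insert (i, b) X) = insert i (Qs X) := by
  rw [bd_mem_Es] at h
  ext j
  rw [mem_insert, bd_mem_Qs, bd_mem_Qs]
  by_cases hj : j = i
  · subst hj
    rw [bd_mem_ins_self, bd_mem_ins_self]
    cases b <;> simp [h]
  · rw [bd_mem_ins_ne X i j b _ hj, bd_mem_ins_ne X i j b _ hj]
    tauto

theorem bd_Fs_insE (X : Finset (ι × Bool)) (i : ι) (b : Bool) (h : i ∈ Es X) :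
    Fs (insert (i, b) X) = Fs X := by
  rw [bd_mem_Es] at h
  ext j
  rw [bd_mem_Fs, bd_mem_Fs]
  by_cases hj : j = i
  · subst hj
    rw [bd_mem_ins_self, bd_mem_ins_self]
    cases b <;> simp [h]
  · rw [bd_mem_ins_ne X i j b _ hj, bd_mem_ins_ne X i j b _ hj]

omit [Fintype ι] in
theorem bd_sg_ne (X : Finset (ι × Bool)) (i j : ι) (b : Bool) (h : j ≠ i) :
    sg (insert (i, b) X) j = sg X j := by
  unfold sg
  simp only [bd_mem_ins_ne X i j b _ h]

theorem bd_sg_insE (X : Finset (ι × Bool)) (i : ι) (b : Bool) (h : i ∈ Es X) :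
    sg (insert (i, b) X) i = sb b := by
  rw [bd_mem_Es] at h
  unfold sg sb
  simp only [bd_mem_ins_self]
  cases b <;> simp [h]

/-! ## inserting the missing point of a split pair -/

theorem bd_Qs_insQ (X : Finset (ι × Bool)) (i : ι) (b : Bool) (h : i ∈ Qs X) (hb : (i, b) ∉ X) :
    Qs (insert (i, b) X) = (Qs X).erase i := by
  rw [bd_mem_Qs] at h
  ext j
  rw [mem_erase, bd_mem_Qs, bd_mem_Qs]
  by_cases hj : j = i
  · subst hj
    rw [bd_mem_ins_self, bd_mem_ins_self]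
    cases b <;> simp_all
  · rw [bd_mem_ins_ne X i j b _ hj, bd_mem_ins_ne X i j b _ hj]
    tauto

theorem bd_Fs_insQ (X : Finset (ι × Bool)) (i : ι) (b : Bool) (h : i ∈ Qs X) (hb : (i, b) ∉ X) :
    Fs (insert (i, b) X) = insert i (Fs X) := by
  rw [bd_mem_Qs] at h
  ext j
  rw [mem_insert, bd_mem_Fs, bd_mem_Fs]
  by_cases hj : j = i
  · subst hj
    rw [bd_mem_ins_self, bd_mem_ins_self]
    cases b <;> simp_all
  · rw [bd_mem_ins_ne X i j b _ hj, bd_mem_ins_ne X i j b _ hj]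
    tauto

theorem bd_sb_Q (X : Finset (ι × Bool)) (i : ι) (b : Bool) (h : i ∈ Qs X) (hb : (i, b) ∉ X) :
    sb b = - sg X i := by
  rw [bd_mem_Qs] at h
  unfold sg sb
  cases b
  · have h1 : (i, true) ∈ X := by tauto
    simp [h1, hb]
  · have h1 : (i, false) ∈ X := by tauto
    simp [h1, hb]

theorem bd_sg_cases (X : Finset (ι × Bool)) (i : ι) (h : i ∈ Qs X) : sg X i = 1 ∨ sg X i = -1 := by
  rw [bd_mem_Qs] at h
  unfold sg
  rcases h with ⟨h1, h2⟩ | ⟨h1, h2⟩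
  · left; simp [h1, h2]
  · right; simp [h1, h2]

/-- `ch` is the product of the signs of the split pairs -/
theorem bd_ch_prod (X : Finset (ι × Bool)) : ch X = ∏ i ∈ Qs X, sg X i := by
  have h1 : ∀ i ∈ Qs X, sg X i = if i ∈ Ng X then -1 else 1 := by
    intro i hi
    rw [bd_mem_Qs] at hi
    have hn := bd_mem_Ng X i
    unfold sg
    rcases hi with ⟨h1, h2⟩ | ⟨h1, h2⟩
    · rw [if_pos h1, if_neg h2, if_neg (fun h => (hn.mp h).1 h1)]; norm_num
    · rw [if_neg h1, if_pos h2, if_pos (hn.mpr ⟨h1, h2⟩)]; norm_num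
  rw [Finset.prod_congr rfl h1, Finset.prod_ite, Finset.prod_const, Finset.prod_const_one, mul_one]
  have h2 : (Qs X).filter (fun i => i ∈ Ng X) = Ng X := by
    ext i
    rw [mem_filter, bd_mem_Qs, bd_mem_Ng]
    tauto
  rw [h2]
  rfl

/-! ## the flows -/

theorem bd_k1f_E (X : Finset (ι × Bool)) (i : ι) (b : Bool) (h : i ∈ Es X) :
    k1f X (i, b) = 0 := by
  unfold k1f
  rw [if_neg (bd_not_Q_E X i h)]

theorem bd_k2f_Q (X : Finset (ι × Bool)) (i : ι) (b : Bool) (h : i ∈ Qs X) :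
    k2f X (i, b) = 0 := by
  unfold k2f
  rw [if_neg]
  rintro ⟨h1, -⟩
  exact bd_not_Q_E X i h1 h

theorem bd_kcf_0 (i0 : ι) (X : Finset (ι × Bool)) (x : ι × Bool) (h : Qs X ≠ univ) :
    kcf i0 X x = 0 := by
  unfold kcf
  rw [if_neg h]

theorem bd_ne_univ (X : Finset (ι × Bool)) (i : ι) (h : i ∈ Es X) : Qs X ≠ univ := by
  intro h1
  exact bd_not_Q_E X i h (h1 ▸ mem_univ i)

theorem bd_trf_0 (jF iF : Finset ι → ι) (c : Finset (ι × Bool) → ℝ) (σ : ℝ) (ty : Bool)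
    (X : Finset (ι × Bool)) (x : ι × Bool) (h : c (insert x X) = 0) :
    trf jF iF c σ ty X x = 0 := by
  unfold trf
  rw [h]
  simp

theorem bd_trf_abs (jF iF : Finset ι → ι) (c : Finset (ι × Bool) → ℝ) (σ : ℝ) (ty : Bool)
    (X : Finset (ι × Bool)) (x : ι × Bool) :
    |trf jF iF c σ ty X x| ≤ |c (insert x X)| := by
  unfold trf
  split_ifs
  · exact le_rfl
  · rw [abs_neg]
  · rw [abs_zero]; exact abs_nonneg _
  · rw [abs_zero]; exact abs_nonneg _

omit [DecidableEq ι] [Fintype ι] in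
theorem bd_abs_v (v : Finset ι → ℝ) (h : ∀ F : Finset ι, v F = 1 ∨ v F = -1) (F : Finset ι) :
    |v F| = 1 := by
  rcases h F with h | h <;> rw [h] <;> simp

end

end BG
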