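import Pool.Agent.Lib.MP_e26f2a_co.BG.Pair

/-!
# Removing a point from a set of points of pairs (MP_e26f2a_co, Biggs project, piece O3)
-/

set_option autoImplicit false

namespace BG

open Finset

section
variable {ι : Type} [DecidableEq ι] [Fintype ι]

theorem pe_mem_Qs (X : Finset (ι × Bool)) (i : ι) :
    i ∈ Qs X ↔ ((i, true) ∈ X ∧ (i, false) ∉ X) ∨ ((i, true) ∉ X ∧ (i, false) ∈ X) := by
  unfold Qs
  rw [mem_filter]
  simp only [mem_univ, true_and]

theorem pe_mem_Fs (X : Finset (ι × Bool)) (i : ι) :
    i ∈ Fs X ↔ (i, true) ∈ X ∧ (i, false) ∈ X := by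
  unfold Fs
  rw [mem_filter]
  simp only [mem_univ, true_and]

theorem pe_mem_Es (X : Finset (ι × Bool)) (i : ι) :
    i ∈ Es X ↔ (i, true) ∉ X ∧ (i, false) ∉ X := by
  unfold Es
  rw [mem_filter]
  simp only [mem_univ, true_and]

theorem pe_mem_Ng (X : Finset (ι × Bool)) (i : ι) :
    i ∈ Ng X ↔ (i, true) ∉ X ∧ (i, false) ∈ X := by
  unfold Ng
  rw [mem_filter]
  simp only [mem_univ, true_and]

theorem pe_mem_erase_ne (X : Finset (ι × Bool)) (i j : ι) (b c : Bool) (h : j ≠ i) :
    (j, c) ∈ X.erase (i, b) ↔ (j, c) ∈ X := by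
  rw [mem_erase]
  constructor
  · exact fun h => h.2
  · intro h'
    refine ⟨?_, h'⟩
    intro h2
    rw [Prod.mk.injEq] at h2
    exact h h2.1

theorem pe_mem_erase_bne (X : Finset (ι × Bool)) (i : ι) (b c : Bool) (h : c ≠ b) :
    (i, c) ∈ X.erase (i, b) ↔ (i, c) ∈ X := by
  rw [mem_erase]
  constructor
  · exact fun h => h.2
  · intro h'
    refine ⟨?_, h'⟩
    intro h2
    rw [Prod.mk.injEq] at h2
    exact h h2.2

theorem pe_not_mem_erase (X : Finset (ι × Bool)) (i : ι) (b : Bool) :
    (i, b) ∉ X.erase (i, b) := notMem_erase _ _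

/-- the signs of the other pairs do not change -/
theorem sg_erase_ne (X : Finset (ι × Bool)) (i j : ι) (b : Bool) (h : j ≠ i) :
    sg (X.erase (i, b)) j = sg X j := by
  unfold sg
  simp only [pe_mem_erase_ne X i j b _ h]

/-! ## Removing the point of a split pair -/

theorem Qs_erase_split (X : Finset (ι × Bool)) (i : ι) (b : Bool) (h : (i, b) ∈ X)
    (hi : i ∈ Qs X) : Qs (X.erase (i, b)) = (Qs X).erase i := by
  rw [pe_mem_Qs] at hi
  ext j
  rw [mem_erase, pe_mem_Qs, pe_mem_Qs]
  by_cases hj : j = i
  · subst hj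
    cases b
    · rw [pe_mem_erase_bne X j false true (by decide)]
      have := pe_not_mem_erase X j false
      tauto
    · rw [pe_mem_erase_bne X j true false (by decide)]
      have := pe_not_mem_erase X j true
      tauto
  · rw [pe_mem_erase_ne X i j b _ hj, pe_mem_erase_ne X i j b _ hj]
    tauto

theorem Fs_erase_split (X : Finset (ι × Bool)) (i : ι) (b : Bool) (h : (i, b) ∈ X)
    (hi : i ∈ Qs X) : Fs (X.erase (i, b)) = Fs X := by
  rw [pe_mem_Qs] at hi
  ext j
  rw [pe_mem_Fs, pe_mem_Fs]
  by_cases hj : j = i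
  · subst hj
    cases b
    · rw [pe_mem_erase_bne X j false true (by decide)]
      have := pe_not_mem_erase X j false
      tauto
    · rw [pe_mem_erase_bne X j true false (by decide)]
      have := pe_not_mem_erase X j true
      tauto
  · rw [pe_mem_erase_ne X i j b _ hj, pe_mem_erase_ne X i j b _ hj]

theorem Es_erase_split (X : Finset (ι × Bool)) (i : ι) (b : Bool) (h : (i, b) ∈ X)
    (hi : i ∈ Qs X) : Es (X.erase (i, b)) = insert i (Es X) := by
  rw [pe_mem_Qs] at hi
  ext j
  rw [mem_insert, pe_mem_Es, pe_mem_Es]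
  by_cases hj : j = i
  · subst hj
    cases b
    · rw [pe_mem_erase_bne X j false true (by decide)]
      have := pe_not_mem_erase X j false
      tauto
    · rw [pe_mem_erase_bne X j true false (by decide)]
      have := pe_not_mem_erase X j true
      tauto
  · rw [pe_mem_erase_ne X i j b _ hj, pe_mem_erase_ne X i j b _ hj]
    tauto

theorem ch_erase_split (X : Finset (ι × Bool)) (i : ι) (b : Bool) (h : (i, b) ∈ X)
    (hi : i ∈ Qs X) : ch (X.erase (i, b)) = ch X * sg X i := by
  rw [pe_mem_Qs] at hi
  cases b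
  · have h1 : (i, true) ∉ X := by tauto
    have h2 : Ng (X.erase (i, false)) = (Ng X).erase i := by
      ext j
      rw [mem_erase, pe_mem_Ng, pe_mem_Ng]
      by_cases hj : j = i
      · subst hj
        rw [pe_mem_erase_bne X j false true (by decide)]
        have := pe_not_mem_erase X j false
        tauto
      · rw [pe_mem_erase_ne X i j _ _ hj, pe_mem_erase_ne X i j _ _ hj]
        tauto
    have h3 : i ∈ Ng X := by rw [pe_mem_Ng]; exact ⟨h1, h⟩
    have h4 : (Ng X).card = ((Ng X).erase i).card + 1 := by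
      rw [card_erase_add_one h3]
    have h5 : sg X i = -1 := by
      unfold sg
      rw [if_neg h1, if_pos h]
      norm_num
    unfold ch
    rw [h2, h4, h5, pow_succ]
    ring
  · have h1 : (i, false) ∉ X := by tauto
    have h2 : Ng (X.erase (i, true)) = Ng X := by
      ext j
      rw [pe_mem_Ng, pe_mem_Ng]
      by_cases hj : j = i
      · subst hj
        rw [pe_mem_erase_bne X j true false (by decide)]
        have := pe_not_mem_erase X j true
        tauto
      · rw [pe_mem_erase_ne X i j _ _ hj, pe_mem_erase_ne X i j _ _ hj]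
    have h5 : sg X i = 1 := by
      unfold sg
      rw [if_pos h, if_neg h1]
      norm_num
    unfold ch
    rw [h2, h5, mul_one]

/-! ## Removing a point of a full pair -/

theorem Qs_erase_full (X : Finset (ι × Bool)) (i : ι) (b : Bool) (hi : i ∈ Fs X) :
    Qs (X.erase (i, b)) = insert i (Qs X) := by
  rw [pe_mem_Fs] at hi
  ext j
  rw [mem_insert, pe_mem_Qs, pe_mem_Qs]
  by_cases hj : j = i
  · subst hj
    cases b
    · rw [pe_mem_erase_bne X j false true (by decide)]
      have := pe_not_mem_erase X j false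
      tauto
    · rw [pe_mem_erase_bne X j true false (by decide)]
      have := pe_not_mem_erase X j true
      tauto
  · rw [pe_mem_erase_ne X i j b _ hj, pe_mem_erase_ne X i j b _ hj]
    tauto

theorem Fs_erase_full (X : Finset (ι × Bool)) (i : ι) (b : Bool) (hi : i ∈ Fs X) :
    Fs (X.erase (i, b)) = (Fs X).erase i := by
  rw [pe_mem_Fs] at hi
  ext j
  rw [mem_erase, pe_mem_Fs, pe_mem_Fs]
  by_cases hj : j = i
  · subst hj
    cases b
    · have := pe_not_mem_erase X j false
      tauto
    · have := pe_not_mem_erase X j true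
      tauto
  · rw [pe_mem_erase_ne X i j b _ hj, pe_mem_erase_ne X i j b _ hj]
    tauto

theorem Es_erase_full (X : Finset (ι × Bool)) (i : ι) (b : Bool) (hi : i ∈ Fs X) :
    Es (X.erase (i, b)) = Es X := by
  rw [pe_mem_Fs] at hi
  ext j
  rw [pe_mem_Es, pe_mem_Es]
  by_cases hj : j = i
  · subst hj
    cases b
    · rw [pe_mem_erase_bne X j false true (by decide)]
      tauto
    · rw [pe_mem_erase_bne X j true false (by decide)]
      tauto
  · rw [pe_mem_erase_ne X i j b _ hj, pe_mem_erase_ne X i j b _ hj]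

theorem ch_erase_full_true (X : Finset (ι × Bool)) (i : ι) (hi : i ∈ Fs X) :
    ch (X.erase (i, true)) = - ch X := by
  rw [pe_mem_Fs] at hi
  have h2 : Ng (X.erase (i, true)) = insert i (Ng X) := by
    ext j
    rw [mem_insert, pe_mem_Ng, pe_mem_Ng]
    by_cases hj : j = i
    · subst hj
      rw [pe_mem_erase_bne X j true false (by decide)]
      have := pe_not_mem_erase X j true
      tauto
    · rw [pe_mem_erase_ne X i j _ _ hj, pe_mem_erase_ne X i j _ _ hj]
      tauto
  have h3 : i ∉ Ng X := by rw [pe_mem_Ng]; tauto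
  unfold ch
  rw [h2, card_insert_of_notMem h3, pow_succ]
  ring

theorem ch_erase_full_false (X : Finset (ι × Bool)) (i : ι) (hi : i ∈ Fs X) :
    ch (X.erase (i, false)) = ch X := by
  rw [pe_mem_Fs] at hi
  have h2 : Ng (X.erase (i, false)) = Ng X := by
    ext j
    rw [pe_mem_Ng, pe_mem_Ng]
    by_cases hj : j = i
    · subst hj
      rw [pe_mem_erase_bne X j false true (by decide)]
      have := pe_not_mem_erase X j false
      tauto
    · rw [pe_mem_erase_ne X i j _ _ hj, pe_mem_erase_ne X i j _ _ hj]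
  unfold ch
  rw [h2]

/-! ## The shadow of `tw τ` -/

private theorem pe_sum_mem (X : Finset (ι × Bool)) (G : ι × Bool → ℝ) :
    ∑ x ∈ X, G x = (∑ i ∈ Qs X, if (i, true) ∈ X then G (i, true) else G (i, false))
      + ∑ i ∈ Fs X, (G (i, true) + G (i, false)) := by
  have h1 : ∑ x ∈ X, G x = ∑ x : ι × Bool, if x ∈ X then G x else 0 := by
    rw [← Finset.sum_filter]
    congr 1
    ext x
    simp
  rw [h1, Fintype.sum_prod_type]
  unfold Qs Fs
  rw [Finset.sum_filter, Finset.sum_filter, ← Finset.sum_add_distrib]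
  refine Finset.sum_congr rfl fun i _ => ?_
  rw [Fintype.sum_bool]
  by_cases ht : (i, true) ∈ X <;> by_cases hf : (i, false) ∈ X <;> simp [ht, hf]

theorem sh_tw (τ : Finset ι → Finset ι → ℝ) (X : Finset (ι × Bool)) :
    sh (tw τ) X = ch X * ∑ i ∈ Qs X, sg X i * τ (Fs X) (insert i (Es X)) := by
  unfold sh
  rw [pe_sum_mem X (fun x => tw τ (X.erase x))]
  have h1 : ∑ i ∈ Fs X, (tw τ (X.erase (i, true)) + tw τ (X.erase (i, false))) = 0 := by
    refine Finset.sum_eq_zero fun i hi => ?_
    unfold tw
    rw [ch_erase_full_true X i hi, ch_erase_full_false X i hi, Fs_erase_full X i true hi,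
      Fs_erase_full X i false hi, Es_erase_full X i true hi, Es_erase_full X i false hi]
    ring
  have h2 : (∑ i ∈ Qs X, if (i, true) ∈ X then tw τ (X.erase (i, true))
      else tw τ (X.erase (i, false))) =
      ∑ i ∈ Qs X, ch X * (sg X i * τ (Fs X) (insert i (Es X))) := by
    refine Finset.sum_congr rfl fun i hi => ?_
    unfold tw
    by_cases ht : (i, true) ∈ X
    · rw [if_pos ht, ch_erase_split X i true ht hi, Fs_erase_split X i true ht hi,
        Es_erase_split X i true ht hi]
      ring
    · have hf : (i, false) ∈ X := by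
        rw [pe_mem_Qs] at hi
        tauto
      rw [if_neg ht, ch_erase_split X i false hf hi, Fs_erase_split X i false hf hi,
        Es_erase_split X i false hf hi]
      ring
  rw [h1, add_zero, Finset.mul_sum]
  exact h2

end

end BG
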