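import Pool.Agent.Lib.MP_e26f2a_co.BG.Pair

/-!
# Sums over a set of a paired ground set, split into split / full / empty pairs
-/

set_option autoImplicit false

namespace BG

open Finset

section
variable {ι : Type} [DecidableEq ι] [Fintype ι]

/-- P1 -/
theorem sum_mem (X : Finset (ι × Bool)) (G : ι × Bool → ℝ) :
    ∑ x ∈ X, G x = (∑ i ∈ Qs X, if (i, true) ∈ X then G (i, true) else G (i, false))
      + ∑ i ∈ Fs X, (G (i, true) + G (i, false)) := by
  have h1 : ∑ x ∈ X, G x = ∑ i : ι, ((if (i, true) ∈ X then G (i, true) else 0)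
      + (if (i, false) ∈ X then G (i, false) else 0)) := by
    have : ∑ x ∈ X, G x = ∑ x : ι × Bool, if x ∈ X then G x else 0 := by
      rw [Finset.sum_ite_mem, Finset.univ_inter]
    rw [this, Fintype.sum_prod_type]
    apply Finset.sum_congr rfl
    intro i _
    rw [Fintype.sum_bool]
  rw [h1, Qs, Fs, Finset.sum_filter, Finset.sum_filter, ← Finset.sum_add_distrib]
  apply Finset.sum_congr rfl
  intro i _
  by_cases ht : (i, true) ∈ X <;> by_cases hf : (i, false) ∈ X <;> simp [ht, hf]

theorem sum_compl_mem (X : Finset (ι × Bool)) (G : ι × Bool → ℝ) :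
    ∑ x ∈ Xᶜ, G x = (∑ i ∈ Qs X, if (i, true) ∈ X then G (i, false) else G (i, true))
      + ∑ i ∈ Es X, (G (i, true) + G (i, false)) := by
  rw [sum_mem Xᶜ G]
  have hQ : Qs Xᶜ = Qs X := by
    ext i
    simp only [Qs, Finset.mem_filter, Finset.mem_univ, true_and, Finset.mem_compl, not_not]
    tauto
  have hF : Fs Xᶜ = Es X := by
    ext i
    simp only [Fs, Es, Finset.mem_filter, Finset.mem_univ, true_and, Finset.mem_compl]
  rw [hQ, hF]
  congr 1
  apply Finset.sum_congr rfl
  intro i _
  by_cases ht : (i, true) ∈ X <;> simp [ht]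

end

end BG
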