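import Pool.Agent.Lib.MP_e26f2a_co.BG.EvenDefs
import Pool.Agent.Lib.MP_e26f2a_co.BG.PairSum
import Pool.Agent.Lib.MP_e26f2a_co.BG.PairErase
import Pool.Agent.Lib.MP_e26f2a_co.BG.PairCard

/-!
# The correction near the modified transversals (MP_e26f2a_co, Biggs project, piece V6)
-/

set_option autoImplicit false

namespace BG

open Finset

section
variable {ι : Type} [DecidableEq ι] [Fintype ι]

private theorem k3_sum (X : Finset (ι × Bool)) (G : ι × Bool → ℝ) (H : ι → ℝ)
    (h1 : ∀ i ∈ Qs X, ∀ b, G (i, b) = H i) (h2 : ∀ i ∈ Es X, ∀ b, G (i, b) = 0) :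
    ∑ x ∈ Xᶜ, G x = ∑ i ∈ Qs X, H i := by
  rw [sum_compl_mem X G, Finset.sum_eq_zero (s := Es X)
    (fun i hi => by rw [h2 i hi, h2 i hi, add_zero]), add_zero]
  refine Finset.sum_congr rfl fun i hi => ?_
  split_ifs
  · exact h1 i hi _
  · exact h1 i hi _

private theorem k3_dn (f : Finset (ι × Bool) → ι × Bool → ℝ) (W : Finset (ι × Bool))
    (hf : ∀ X x, x.1 ∉ Qs X → f X x = 0) :
    dn f W = ∑ i ∈ Fs W, (f (W.erase (i, true)) (i, true) + f (W.erase (i, false)) (i, false)) := by
  unfold dn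
  rw [sum_mem W (fun x => f (W.erase x) x)]
  rw [Finset.sum_eq_zero (s := Qs W), zero_add]
  intro i hi
  have key : ∀ b, (i, b) ∈ W → f (W.erase (i, b)) (i, b) = 0 := by
    intro b hb
    apply hf
    rw [Qs_erase_split W i b hb hi]
    exact Finset.notMem_erase i _
  split_ifs with h
  · exact key true h
  · refine key false ?_
    rw [pe_mem_Qs] at hi
    tauto

private theorem k3_abs_sg (X : Finset (ι × Bool)) (j : ι) : |sg X j| ≤ 1 := by
  unfold sg
  split_ifs <;> norm_num

private theorem k3_abs_k1f (X : Finset (ι × Bool)) (x : ι × Bool) : |k1f X x| ≤ 1 := by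
  unfold k1f
  split_ifs with h
  · rw [abs_div, abs_mul, abs_ch, one_mul]
    have h1 : |∑ j ∈ (Qs X).erase x.1, sg X j| ≤ ((Qs X).card : ℝ) - 1 := by
      refine (Finset.abs_sum_le_sum_abs _ _).trans ?_
      refine (Finset.sum_le_sum fun j _ => k3_abs_sg X j).trans ?_
      rw [Finset.sum_const, Finset.card_erase_of_mem h, nsmul_eq_mul, mul_one,
        Nat.cast_sub (Finset.card_pos.2 ⟨_, h⟩)]
      simp
    have h2 : (0 : ℝ) ≤ ((Qs X).card : ℝ) - 1 := (abs_nonneg _).trans h1
    rw [abs_of_nonneg h2]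
    exact div_le_one_of_le₀ h1 h2
  · simp

/-- V6 -/
theorem sum_k3f (i0 : ι) (X : Finset (ι × Bool)) :
    ∑ x ∈ Xᶜ, k3f i0 X x = if cadj i0 X then - 2 * ch X else 0 := by
  by_cases hc : cadj i0 X
  · rw [if_pos hc, k3_sum X _ (fun i => if i = i0 then - 2 * ch X else 0)]
    · rw [Finset.sum_ite_eq', if_pos hc.2.2.1]
    · intro i _ b
      unfold k3f
      by_cases h : i = i0
      · rw [if_pos ⟨h, hc⟩, if_pos h]
      · rw [if_neg (fun hh => h hh.1), if_neg h]
    · intro i hi
      rw [hc.1] at hi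
      simp at hi
  · rw [if_neg hc]
    refine Finset.sum_eq_zero fun x _ => ?_
    unfold k3f
    rw [if_neg (fun hh => hc hh.2)]

theorem dn_k3f (i0 : ι) (X : Finset (ι × Bool)) : dn (k3f i0) X = 0 := by
  rw [k3_dn]
  · refine Finset.sum_eq_zero fun i hi => ?_
    have hc : ∀ b, i = i0 → (cadj i0 (X.erase (i, b)) ↔
        Es X = ∅ ∧ ((Fs X).erase i).card = 1 ∧ pos i0 X) := by
      intro b h
      unfold cadj
      rw [Es_erase_full X i b hi, Fs_erase_full X i b hi, Qs_erase_full X i b hi]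
      have hp : pos i0 (X.erase (i, b)) ↔ pos i0 X := by
        unfold pos
        refine forall_congr' fun j => ?_
        refine imp_congr_right fun hj => ?_
        rw [pe_mem_erase_ne X i j b true (fun hh => hj (hh.trans h))]
      rw [hp]
      have hm : i0 ∈ insert i (Qs X) := by rw [h]; exact Finset.mem_insert_self _ _
      tauto
    unfold k3f
    by_cases h : i = i0
    · by_cases hh : Es X = ∅ ∧ ((Fs X).erase i).card = 1 ∧ pos i0 X
      · rw [if_pos ⟨h, (hc true h).2 hh⟩, if_pos ⟨h, (hc false h).2 hh⟩,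
          ch_erase_full_true X i hi, ch_erase_full_false X i hi]
        ring
      · rw [if_neg (fun h3 => hh ((hc true h).1 h3.2)), if_neg (fun h3 => hh ((hc false h).1 h3.2)),
          add_zero]
    · rw [if_neg (fun hh => h hh.1), if_neg (fun hh => h hh.1), add_zero]
  · intro X x hx
    unfold k3f
    rw [if_neg]
    rintro ⟨h1, h2⟩
    exact hx (h1 ▸ h2.2.2.1)

theorem abs_k13 (i0 : ι) (X : Finset (ι × Bool)) (x : ι × Bool) (h : 3 ≤ Fintype.card ι) :
    |k1f X x + k3f i0 X x| ≤ 1 := by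
  by_cases hc : x.1 = i0 ∧ cadj i0 X
  · have h3 : k3f i0 X x = -2 * ch X := by
      unfold k3f
      rw [if_pos hc]
    obtain ⟨hx, hE, hF, hQ, hp⟩ := hc
    have hcard := card_univ_pairs X
    rw [hE, hF, Finset.card_empty] at hcard
    have h1 : k1f X x = ch X := by
      unfold k1f
      rw [hx, if_pos hQ]
      have hs : ∑ j ∈ (Qs X).erase i0, sg X j = ((Qs X).card : ℝ) - 1 := by
        have : ∀ j ∈ (Qs X).erase i0, sg X j = 1 := by
          intro j hj
          rw [Finset.mem_erase, pe_mem_Qs] at hj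
          have h4 := hp j hj.1
          have h5 : (j, false) ∉ X := by tauto
          unfold sg
          rw [if_pos h4, if_neg h5, sub_zero]
        rw [Finset.sum_congr rfl this, Finset.sum_const, Finset.card_erase_of_mem hQ, nsmul_eq_mul,
          mul_one, Nat.cast_sub (Finset.card_pos.2 ⟨_, hQ⟩)]
        simp
      rw [hs]
      have h6 : (2 : ℝ) ≤ ((Qs X).card : ℝ) := by
        have : 2 ≤ (Qs X).card := by omega
        exact_mod_cast this
      have h7 : ((Qs X).card : ℝ) - 1 ≠ 0 := by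
        intro h8
        linarith
      exact mul_div_cancel_right₀ _ h7
    rw [h1, h3, show ch X + -2 * ch X = - ch X by ring, abs_neg, abs_ch]
  · have h3 : k3f i0 X x = 0 := by
      unfold k3f
      rw [if_neg hc]
    rw [h3, add_zero]
    exact k3_abs_k1f X x

end

end BG
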