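import Pool.Agent.Lib.MP_e26f2a_co.BG.EvenDefs
import Pool.Agent.Lib.MP_e26f2a_co.BG.PairCard
import Pool.Agent.Lib.MP_e26f2a_co.BG.PairErase
import Pool.Agent.Lib.MP_e26f2a_co.BG.K3

/-!
# Bounds for the flow, `a = 2r`, `z ∉` (MP_e26f2a_co, Biggs project, piece V12)
-/

set_option autoImplicit false

namespace BG

open Finset

section
variable {ι : Type} [DecidableEq ι] [Fintype ι]

private theorem b0e_mem_insert_ne (X : Finset (ι × Bool)) (i j : ι) (b c : Bool) (h : j ≠ i) :
    (j, c) ∈ insert (i, b) X ↔ (j, c) ∈ X := by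
  rw [mem_insert]
  constructor
  · rintro (h' | h')
    · rw [Prod.mk.injEq] at h'
      exact absurd h'.1 h
    · exact h'
  · exact Or.inr

private theorem b0e_Qs_insert (X : Finset (ι × Bool)) (x : ι × Bool) (hx : x ∉ X)
    (hi : x.1 ∈ Qs X) : Qs (insert x X) = (Qs X).erase x.1 := by
  obtain ⟨i, b⟩ := x
  rw [pe_mem_Qs] at hi
  ext j
  rw [mem_erase, pe_mem_Qs, pe_mem_Qs]
  by_cases hj : j = i
  · subst hj
    cases b
    · have h1 : (j, true) ∈ insert (j, false) X := by
        rw [mem_insert]
        right
        tauto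
      have h2 : (j, false) ∈ insert (j, false) X := mem_insert_self _ _
      tauto
    · have h1 : (j, false) ∈ insert (j, true) X := by
        rw [mem_insert]
        right
        tauto
      have h2 : (j, true) ∈ insert (j, true) X := mem_insert_self _ _
      tauto
  · rw [b0e_mem_insert_ne X i j b _ hj, b0e_mem_insert_ne X i j b _ hj]
    tauto

private theorem b0e_sg_insert_ne (X : Finset (ι × Bool)) (x : ι × Bool) (j : ι) (h : j ≠ x.1) :
    sg (insert x X) j = sg X j := by
  obtain ⟨i, b⟩ := x
  unfold sg
  simp only [b0e_mem_insert_ne X i j b _ h]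

private theorem b0e_abs_cA (v : Finset ι → ℝ) (hv : ∀ F : Finset ι, v F = 1 ∨ v F = -1)
    (W : Finset (ι × Bool)) : |cA v W| ≤ 1 := by
  unfold cA
  split_ifs
  · rcases hv (Fs W) with h | h <;> rw [h] <;> norm_num
  · norm_num

private theorem b0e_abs_trf (v : Finset ι → ℝ) (hv : ∀ F : Finset ι, v F = 1 ∨ v F = -1)
    (jF iF : Finset ι → ι) (X : Finset (ι × Bool)) (x : ι × Bool) :
    |trf jF iF (cA v) 1 true X x| ≤ 1 := by
  unfold trf
  split_ifs
  · exact b0e_abs_cA v hv _
  · rw [abs_neg]
    exact b0e_abs_cA v hv _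
  · norm_num
  · norm_num

/-- V12 bounds, `a = 2r`, `z ∉` -/
theorem abs_b0e (r : ℕ) (hr : 2 ≤ r) (hι : Fintype.card ι = 2 * r) (i0 : ι)
    (v : Finset ι → ℝ) (jF iF : Finset ι → ι) (h : MData r v jF iF)
    (X : Finset (ι × Bool)) (x : ι × Bool) (hX : X.card = 2 * r + 1) (hx : x ∉ X) :
    |k1f X x + k3f i0 X x + k4f v jF iF X x| ≤ 1 := by
  have h13 := abs_k13 i0 X x (by rw [hι]; omega)
  have htr := b0e_abs_trf v h.v1 jF iF X x
  have c1 := card_pairs X
  have c2 := card_univ_pairs X
  rw [hι] at c2
  unfold k4f
  by_cases hA : x.1 ∈ Qs X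
  · have hW := b0e_Qs_insert X x hx hA
    by_cases n1 : (Qs X).card = 1
    · have he : (Qs X).erase x.1 = ∅ := by
        rw [← card_eq_zero, card_erase_of_mem hA]
        omega
      have hk1 : k1f X x = 0 := by
        unfold k1f
        rw [if_pos hA, he, sum_empty, mul_zero, zero_div]
      have hk3 : k3f i0 X x = 0 := by
        unfold k3f
        rw [if_neg]
        rintro ⟨-, h1, h2, -⟩
        rw [h1, card_empty] at c2
        omega
      have ht : trf jF iF (cA v) 1 true X x = 0 := by
        unfold trf
        rw [if_neg]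
        rw [hW, he]
        exact notMem_empty _
      rw [hk1, hk3, ht]
      unfold fil
      rw [if_pos ⟨hA, n1⟩]
      unfold h4
      split_ifs
      · rcases h.v1 (Fs X) with h' | h' <;> rw [h'] <;> norm_num
      · norm_num
    · have hf : fil (h4 v jF) X x = 0 := by
        unfold fil
        rw [if_neg]
        exact fun hh => n1 hh.2
      by_cases hc : (Qs (insert x X)).card = 2 ∧ Ssum (insert x X) = 0
      · have hs : ∑ j ∈ (Qs X).erase x.1, sg X j = 0 := by
          rw [← hc.2]
          unfold Ssum
          rw [hW]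
          apply sum_congr rfl
          intro j hj
          rw [b0e_sg_insert_ne X x j (mem_erase.1 hj).1]
        have hk1 : k1f X x = 0 := by
          unfold k1f
          rw [if_pos hA, hs, mul_zero, zero_div]
        have hk3 : k3f i0 X x = 0 := by
          unfold k3f
          rw [if_neg]
          rintro ⟨h1, -, -, -, h2⟩
          have h3 : ∑ j ∈ (Qs X).erase x.1, sg X j = ∑ j ∈ (Qs X).erase x.1, (1 : ℝ) := by
            apply sum_congr rfl
            intro j hj
            rw [mem_erase, h1, pe_mem_Qs] at hj
            have h4 := h2 j hj.1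
            have h5 : (j, false) ∉ X := by tauto
            unfold sg
            rw [if_pos h4, if_neg h5, sub_zero]
          rw [hs, sum_const, ← hW, hc.1] at h3
          norm_num at h3
        rw [hk1, hk3, hf, zero_add, zero_add, zero_add]
        exact htr
      · have ht : trf jF iF (cA v) 1 true X x = 0 := by
          have hc0 : cA v (insert x X) = 0 := by
            unfold cA
            rw [if_neg hc]
          unfold trf
          rw [hc0, neg_zero]
          split_ifs <;> rfl
        rw [hf, ht, add_zero, add_zero]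
        exact h13
  · have hk1 : k1f X x = 0 := by
      unfold k1f
      rw [if_neg hA]
    have hk3 : k3f i0 X x = 0 := by
      unfold k3f
      rw [if_neg]
      rintro ⟨h1, -, -, h2, -⟩
      rw [← h1] at h2
      exact hA h2
    have hf : fil (h4 v jF) X x = 0 := by
      unfold fil
      rw [if_neg]
      exact fun hh => hA hh.1
    rw [hk1, hk3, hf, zero_add, zero_add, zero_add]
    exact htr

end

end BG
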