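import Pool.Agent.Lib.MP_e26f2a_co.BG.EvenDefs
import Pool.Agent.Lib.MP_e26f2a_co.BG.PairSum
import Pool.Agent.Lib.MP_e26f2a_co.BG.PairErase
import Pool.Agent.Lib.MP_e26f2a_co.BG.PairCard

/-!
# The flow into the empty pairs (MP_e26f2a_co, Biggs project, piece V4)
-/

set_option autoImplicit false

namespace BG

open Finset

section
variable {ι : Type} [DecidableEq ι] [Fintype ι]

private theorem v4_notEs_of_Qs {X : Finset (ι × Bool)} {i : ι} (h : i ∈ Qs X) : i ∉ Es X := by
  rw [pe_mem_Qs] at h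
  rw [pe_mem_Es]
  tauto

private theorem v4_notEs_of_Fs {X : Finset (ι × Bool)} {i : ι} (h : i ∈ Fs X) : i ∉ Es X := by
  rw [pe_mem_Fs] at h
  rw [pe_mem_Es]
  tauto

private theorem v4_sg_sq {X : Finset (ι × Bool)} {i : ι} (h : i ∈ Qs X) :
    sg X i * sg X i = 1 := by
  rw [pe_mem_Qs] at h
  unfold sg
  rcases h with h | h <;> simp [h.1, h.2]

private theorem v4_abs_sg (X : Finset (ι × Bool)) (i : ι) : |sg X i| ≤ 1 := by
  unfold sg
  split_ifs <;> norm_num

private theorem v4_abs_Ssum (X : Finset (ι × Bool)) : |Ssum X| ≤ (Qs X).card := by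
  unfold Ssum
  refine (Finset.abs_sum_le_sum_abs _ _).trans ?_
  refine (Finset.sum_le_sum fun i _ => v4_abs_sg X i).trans ?_
  rw [Finset.sum_const, nsmul_eq_mul, mul_one]

/-- V4 -/
theorem sum_k2f (X : Finset (ι × Bool)) :
    ∑ x ∈ Xᶜ, k2f X x = if 2 ≤ (Qs X).card ∧ (Es X).Nonempty then ch X else 0 := by
  rw [sum_compl_mem X (k2f X)]
  have h1 : (∑ i ∈ Qs X, if (i, true) ∈ X then k2f X (i, false) else k2f X (i, true)) = 0 := by
    refine Finset.sum_eq_zero fun i hi => ?_
    have h2 : ∀ b, k2f X (i, b) = 0 := fun b =>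
      if_neg fun h => v4_notEs_of_Qs hi h.1
    rw [h2, h2, ite_self]
  rw [h1, zero_add]
  by_cases hq : 2 ≤ (Qs X).card
  · have h3 : ∀ i ∈ Es X, k2f X (i, true) + k2f X (i, false) = ch X / ((Es X).card : ℝ) := by
      intro i hi
      have hE : (0 : ℝ) < (Es X).card := by
        exact_mod_cast Finset.card_pos.2 ⟨i, hi⟩
      unfold k2f
      rw [if_pos ⟨hi, hq⟩, if_pos ⟨hi, hq⟩]
      unfold sb
      simp only [if_true, Bool.false_eq_true, if_false]
      field_simp
      ring
    rw [Finset.sum_congr rfl h3, Finset.sum_const, nsmul_eq_mul]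
    by_cases hE : (Es X).Nonempty
    · rw [if_pos ⟨hq, hE⟩]
      have hE' : ((Es X).card : ℝ) ≠ 0 := by
        exact_mod_cast (Finset.card_pos.2 hE).ne'
      rw [mul_div_cancel₀ _ hE']
    · rw [if_neg fun h => hE h.2, Finset.not_nonempty_iff_eq_empty.1 hE]
      simp
  · rw [if_neg fun h => hq h.1]
    refine Finset.sum_eq_zero fun i _ => ?_
    have h2 : ∀ b, k2f X (i, b) = 0 := fun b => if_neg fun h => hq h.2
    rw [h2, h2, add_zero]

theorem dn_k2f (X : Finset (ι × Bool)) : dn k2f X = 0 := by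
  unfold dn
  rw [sum_mem X (fun x => k2f (X.erase x) x)]
  have h1 : ∑ i ∈ Fs X, (k2f (X.erase (i, true)) (i, true) +
      k2f (X.erase (i, false)) (i, false)) = 0 := by
    refine Finset.sum_eq_zero fun i hi => ?_
    have h2 : ∀ b, k2f (X.erase (i, b)) (i, b) = 0 := fun b => if_neg fun h => by
      have h3 : i ∈ Es (X.erase (i, b)) := h.1
      rw [Es_erase_full X i b hi] at h3
      exact v4_notEs_of_Fs hi h3
    rw [h2, h2, add_zero]
  rw [h1, add_zero]
  have key : ∀ i ∈ Qs X, ∀ b, (i, b) ∈ X → k2f (X.erase (i, b)) (i, b) =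
      if 3 ≤ (Qs X).card then ch X / (2 * (((Es X).card : ℝ) + 1)) *
        (sg X i - (Ssum X - sg X i) / (((Qs X).card : ℝ) - 1)) else 0 := by
    intro i hi b hb
    have hE : Es (X.erase (i, b)) = insert i (Es X) := Es_erase_split X i b hb hi
    have hQ : Qs (X.erase (i, b)) = (Qs X).erase i := Qs_erase_split X i b hb hi
    have hEc : (Es (X.erase (i, b))).card = (Es X).card + 1 := by
      rw [hE, Finset.card_insert_of_notMem (v4_notEs_of_Qs hi)]
    have hQc : (Qs (X.erase (i, b))).card + 1 = (Qs X).card := by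
      rw [hQ, Finset.card_erase_add_one hi]
    have hS : Ssum (X.erase (i, b)) = Ssum X - sg X i := by
      unfold Ssum
      rw [hQ, ← Finset.add_sum_erase (Qs X) _ hi, add_sub_cancel_left]
      refine Finset.sum_congr rfl fun j hj => ?_
      exact sg_erase_ne X i j b (Finset.ne_of_mem_erase hj)
    have hsb : sb b = sg X i := by
      rw [pe_mem_Qs] at hi
      cases b
      · have h2 : (i, true) ∉ X := by tauto
        unfold sb sg
        simp [h2, hb]
      · have h2 : (i, false) ∉ X := by tauto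
        unfold sb sg
        simp [h2, hb]
    have hmem : i ∈ Es (X.erase (i, b)) := by
      rw [hE]
      exact Finset.mem_insert_self _ _
    have hQr : ((Qs (X.erase (i, b))).card : ℝ) = ((Qs X).card : ℝ) - 1 := by
      rw [← hQc]
      push_cast
      ring
    unfold k2f
    by_cases h3 : 3 ≤ (Qs X).card
    · rw [if_pos ⟨hmem, by omega⟩, if_pos h3, hQr, hS, hEc, ch_erase_split X i b hb hi]
      change ch X * sg X i / (2 * (((Es X).card + 1 : ℕ) : ℝ)) *
        (1 - sb b * (Ssum X - sg X i) / (((Qs X).card : ℝ) - 1)) = _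
      rw [hsb]
      push_cast
      have h4 := v4_sg_sq hi
      linear_combination (- ch X / (2 * (((Es X).card : ℝ) + 1)) *
        ((Ssum X - sg X i) / (((Qs X).card : ℝ) - 1))) * h4
    · rw [if_neg (fun h => h3 (by have := h.2; omega)), if_neg h3]
  have h2 : (∑ i ∈ Qs X, if (i, true) ∈ X then k2f (X.erase (i, true)) (i, true)
      else k2f (X.erase (i, false)) (i, false)) =
      ∑ i ∈ Qs X, if 3 ≤ (Qs X).card then ch X / (2 * (((Es X).card : ℝ) + 1)) *
        (sg X i - (Ssum X - sg X i) / (((Qs X).card : ℝ) - 1)) else 0 := by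
    refine Finset.sum_congr rfl fun i hi => ?_
    by_cases ht : (i, true) ∈ X
    · rw [if_pos ht, key i hi true ht]
    · have hf : (i, false) ∈ X := by
        rw [pe_mem_Qs] at hi
        tauto
      rw [if_neg ht, key i hi false hf]
  rw [h2]
  by_cases h3 : 3 ≤ (Qs X).card
  · simp only [if_pos h3]
    rw [← Finset.mul_sum, Finset.sum_sub_distrib, ← Finset.sum_div, Finset.sum_sub_distrib,
      Finset.sum_const, nsmul_eq_mul]
    have hS : ∑ i ∈ Qs X, sg X i = Ssum X := rfl
    rw [hS]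
    have h4 : ((Qs X).card : ℝ) - 1 ≠ 0 := by
      have : (3 : ℝ) ≤ (Qs X).card := by exact_mod_cast h3
      intro h
      linarith
    have h5 : ((Qs X).card : ℝ) * Ssum X - Ssum X = Ssum X * (((Qs X).card : ℝ) - 1) := by ring
    rw [h5, mul_div_cancel_right₀ _ h4, sub_self, mul_zero]
  · simp only [if_neg h3]
    exact Finset.sum_const_zero

theorem abs_k2f (X : Finset (ι × Bool)) (x : ι × Bool) : |k2f X x| ≤ 1 := by
  unfold k2f
  split_ifs with h
  · obtain ⟨h1, h2⟩ := h
    have hE : (1 : ℝ) ≤ (Es X).card := by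
      exact_mod_cast Finset.card_pos.2 ⟨x.1, h1⟩
    have hQ : (0 : ℝ) < (Qs X).card := by
      exact_mod_cast (by omega : 0 < (Qs X).card)
    have hsb : |sb x.2| = 1 := by
      unfold sb
      split_ifs <;> norm_num
    have h3 : |sb x.2 * Ssum X / ((Qs X).card : ℝ)| ≤ 1 := by
      rw [abs_div, abs_mul, hsb, one_mul, abs_of_pos hQ, div_le_one hQ]
      exact v4_abs_Ssum X
    have h4 : |1 - sb x.2 * Ssum X / ((Qs X).card : ℝ)| ≤ 2 := by
      rw [abs_le] at h3 ⊢
      constructor <;> linarith [h3.1, h3.2]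
    have h5 : |ch X / (2 * ((Es X).card : ℝ))| ≤ 1 / 2 := by
      rw [abs_div, abs_ch, abs_of_pos (by linarith)]
      exact one_div_le_one_div_of_le (by norm_num) (by linarith)
    rw [abs_mul]
    calc |ch X / (2 * ((Es X).card : ℝ))| * |1 - sb x.2 * Ssum X / ((Qs X).card : ℝ)|
        ≤ 1 / 2 * 2 := mul_le_mul h5 h4 (abs_nonneg _) (by norm_num)
      _ = 1 := by norm_num
  · rw [abs_zero]
    norm_num

end

end BG
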