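import Pool.Agent.Lib.MP_e26f2a_co.BG.EvenDefs
import Pool.Agent.Lib.MP_e26f2a_co.BG.PairSum
import Pool.Agent.Lib.MP_e26f2a_co.BG.PairErase
import Pool.Agent.Lib.MP_e26f2a_co.BG.PairCard

/-!
# The flow on the cube (MP_e26f2a_co, Biggs project, piece V5)
-/

set_option autoImplicit false

namespace BG

open Finset

section
variable {ι : Type} [DecidableEq ι] [Fintype ι]

private theorem kc_sum (X : Finset (ι × Bool)) (G : ι × Bool → ℝ) (H : ι → ℝ)
    (h1 : ∀ i ∈ Qs X, ∀ b, G (i, b) = H i) (h2 : ∀ i ∈ Es X, ∀ b, G (i, b) = 0) :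
    ∑ x ∈ Xᶜ, G x = ∑ i ∈ Qs X, H i := by
  rw [sum_compl_mem X G, Finset.sum_eq_zero (s := Es X)
    (fun i hi => by rw [h2 i hi, h2 i hi, add_zero]), add_zero]
  refine Finset.sum_congr rfl fun i hi => ?_
  split_ifs
  · exact h1 i hi _
  · exact h1 i hi _

private theorem kc_dn (f : Finset (ι × Bool) → ι × Bool → ℝ) (W : Finset (ι × Bool))
    (hf : ∀ X x, x.1 ∉ Qs X → f X x = 0) :
    dn f W = ∑ i ∈ Fs W, (f (W.erase (i, true)) (i, true) + f (W.erase (i, false)) (i, false)) := by
  unfold dn
  rw [sum_mem W (fun x => f (W.erase x) x)]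
  rw [Finset.sum_eq_zero (s := Qs W), zero_add]
  intro i hi
  have key : ∀ b, (i, b) ∈ W → f (W.erase (i, b)) (i, b) = 0 := by
    intro b hb
    apply hf
    rw [Qs_erase_split W i b hb hi]
    exact Finset.notMem_erase i _
  split_ifs with h
  · exact key true h
  · refine key false ?_
    rw [pe_mem_Qs] at hi
    tauto

private theorem kc_abs_sg (X : Finset (ι × Bool)) (j : ι) : |sg X j| ≤ 1 := by
  unfold sg
  split_ifs <;> norm_num

private theorem kc_abs_sum (X : Finset (ι × Bool)) (l : ι) (h : l ∈ Qs X) :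
    |∑ j ∈ (Qs X).erase l, sg X j| ≤ ((Qs X).card : ℝ) - 1 := by
  refine (Finset.abs_sum_le_sum_abs _ _).trans ?_
  refine (Finset.sum_le_sum fun j _ => kc_abs_sg X j).trans ?_
  rw [Finset.sum_const, Finset.card_erase_of_mem h, nsmul_eq_mul, mul_one,
    Nat.cast_sub (Finset.card_pos.2 ⟨_, h⟩)]
  simp

private theorem kc_abs_k1f (X : Finset (ι × Bool)) (x : ι × Bool) : |k1f X x| ≤ 1 := by
  unfold k1f
  split_ifs with h
  · rw [abs_div, abs_mul, abs_ch, one_mul]
    have h1 := kc_abs_sum X x.1 h
    have h2 : (0 : ℝ) ≤ ((Qs X).card : ℝ) - 1 := (abs_nonneg _).trans h1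
    rw [abs_of_nonneg h2]
    exact div_le_one_of_le₀ h1 h2
  · simp

/-- the negative pairs other than `i0` -/
private def kcN (i0 : ι) (X : Finset (ι × Bool)) : Finset ι :=
  univ.filter fun j : ι => j ≠ i0 ∧ (j, true) ∉ X

private theorem nneg_eq (i0 l : ι) (X : Finset (ι × Bool)) :
    nneg i0 l X = ((kcN i0 X).erase l).card := by
  unfold nneg kcN
  congr 1
  ext j
  simp only [mem_filter, mem_univ, true_and, mem_erase]
  tauto

private theorem nneg_self (i0 : ι) (X : Finset (ι × Bool)) : nneg i0 i0 X = (kcN i0 X).card := by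
  rw [nneg_eq, Finset.erase_eq_of_notMem]
  unfold kcN
  simp

private theorem pos_iff (i0 : ι) (X : Finset (ι × Bool)) : pos i0 X ↔ (kcN i0 X).card = 0 := by
  rw [Finset.card_eq_zero]
  unfold pos kcN
  rw [Finset.filter_eq_empty_iff]
  simp only [mem_univ, true_implies, not_and, not_not]

private theorem sum_cw (i0 : ι) (X : Finset (ι × Bool)) :
    ∑ l, cw i0 X l = if pos i0 X then -1 else 1 := by
  have ha : (Fintype.card ι : ℝ) ≠ 0 := by
    have : 0 < Fintype.card ι := Fintype.card_pos_iff.2 ⟨i0⟩
    exact_mod_cast this.ne'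
  have hs : ∑ l, cw i0 X l = cw i0 X i0 + ∑ l ∈ univ.erase i0, cw i0 X l :=
    (Finset.add_sum_erase univ _ (mem_univ i0)).symm
  have h2 : ∑ l ∈ univ.erase i0, cw i0 X l =
      (((univ.erase i0).filter fun l => ((kcN i0 X).erase l).card ≠ 0).card : ℝ) *
        (1 / (Fintype.card ι : ℝ)) := by
    rw [← nsmul_eq_mul, ← Finset.sum_const, Finset.sum_filter]
    refine Finset.sum_congr rfl fun l hl => ?_
    unfold cw
    rw [if_neg (Finset.ne_of_mem_erase hl), nneg_eq]
    by_cases h : ((kcN i0 X).erase l).card = 0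
    · rw [if_pos h, if_neg (by simpa using h)]
    · rw [if_neg h, if_pos h]
  have hi0 : i0 ∉ kcN i0 X := by unfold kcN; simp
  rw [hs, h2]
  unfold cw
  rw [if_pos rfl, nneg_self]
  by_cases h0 : (kcN i0 X).card = 0
  · rw [if_pos h0, if_pos ((pos_iff i0 X).2 h0)]
    have : (univ.erase i0).filter (fun l => ((kcN i0 X).erase l).card ≠ 0) = ∅ := by
      rw [Finset.filter_eq_empty_iff]
      intro l _
      rw [Finset.card_eq_zero.1 h0]
      simp
    rw [this]
    simp
  · rw [if_neg h0, if_neg (fun hh => h0 ((pos_iff i0 X).1 hh))]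
    by_cases h1 : (kcN i0 X).card = 1
    · rw [if_pos h1]
      obtain ⟨j, hj⟩ := Finset.card_eq_one.1 h1
      have hji : j ≠ i0 := by
        intro h
        apply hi0
        rw [hj, h]
        exact Finset.mem_singleton_self _
      have : (univ.erase i0).filter (fun l => ((kcN i0 X).erase l).card ≠ 0) =
          (univ.erase i0).erase j := by
        ext l
        rw [hj]
        simp only [mem_filter, mem_erase, mem_univ, and_true]
        by_cases hl : l = j
        · subst hl
          simp
        · rw [Finset.erase_eq_of_notMem (by rw [Finset.mem_singleton]; exact hl)]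
          simp [hl]
      rw [this, Finset.card_erase_of_mem (by simp [hji]), Finset.card_erase_of_mem (mem_univ _),
        Finset.card_univ]
      have h3 : 2 ≤ Fintype.card ι := by
        have : ({i0, j} : Finset ι).card ≤ Fintype.card ι := Finset.card_le_univ _
        rwa [Finset.card_pair hji.symm] at this
      rw [Nat.sub_sub, Nat.cast_sub h3]
      field_simp
      push_cast
      ring
    · rw [if_neg h1]
      have : (univ.erase i0).filter (fun l => ((kcN i0 X).erase l).card ≠ 0) = univ.erase i0 := by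
        rw [Finset.filter_eq_self]
        intro l _
        have := Finset.pred_card_le_card_erase (s := kcN i0 X) (a := l)
        omega
      rw [this, Finset.card_erase_of_mem (mem_univ _), Finset.card_univ, Nat.cast_sub
        (Fintype.card_pos_iff.2 ⟨i0⟩)]
      field_simp
      push_cast
      ring

/-- V5 -/
theorem sum_kcf (i0 : ι) (X : Finset (ι × Bool)) :
    ∑ x ∈ Xᶜ, kcf i0 X x = if Qs X = univ then (if pos i0 X then - ch X else ch X) else 0 := by
  by_cases hQ : Qs X = univ
  · rw [if_pos hQ, kc_sum X _ (fun i => ch X * cw i0 X i)]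
    · rw [← Finset.mul_sum, hQ, sum_cw]
      split_ifs <;> ring
    · intro i _ b
      unfold kcf
      rw [if_pos hQ]
    · intro i hi
      have h1 : i ∈ Qs X := by rw [hQ]; exact mem_univ _
      rw [pe_mem_Es] at hi
      rw [pe_mem_Qs] at h1
      tauto
  · rw [if_neg hQ]
    refine Finset.sum_eq_zero fun x _ => ?_
    unfold kcf
    rw [if_neg hQ]

theorem dn_kcf (i0 : ι) (X : Finset (ι × Bool)) : dn (kcf i0) X = 0 := by
  rw [kc_dn]
  · refine Finset.sum_eq_zero fun i hi => ?_
    have hn : ∀ b, nneg i0 i (X.erase (i, b)) = nneg i0 i X := by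
      intro b
      unfold nneg
      congr 1
      refine Finset.filter_congr fun j _ => ?_
      refine and_congr_right fun _ => ?_
      refine and_congr_right fun hj => ?_
      rw [pe_mem_erase_ne X i j b true hj]
    have hc : ∀ b, cw i0 (X.erase (i, b)) i = cw i0 X i := by
      intro b
      unfold cw
      rw [hn b]
    unfold kcf
    rw [Qs_erase_full X i true hi, Qs_erase_full X i false hi]
    by_cases h : insert i (Qs X) = univ
    · rw [if_pos h, if_pos h, ch_erase_full_true X i hi, ch_erase_full_false X i hi]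
      change -ch X * cw i0 (X.erase (i, true)) i + ch X * cw i0 (X.erase (i, false)) i = 0
      rw [hc, hc]
      ring
    · rw [if_neg h, if_neg h, add_zero]
  · intro X x hx
    unfold kcf
    rw [if_neg]
    intro h
    apply hx
    rw [h]
    exact mem_univ _

theorem abs_k1c (i0 : ι) (X : Finset (ι × Bool)) (x : ι × Bool) (h : 2 ≤ Fintype.card ι) :
    |k1f X x + kcf i0 X x| ≤ 1 := by
  by_cases hQ : Qs X = univ
  · have hxQ : x.1 ∈ Qs X := by rw [hQ]; exact mem_univ _
    have hT := kc_abs_sum X x.1 hxQ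
    have hk : k1f X x + kcf i0 X x =
        ch X * ((∑ j ∈ (Qs X).erase x.1, sg X j) / (((Qs X).card : ℝ) - 1) + cw i0 X x.1) := by
      unfold k1f kcf
      rw [if_pos hxQ, if_pos hQ]
      ring
    rw [hk, abs_mul, abs_ch, one_mul]
    have hcard : (Qs X).card = Fintype.card ι := by rw [hQ, Finset.card_univ]
    rw [hcard] at hT ⊢
    obtain ⟨a, ha⟩ : ∃ a : ℝ, a = (Fintype.card ι : ℝ) := ⟨_, rfl⟩
    have ha2 : (2 : ℝ) ≤ a := by rw [ha]; exact_mod_cast h
    -- the sum in terms of the number of negative pairs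
    have hle : ∑ j ∈ (Qs X).erase x.1, sg X j ≤ (a - 1) - 2 * (nneg i0 x.1 X : ℝ) := by
      have h1 : ∀ j ∈ (Qs X).erase x.1,
          sg X j ≤ 1 - 2 * (if (j ≠ i0 ∧ (j, true) ∉ X) then (1 : ℝ) else 0) := by
        intro j hj
        split_ifs with h2
        · unfold sg
          rw [if_neg h2.2]
          have : (j, false) ∈ X := by
            have := Finset.mem_of_mem_erase hj
            rw [pe_mem_Qs] at this
            tauto
          rw [if_pos this]
          norm_num
        · have := (abs_le.1 (kc_abs_sg X j)).2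
          linarith
      refine (Finset.sum_le_sum h1).trans ?_
      rw [Finset.sum_sub_distrib, ← Finset.mul_sum, Finset.sum_const, Finset.card_erase_of_mem hxQ,
        hcard, nsmul_eq_mul, mul_one, Nat.cast_sub (by omega), ← ha, Finset.sum_boole, nneg]
      have h3 : ((Qs X).erase x.1).filter (fun j => j ≠ i0 ∧ (j, true) ∉ X) =
          univ.filter (fun j : ι => j ≠ i0 ∧ j ≠ x.1 ∧ (j, true) ∉ X) := by
        rw [hQ]
        ext j
        simp only [mem_filter, mem_erase, mem_univ, and_true, true_and]
        tauto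
      rw [h3]
      simp
    rw [← ha] at hT ⊢
    have ha1 : (0 : ℝ) < a - 1 := by linarith
    have ha0 : (0 : ℝ) < a := by linarith
    obtain ⟨T, hTd⟩ : ∃ T : ℝ, T = ∑ j ∈ (Qs X).erase x.1, sg X j := ⟨_, rfl⟩
    rw [← hTd] at hT hle ⊢
    obtain ⟨hT1, hT2⟩ := abs_le.1 hT
    have hlow : -1 ≤ T / (a - 1) := by
      rw [le_div_iff₀ ha1]
      linarith
    have hup : T / (a - 1) ≤ 1 := by
      rw [div_le_iff₀ ha1]
      linarith
    -- if there is at least one negative pair
    have hone : ∀ n : ℕ, nneg i0 x.1 X = n → 1 ≤ n → ∀ w : ℝ, 0 ≤ w → w ≤ 2 / a →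
        |T / (a - 1) + w| ≤ 1 := by
      intro n hn hn1 w hw0 hw
      rw [hn] at hle
      have hn1' : (1 : ℝ) ≤ n := by exact_mod_cast hn1
      have hT3 : T ≤ a - 3 := by linarith
      have h4 : T / (a - 1) ≤ 1 - 2 / (a - 1) := by
        rw [div_le_iff₀ ha1, sub_mul, div_mul_cancel₀ _ ha1.ne']
        linarith
      have h5 : 2 / a ≤ 2 / (a - 1) := div_le_div_of_nonneg_left (by norm_num) ha1 (by linarith)
      rw [abs_le]
      constructor
      · linarith
      · linarith
    have hw1 : (1 : ℝ) / a ≤ 2 / a := div_le_div_of_nonneg_right (by norm_num) ha0.le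
    have hw0 : (0 : ℝ) ≤ 1 / a := by positivity
    have hw2 : (0 : ℝ) ≤ 2 / a := by positivity
    unfold cw
    rw [← ha]
    split_ifs with c1 c2 c3 c4
    · -- all positive
      have : T = a - 1 := by
        rw [hTd]
        have h6 : ∀ j ∈ (Qs X).erase x.1, sg X j = 1 := by
          intro j hj
          have hj1 := Finset.ne_of_mem_erase hj
          have hj2 := Finset.mem_of_mem_erase hj
          have h7 : (j, true) ∈ X := by
            by_contra hcon
            unfold nneg at c2
            rw [Finset.card_eq_zero, Finset.filter_eq_empty_iff] at c2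
            exact c2 (mem_univ j) ⟨by rw [← c1]; exact hj1, hj1, hcon⟩
          rw [pe_mem_Qs] at hj2
          have h8 : (j, false) ∉ X := by tauto
          unfold sg
          rw [if_pos h7, if_neg h8, sub_zero]
        rw [Finset.sum_congr rfl h6, Finset.sum_const, Finset.card_erase_of_mem hxQ, hcard,
          nsmul_eq_mul, mul_one, Nat.cast_sub (by omega), ← ha]
        simp
      rw [this, div_self ha1.ne']
      norm_num
    · exact hone _ rfl (by omega) _ hw2 le_rfl
    · exact hone _ rfl (by omega) _ hw0 hw1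
    · rw [add_zero]
      exact abs_le.2 ⟨hlow, hup⟩
    · exact hone _ rfl (by omega) _ hw0 hw1
  · have h3 : kcf i0 X x = 0 := by
      unfold kcf
      rw [if_neg hQ]
    rw [h3, add_zero]
    exact kc_abs_k1f X x

end

end BG
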