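import Pool.Agent.Lib.MP_e26f2a_co.BG.BdAux
import Pool.Agent.Lib.MP_e26f2a_co.BG.K2
import Pool.Agent.Lib.MP_e26f2a_co.BG.KC

/-!
# Bounds, `a = 2r`, `z ∈` (MP_e26f2a_co, Biggs project, piece V13)
-/

set_option autoImplicit false

namespace BG

open Finset

section
variable {ι : Type} [DecidableEq ι] [Fintype ι]

/-- V13, with the bounds of the components as hypotheses -/
theorem abs_b1e_aux (r : ℕ) (hr : 2 ≤ r) (hι : Fintype.card ι = 2 * r) (i0 : ι)
    (v : Finset ι → ℝ) (jF iF : Finset ι → ι) (h : MData r v jF iF)
    (X : Finset (ι × Bool)) (x : ι × Bool) (hX : X.card = 2 * r) (hx : x ∉ X)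
    (H2 : |k2f X x| ≤ 1) (H1c : |k1f X x + kcf i0 X x| ≤ 1) :
    |k1f X x + k2f X x + kcf i0 X x + k5f v jF iF X x| ≤ 1 := by
  obtain ⟨i, b⟩ := x
  have c1 := card_pairs X
  have c2 := card_univ_pairs X
  rcases bd_cases X i b hx with hi | hi
  · -- split pair
    rw [bd_k2f_Q X i b hi, add_zero]
    have hQ := bd_Qs_insQ X i b hi hx
    have hc : (Qs (insert (i, b) X)).card + 1 = (Qs X).card := by
      rw [hQ]; exact card_erase_add_one hi
    by_cases hq : (Qs X).card = 2
    · have hne : Qs X ≠ univ := by
        intro hh
        have := congrArg Finset.card hh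
        rw [Finset.card_univ, hι] at this
        omega
      rw [bd_kcf_0 i0 X _ hne, add_zero]
      obtain ⟨j, hj⟩ : ∃ j, (Qs X).erase i = {j} := by
        apply card_eq_one.mp
        rw [card_erase_of_mem hi, hq]
      have hjQ : j ∈ Qs X := by
        have : j ∈ (Qs X).erase i := by rw [hj]; exact mem_singleton_self _
        exact mem_of_mem_erase this
      have hij : j ≠ i := by
        have : j ∈ (Qs X).erase i := by rw [hj]; exact mem_singleton_self _
        exact ne_of_mem_erase this
      have hch : ch X = sg X i * sg X j := by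
        rw [bd_ch_prod, ← mul_prod_erase _ _ hi, hj, prod_singleton]
      have hk : k1f X (i, b) = sg X i := by
        unfold k1f
        rw [if_pos hi, hj, sum_singleton, hq, hch]
        rcases bd_sg_cases X j hjQ with h1 | h1 <;> rw [h1] <;> norm_num
      rw [hk]
      unfold k5f trf
      rw [hQ, hj]
      have hs := bd_sb_Q X i b hi hx
      have hsgj := bd_sg_ne X i j b hij
      split_ifs with h1 h2 h3
      · exfalso
        rw [mem_singleton] at h1
        rcases h2 with ⟨-, h2⟩ | ⟨h2, -⟩
        · rw [h1] at h2
          exact hij h2.symm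
        · exact absurd h2 (by simp)
      · rw [mem_singleton] at h1
        rw [h1, hsgj] at h3
        have h4 := h3.2
        simp only at h4
        rw [hs, neg_neg] at h4
        unfold c5
        split_ifs with h5
        · have h6 := h5.2
          unfold Ssum at h6
          rw [hQ, hj, sum_singleton, hsgj] at h6
          have h7 : sg X i = v (Fs (insert (i, b) X)) := by
            rw [h4, h6]; ring
          rw [← h7, add_neg_cancel, abs_zero]
          exact zero_le_one
        · rw [neg_zero, add_zero]
          rcases bd_sg_cases X i hi with h1 | h1 <;> rw [h1] <;> norm_num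
      · rw [add_zero]
        rcases bd_sg_cases X i hi with h1 | h1 <;> rw [h1] <;> norm_num
      · rw [add_zero]
        rcases bd_sg_cases X i hi with h1 | h1 <;> rw [h1] <;> norm_num
    · have h0 : k5f v jF iF X (i, b) = 0 := by
        unfold k5f
        apply bd_trf_0
        unfold c5
        rw [if_neg]
        rintro ⟨h1, -⟩
        omega
      rw [h0, add_zero]
      exact H1c
  · -- empty pair
    rw [bd_k1f_E X i b hi, bd_kcf_0 i0 X _ (bd_ne_univ X i hi), zero_add, add_zero]
    have hQ := bd_Qs_insE X i b hi
    have hc : (Qs (insert (i, b) X)).card = (Qs X).card + 1 := by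
      rw [hQ]; exact card_insert_of_notMem (bd_not_Q_E X i hi)
    by_cases hq : (Qs X).card = 0
    · have h0 : k2f X (i, b) = 0 := by
        unfold k2f
        rw [if_neg]
        rintro ⟨-, h1⟩
        omega
      rw [h0, zero_add]
      unfold k5f
      refine (bd_trf_abs _ _ _ _ _ _ _).trans ?_
      unfold c5
      split_ifs
      · rw [bd_abs_v v h.v1]
      · rw [abs_zero]; exact zero_le_one
    · have h0 : k5f v jF iF X (i, b) = 0 := by
        unfold k5f
        apply bd_trf_0
        unfold c5
        rw [if_neg]
        rintro ⟨h1, -⟩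
        omega
      rw [h0, add_zero]
      exact H2

/-- V13 -/
theorem abs_b1e (r : ℕ) (hr : 2 ≤ r) (hι : Fintype.card ι = 2 * r) (i0 : ι)
    (v : Finset ι → ℝ) (jF iF : Finset ι → ι) (h : MData r v jF iF)
    (X : Finset (ι × Bool)) (x : ι × Bool) (hX : X.card = 2 * r) (hx : x ∉ X) :
    |k1f X x + k2f X x + kcf i0 X x + k5f v jF iF X x| ≤ 1 :=
  abs_b1e_aux r hr hι i0 v jF iF h X x hX hx (abs_k2f X x) (abs_k1c i0 X x (by omega))

end

end BG
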