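import Pool.Agent.Lib.MP_e26f2a_co.BG.EvenDefs
import Pool.Agent.Lib.MP_e26f2a_co.BG.PairSum

/-!
# The main flow of the even case (MP_e26f2a_co, Biggs project)
-/

set_option autoImplicit false

namespace BG

open Finset

section
variable {ι : Type} [DecidableEq ι] [Fintype ι]

private theorem k1_abs_ch (X : Finset (ι × Bool)) : |ch X| = 1 := by
  unfold ch
  rw [abs_pow, abs_neg, abs_one, one_pow]

omit [Fintype ι] in
private theorem k1_abs_sg (X : Finset (ι × Bool)) (i : ι) : |sg X i| ≤ 1 := by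
  unfold sg
  split_ifs <;> norm_num

private theorem k1_fl (X : Finset (ι × Bool)) (i : ι) (b : Bool) :
    k1f X (i, b) = if i ∈ Qs X then
      ch X * (∑ j ∈ (Qs X).erase i, sg X j) / (((Qs X).card : ℝ) - 1)
      else 0 := rfl

private theorem k1_not (X : Finset (ι × Bool)) (i : ι) (h : i ∈ Es X) : i ∉ Qs X := by
  unfold Es at h
  unfold Qs
  simp only [mem_filter, mem_univ, true_and] at h ⊢
  tauto

omit [Fintype ι] in
private theorem k1_double (Q : Finset ι) (a : ι → ℝ) :
    ∑ l ∈ Q, ∑ j ∈ Q.erase l, a j = ((Q.card : ℝ) - 1) * ∑ j ∈ Q, a j := by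
  have h1 : ∀ l ∈ Q, ∑ j ∈ Q.erase l, a j = (∑ j ∈ Q, a j) - a l := by
    intro l hl
    rw [← Finset.add_sum_erase Q a hl]
    ring
  rw [Finset.sum_congr rfl h1, Finset.sum_sub_distrib, Finset.sum_const, nsmul_eq_mul]
  ring

private theorem k1_mem_Qs (X : Finset (ι × Bool)) (i : ι) :
    i ∈ Qs X ↔ ((i, true) ∈ X ∧ (i, false) ∉ X) ∨ ((i, true) ∉ X ∧ (i, false) ∈ X) := by
  simp [Qs]

private theorem k1_mem_Fs (X : Finset (ι × Bool)) (i : ι) :
    i ∈ Fs X ↔ (i, true) ∈ X ∧ (i, false) ∈ X := by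
  simp [Fs]

private theorem k1_mem_Ng (X : Finset (ι × Bool)) (i : ι) :
    i ∈ Ng X ↔ (i, true) ∉ X ∧ (i, false) ∈ X := by
  simp [Ng]

omit [Fintype ι] in
private theorem k1_mem_erase (X : Finset (ι × Bool)) (i j : ι) (b c : Bool) :
    (j, c) ∈ X.erase (i, b) ↔ ¬ (j = i ∧ c = b) ∧ (j, c) ∈ X := by
  rw [Finset.mem_erase, Ne, Prod.mk.injEq]

/-- removal of the element of a split pair -/
private theorem k1_split (X : Finset (ι × Bool)) (i : ι) (b : Bool)
    (hi : i ∈ Qs X) (hb : (i, b) ∈ X) : k1f (X.erase (i, b)) (i, b) = 0 := by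
  have hnb : (i, !b) ∉ X := by
    rw [k1_mem_Qs] at hi
    cases b <;> simp_all
  have hQ : i ∉ Qs (X.erase (i, b)) := by
    rw [k1_mem_Qs, k1_mem_erase, k1_mem_erase]
    cases b <;> simp_all
  rw [k1_fl, if_neg hQ]

/-- removal of an element of a full pair -/
private theorem k1_full (X : Finset (ι × Bool)) (i : ι) (b : Bool)
    (hi : i ∈ Fs X) :
    k1f (X.erase (i, b)) (i, b) =
      (if b then -1 else 1) * (ch X * (∑ j ∈ Qs X, sg X j) / ((Qs X).card : ℝ)) := by
  have hi' := (k1_mem_Fs X i).1 hi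
  have hiQ : i ∉ Qs X := by
    rw [k1_mem_Qs]
    simp [hi'.1, hi'.2]
  have hQ : Qs (X.erase (i, b)) = insert i (Qs X) := by
    ext j
    rw [Finset.mem_insert, k1_mem_Qs, k1_mem_Qs, k1_mem_erase, k1_mem_erase]
    by_cases hj : j = i
    · subst hj
      cases b <;> simp_all
    · simp [hj]
  have hch : ch (X.erase (i, b)) = (if b then -1 else 1) * ch X := by
    have hiN : i ∉ Ng X := by
      rw [k1_mem_Ng]
      simp [hi'.1]
    have hN : Ng (X.erase (i, b)) = if b then insert i (Ng X) else Ng X := by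
      ext j
      rw [k1_mem_Ng, k1_mem_erase, k1_mem_erase]
      by_cases hj : j = i
      · subst hj
        cases b <;> simp_all [k1_mem_Ng]
      · cases b <;> simp [hj, k1_mem_Ng]
    unfold ch
    rw [hN]
    cases b
    · simp
    · simp only [if_true]
      rw [Finset.card_insert_of_notMem hiN, pow_succ]
      ring
  have hsg : ∀ j ∈ Qs X, sg (X.erase (i, b)) j = sg X j := by
    intro j hj
    have hji : j ≠ i := fun h => hiQ (h ▸ hj)
    unfold sg
    simp only [k1_mem_erase, hji, false_and, not_false_eq_true, true_and]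
  rw [k1_fl, hQ, hch]
  rw [if_pos (Finset.mem_insert_self i (Qs X)), Finset.erase_insert hiQ,
    Finset.card_insert_of_notMem hiQ]
  rw [Finset.sum_congr rfl (fun j hj => by rw [hsg j hj])]
  push_cast
  rw [show ((Qs X).card : ℝ) + 1 - 1 = (Qs X).card by ring]
  ring

/-- V3 -/
theorem sum_k1f (X : Finset (ι × Bool)) :
    ∑ x ∈ Xᶜ, k1f X x = if (Qs X).card = 1 then 0 else ch X * Ssum X := by
  rw [sum_compl_mem]
  have h1 : (∑ i ∈ Qs X, if (i, true) ∈ X then k1f X (i, false) else k1f X (i, true)) =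
      (∑ l ∈ Qs X, ∑ j ∈ (Qs X).erase l, sg X j) *
        (ch X / (((Qs X).card : ℝ) - 1)) := by
    rw [Finset.sum_mul]
    refine Finset.sum_congr rfl fun i hi => ?_
    rw [k1_fl, k1_fl, if_pos hi, ite_self]
    ring
  have h2 : (∑ i ∈ Es X, (k1f X (i, true) + k1f X (i, false))) = 0 := by
    apply Finset.sum_eq_zero
    intro i hi
    rw [k1_fl, k1_fl, if_neg (k1_not X i hi), add_zero]
  rw [h1, h2, k1_double, add_zero]
  unfold Ssum
  by_cases hq : (Qs X).card = 1
  · rw [if_pos hq, hq]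
    simp
  · rw [if_neg hq]
    by_cases h0 : (Qs X).card = 0
    · rw [Finset.card_eq_zero] at h0
      rw [h0]
      simp
    · have h6 : (((Qs X).card : ℝ) - 1) ≠ 0 := by
        have : (2 : ℝ) ≤ ((Qs X).card : ℝ) := by
          have : 2 ≤ (Qs X).card := by omega
          exact_mod_cast this
        linarith
      field_simp

theorem dn_k1f (X : Finset (ι × Bool)) : dn k1f X = 0 := by
  unfold dn
  rw [sum_mem X (fun x => k1f (X.erase x) x)]
  have h2 : ∑ i ∈ Fs X, (k1f (X.erase (i, true)) (i, true)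
      + k1f (X.erase (i, false)) (i, false)) = 0 := by
    apply Finset.sum_eq_zero
    intro i hi
    rw [k1_full X i true hi, k1_full X i false hi]
    simp
  have h1 : ∑ i ∈ Qs X, (if (i, true) ∈ X then k1f (X.erase (i, true)) (i, true)
      else k1f (X.erase (i, false)) (i, false)) = 0 := by
    apply Finset.sum_eq_zero
    intro i hi
    by_cases ht : (i, true) ∈ X
    · rw [if_pos ht, k1_split X i true hi ht]
    · have hf : (i, false) ∈ X := by
        rw [k1_mem_Qs] at hi
        tauto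
      rw [if_neg ht, k1_split X i false hi hf]
  rw [h2, h1, add_zero]

theorem abs_k1f (X : Finset (ι × Bool)) (x : ι × Bool) : |k1f X x| ≤ 1 := by
  unfold k1f
  split_ifs with h1
  · rw [abs_div, abs_mul, k1_abs_ch, one_mul]
    have h3 : |∑ j ∈ (Qs X).erase x.1, sg X j| ≤ ∑ _j ∈ (Qs X).erase x.1, (1 : ℝ) :=
      (Finset.abs_sum_le_sum_abs _ _).trans (Finset.sum_le_sum fun i _ => k1_abs_sg X i)
    have h4 : (1 : ℝ) ≤ ((Qs X).card : ℝ) := by
      have : 1 ≤ (Qs X).card := Finset.card_pos.2 ⟨_, h1⟩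
      exact_mod_cast this
    have h5 : ∑ _j ∈ (Qs X).erase x.1, (1 : ℝ) = ((Qs X).card : ℝ) - 1 := by
      rw [Finset.sum_const, nsmul_eq_mul, mul_one, Finset.card_erase_of_mem h1, Nat.cast_sub]
      · push_cast
        ring
      · exact Finset.card_pos.2 ⟨_, h1⟩
    rw [h5] at h3
    rw [abs_of_nonneg (by linarith : (0 : ℝ) ≤ ((Qs X).card : ℝ) - 1)]
    exact div_le_one_of_le₀ h3 (by linarith)
  · rw [abs_zero]
    exact zero_le_one

end

end BG
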