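import Pool.Agent.Lib.MP_e26f2a_co.BG.BdAux
import Pool.Agent.Lib.MP_e26f2a_co.BG.K1
import Pool.Agent.Lib.MP_e26f2a_co.BG.K2
import Pool.Agent.Lib.MP_e26f2a_co.BG.KC

/-!
# Bounds, `a = 2r+1`, `z ∈` (MP_e26f2a_co, Biggs project, piece V14)
-/

set_option autoImplicit false

namespace BG

open Finset

section
variable {ι : Type} [DecidableEq ι] [Fintype ι]

private theorem o1_fil_0 (h : Finset ι → ι → ℝ → ℝ) (X : Finset (ι × Bool)) (x : ι × Bool)
    (hq : (Qs X).card ≠ 1 ∨ x.1 ∉ Qs X) : fil h X x = 0 := by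
  unfold fil
  rw [if_neg]
  rintro ⟨h1, h2⟩
  rcases hq with hq | hq
  · exact hq h2
  · exact hq h1

private theorem o1_cA_0 (v : Finset ι → ℝ) (W : Finset (ι × Bool)) (hq : (Qs W).card ≠ 2) :
    cA v W = 0 := by
  unfold cA
  rw [if_neg]
  rintro ⟨h1, -⟩
  exact hq h1

private theorem o1_cB_0 (r : ℕ) (v : Finset ι → ℝ) (jF : Finset ι → ι) (W : Finset (ι × Bool))
    (hq : (Qs W).card ≠ 2) : cB r v jF W = 0 := by
  unfold cB
  rw [if_neg]
  rintro ⟨h1, -⟩
  exact hq h1

/-- V14, with the bounds of the components as hypotheses -/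
theorem abs_b1o_aux (r : ℕ) (hr : 2 ≤ r) (hι : Fintype.card ι = 2 * r + 1) (i0 : ι)
    (v : Finset ι → ℝ) (jF iF : Finset ι → ι) (h : MData r v jF iF)
    (X : Finset (ι × Bool)) (x : ι × Bool) (hX : X.card = 2 * r + 1) (hx : x ∉ X)
    (H1 : |k1f X x| ≤ 1) (H2 : |k2f X x| ≤ 1) (H1c : |k1f X x + kcf i0 X x| ≤ 1) :
    |k1f X x + k2f X x + kcf i0 X x + k6f r v jF iF X x| ≤ 1 := by
  obtain ⟨i, b⟩ := x
  have c1 := card_pairs X
  have c2 := card_univ_pairs X
  have hrpos : (0:ℝ) < (r:ℝ) := by
    have : 0 < r := by omega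
    exact_mod_cast this
  have hr2 : (2:ℝ) ≤ (r:ℝ) := by exact_mod_cast hr
  have hcAabs : ∀ W : Finset (ι × Bool), |cA v W| ≤ 1 := by
    intro W
    unfold cA
    split_ifs
    · rw [bd_abs_v v h.v1]
    · rw [abs_zero]; exact zero_le_one
  have hcBabs : ∀ W : Finset (ι × Bool), |cB r v jF W| ≤ 1 := by
    intro W
    unfold cB
    split_ifs
    · rw [abs_div, bd_abs_v v h.v1, abs_of_pos hrpos, div_le_one hrpos]
      linarith
    · rw [abs_zero]; exact zero_le_one
  rcases bd_cases X i b hx with hi | hi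
  · -- split pair
    rw [bd_k2f_Q X i b hi, add_zero]
    have hQ := bd_Qs_insQ X i b hi hx
    have hc : (Qs (insert (i, b) X)).card + 1 = (Qs X).card := by
      rw [hQ]; exact card_erase_add_one hi
    by_cases hq1 : (Qs X).card = 1
    · have hne : Qs X ≠ univ := by
        intro hh
        have := congrArg Finset.card hh
        rw [Finset.card_univ, hι] at this
        omega
      obtain ⟨e, he⟩ := card_eq_one.mp hq1
      have hie : i = e := by rw [he, mem_singleton] at hi; exact hi
      have hk : k1f X (i, b) = 0 := by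
        unfold k1f
        rw [if_pos hi, he, hie, erase_singleton, sum_empty, mul_zero, zero_div]
      rw [hk, bd_kcf_0 i0 X _ hne]
      unfold k6f
      rw [bd_trf_0 jF iF (cA v) 1 true X (i, b) (o1_cA_0 v _ (by omega)),
        bd_trf_0 jF iF (cB r v jF) (-1) false X (i, b) (o1_cB_0 r v jF _ (by omega))]
      unfold fil
      rw [if_pos ⟨hi, hq1⟩]
      unfold h6
      simp only [add_zero, zero_add]
      rcases bd_sg_cases X i hi with h1 | h1 <;> rcases h.v1 (Fs X) with h2 | h2 <;>
        rw [h1, h2] <;> split_ifs <;> norm_num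
    by_cases hq3 : (Qs X).card = 3
    · have hne : Qs X ≠ univ := by
        intro hh
        have := congrArg Finset.card hh
        rw [Finset.card_univ, hι] at this
        omega
      rw [bd_kcf_0 i0 X _ hne, add_zero]
      unfold k6f
      rw [o1_fil_0 _ X _ (Or.inl hq1), zero_add]
      by_cases hj : jF (Fs (insert (i, b) X)) ∈ Qs (insert (i, b) X)
      swap
      · unfold trf
        rw [if_neg hj, if_neg hj, add_zero, add_zero]
        exact H1
      set W := insert (i, b) X with hW
      set j := jF (Fs W) with hjd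
      have hjQ : j ∈ Qs X := by rw [hQ] at hj; exact mem_of_mem_erase hj
      have hji : j ≠ i := by rw [hQ] at hj; exact ne_of_mem_erase hj
      obtain ⟨e, he⟩ : ∃ e, ((Qs X).erase i).erase j = {e} := by
        apply card_eq_one.mp
        rw [card_erase_of_mem (mem_erase.mpr ⟨hji, hjQ⟩), card_erase_of_mem hi, hq3]
      have heW : e ∈ ((Qs X).erase i).erase j := by rw [he]; exact mem_singleton_self _
      have heQ : e ∈ Qs X := mem_of_mem_erase (mem_of_mem_erase heW)
      have hei : e ≠ i := ne_of_mem_erase (mem_of_mem_erase heW)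
      have hej : e ≠ j := ne_of_mem_erase heW
      have hch : ch X = sg X i * (sg X j * sg X e) := by
        rw [bd_ch_prod, ← mul_prod_erase _ _ hi, ← mul_prod_erase _ _ (mem_erase.mpr ⟨hji, hjQ⟩),
          he, prod_singleton]
      have hk : k1f X (i, b) = ch X * (sg X j + sg X e) / 2 := by
        unfold k1f
        rw [if_pos hi, ← add_sum_erase _ _ (mem_erase.mpr ⟨hji, hjQ⟩), he, sum_singleton, hq3]
        norm_num
      have hsj : sg W j = sg X j := bd_sg_ne X i j b hji
      have hse : sg W e = sg X e := bd_sg_ne X i e b hei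
      have hS : Ssum W = sg X j + sg X e := by
        unfold Ssum
        rw [hQ, ← add_sum_erase _ _ (mem_erase.mpr ⟨hji, hjQ⟩), he, sum_singleton, hsj, hse]
      have hsb : - sb b = sg X i := by
        rw [bd_sb_Q X i b hi hx, neg_neg]
      have hiQ : i ∉ Qs W := by rw [hQ]; exact notMem_erase _ _
      -- the two transfer terms
      have hA : trf jF iF (cA v) 1 true X (i, b) =
          if i = iF (Fs W) ∧ sg X i = sg X j then - cA v W else 0 := by
        unfold trf
        rw [← hW, if_pos hj]
        have n1 : ¬ ((true = true ∧ (i, b).1 = jF (Fs W)) ∨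
            (true = false ∧ (i, b).1 ∈ Qs W ∧ (i, b).1 ≠ jF (Fs W))) := by
          rintro (⟨-, h1⟩ | ⟨h1, -⟩)
          · exact hji h1.symm
          · exact absurd h1 (by simp)
        rw [if_neg n1]
        simp only [hsb, one_mul, ← hjd, hsj]
      have hB : trf jF iF (cB r v jF) (-1) false X (i, b) =
          if i = iF (Fs W) ∧ sg X i = - sg X j then - cB r v jF W else 0 := by
        unfold trf
        rw [← hW, if_pos hj]
        have n1 : ¬ ((false = true ∧ (i, b).1 = jF (Fs W)) ∨
            (false = false ∧ (i, b).1 ∈ Qs W ∧ (i, b).1 ≠ jF (Fs W))) := by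
          rintro (⟨h1, -⟩ | ⟨-, h1, -⟩)
          · exact absurd h1 (by simp)
          · exact hiQ h1
        rw [if_neg n1]
        simp only [hsb, ← hjd, hsj, neg_one_mul]
      rw [hA, hB, hk, hch]
      unfold cA cB
      rw [hS, ← hjd, hsj, show (Qs W).card = 2 by omega]
      have hrinv : (0:ℝ) ≤ (r:ℝ)⁻¹ := by positivity
      have hrinv2 : (r:ℝ)⁻¹ ≤ 1 := by
        rw [inv_le_one₀ hrpos]; linarith
      rw [div_eq_mul_inv (v (Fs W))]
      generalize (r:ℝ)⁻¹ = t at hrinv hrinv2 ⊢
      have e1 : |1 - t| ≤ 1 := by rw [abs_le]; constructor <;> linarith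
      have e2 : |-1 + t| ≤ 1 := by rw [abs_le]; constructor <;> linarith
      have e3 : |t| ≤ 1 := by rw [abs_le]; constructor <;> linarith
      rcases bd_sg_cases X i hi with h1 | h1 <;> rcases bd_sg_cases X j hjQ with h2 | h2 <;>
        rcases bd_sg_cases X e heQ with h3 | h3 <;> rcases h.v1 (Fs W) with h4 | h4 <;>
        rw [h1, h2, h3, h4] <;> norm_num <;> split_ifs <;> norm_num <;>
        first
          | exact e1
          | exact e2
          | exact e3
    · have hk6 : k6f r v jF iF X (i, b) = 0 := by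
        unfold k6f
        rw [bd_trf_0 jF iF (cA v) 1 true X (i, b) (o1_cA_0 v _ (by omega)),
          bd_trf_0 jF iF (cB r v jF) (-1) false X (i, b) (o1_cB_0 r v jF _ (by omega)),
          o1_fil_0 _ X _ (Or.inl hq1)]
        simp
      rw [hk6, add_zero]
      exact H1c
  · -- empty pair
    rw [bd_k1f_E X i b hi, bd_kcf_0 i0 X _ (bd_ne_univ X i hi), zero_add, add_zero]
    have hQ := bd_Qs_insE X i b hi
    have hc : (Qs (insert (i, b) X)).card = (Qs X).card + 1 := by
      rw [hQ]; exact card_insert_of_notMem (bd_not_Q_E X i hi)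
    have hF := bd_Fs_insE X i b hi
    by_cases hq : (Qs X).card = 1
    · have h0 : k2f X (i, b) = 0 := by
        unfold k2f
        rw [if_neg]
        rintro ⟨-, h1⟩
        omega
      rw [h0, zero_add]
      unfold k6f
      rw [o1_fil_0 _ X _ (Or.inr (bd_not_Q_E X i hi)), zero_add]
      have hFr : (Fs X).card = r := by omega
      have hiF : i ≠ iF (Fs X) := by
        intro hh
        have := h.mi _ hFr
        rw [← hh] at this
        exact bd_not_F_E X i hi this
      unfold trf
      rw [hF]
      by_cases hj : jF (Fs X) ∈ Qs (insert (i, b) X)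
      · rw [if_pos hj, if_pos hj]
        by_cases hij : i = jF (Fs X)
        · have n1 : ¬ ((false = true ∧ (i, b).1 = jF (Fs X)) ∨
            (false = false ∧ (i, b).1 ∈ Qs (insert (i, b) X) ∧ (i, b).1 ≠ jF (Fs X))) := by
            rintro (⟨h1, -⟩ | ⟨-, -, h1⟩)
            · exact absurd h1 (by simp)
            · exact h1 hij
          rw [if_pos (Or.inl ⟨rfl, hij⟩), if_neg n1, if_neg (fun hh => hiF hh.1), add_zero]
          exact hcAabs _
        · have n1 : ¬ ((true = true ∧ (i, b).1 = jF (Fs X)) ∨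
            (true = false ∧ (i, b).1 ∈ Qs (insert (i, b) X) ∧ (i, b).1 ≠ jF (Fs X))) := by
            rintro (⟨-, h1⟩ | ⟨h1, -⟩)
            · exact hij h1
            · exact absurd h1 (by simp)
          rw [if_neg n1, if_neg (fun hh => hiF hh.1), zero_add]
          split_ifs
          all_goals first
            | exact hcBabs _
            | (rw [abs_neg]; exact hcBabs _)
            | (rw [abs_zero]; exact zero_le_one)
      · rw [if_neg hj, if_neg hj, add_zero, abs_zero]
        exact zero_le_one
    · have h0 : k6f r v jF iF X (i, b) = 0 := by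
        unfold k6f
        rw [bd_trf_0 jF iF (cA v) 1 true X (i, b) (o1_cA_0 v _ (by omega)),
          bd_trf_0 jF iF (cB r v jF) (-1) false X (i, b) (o1_cB_0 r v jF _ (by omega)),
          o1_fil_0 _ X _ (Or.inl hq)]
        simp
      rw [h0, add_zero]
      exact H2

/-- V14 -/
theorem abs_b1o (r : ℕ) (hr : 2 ≤ r) (hι : Fintype.card ι = 2 * r + 1) (i0 : ι)
    (v : Finset ι → ℝ) (jF iF : Finset ι → ι) (h : MData r v jF iF)
    (X : Finset (ι × Bool)) (x : ι × Bool) (hX : X.card = 2 * r + 1) (hx : x ∉ X) :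
    |k1f X x + k2f X x + kcf i0 X x + k6f r v jF iF X x| ≤ 1 :=
  abs_b1o_aux r hr hι i0 v jF iF h X x hX hx (abs_k1f X x) (abs_k2f X x)
    (abs_k1c i0 X x (by omega))

end

end BG
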