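import Pool.Agent.Lib.MP_e26f2a_co.BG.Pair

/-!
# The block on six points (MP_e26f2a_co, Biggs project)
-/

set_option autoImplicit false

namespace BG

open Finset

/-- two cyclically neighbouring points among the points `0, …, 4` lie in the set -/
private def blkAdj (B : Finset (Fin 3 × Bool)) : Bool :=
  (decide ((0, true) ∈ B) && decide ((0, false) ∈ B)) ||
  (decide ((0, false) ∈ B) && decide ((1, true) ∈ B)) ||
  (decide ((1, true) ∈ B) && decide ((1, false) ∈ B)) ||
  (decide ((1, false) ∈ B) && decide ((2, true) ∈ B)) ||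
  (decide ((2, true) ∈ B) && decide ((0, true) ∈ B))

/-- the upper half of the table -/
private def blkU (B : Finset (Fin 3 × Bool)) : Bool :=
  if B.card = 6 then true
  else if B.card = 5 then decide ((0, true) ∈ B)
  else if B.card = 4 then decide ((0, true) ∈ B) == decide ((0, false) ∈ B)
  else if (2, false) ∈ B then blkAdj B else blkAdj Bᶜ

/-- the table -/
private def blkT (B : Finset (Fin 3 × Bool)) : Bool :=
  if 3 ≤ B.card then blkU B
  else if B.card = 1 then blkU Bᶜ else !blkU Bᶜ

private theorem blk_compl : ∀ B : Finset (Fin 3 × Bool),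
    blkT Bᶜ = if B.card % 2 = 1 then blkT B else !blkT B := by
  decide +kernel

private theorem blk_ex : ∀ B : Finset (Fin 3 × Bool), 4 ≤ B.card →
    (∃ b ∈ B, blkT (B.erase b) = true) ∧ (∃ b ∈ B, blkT (B.erase b) = false) := by
  decide +kernel

/-- P10 the block -/
theorem exists_block : ∃ t : Finset (Fin 3 × Bool) → ℤ,
    (∀ B : Finset (Fin 3 × Bool), t B = 1 ∨ t B = -1) ∧
    (∀ B : Finset (Fin 3 × Bool), t Bᶜ = (-1)^(B.card+1) * t B) ∧
    (∀ B : Finset (Fin 3 × Bool), 4 ≤ B.card → (∃ b ∈ B, t (B.erase b) = 1) ∧ (∃ b ∈ B, t (B.erase b) = -1)) := by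
  refine ⟨fun B => if blkT B = true then 1 else -1, ?_, ?_, ?_⟩
  · intro B
    by_cases h : blkT B = true
    · left; simp [h]
    · right; simp [h]
  · intro B
    simp only
    rw [blk_compl B]
    rcases Nat.even_or_odd B.card with hev | hod
    · have h1 : ¬ (B.card % 2 = 1) := by
        rw [Nat.even_iff] at hev
        omega
      have h2 : (-1 : ℤ) ^ (B.card + 1) = -1 := Odd.neg_one_pow (hev.add_one)
      rw [if_neg h1, h2]
      cases blkT B <;> simp
    · have h1 : B.card % 2 = 1 := Nat.odd_iff.1 hod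
      have h2 : (-1 : ℤ) ^ (B.card + 1) = 1 := Even.neg_one_pow (hod.add_one)
      rw [if_pos h1, h2]
      cases blkT B <;> simp
  · intro B hB
    obtain ⟨⟨b, hb, h1⟩, ⟨c, hc, h2⟩⟩ := blk_ex B hB
    exact ⟨⟨b, hb, by simp [h1]⟩, ⟨c, hc, by simp [h2]⟩⟩

end BG
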