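import Pool.Agent.Lib.MP_e26f2a_co.Round
import Pool.Agent.Lib.MP_e26f2a_co.Konig

set_option autoImplicit false

namespace BG

open Finset

section engine
variable {G : Type} [Fintype G] [DecidableEq G]

theorem nb_card (n : ℕ) (hG : Fintype.card G = 2*n+1) (A : Finset G) (x : G) (hA : A.card = n)
    (hx : x ∉ A) : ((insert x A)ᶜ).card = n := by
  rw [Finset.card_compl, Finset.card_insert_of_notMem hx, hA, hG]; omega

theorem nb_notMem (A : Finset G) (x : G) : x ∉ (insert x A)ᶜ := by simp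

theorem nb_nb (A : Finset G) (x : G) (hx : x ∉ A) : (insert x ((insert x A)ᶜ))ᶜ = A := by
  ext y
  simp only [Finset.mem_compl, Finset.mem_insert]
  by_cases hy : y = x
  · subst hy
    simp [hx]
  · simp [hy]

/-- the integral splitting -/
theorem engine_split (n e dT : ℕ) (hG : Fintype.card G = 2*n+1) (hdT : 2 * dT = n + 1 + e)
    (F : Finset G → G → ℝ) (s1 s2 : Finset G → Bool)
    (hsym : ∀ (A : Finset G) (x : G), A.card = n → x ∉ A → F ((insert x A)ᶜ) x = F A x)
    (hb : ∀ (A : Finset G) (x : G), A.card = n → x ∉ A → |F A x| ≤ 1)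
    (hsum : ∀ A : Finset G, A.card = n → ∑ x ∈ Aᶜ, F A x = (e:ℝ))
    (h1 : ∀ (A : Finset G) (x : G), A.card = n → x ∉ A → F A x ≠ -1 →
      s1 ((insert x A)ᶜ) ≠ s1 A)
    (h2 : ∀ (A : Finset G) (x : G), A.card = n → x ∉ A → F A x ≠ 1 →
      s2 ((insert x A)ᶜ) ≠ s2 A) :
    ∃ L : Finset G → G → Prop,
      (∀ A x, A.card = n → x ∉ A → (L ((insert x A)ᶜ) x ↔ L A x)) ∧
      (∀ A x, A.card = n → x ∉ A → L A x → s1 ((insert x A)ᶜ) ≠ s1 A) ∧
      (∀ A x, A.card = n → x ∉ A → ¬ L A x → s2 ((insert x A)ᶜ) ≠ s2 A) ∧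
      (∀ A, A.card = n → ∀ S : Finset G, (∀ x, x ∈ S ↔ x ∉ A ∧ L A x) → S.card = dT) := by
  classical
  let C : Finset G × G → Prop := fun p => p.1.card = n ∧ p.2 ∉ p.1 ∧ s1 p.1 = true ∧
    s1 ((insert p.2 p.1)ᶜ) = false ∧ s2 ((insert p.2 p.1)ᶜ) ≠ s2 p.1
  let src : {p // C p} → Finset G := fun q => q.1.1
  let tgt : {p // C p} → Finset G := fun q => (insert q.1.2 q.1.1)ᶜ
  let W : {p // C p} → ℝ := fun q => (1 + F q.1.1 q.1.2)/2
  let c2 : Finset G → ℕ := fun v => (univ.filter fun x => x ∉ v ∧ s2 ((insert x v)ᶜ) = s2 v).card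
  let b : Finset G → ℕ := fun v => if v.card = n then dT - c2 v else 0
  have hinc : ∀ (q : {p // C p}) (v : Finset G), (src q = v ∨ tgt q = v) →
      v.card = n ∧ q.1.2 ∉ v ∧ s1 ((insert q.1.2 v)ᶜ) ≠ s1 v ∧ s2 ((insert q.1.2 v)ᶜ) ≠ s2 v ∧
      ((s1 v = true ∧ q.1.1 = v) ∨ (s1 v = false ∧ q.1.1 = (insert q.1.2 v)ᶜ)) := by
    rintro ⟨⟨A, x⟩, hq1, hq2, hq3, hq4, hq5⟩ v hv
    simp only [src, tgt] at hv hq1 hq2 hq3 hq4 hq5 ⊢
    rcases hv with rfl | rfl
    · refine ⟨hq1, hq2, ?_, hq5, Or.inl ⟨hq3, rfl⟩⟩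
      rw [hq3, hq4]; simp
    · refine ⟨nb_card n hG A x hq1 hq2, nb_notMem A x, ?_, ?_, Or.inr ⟨hq4, ?_⟩⟩
      · rw [nb_nb A x hq2, hq3, hq4]; simp
      · rw [nb_nb A x hq2]; exact hq5.symm
      · rw [nb_nb A x hq2]
  have hinj : ∀ (q q' : {p // C p}) (v : Finset G), (src q = v ∨ tgt q = v) →
      (src q' = v ∨ tgt q' = v) → q.1.2 = q'.1.2 → q = q' := by
    intro q q' v hq hq' h
    obtain ⟨_, _, _, _, h5⟩ := hinc q v hq
    obtain ⟨_, _, _, _, h5'⟩ := hinc q' v hq'
    apply Subtype.ext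
    apply Prod.ext
    · rcases h5 with ⟨a1, a2⟩ | ⟨a1, a2⟩
      · rcases h5' with ⟨b1, b2⟩ | ⟨b1, b2⟩
        · rw [a2, b2]
        · rw [a1] at b1; exact Bool.noConfusion b1
      · rcases h5' with ⟨b1, b2⟩ | ⟨b1, b2⟩
        · rw [a1] at b1; exact Bool.noConfusion b1
        · rw [a2, b2, h]
    · exact h
  have hex : ∀ (v : Finset G) (x : G), v.card = n → x ∉ v → s1 ((insert x v)ᶜ) ≠ s1 v →
      s2 ((insert x v)ᶜ) ≠ s2 v → ∃ q : {p // C p}, (src q = v ∨ tgt q = v) ∧ q.1.2 = x := by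
    intro v x hv hx g1 g2
    cases hs : s1 v
    · rw [hs] at g1
      have g3 : s1 ((insert x v)ᶜ) = true := by simpa using g1
      refine ⟨⟨((insert x v)ᶜ, x), nb_card n hG v x hv hx, nb_notMem v x, g3, ?_, ?_⟩,
        Or.inr ?_, rfl⟩
      · show s1 ((insert x ((insert x v)ᶜ))ᶜ) = false
        rw [nb_nb v x hx]; exact hs
      · show s2 ((insert x ((insert x v)ᶜ))ᶜ) ≠ s2 ((insert x v)ᶜ)
        rw [nb_nb v x hx]; exact g2.symm
      · exact nb_nb v x hx
    · rw [hs] at g1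
      have g3 : s1 ((insert x v)ᶜ) = false := by simpa using g1
      exact ⟨⟨(v, x), hv, hx, hs, g3, g2⟩, Or.inl rfl, rfl⟩
  have hs : ∀ q : {p // C p}, s1 (src q) = true ∧ s1 (tgt q) = false :=
    fun q => ⟨q.2.2.2.1, q.2.2.2.2.1⟩
  have hW : ∀ q, 0 ≤ W q ∧ W q ≤ 1 := by
    intro q
    have := abs_le.1 (hb q.1.1 q.1.2 q.2.1 q.2.2.1)
    simp only [W]
    constructor <;> linarith [this.1, this.2]
  have hWv : ∀ (q : {p // C p}) (v : Finset G), (src q = v ∨ tgt q = v) →
      W q = (1 + F v q.1.2)/2 := by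
    rintro ⟨⟨A, x⟩, hq1, hq2, hq3, hq4, hq5⟩ v hv
    simp only [src, tgt, W] at hv hq1 hq2 hq3 hq4 hq5 ⊢
    rcases hv with rfl | rfl
    · rfl
    · rw [hsym A x hq1 hq2]
  -- sums at a vertex
  have hsumT : ∀ v : Finset G, v.card = n →
      (∑ x ∈ univ.filter (fun x => x ∉ v ∧ s1 ((insert x v)ᶜ) ≠ s1 v ∧
        s2 ((insert x v)ᶜ) ≠ s2 v), (1 + F v x)/2) + c2 v = (dT:ℝ) := by
    intro v hv
    have e1 : ∑ x ∈ vᶜ, (1 + F v x)/2 = (dT:ℝ) := by
      rw [← Finset.sum_div, Finset.sum_add_distrib, hsum v hv, Finset.sum_const,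
        Finset.card_compl, hv, hG]
      have e2 : (2:ℝ) * dT = n + 1 + e := by exact_mod_cast hdT
      have e3 : 2 * n + 1 - n = n + 1 := by omega
      rw [e3]
      simp only [nsmul_eq_mul, mul_one]
      push_cast
      linarith
    have e4 : ∀ x ∈ vᶜ, (1 + F v x)/2 =
        (if s1 ((insert x v)ᶜ) ≠ s1 v ∧ s2 ((insert x v)ᶜ) ≠ s2 v then (1 + F v x)/2 else 0) +
        (if s2 ((insert x v)ᶜ) = s2 v then 1 else 0) := by
      intro x hx
      rw [Finset.mem_compl] at hx
      by_cases g2 : s2 ((insert x v)ᶜ) = s2 v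
      · have g3 : F v x = 1 := by
          by_contra g4
          exact h2 v x hv hx g4 g2
        rw [if_neg (fun h => h.2 g2), if_pos g2, g3]; norm_num
      · by_cases g1 : s1 ((insert x v)ᶜ) = s1 v
        · have g3 : F v x = -1 := by
            by_contra g4
            exact h1 v x hv hx g4 g1
          rw [if_neg (fun h => h.1 g1), if_neg g2, g3]; norm_num
        · rw [if_pos ⟨g1, g2⟩, if_neg g2, add_zero]
    rw [Finset.sum_congr rfl e4, Finset.sum_add_distrib, ← Finset.sum_filter,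
      ← Finset.sum_filter] at e1
    rw [← e1]
    congr 1
    · refine Finset.sum_congr ?_ fun _ _ => rfl
      ext x
      simp only [Finset.mem_filter, Finset.mem_univ, true_and, Finset.mem_compl]
    · rw [Finset.sum_const, nsmul_eq_mul, mul_one]
      simp only [c2]
      congr 2
      ext x
      simp only [Finset.mem_filter, Finset.mem_univ, true_and, Finset.mem_compl]
  have hcomb : ∀ v : Finset G, (∑ q, if src q = v then W q else 0) +
      (∑ q, if tgt q = v then W q else 0) =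
      ∑ q ∈ univ.filter (fun q : {p // C p} => src q = v ∨ tgt q = v), W q := by
    intro v
    rw [← Finset.sum_add_distrib, Finset.sum_filter]
    refine Finset.sum_congr rfl fun q _ => ?_
    by_cases g1 : src q = v <;> by_cases g2 : tgt q = v
    · have g3 := hs q
      rw [g1, g2] at g3
      rw [g3.1] at g3
      exact absurd g3.2 (by simp)
    · simp [g1, g2]
    · simp [g1, g2]
    · simp [g1, g2]
  have hbal : ∀ v : Finset G, (∑ q, if src q = v then W q else 0) +
      (∑ q, if tgt q = v then W q else 0) = (b v : ℝ) := by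
    intro v
    rw [hcomb]
    by_cases hv : v.card = n
    · have e1 : ∑ q ∈ univ.filter (fun q : {p // C p} => src q = v ∨ tgt q = v), W q =
          ∑ x ∈ univ.filter (fun x => x ∉ v ∧ s1 ((insert x v)ᶜ) ≠ s1 v ∧
            s2 ((insert x v)ᶜ) ≠ s2 v), (1 + F v x)/2 := by
        refine Finset.sum_bij (fun q _ => q.1.2) ?_ ?_ ?_ ?_
        · intro q hq
          rw [Finset.mem_filter] at hq ⊢
          obtain ⟨a1, a2, a3, a4, _⟩ := hinc q v hq.2
          exact ⟨Finset.mem_univ _, a2, a3, a4⟩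
        · intro q hq q' hq' h
          rw [Finset.mem_filter] at hq hq'
          exact hinj q q' v hq.2 hq'.2 h
        · intro x hx
          rw [Finset.mem_filter] at hx
          obtain ⟨q, hq1, hq2⟩ := hex v x hv hx.2.1 hx.2.2.1 hx.2.2.2
          exact ⟨q, by rw [Finset.mem_filter]; exact ⟨Finset.mem_univ _, hq1⟩, hq2⟩
        · intro q hq
          rw [Finset.mem_filter] at hq
          exact hWv q v hq.2
      have e2 := hsumT v hv
      have e3 : (0:ℝ) ≤ ∑ x ∈ univ.filter (fun x => x ∉ v ∧ s1 ((insert x v)ᶜ) ≠ s1 v ∧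
            s2 ((insert x v)ᶜ) ≠ s2 v), (1 + F v x)/2 := by
        refine Finset.sum_nonneg fun x hx => ?_
        rw [Finset.mem_filter] at hx
        have := abs_le.1 (hb v x hv hx.2.1)
        linarith [this.1]
      have e4 : c2 v ≤ dT := by
        have : (c2 v : ℝ) ≤ dT := by linarith
        exact_mod_cast this
      simp only [b, if_pos hv]
      rw [Nat.cast_sub e4, e1]
      linarith
    · simp only [b, if_neg hv, Nat.cast_zero]
      refine Finset.sum_eq_zero fun q hq => ?_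
      rw [Finset.mem_filter] at hq
      exact absurd (hinc q v hq.2).1 hv
  obtain ⟨y, hy⟩ := OddG.round_bip src tgt s1 hs W hW b hbal
  refine ⟨fun A x => s2 ((insert x A)ᶜ) = s2 A ∨
    ∃ q : {p // C p}, (src q = A ∨ tgt q = A) ∧ q.1.2 = x ∧ y q = true, ?_, ?_, ?_, ?_⟩
  · intro A x hA hx
    have g1 : ∀ q : {p // C p}, q.1.2 = x → ((src q = (insert x A)ᶜ ∨ tgt q = (insert x A)ᶜ) ↔
        (src q = A ∨ tgt q = A)) := by
      rintro q rfl
      constructor
      · rintro (g | g)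
        · right
          show (insert q.1.2 q.1.1)ᶜ = A
          have g' : q.1.1 = (insert q.1.2 A)ᶜ := g
          rw [g', nb_nb A _ hx]
        · left
          have g' : (insert q.1.2 q.1.1)ᶜ = (insert q.1.2 A)ᶜ := g
          show q.1.1 = A
          have g2 : (insert q.1.2 ((insert q.1.2 q.1.1)ᶜ))ᶜ =
              (insert q.1.2 ((insert q.1.2 A)ᶜ))ᶜ := by rw [g']
          rwa [nb_nb _ _ q.2.2.1, nb_nb _ _ hx] at g2
      · rintro (g | g)
        · right
          have g' : q.1.1 = A := g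
          show (insert q.1.2 q.1.1)ᶜ = (insert q.1.2 A)ᶜ
          rw [g']
        · left
          have g' : (insert q.1.2 q.1.1)ᶜ = A := g
          show q.1.1 = (insert q.1.2 A)ᶜ
          rw [← g', nb_nb _ _ q.2.2.1]
    simp only
    rw [nb_nb A x hx]
    constructor
    · rintro (g | ⟨q, g2, g3, g4⟩)
      · exact Or.inl g.symm
      · exact Or.inr ⟨q, (g1 q g3).1 g2, g3, g4⟩
    · rintro (g | ⟨q, g2, g3, g4⟩)
      · exact Or.inl g.symm
      · exact Or.inr ⟨q, (g1 q g3).2 g2, g3, g4⟩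
  · rintro A x hA hx (g | ⟨q, g2, rfl, g4⟩)
    · apply h1 A x hA hx
      have g3 : F A x = 1 := by
        by_contra g4
        exact h2 A x hA hx g4 g
      rw [g3]; norm_num
    · exact (hinc q A g2).2.2.1
  · intro A x hA hx g g'
    exact g (Or.inl g')
  · intro A hA S hS
    have e1 : S = (univ.filter fun x => x ∉ A ∧ s2 ((insert x A)ᶜ) = s2 A) ∪
        (univ.filter fun q : {p // C p} => y q = true ∧ (src q = A ∨ tgt q = A)).image
          (fun q => q.1.2) := by
      ext x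
      rw [hS]
      simp only [Finset.mem_union, Finset.mem_filter, Finset.mem_univ, true_and, Finset.mem_image]
      constructor
      · rintro ⟨g1, g | ⟨q, g2, g3, g4⟩⟩
        · exact Or.inl ⟨g1, g⟩
        · exact Or.inr ⟨q, ⟨g4, g2⟩, g3⟩
      · rintro (⟨g1, g⟩ | ⟨q, ⟨g4, g2⟩, rfl⟩)
        · exact ⟨g1, Or.inl g⟩
        · exact ⟨(hinc q A g2).2.1, Or.inr ⟨q, g2, rfl, g4⟩⟩
    have e2 : Disjoint (univ.filter fun x => x ∉ A ∧ s2 ((insert x A)ᶜ) = s2 A)
        ((univ.filter fun q : {p // C p} => y q = true ∧ (src q = A ∨ tgt q = A)).image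
          (fun q => q.1.2)) := by
      rw [Finset.disjoint_left]
      intro x hx hx'
      simp only [Finset.mem_filter, Finset.mem_univ, true_and, Finset.mem_image] at hx hx'
      obtain ⟨q, ⟨_, g2⟩, rfl⟩ := hx'
      exact (hinc q A g2).2.2.2.1 hx.2
    have e3 : ((univ.filter fun q : {p // C p} => y q = true ∧ (src q = A ∨ tgt q = A)).image
          (fun q => q.1.2)).card = dT - c2 A := by
      rw [Finset.card_image_of_injOn, hy A]
      · simp only [b, if_pos hA]
      · intro q hq q' hq' h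
        simp only [Finset.coe_filter, Finset.mem_univ, true_and, Set.mem_ofPred_eq] at hq hq'
        exact hinj q q' A hq.2 hq'.2 h
    have e4 : c2 A ≤ dT := by
      have e2 := hsumT A hA
      have e3 : (0:ℝ) ≤ ∑ x ∈ univ.filter (fun x => x ∉ A ∧ s1 ((insert x A)ᶜ) ≠ s1 A ∧
            s2 ((insert x A)ᶜ) ≠ s2 A), (1 + F A x)/2 := by
        refine Finset.sum_nonneg fun x hx => ?_
        rw [Finset.mem_filter] at hx
        have := abs_le.1 (hb A x hA hx.2.1)
        linarith [this.1]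
      have : (c2 A : ℝ) ≤ dT := by linarith
      exact_mod_cast this
    rw [e1, Finset.card_union_of_disjoint e2, e3]
    show c2 A + (dT - c2 A) = dT
    omega

/-- the colouring -/
theorem engine_col (n e : ℕ) (hG : Fintype.card G = 2*n+1)
    (he : e ≤ 1) (hpar : (n + 1 + e) % 2 = 0)
    (F : Finset G → G → ℝ) (s1 s2 : Finset G → Bool)
    (hsym : ∀ (A : Finset G) (x : G), A.card = n → x ∉ A → F ((insert x A)ᶜ) x = F A x)
    (hb : ∀ (A : Finset G) (x : G), A.card = n → x ∉ A → |F A x| ≤ 1)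
    (hsum : ∀ A : Finset G, A.card = n → ∑ x ∈ Aᶜ, F A x = (e:ℝ))
    (h1 : ∀ (A : Finset G) (x : G), A.card = n → x ∉ A → F A x ≠ -1 →
      s1 ((insert x A)ᶜ) ≠ s1 A)
    (h2 : ∀ (A : Finset G) (x : G), A.card = n → x ∉ A → F A x ≠ 1 →
      s2 ((insert x A)ᶜ) ≠ s2 A) :
    ∃ col : Finset G → G → ℕ,
      (∀ (A : Finset G) (x : G), A.card = n → x ∉ A → col A x < n+1) ∧
      (∀ (A : Finset G) (x : G), A.card = n → x ∉ A → col ((insert x A)ᶜ) x = col A x) ∧
      (∀ (A : Finset G) (x y : G), A.card = n → x ∉ A → y ∉ A → x ≠ y → col A x ≠ col A y) := by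
  classical
  obtain ⟨dT, hdT⟩ : ∃ dT : ℕ, 2 * dT = n + 1 + e := ⟨(n+1+e)/2, by omega⟩
  obtain ⟨L, hL1, hL2, hL3, hL4⟩ := engine_split n e dT hG hdT F s1 s2 hsym hb hsum h1 h2
  have hle : dT ≤ n + 1 := by omega
  obtain ⟨cT, t1, t2, t3⟩ := OddG.konig_dart (V := Finset G) (Y := G) dT
    (fun A x => (insert x A)ᶜ) (fun A => A.card = n)
    (fun A x => A.card = n ∧ x ∉ A ∧ L A x) s1
    (fun A x h => h.1)
    (fun A x h => ⟨nb_card n hG A x h.1 h.2.1, nb_notMem A x, (hL1 A x h.1 h.2.1).2 h.2.2⟩)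
    (fun A x h => nb_nb A x h.2.1)
    (fun A x h => hL2 A x h.1 h.2.1 h.2.2)
    (by
      intro A hA
      exact hL4 A hA _ (fun x => by simp [hA]))
  obtain ⟨cF, f1, f2, f3⟩ := OddG.konig_dart (V := Finset G) (Y := G) (n + 1 - dT)
    (fun A x => (insert x A)ᶜ) (fun A => A.card = n)
    (fun A x => A.card = n ∧ x ∉ A ∧ ¬ L A x) s2
    (fun A x h => h.1)
    (fun A x h => ⟨nb_card n hG A x h.1 h.2.1, nb_notMem A x,
      fun h' => h.2.2 ((hL1 A x h.1 h.2.1).1 h')⟩)
    (fun A x h => nb_nb A x h.2.1)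
    (fun A x h => hL3 A x h.1 h.2.1 h.2.2)
    (by
      intro A hA
      have g1 := hL4 A hA (univ.filter fun x => x ∉ A ∧ L A x) (fun x => by simp)
      have g2 : (univ.filter fun x => A.card = n ∧ x ∉ A ∧ ¬ L A x) =
          Aᶜ \ (univ.filter fun x => x ∉ A ∧ L A x) := by
        ext x
        simp only [Finset.mem_filter, Finset.mem_univ, true_and, Finset.mem_sdiff,
          Finset.mem_compl, hA]
        tauto
      have g3 : (univ.filter fun x => x ∉ A ∧ L A x) ⊆ Aᶜ := by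
        intro x hx
        simp only [Finset.mem_filter, Finset.mem_univ, true_and] at hx
        rw [Finset.mem_compl]; exact hx.1
      rw [g2, Finset.card_sdiff_of_subset g3, g1, Finset.card_compl, hA, hG]
      omega)
  refine ⟨fun A x => if L A x then cT A x else dT + cF A x, ?_, ?_, ?_⟩
  · intro A x hA hx
    by_cases g : L A x
    · simp only [g, if_true]
      exact lt_of_lt_of_le (t1 A x ⟨hA, hx, g⟩) hle
    · simp only [g, if_false]
      have := f1 A x ⟨hA, hx, g⟩
      omega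
  · intro A x hA hx
    have g0 := hL1 A x hA hx
    by_cases g : L A x
    · have g' := g0.2 g
      simp only [g, g', if_true]
      exact t2 A x ⟨hA, hx, g⟩
    · have g' : ¬ L ((insert x A)ᶜ) x := fun h => g (g0.1 h)
      simp only [g, g', if_false]
      rw [f2 A x ⟨hA, hx, g⟩]
  · intro A x y hA hx hy hxy
    by_cases g : L A x <;> by_cases g' : L A y
    · simp only [g, g', if_true]
      exact t3 A x y ⟨hA, hx, g⟩ ⟨hA, hy, g'⟩ hxy
    · simp only [g, g', if_true, if_false]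
      have := t1 A x ⟨hA, hx, g⟩
      omega
    · simp only [g, g', if_true, if_false]
      have := t1 A y ⟨hA, hy, g'⟩
      omega
    · simp only [g, g', if_false]
      have := f3 A x y ⟨hA, hx, g⟩ ⟨hA, hy, g'⟩ hxy
      omega

end engine

end BG
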