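import Pool.Agent.Lib.MP_e26f2a_co.BG.Transfer
import Pool.Agent.Lib.MP_e26f2a_co.BG.EngineCol

set_option autoImplicit false

namespace BG

open Finset

/-- A2 engine -/
theorem engine {G : Type} [Fintype G] [DecidableEq G] (n e : ℕ) (hG : Fintype.card G = 2*n+1)
    (he : e ≤ 1) (hpar : (n + 1 + e) % 2 = 0)
    (F : Finset G → G → ℝ) (s1 s2 : Finset G → Bool)
    (hsym : ∀ (A : Finset G) (x : G), A.card = n → x ∉ A → F ((insert x A)ᶜ) x = F A x)
    (hb : ∀ (A : Finset G) (x : G), A.card = n → x ∉ A → |F A x| ≤ 1)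
    (hsum : ∀ A : Finset G, A.card = n → ∑ x ∈ Aᶜ, F A x = (e:ℝ))
    (h1 : ∀ (A : Finset G) (x : G), A.card = n → x ∉ A → F A x ≠ -1 →
      s1 ((insert x A)ᶜ) ≠ s1 A)
    (h2 : ∀ (A : Finset G) (x : G), A.card = n → x ∉ A → F A x ≠ 1 →
      s2 ((insert x A)ᶜ) ≠ s2 A) :
    Col (n+1) := by
  obtain ⟨col, c1, c2, c3⟩ := engine_col n e hG he hpar F s1 s2 hsym hb hsum h1 h2
  exact transfer n hG col c1 c2 c3

end BG
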