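import Pool.Agent.Lib.MP_e26f2a_co.BG.Pair

/-!
# Even case: the function and the flows in pair coordinates (MP_e26f2a_co, Biggs project)

`k = 2a+2`, `|ι| = a`, ground set of one side = one point `z` plus the pairs `ι × Bool`. A set is
`(ζ, X)`, `ζ = [z ∈ set]`, `X : Finset (ι × Bool)`; `fE0` is the function for `ζ = 0`
(`|X| = a`), `fE1` for `ζ = 1` (`|X| = a - 1`).
-/

set_option autoImplicit false

namespace BG

open Finset

section
variable {ι : Type} [DecidableEq ι] [Fintype ι]

/-- sign of a point of a pair -/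
noncomputable def sb (b : Bool) : ℝ := if b then 1 else -1

/-- sum of the signs of the split pairs -/
noncomputable def Ssum (X : Finset (ι × Bool)) : ℝ := ∑ j ∈ Qs X, sg X j

/-- data of a perfect matching `F ↔ insert (jF F) (F.erase (iF F))` of the `r`-sets of `ι`, with
alternating signs `v` -/
structure MData (r : ℕ) (v : Finset ι → ℝ) (jF iF : Finset ι → ι) : Prop where
  v1 : ∀ F : Finset ι, v F = 1 ∨ v F = -1
  mi : ∀ F : Finset ι, F.card = r → iF F ∈ F
  mj : ∀ F : Finset ι, F.card = r → jF F ∉ F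
  vv : ∀ F : Finset ι, F.card = r → v (insert (jF F) (F.erase (iF F))) = - v F
  jj : ∀ F : Finset ι, F.card = r → jF (insert (jF F) (F.erase (iF F))) = iF F
  ii : ∀ F : Finset ι, F.card = r → iF (insert (jF F) (F.erase (iF F))) = jF F

/-- all pairs except possibly `i0` contain their positive point -/
def pos (i0 : ι) (X : Finset (ι × Bool)) : Prop := ∀ j : ι, j ≠ i0 → (j, true) ∈ X

instance (i0 : ι) (X : Finset (ι × Bool)) : Decidable (pos i0 X) := by
  unfold pos; infer_instance

/-- the function for `z ∉` -/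
noncomputable def fE0 (i0 : ι) (v : Finset ι → ℝ) (X : Finset (ι × Bool)) : ℝ :=
  if Qs X = ∅ then v (Fs X) else if Qs X = univ ∧ pos i0 X then - ch X else ch X

/-- the function for `z ∈` -/
noncomputable def fE1 (v : Finset ι → ℝ) (X : Finset (ι × Bool)) : ℝ :=
  if Qs X = ∅ then v (Fs X) else ch X

/-- neighbours of the modified transversals -/
def cadj (i0 : ι) (X : Finset (ι × Bool)) : Prop :=
  Es X = ∅ ∧ (Fs X).card = 1 ∧ i0 ∈ Qs X ∧ pos i0 X

instance (i0 : ι) (X : Finset (ι × Bool)) : Decidable (cadj i0 X) := by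
  unfold cadj; infer_instance

/-- main flow: fill a split pair -/
noncomputable def k1f (X : Finset (ι × Bool)) (x : ι × Bool) : ℝ :=
  if x.1 ∈ Qs X then ch X * (∑ j ∈ (Qs X).erase x.1, sg X j) / (((Qs X).card : ℝ) - 1) else 0

/-- flow for the removal of `z`: into the empty pairs -/
noncomputable def k2f (X : Finset (ι × Bool)) (x : ι × Bool) : ℝ :=
  if x.1 ∈ Es X ∧ 2 ≤ (Qs X).card then
    ch X / (2 * ((Es X).card : ℝ)) * (1 - sb x.2 * Ssum X / ((Qs X).card : ℝ)) else 0

/-- number of negative pairs other than `i0`, `l` -/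
def nneg (i0 l : ι) (X : Finset (ι × Bool)) : ℕ :=
  (univ.filter fun j : ι => j ≠ i0 ∧ j ≠ l ∧ (j, true) ∉ X).card

/-- weights on the cube -/
noncomputable def cw (i0 : ι) (X : Finset (ι × Bool)) (l : ι) : ℝ :=
  if l = i0 then
    if nneg i0 l X = 0 then -1
    else if nneg i0 l X = 1 then 2 / (Fintype.card ι : ℝ) else 1 / (Fintype.card ι : ℝ)
  else if nneg i0 l X = 0 then 0 else 1 / (Fintype.card ι : ℝ)

/-- the flow on the cube (all pairs split) -/
noncomputable def kcf (i0 : ι) (X : Finset (ι × Bool)) (x : ι × Bool) : ℝ :=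
  if Qs X = univ then ch X * cw i0 X x.1 else 0

/-- correction near the modified transversals -/
noncomputable def k3f (i0 : ι) (X : Finset (ι × Bool)) (x : ι × Bool) : ℝ :=
  if x.1 = i0 ∧ cadj i0 X then - 2 * ch X else 0

/-- transfer flow along the matching: at an upper set `W` with `j = jF (Fs W)` split, the value
`c W` comes in from the removal of the split pair `j` (`ty = true`) or of the other split pair
(`ty = false`) and leaves through the removal of the point of the full pair `iF (Fs W)` for which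
the remaining sign is `σ * sign of j`. -/
noncomputable def trf (jF iF : Finset ι → ι) (c : Finset (ι × Bool) → ℝ) (σ : ℝ) (ty : Bool)
    (X : Finset (ι × Bool)) (x : ι × Bool) : ℝ :=
  if jF (Fs (insert x X)) ∈ Qs (insert x X) then
    if (ty = true ∧ x.1 = jF (Fs (insert x X))) ∨
        (ty = false ∧ x.1 ∈ Qs (insert x X) ∧ x.1 ≠ jF (Fs (insert x X))) then c (insert x X)
    else if x.1 = iF (Fs (insert x X)) ∧ - sb x.2 = σ * sg (insert x X) (jF (Fs (insert x X)))
      then - c (insert x X) else 0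
  else 0

/-- fill flow on the sets with exactly one split pair -/
noncomputable def fil (h : Finset ι → ι → ℝ → ℝ) (X : Finset (ι × Bool)) (x : ι × Bool) : ℝ :=
  if x.1 ∈ Qs X ∧ (Qs X).card = 1 then h (Fs X) x.1 (sg X x.1) else 0

/-- coefficients of the transfer flows -/
noncomputable def cA (v : Finset ι → ℝ) (W : Finset (ι × Bool)) : ℝ :=
  if (Qs W).card = 2 ∧ Ssum W = 0 then v (Fs W) else 0

noncomputable def c5 (v : Finset ι → ℝ) (W : Finset (ι × Bool)) : ℝ :=
  if (Qs W).card = 1 ∧ Ssum W = - v (Fs W) then v (Fs W) else 0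

noncomputable def cB (r : ℕ) (v : Finset ι → ℝ) (jF : Finset ι → ι) (W : Finset (ι × Bool)) : ℝ :=
  if (Qs W).card = 2 ∧ sg W (jF (Fs W)) = v (Fs W) ∧ Ssum W - sg W (jF (Fs W)) = -1 then
    v (Fs W) / (r : ℝ) else 0

noncomputable def h4 (v : Finset ι → ℝ) (jF : Finset ι → ι) (F : Finset ι) (e : ι) (_s : ℝ) : ℝ :=
  if e = jF F then v F else 0

noncomputable def h6 (v : Finset ι → ℝ) (jF : Finset ι → ι) (F : Finset ι) (e : ι) (s : ℝ) : ℝ :=
  if e = jF F then (v F + s) / 2 else s

/-- `a` even, `z ∉`: `|X| = a + 1` -/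
noncomputable def k4f (v : Finset ι → ℝ) (jF iF : Finset ι → ι) (X : Finset (ι × Bool))
    (x : ι × Bool) : ℝ :=
  fil (h4 v jF) X x + trf jF iF (cA v) 1 true X x

/-- `a` even, `z ∈`: `|X| = a` -/
noncomputable def k5f (v : Finset ι → ℝ) (jF iF : Finset ι → ι) (X : Finset (ι × Bool))
    (x : ι × Bool) : ℝ :=
  trf jF iF (c5 v) (-1) true X x

/-- `a` odd, `z ∈`: `|X| = a` -/
noncomputable def k6f (r : ℕ) (v : Finset ι → ℝ) (jF iF : Finset ι → ι) (X : Finset (ι × Bool))
    (x : ι × Bool) : ℝ :=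
  fil (h6 v jF) X x + (trf jF iF (cA v) 1 true X x + trf jF iF (cB r v jF) (-1) false X x)

end

end BG
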