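import Pool.Agent.Lib.MP_e26f2a_co.BG.EvenScheme

set_option autoImplicit false
set_option linter.unusedSectionVars false

namespace BG

open Finset

section
variable {S : Type} [Fintype S] [DecidableEq S]

/-- the part of `W` without the extra point -/
def prt (W : Finset (Option S)) : Finset S := univ.filter fun y => some y ∈ W

theorem mem_prt (W : Finset (Option S)) (y : S) : y ∈ prt W ↔ some y ∈ W := by simp [prt]

theorem sum_opt (W : Finset (Option S)) (G : Option S → ℝ) :
    ∑ x ∈ W, G x = (if none ∈ W then G none else 0) + ∑ y ∈ prt W, G (some y) := by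
  have e1 : ∑ x ∈ W, G x = ∑ x, if x ∈ W then G x else 0 := by
    rw [← Finset.sum_filter]
    refine Finset.sum_congr ?_ fun _ _ => rfl
    ext x; simp
  have e2 : ∑ y ∈ prt W, G (some y) = ∑ y, if some y ∈ W then G (some y) else 0 := by
    rw [← Finset.sum_filter]
    rfl
  rw [e1, e2, Fintype.sum_option]

theorem card_opt (W : Finset (Option S)) :
    W.card = (if none ∈ W then 1 else 0) + (prt W).card := by
  have h := sum_opt W (fun _ => (1:ℝ))
  simp only [Finset.sum_const, nsmul_eq_mul, mul_one] at h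
  by_cases hn : none ∈ W
  · rw [if_pos hn] at h ⊢
    exact_mod_cast h
  · rw [if_neg hn] at h ⊢
    have h' : (W.card:ℝ) = (prt W).card := by rw [h, zero_add]
    have : W.card = (prt W).card := by exact_mod_cast h'
    omega

theorem prt_compl (W : Finset (Option S)) : prt Wᶜ = (prt W)ᶜ := by
  ext y; simp [prt]

theorem prt_erase_none (W : Finset (Option S)) : prt (W.erase none) = prt W := by
  ext y; simp [prt]

theorem prt_erase_some (W : Finset (Option S)) (y : S) :
    prt (W.erase (some y)) = (prt W).erase y := by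
  ext z; simp [prt]

theorem none_mem_erase_some (W : Finset (Option S)) (y : S) :
    none ∈ W.erase (some y) ↔ none ∈ W := by
  simp

/-- the even case in pair coordinates -/
theorem even_opt (a : ℕ) (ha : 2 ≤ a) (hS : Fintype.card S = 2*a)
    (f0 f1 : Finset S → ℝ) (k0 k1 : Finset S → S → ℝ)
    (hf0 : ∀ X : Finset S, X.card = a → f0 X = 1 ∨ f0 X = -1)
    (hf1 : ∀ X : Finset S, X.card = a - 1 → f1 X = 1 ∨ f1 X = -1)
    (h0 : ∀ X : Finset S, X.card = a + 1 → ∑ x ∈ Xᶜ, k0 X x = sh f0 X)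
    (h1 : ∀ X : Finset S, X.card = a → ∑ x ∈ Xᶜ, k1 X x = sh f1 X + f0 X)
    (d0 : ∀ X : Finset S, X.card = a + 2 → dn k0 X = 0)
    (d1 : ∀ X : Finset S, X.card = a + 1 → dn k1 X = 0)
    (b0 : ∀ (X : Finset S) (x : S), X.card = a + 1 → x ∉ X → |k0 X x| ≤ 1)
    (b1 : ∀ (X : Finset S) (x : S), X.card = a → x ∉ X → |k1 X x| ≤ 1)
    (u0 : ∀ Y : Finset S, Y.card = a - 1 → |f1 Y + ∑ y ∈ Yᶜ, f0 (insert y Y)| ≤ (a:ℝ))
    (u1 : ∀ Y : Finset S, Y.card = a - 2 → |∑ y ∈ Yᶜ, f1 (insert y Y)| ≤ (a:ℝ)) :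
    Col (2*a+2) := by
  classical
  have hT : Fintype.card (Option S) = 2*a+1 := by
    rw [Fintype.card_option, hS]
  have hc : ∀ X : Finset S, X.card + Xᶜ.card = 2*a := fun X => by
    rw [Finset.card_add_card_compl, hS]
  let f : Finset (Option S) → ℝ := fun U => if none ∈ U then f1 (prt U) else f0 (prt U)
  let κ : Finset (Option S) → Option S → ℝ := fun W x =>
    match x with
    | none => 0
    | some y => if none ∈ W then k1 (prt W) y else k0 (prt W) y
  have hfp : ∀ U : Finset (Option S), none ∈ U → f U = f1 (prt U) := fun U h => if_pos h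
  have hfn : ∀ U : Finset (Option S), none ∉ U → f U = f0 (prt U) := fun U h => if_neg h
  have hκz : ∀ W, κ W none = 0 := fun W => rfl
  have hκp : ∀ W y, none ∈ W → κ W (some y) = k1 (prt W) y := fun W y h => if_pos h
  have hκn : ∀ W y, none ∉ W → κ W (some y) = k0 (prt W) y := fun W y h => if_neg h
  refine even_scheme' a (by omega) hT f κ ?_ ?_ ?_ ?_ ?_
  · intro U hU
    have h := card_opt U
    by_cases hn : none ∈ U
    · rw [if_pos hn] at h
      rw [hfp U hn]; exact hf1 _ (by omega)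
    · rw [if_neg hn] at h
      rw [hfn U hn]; exact hf0 _ (by omega)
  · intro W hW
    have h := card_opt W
    have hcc := hc (prt W)
    show |∑ v ∈ W, f (W.erase v)ᶜ| ≤ (a:ℝ)
    rw [sum_opt W (fun v => f (W.erase v)ᶜ)]
    by_cases hn : none ∈ W
    · rw [if_pos hn] at h ⊢
      have e1 : f (W.erase none)ᶜ = f1 (prt W)ᶜ := by
        rw [hfp _ (by simp), prt_compl, prt_erase_none]
      have e2 : ∀ y ∈ prt W, f (W.erase (some y))ᶜ = f0 (insert y (prt W)ᶜ) := by
        intro y _
        rw [hfn _ (by simp [hn]), prt_compl, prt_erase_some]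
        congr 1
        ext z; simp
      rw [e1, Finset.sum_congr rfl e2]
      have := u0 (prt W)ᶜ (by omega)
      rwa [compl_compl] at this
    · rw [if_neg hn] at h ⊢
      have e2 : ∀ y ∈ prt W, f (W.erase (some y))ᶜ = f1 (insert y (prt W)ᶜ) := by
        intro y _
        rw [hfp _ (by simp [hn]), prt_compl, prt_erase_some]
        congr 1
        ext z; simp
      rw [Finset.sum_congr rfl e2, zero_add]
      have := u1 (prt W)ᶜ (by omega)
      rwa [compl_compl] at this
  · intro W hW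
    have h := card_opt W
    show ∑ x ∈ Wᶜ, κ W x = ∑ v ∈ W, f (W.erase v)
    rw [sum_opt Wᶜ (κ W), sum_opt W (fun v => f (W.erase v)), prt_compl, hκz W, ite_self, zero_add]
    by_cases hn : none ∈ W
    · rw [if_pos hn] at h ⊢
      have e1 : ∀ y ∈ (prt W)ᶜ, κ W (some y) = k1 (prt W) y := fun y _ => hκp W y hn
      have e2 : ∀ y ∈ prt W, f (W.erase (some y)) = f1 ((prt W).erase y) := by
        intro y _
        rw [hfp _ (by simp [hn]), prt_erase_some]
      have e3 : f (W.erase none) = f0 (prt W) := by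
        rw [hfn _ (by simp), prt_erase_none]
      rw [Finset.sum_congr rfl e1, Finset.sum_congr rfl e2, e3, h1 _ (by omega)]
      unfold sh
      ring
    · rw [if_neg hn] at h ⊢
      have e1 : ∀ y ∈ (prt W)ᶜ, κ W (some y) = k0 (prt W) y := fun y _ => hκn W y hn
      have e2 : ∀ y ∈ prt W, f (W.erase (some y)) = f0 ((prt W).erase y) := by
        intro y _
        rw [hfn _ (by simp [hn]), prt_erase_some]
      rw [Finset.sum_congr rfl e1, Finset.sum_congr rfl e2, h0 _ (by omega)]
      unfold sh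
      ring
  · intro W hW
    have h := card_opt W
    show ∑ v ∈ W, κ (W.erase v) v = 0
    rw [sum_opt W (fun v => κ (W.erase v) v), hκz (W.erase none), ite_self, zero_add]
    by_cases hn : none ∈ W
    · rw [if_pos hn] at h
      have e1 : ∀ y ∈ prt W, κ (W.erase (some y)) (some y) = k1 ((prt W).erase y) y := by
        intro y _
        rw [hκp _ _ (by simp [hn]), prt_erase_some]
      rw [Finset.sum_congr rfl e1]
      exact d1 _ (by omega)
    · rw [if_neg hn] at h
      have e1 : ∀ y ∈ prt W, κ (W.erase (some y)) (some y) = k0 ((prt W).erase y) y := by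
        intro y _
        rw [hκn _ _ (by simp [hn]), prt_erase_some]
      rw [Finset.sum_congr rfl e1]
      exact d0 _ (by omega)
  · rintro W (_ | y) hW hx
    · rw [hκz W, abs_zero]; exact zero_le_one
    · have h := card_opt W
      have hy : y ∉ prt W := by rw [mem_prt]; exact hx
      by_cases hn : none ∈ W
      · rw [if_pos hn] at h
        rw [hκp W y hn]
        exact b1 _ _ (by omega) hy
      · rw [if_neg hn] at h
        rw [hκn W y hn]
        exact b0 _ _ (by omega) hy

end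

/-- the even case in pair coordinates -/
theorem even_pair {ι : Type} [Fintype ι] [DecidableEq ι] (a : ℕ) (ha : 2 ≤ a)
    (hι : Fintype.card ι = a)
    (f0 f1 : Finset (ι × Bool) → ℝ) (k0 k1 : Finset (ι × Bool) → ι × Bool → ℝ)
    (hf0 : ∀ X : Finset (ι × Bool), X.card = a → f0 X = 1 ∨ f0 X = -1)
    (hf1 : ∀ X : Finset (ι × Bool), X.card = a - 1 → f1 X = 1 ∨ f1 X = -1)
    (h0 : ∀ X : Finset (ι × Bool), X.card = a + 1 → ∑ x ∈ Xᶜ, k0 X x = sh f0 X)
    (h1 : ∀ X : Finset (ι × Bool), X.card = a → ∑ x ∈ Xᶜ, k1 X x = sh f1 X + f0 X)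
    (d0 : ∀ X : Finset (ι × Bool), X.card = a + 2 → dn k0 X = 0)
    (d1 : ∀ X : Finset (ι × Bool), X.card = a + 1 → dn k1 X = 0)
    (b0 : ∀ (X : Finset (ι × Bool)) (x : ι × Bool), X.card = a + 1 → x ∉ X → |k0 X x| ≤ 1)
    (b1 : ∀ (X : Finset (ι × Bool)) (x : ι × Bool), X.card = a → x ∉ X → |k1 X x| ≤ 1)
    (u0 : ∀ Y : Finset (ι × Bool), Y.card = a - 1 →
      |f1 Y + ∑ y ∈ Yᶜ, f0 (insert y Y)| ≤ (a:ℝ))
    (u1 : ∀ Y : Finset (ι × Bool), Y.card = a - 2 →
      |∑ y ∈ Yᶜ, f1 (insert y Y)| ≤ (a:ℝ)) :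
    Col (2*a+2) :=
  even_opt a ha (by rw [Fintype.card_prod, Fintype.card_bool, hι]; ring) f0 f1 k0 k1 hf0 hf1 h0 h1
    d0 d1 b0 b1 u0 u1

end BG
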