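import Pool.Agent.Lib.MP_e26f2a_co.BG.Interface

set_option autoImplicit false
set_option linter.unusedSectionVars false

namespace BG

open Finset

section evens
variable {T : Type} [Fintype T] [DecidableEq T]

/-- the `P` edges -/
noncomputable def qA (a : ℕ) (f : Finset T → ℝ) (κ : Finset T → T → ℝ)
    (X V : Finset T) (x : T) : ℝ :=
  if X.card = a then f X * f Vᶜ
  else if X.card = a+1 then
    if V.card = a+1 then f Xᶜ * sh f V / a else κ X x * sh (fun V => f Vᶜ) V / a
  else 0

/-- the `N` edges -/
noncomputable def qB (a : ℕ) (f : Finset T → ℝ) (κ : Finset T → T → ℝ)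
    (X V : Finset T) (v : T) : ℝ :=
  if X.card = a+1 then
    if V.card = a then -(f Xᶜ * f V) else -(sh f X * f Vᶜ / a)
  else if X.card = a+2 ∧ V.card = a+1 then -(sh (fun V => f Vᶜ) X * κ V v / a)
  else 0

/-- even scheme -/
theorem even_scheme' (a : ℕ) (ha : 1 ≤ a) (hT : Fintype.card T = 2*a+1)
    (f : Finset T → ℝ) (κ : Finset T → T → ℝ)
    (hf : ∀ U : Finset T, U.card = a → f U = 1 ∨ f U = -1)
    (hu : ∀ W : Finset T, W.card = a+2 → |sh (fun V => f Vᶜ) W| ≤ (a:ℝ))
    (hκ : ∀ W : Finset T, W.card = a+1 → ∑ x ∈ Wᶜ, κ W x = sh f W)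
    (hκ0 : ∀ W : Finset T, W.card = a+2 → dn κ W = 0)
    (hκ1 : ∀ (W : Finset T) (x : T), W.card = a+1 → x ∉ W → |κ W x| ≤ 1) :
    Col (2*a+2) := by
  have har : (1:ℝ) ≤ a := by exact_mod_cast ha
  have ha0 : (0:ℝ) < a := by linarith
  have ne0 : (a:ℝ) ≠ 0 := ha0.ne'
  have hXc : ∀ X : Finset T, X.card + Xᶜ.card = 2*a+1 := by
    intro X
    rw [Finset.card_add_card_compl, hT]
  have hXr : ∀ X : Finset T, X.card = a + 1 → (Xᶜ.card : ℝ) = a := by
    intro X hX
    have h := hXc X
    have h' : Xᶜ.card = a := by omega
    exact_mod_cast h'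
  have hf1 : ∀ U : Finset T, U.card = a → |f U| = 1 := by
    intro U hU
    rcases hf U hU with h | h <;> rw [h] <;> norm_num
  have hd : ∀ W : Finset T, W.card = a+1 → |sh f W| ≤ (a:ℝ) := by
    intro W hW
    rw [← hκ W hW, ← hXr W hW]
    calc |∑ x ∈ Wᶜ, κ W x| ≤ ∑ x ∈ Wᶜ, |κ W x| := Finset.abs_sum_le_sum_abs _ _
      _ ≤ ∑ x ∈ Wᶜ, (1:ℝ) := Finset.sum_le_sum fun x hx => hκ1 W x hW (by simpa using hx)
      _ = _ := by simp
  have hdiv : ∀ t : ℝ, |t| ≤ a → |t / a| ≤ 1 := by
    intro t ht
    rw [abs_div, abs_of_pos ha0, div_le_one ha0]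
    exact ht
  refine interface (P := T) (N := T) (2*a+1) 0 hT hT (by norm_num) (by omega) (qA a f κ)
    (qB a f κ) (fun _ _ => 0) (fun X V => f X * f Vᶜ) ?_ ?_ ?_ ?_ ?_ ?_ ?_ ?_ ?_ ?_ ?_
  · intro X V x h1 h2 hx
    have hV := hXc V
    have hX := hXc X
    unfold qA
    split_ifs with g1 g2 g3
    · rw [abs_mul, hf1 X g1, hf1 Vᶜ (by omega)]; norm_num
    · apply hdiv
      rw [abs_mul, hf1 Xᶜ (by omega), one_mul]
      exact hd V g3
    · apply hdiv
      rw [abs_mul]
      calc |κ X x| * |sh (fun V => f Vᶜ) V| ≤ 1 * (a:ℝ) :=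
            mul_le_mul (hκ1 X x g2 hx) (hu V (by omega)) (abs_nonneg _) zero_le_one
        _ = _ := one_mul _
    · norm_num
  · intro X V v h1 h2 hv
    have hV := hXc V
    have hX := hXc X
    unfold qB
    split_ifs with g1 g2 g3
    · rw [abs_neg, abs_mul, hf1 Xᶜ (by omega), hf1 V g2]; norm_num
    · rw [abs_neg]
      apply hdiv
      rw [abs_mul, hf1 Vᶜ (by omega), mul_one]
      exact hd X g1
    · rw [abs_neg]
      apply hdiv
      rw [abs_mul]
      calc |sh (fun V => f Vᶜ) X| * |κ V v| ≤ (a:ℝ) * 1 :=
            mul_le_mul (hu X g3.1) (hκ1 V v g3.2 hv) (abs_nonneg _) ha0.le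
        _ = _ := mul_one _
    · norm_num
  · intro X V h1 h2
    norm_num
  · -- n0
    intro X V h1 h2
    by_cases g1 : X.card = a + 1
    · have hV : V.card = a + 1 := by omega
      have e1 : ∀ x ∈ Xᶜ, qA a f κ X V x = f Xᶜ * sh f V / a := by
        intro x _
        unfold qA
        rw [if_neg (by omega), if_pos g1, if_pos hV]
      have e2 : ∀ v ∈ V, qB a f κ X (V.erase v) v = -(f Xᶜ) * f (V.erase v) := by
        intro v hv
        have := Finset.card_erase_of_mem hv
        unfold qB
        rw [if_pos g1, if_pos (by omega)]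
        ring
      rw [Finset.sum_congr rfl e1, Finset.sum_congr rfl e2, ← Finset.mul_sum]
      simp only [Finset.sum_const, nsmul_eq_mul]
      rw [hXr X g1]
      show _ + -(f Xᶜ) * sh f V + _ = _
      push_cast
      field_simp
      ring
    · have e1 : ∀ x ∈ Xᶜ, qA a f κ X V x = 0 := by
        intro x _
        unfold qA
        rw [if_neg (by omega), if_neg g1]
      rw [Finset.sum_congr rfl e1]
      by_cases g2 : X.card = a + 2
      · have hV : V.card = a + 2 := by omega
        have e2 : ∀ v ∈ V, qB a f κ X (V.erase v) v =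
            -(sh (fun V => f Vᶜ) X / a) * κ (V.erase v) v := by
          intro v hv
          have := Finset.card_erase_of_mem hv
          unfold qB
          rw [if_neg g1, if_pos ⟨g2, by omega⟩]
          ring
        rw [Finset.sum_congr rfl e2, ← Finset.mul_sum]
        have e3 := hκ0 V hV
        unfold dn at e3
        rw [e3]
        simp
      · have e2 : ∀ v ∈ V, qB a f κ X (V.erase v) v = 0 := by
          intro v hv
          unfold qB
          rw [if_neg g1, if_neg (fun h => g2 h.1)]
        rw [Finset.sum_congr rfl e2]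
        simp
  · -- n1
    intro X V h1 h2
    by_cases g1 : X.card = a + 1
    · have hV : V.card = a + 2 := by omega
      have e1 : ∀ x ∈ Xᶜ, qA a f κ X V x = sh (fun V => f Vᶜ) V / a * κ X x := by
        intro x _
        unfold qA
        rw [if_neg (by omega), if_pos g1, if_neg (by omega)]
        ring
      have e2 : ∀ v ∈ V, qB a f κ X (V.erase v) v =
          -(sh f X / a) * (fun V => f Vᶜ) (V.erase v) := by
        intro v hv
        have := Finset.card_erase_of_mem hv
        unfold qB
        rw [if_pos g1, if_neg (by omega)]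
        ring
      rw [Finset.sum_congr rfl e1, Finset.sum_congr rfl e2, ← Finset.mul_sum, ← Finset.mul_sum,
        hκ X g1]
      show _ + -(sh f X / a) * sh (fun V => f Vᶜ) V = _
      push_cast
      ring
    · have e1 : ∀ x ∈ Xᶜ, qA a f κ X V x = 0 := by
        intro x _
        unfold qA
        rw [if_neg (by omega), if_neg g1]
      have e2 : ∀ v ∈ V, qB a f κ X (V.erase v) v = 0 := by
        intro v hv
        have := Finset.card_erase_of_mem hv
        unfold qB
        rw [if_neg g1, if_neg (by omega)]
      rw [Finset.sum_congr rfl e1, Finset.sum_congr rfl e2]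
      simp
  · -- p0
    intro X V h1 h2
    by_cases g1 : X.card = a + 1
    · have hV : V.card = a + 1 := by omega
      have e1 : ∀ x ∈ X, qA a f κ (X.erase x) V x = f Vᶜ * f (X.erase x) := by
        intro x hx
        have := Finset.card_erase_of_mem hx
        unfold qA
        rw [if_pos (by omega)]
        ring
      have e2 : ∀ v ∈ Vᶜ, qB a f κ X V v = -(sh f X * f Vᶜ / a) := by
        intro v hv
        unfold qB
        rw [if_pos g1, if_neg (by omega)]
      rw [Finset.sum_congr rfl e1, Finset.sum_congr rfl e2, ← Finset.mul_sum]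
      simp only [Finset.sum_const, nsmul_eq_mul]
      rw [hXr V hV]
      show f Vᶜ * sh f X + _ + _ = _
      push_cast
      field_simp
      ring
    · by_cases g2 : X.card = a + 2
      · have hV : V.card = a + 2 := by omega
        have e1 : ∀ x ∈ X, qA a f κ (X.erase x) V x =
            sh (fun V => f Vᶜ) V / a * κ (X.erase x) x := by
          intro x hx
          have := Finset.card_erase_of_mem hx
          unfold qA
          rw [if_neg (by omega), if_pos (by omega), if_neg (by omega)]
          ring
        have e2 : ∀ v ∈ Vᶜ, qB a f κ X V v = 0 := by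
          intro v hv
          unfold qB
          rw [if_neg g1, if_neg (by omega)]
        rw [Finset.sum_congr rfl e1, Finset.sum_congr rfl e2, ← Finset.mul_sum]
        have e3 := hκ0 X g2
        unfold dn at e3
        rw [e3]
        simp
      · have e1 : ∀ x ∈ X, qA a f κ (X.erase x) V x = 0 := by
          intro x hx
          have := Finset.card_erase_of_mem hx
          unfold qA
          rw [if_neg (by omega), if_neg (by omega)]
        have e2 : ∀ v ∈ Vᶜ, qB a f κ X V v = 0 := by
          intro v hv
          unfold qB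
          rw [if_neg g1, if_neg (fun h => g2 h.1)]
        rw [Finset.sum_congr rfl e1, Finset.sum_congr rfl e2]
        simp
  · -- p1
    intro X V h1 h2
    by_cases g2 : X.card = a + 2
    · have hV : V.card = a + 1 := by omega
      have e1 : ∀ x ∈ X, qA a f κ (X.erase x) V x =
          sh f V / a * (fun V => f Vᶜ) (X.erase x) := by
        intro x hx
        have := Finset.card_erase_of_mem hx
        unfold qA
        rw [if_neg (by omega), if_pos (by omega), if_pos hV]
        ring
      have e2 : ∀ v ∈ Vᶜ, qB a f κ X V v = -(sh (fun V => f Vᶜ) X / a) * κ V v := by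
        intro v hv
        unfold qB
        rw [if_neg (by omega), if_pos ⟨g2, hV⟩]
        ring
      rw [Finset.sum_congr rfl e1, Finset.sum_congr rfl e2, ← Finset.mul_sum, ← Finset.mul_sum,
        hκ V hV]
      show sh f V / a * sh (fun V => f Vᶜ) X + _ = _
      push_cast
      ring
    · have e1 : ∀ x ∈ X, qA a f κ (X.erase x) V x = 0 := by
        intro x hx
        have := Finset.card_erase_of_mem hx
        unfold qA
        rw [if_neg (by omega), if_neg (by omega)]
      have e2 : ∀ v ∈ Vᶜ, qB a f κ X V v = 0 := by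
        intro v hv
        unfold qB
        rw [if_neg (by omega), if_neg (fun h => g2 h.1)]
      rw [Finset.sum_congr rfl e1, Finset.sum_congr rfl e2]
      simp
  · -- ties
    intro X V h1 h2
    have hV := hXc V
    have hX : X.card = a := by omega
    have hV' : Vᶜ.card = a := by omega
    show f X * f Vᶜ = 1 ∨ f X * f Vᶜ = -1
    rcases hf X hX with h | h <;> rcases hf Vᶜ hV' with h' | h' <;> rw [h, h'] <;> norm_num
  · intro X V h1 h2 x _
    have hX : X.card = a := by omega
    unfold qA
    rw [if_pos hX]
  · intro X V h1 h2 v _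
    have hX : X.card = a + 1 := by omega
    have hV : V.card = a := by omega
    unfold qB
    rw [if_pos hX, if_pos hV, compl_compl]
  · intro X V h1 h2
    omega

end evens

end BG
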