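import Pool.Agent.Lib.MP_e26f2a_co.BG.EvenDefs
import Pool.Agent.Lib.MP_e26f2a_co.BG.PairSum
import Pool.Agent.Lib.MP_e26f2a_co.BG.PairErase

/-!
# Even case: the shadow sums of the functions (MP_e26f2a_co, Biggs project, piece V2)
-/

set_option autoImplicit false

namespace BG

open Finset

section
variable {ι : Type} [DecidableEq ι] [Fintype ι]

private theorem v2_insert_ne (X : Finset (ι × Bool)) (i : ι) : ¬ (insert i (Qs X) = ∅) :=
  insert_ne_empty _ _

private theorem v2_not_QF {X : Finset (ι × Bool)} {j : ι} (h1 : j ∈ Qs X) (h2 : j ∈ Fs X) :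
    False := by
  rw [pe_mem_Qs] at h1
  rw [pe_mem_Fs] at h2
  tauto

private theorem v2_not_QE {X : Finset (ι × Bool)} {j : ι} (h1 : j ∈ Qs X) (h2 : j ∈ Es X) :
    False := by
  rw [pe_mem_Qs] at h1
  rw [pe_mem_Es] at h2
  tauto

private theorem v2_not_FE {X : Finset (ι × Bool)} {j : ι} (h1 : j ∈ Fs X) (h2 : j ∈ Es X) :
    False := by
  rw [pe_mem_Fs] at h1
  rw [pe_mem_Es] at h2
  tauto

private theorem v2_split (X : Finset (ι × Bool)) (G : Finset (ι × Bool) → ℝ) (w : ℝ)
    (hG : ∀ i b, (i, b) ∈ X → i ∈ Qs X →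
      G (X.erase (i, b)) = if (Qs X).erase i = ∅ then w else ch X * sg X i) :
    (∑ i ∈ Qs X, if (i, true) ∈ X then G (X.erase (i, true)) else G (X.erase (i, false))) =
      if (Qs X).card = 1 then w else ch X * Ssum X := by
  have h1 : (∑ i ∈ Qs X, if (i, true) ∈ X then G (X.erase (i, true))
      else G (X.erase (i, false))) =
      ∑ i ∈ Qs X, if (Qs X).erase i = ∅ then w else ch X * sg X i := by
    refine Finset.sum_congr rfl fun i hi => ?_
    by_cases ht : (i, true) ∈ X
    · rw [if_pos ht, hG i true ht hi]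
    · have hf : (i, false) ∈ X := by
        have := hi
        rw [pe_mem_Qs] at this
        tauto
      rw [if_neg ht, hG i false hf hi]
  rw [h1]
  by_cases hc : (Qs X).card = 1
  · rw [if_pos hc]
    obtain ⟨i, hi⟩ := card_eq_one.1 hc
    rw [hi, sum_singleton, if_pos]
    exact erase_singleton i
  · rw [if_neg hc]
    unfold Ssum
    rw [mul_sum]
    refine Finset.sum_congr rfl fun i hi => ?_
    rw [if_neg]
    intro h
    apply hc
    have h2 := card_erase_add_one hi
    rw [h, card_empty] at h2
    omega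

/-- V2 -/
theorem sh_fE1 (v : Finset ι → ℝ) (X : Finset (ι × Bool)) :
    sh (fE1 v) X = if (Qs X).card = 1 then v (Fs X) else ch X * Ssum X := by
  unfold sh
  rw [sum_mem X (fun x => fE1 v (X.erase x)), v2_split X (fE1 v) (v (Fs X))]
  · have h1 : ∑ i ∈ Fs X, (fE1 v (X.erase (i, true)) + fE1 v (X.erase (i, false))) = 0 := by
      refine Finset.sum_eq_zero fun i hi => ?_
      unfold fE1
      rw [Qs_erase_full X i true hi, Qs_erase_full X i false hi, if_neg (v2_insert_ne X i),
        if_neg (v2_insert_ne X i), ch_erase_full_true X i hi, ch_erase_full_false X i hi]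
      ring
    rw [h1, add_zero]
  · intro i b hb hi
    unfold fE1
    rw [Qs_erase_split X i b hb hi, Fs_erase_split X i b hb hi, ch_erase_split X i b hb hi]

private theorem v2_pos_true_same (i0 : ι) (X : Finset (ι × Bool)) :
    pos i0 (X.erase (i0, true)) ↔ pos i0 X := by
  unfold pos
  refine forall_congr' fun j => ?_
  constructor
  · intro h hj
    exact (pe_mem_erase_ne X i0 j true true hj).1 (h hj)
  · intro h hj
    exact (pe_mem_erase_ne X i0 j true true hj).2 (h hj)

private theorem v2_pos_true_ne (i0 i : ι) (X : Finset (ι × Bool)) (hi : i ≠ i0) :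
    ¬ pos i0 (X.erase (i, true)) := by
  intro h
  exact pe_not_mem_erase X i true (h i hi)

private theorem v2_pos_false (i0 i : ι) (X : Finset (ι × Bool)) :
    pos i0 (X.erase (i, false)) ↔ pos i0 X := by
  unfold pos
  refine forall_congr' fun j => ?_
  have h : (j, true) ∈ X.erase (i, false) ↔ (j, true) ∈ X := by
    rw [mem_erase]
    constructor
    · exact fun h => h.2
    · intro h'
      refine ⟨?_, h'⟩
      intro h2
      rw [Prod.mk.injEq] at h2
      exact absurd h2.2 (by decide)
  rw [h]

private theorem v2_term (i0 : ι) (v : Finset ι → ℝ) (X : Finset (ι × Bool)) (i : ι)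
    (hi : i ∈ Fs X) :
    fE0 i0 v (X.erase (i, true)) + fE0 i0 v (X.erase (i, false)) =
      if insert i (Qs X) = univ ∧ i ≠ i0 ∧ pos i0 X then - 2 * ch X else 0 := by
  unfold fE0
  rw [Qs_erase_full X i true hi, Qs_erase_full X i false hi, if_neg (v2_insert_ne X i),
    if_neg (v2_insert_ne X i), ch_erase_full_true X i hi, ch_erase_full_false X i hi]
  by_cases hu : insert i (Qs X) = univ
  · by_cases h0 : i = i0
    · subst h0
      rw [if_neg (fun h : insert i (Qs X) = univ ∧ i ≠ i ∧ pos i X => h.2.1 rfl)]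
      by_cases hp : pos i X
      · rw [if_pos ⟨hu, (v2_pos_true_same i X).2 hp⟩, if_pos ⟨hu, (v2_pos_false i i X).2 hp⟩]
        ring
      · rw [if_neg (fun h => hp ((v2_pos_true_same i X).1 h.2)),
          if_neg (fun h => hp ((v2_pos_false i i X).1 h.2))]
        ring
    · rw [if_neg (fun h => v2_pos_true_ne i0 i X h0 h.2)]
      by_cases hp : pos i0 X
      · rw [if_pos ⟨hu, (v2_pos_false i0 i X).2 hp⟩, if_pos ⟨hu, h0, hp⟩]
        ring
      · rw [if_neg (fun h => hp ((v2_pos_false i0 i X).1 h.2)), if_neg (fun h => hp h.2.2)]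
        ring
  · rw [if_neg (fun h => hu h.1), if_neg (fun h => hu h.1), if_neg (fun h => hu h.1)]
    ring

private theorem v2_full (i0 : ι) (v : Finset ι → ℝ) (X : Finset (ι × Bool)) :
    ∑ i ∈ Fs X, (fE0 i0 v (X.erase (i, true)) + fE0 i0 v (X.erase (i, false))) =
      if cadj i0 X then - 2 * ch X else 0 := by
  rw [Finset.sum_congr rfl fun i hi => v2_term i0 v X i hi]
  by_cases hc : cadj i0 X
  · rw [if_pos hc]
    obtain ⟨h1, h2, h3, h4⟩ := hc
    obtain ⟨i, hi⟩ := card_eq_one.1 h2
    have hiF : i ∈ Fs X := by rw [hi]; exact mem_singleton_self i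
    rw [hi, sum_singleton, if_pos]
    refine ⟨?_, ?_, h4⟩
    · apply eq_univ_of_forall
      intro j
      by_contra hj
      rw [mem_insert, not_or] at hj
      have hjF : j ∉ Fs X := by
        rw [hi, mem_singleton]
        exact hj.1
      have hjE : j ∉ Es X := by
        rw [h1]
        exact notMem_empty j
      have hjQ := hj.2
      rw [pe_mem_Fs] at hjF
      rw [pe_mem_Es] at hjE
      rw [pe_mem_Qs] at hjQ
      tauto
    · rintro rfl
      exact v2_not_QF h3 hiF
  · rw [if_neg hc]
    refine Finset.sum_eq_zero fun i hi => ?_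
    rw [if_neg]
    rintro ⟨h1, h2, h3⟩
    apply hc
    have hall : ∀ j : ι, j = i ∨ j ∈ Qs X := by
      intro j
      have : j ∈ insert i (Qs X) := by rw [h1]; exact mem_univ j
      exact mem_insert.1 this
    refine ⟨?_, ?_, ?_, h3⟩
    · apply eq_empty_of_forall_notMem
      intro j hj
      rcases hall j with rfl | hq
      · exact v2_not_FE hi hj
      · exact v2_not_QE hq hj
    · rw [card_eq_one]
      refine ⟨i, ?_⟩
      ext j
      rw [mem_singleton]
      constructor
      · intro hj
        rcases hall j with h | hq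
        · exact h
        · exact (v2_not_QF hq hj).elim
      · rintro rfl
        exact hi
    · rcases hall i0 with h | hq
      · exact absurd h.symm h2
      · exact hq

theorem sh_fE0 (i0 : ι) (v : Finset ι → ℝ) (X : Finset (ι × Bool)) :
    sh (fE0 i0 v) X = (if (Qs X).card = 1 then v (Fs X) else ch X * Ssum X)
      + (if cadj i0 X then - 2 * ch X else 0) := by
  unfold sh
  rw [sum_mem X (fun x => fE0 i0 v (X.erase x)), v2_split X (fE0 i0 v) (v (Fs X)), v2_full]
  intro i b hb hi
  unfold fE0
  rw [Qs_erase_split X i b hb hi, Fs_erase_split X i b hb hi, ch_erase_split X i b hb hi]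
  have hne : ¬ ((Qs X).erase i = univ ∧ pos i0 (X.erase (i, b))) := by
    rintro ⟨h, _⟩
    have : i ∈ (Qs X).erase i := by rw [h]; exact mem_univ i
    exact notMem_erase i (Qs X) this
  rw [if_neg hne]

end

end BG
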