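import Pool.Agent.Lib.MP_e26f2a_co.BG.EvenDefs
import Pool.Agent.Lib.MP_e26f2a_co.BG.PairSum
import Pool.Agent.Lib.MP_e26f2a_co.BG.PairErase

/-!
# The fill flows (MP_e26f2a_co, Biggs project, piece V11)
-/

set_option autoImplicit false

namespace BG

open Finset

section
variable {ι : Type} [DecidableEq ι] [Fintype ι]

private theorem fil_sum (X : Finset (ι × Bool)) (G : ι × Bool → ℝ) (H : ι → ℝ)
    (h1 : ∀ i ∈ Qs X, ∀ b, G (i, b) = H i) (h2 : ∀ i ∈ Es X, ∀ b, G (i, b) = 0) :
    ∑ x ∈ Xᶜ, G x = ∑ i ∈ Qs X, H i := by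
  rw [sum_compl_mem X G, Finset.sum_eq_zero (s := Es X)
    (fun i hi => by rw [h2 i hi, h2 i hi, add_zero]), add_zero]
  refine Finset.sum_congr rfl fun i hi => ?_
  split_ifs
  · exact h1 i hi _
  · exact h1 i hi _

private theorem fil_dn (f : Finset (ι × Bool) → ι × Bool → ℝ) (W : Finset (ι × Bool))
    (hf : ∀ X x, x.1 ∉ Qs X → f X x = 0) :
    dn f W = ∑ i ∈ Fs W, (f (W.erase (i, true)) (i, true) + f (W.erase (i, false)) (i, false)) := by
  unfold dn
  rw [sum_mem W (fun x => f (W.erase x) x)]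
  rw [Finset.sum_eq_zero (s := Qs W), zero_add]
  intro i hi
  have key : ∀ b, (i, b) ∈ W → f (W.erase (i, b)) (i, b) = 0 := by
    intro b hb
    apply hf
    rw [Qs_erase_split W i b hb hi]
    exact Finset.notMem_erase i _
  split_ifs with h
  · exact key true h
  · refine key false ?_
    rw [pe_mem_Qs] at hi
    tauto

private theorem fil_gen (h : Finset ι → ι → ℝ → ℝ) (X : Finset (ι × Bool)) :
    ∑ x ∈ Xᶜ, fil h X x = ∑ i ∈ Qs X, if (Qs X).card = 1 then h (Fs X) i (sg X i) else 0 := by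
  refine fil_sum X _ _ ?_ ?_
  · intro i hi b
    unfold fil
    by_cases h1 : (Qs X).card = 1
    · rw [if_pos ⟨hi, h1⟩, if_pos h1]
    · rw [if_neg (fun hh => h1 hh.2), if_neg h1]
  · intro i hi b
    unfold fil
    rw [if_neg]
    rintro ⟨h1, -⟩
    change i ∈ Qs X at h1
    rw [pe_mem_Es] at hi
    rw [pe_mem_Qs] at h1
    tauto

theorem sum_fil4 (v : Finset ι → ℝ) (jF : Finset ι → ι) (X : Finset (ι × Bool)) :
    ∑ x ∈ Xᶜ, fil (h4 v jF) X x =
      if (Qs X).card = 1 ∧ jF (Fs X) ∈ Qs X then v (Fs X) else 0 := by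
  rw [fil_gen]
  by_cases h1 : (Qs X).card = 1
  · simp only [if_pos h1]
    obtain ⟨e, he⟩ := Finset.card_eq_one.1 h1
    rw [he, Finset.sum_singleton, h4]
    by_cases h2 : e = jF (Fs X)
    · rw [if_pos h2, if_pos]
      exact ⟨Finset.card_singleton _, by rw [Finset.mem_singleton]; exact h2.symm⟩
    · rw [if_neg h2, if_neg]
      rintro ⟨-, h3⟩
      rw [Finset.mem_singleton] at h3
      exact h2 h3.symm
  · rw [if_neg (fun hh => h1 hh.1)]
    exact Finset.sum_eq_zero fun i _ => if_neg h1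

theorem sum_fil6 (v : Finset ι → ℝ) (jF : Finset ι → ι) (X : Finset (ι × Bool)) :
    ∑ x ∈ Xᶜ, fil (h6 v jF) X x =
      if (Qs X).card = 1 then
        (if jF (Fs X) ∈ Qs X then (v (Fs X) + Ssum X) / 2 else Ssum X) else 0 := by
  rw [fil_gen]
  by_cases h1 : (Qs X).card = 1
  · simp only [if_pos h1]
    unfold Ssum
    obtain ⟨e, he⟩ := Finset.card_eq_one.1 h1
    rw [he, Finset.sum_singleton, Finset.sum_singleton, h6]
    by_cases h2 : e = jF (Fs X)
    · rw [if_pos h2, if_pos (by rw [Finset.mem_singleton]; exact h2.symm)]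
    · rw [if_neg h2, if_neg]
      intro h3
      rw [Finset.mem_singleton] at h3
      exact h2 h3.symm
  · rw [if_neg h1]
    exact Finset.sum_eq_zero fun i _ => if_neg h1

theorem sum_pairs_zero (r : ℕ) (v : Finset ι → ℝ) (jF iF : Finset ι → ι) (h : MData r v jF iF)
    (U : Finset ι) (hU : U.card = r + 1) :
    ∑ l ∈ U, (if jF (U.erase l) = l then v (U.erase l) else 0) = 0 := by
  rw [← Finset.sum_filter]
  have key : ∀ l ∈ U.filter (fun l => jF (U.erase l) = l), iF (U.erase l) ∈ U ∧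
      iF (U.erase l) ≠ l ∧ jF (U.erase (iF (U.erase l))) = iF (U.erase l) ∧
      iF (U.erase (iF (U.erase l))) = l ∧ v (U.erase (iF (U.erase l))) = - v (U.erase l) := by
    intro l hl
    rw [Finset.mem_filter] at hl
    obtain ⟨hl1, hl2⟩ := hl
    have hc : (U.erase l).card = r := by
      rw [Finset.card_erase_of_mem hl1, hU]
      rfl
    have hi := h.mi _ hc
    rw [Finset.mem_erase] at hi
    have he : insert (jF (U.erase l)) ((U.erase l).erase (iF (U.erase l))) =
        U.erase (iF (U.erase l)) := by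
      rw [hl2, Finset.erase_right_comm, Finset.insert_erase]
      rw [Finset.mem_erase]
      exact ⟨hi.1.symm, hl1⟩
    have h1 := h.vv _ hc
    have h2 := h.jj _ hc
    have h3 := h.ii _ hc
    rw [he] at h1 h2 h3
    exact ⟨hi.2, hi.1, h2, h3.trans hl2, h1⟩
  refine Finset.sum_involution (fun l _ => iF (U.erase l)) ?_ ?_ ?_ ?_
  · intro l hl
    rw [(key l hl).2.2.2.2]
    ring
  · intro l hl _
    exact (key l hl).2.1
  · intro l hl
    rw [Finset.mem_filter]
    exact ⟨(key l hl).1, (key l hl).2.2.1⟩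
  · intro l hl
    exact (key l hl).2.2.2.1

private theorem fil_full (h : Finset ι → ι → ℝ → ℝ) (W : Finset (ι × Bool)) (i : ι) (hi : i ∈ Fs W) :
    fil h (W.erase (i, true)) (i, true) + fil h (W.erase (i, false)) (i, false) =
      if Qs W = ∅ then h ((Fs W).erase i) i (-1) + h ((Fs W).erase i) i 1 else 0 := by
  have hi' := (pe_mem_Fs W i).1 hi
  have hiQ : i ∉ Qs W := by
    rw [pe_mem_Qs]
    tauto
  have h1 : sg (W.erase (i, true)) i = -1 := by
    unfold sg
    rw [if_neg (pe_not_mem_erase W i true), if_pos ((pe_mem_erase_bne W i true false (by decide)).2 hi'.2)]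
    norm_num
  have h2 : sg (W.erase (i, false)) i = 1 := by
    unfold sg
    rw [if_neg (pe_not_mem_erase W i false), if_pos ((pe_mem_erase_bne W i false true (by decide)).2 hi'.1)]
    norm_num
  have hcond : ∀ b, (i ∈ Qs (W.erase (i, b)) ∧ (Qs (W.erase (i, b))).card = 1) ↔ Qs W = ∅ := by
    intro b
    rw [Qs_erase_full W i b hi, Finset.card_insert_of_notMem hiQ]
    constructor
    · rintro ⟨-, h3⟩
      exact Finset.card_eq_zero.1 (by omega)
    · intro h3
      rw [h3]
      exact ⟨Finset.mem_insert_self _ _, rfl⟩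
  unfold fil
  by_cases hQ : Qs W = ∅
  · rw [if_pos ((hcond true).2 hQ), if_pos ((hcond false).2 hQ), if_pos hQ, Fs_erase_full W i true hi,
      Fs_erase_full W i false hi]
    change h _ i (sg (W.erase (i, true)) i) + h _ i (sg (W.erase (i, false)) i) = _
    rw [h1, h2]
  · rw [if_neg (fun hh => hQ ((hcond true).1 hh)), if_neg (fun hh => hQ ((hcond false).1 hh)), if_neg hQ,
      add_zero]

private theorem fil_dn' (h : Finset ι → ι → ℝ → ℝ) (W : Finset (ι × Bool)) :
    dn (fil h) W = ∑ i ∈ Fs W,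
      if Qs W = ∅ then h ((Fs W).erase i) i (-1) + h ((Fs W).erase i) i 1 else 0 := by
  rw [fil_dn]
  · exact Finset.sum_congr rfl fun i hi => fil_full h W i hi
  · intro X x hx
    unfold fil
    rw [if_neg (fun hh => hx hh.1)]

theorem dn_fil4 (r : ℕ) (v : Finset ι → ℝ) (jF iF : Finset ι → ι) (h : MData r v jF iF)
    (W : Finset (ι × Bool)) (hW : Qs W = ∅ → (Fs W).card = r + 1) :
    dn (fil (h4 v jF)) W = 0 := by
  rw [fil_dn']
  by_cases hQ : Qs W = ∅
  · simp only [if_pos hQ]
    have h1 := sum_pairs_zero r v jF iF h (Fs W) (hW hQ)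
    have h2 : ∑ i ∈ Fs W, (h4 v jF ((Fs W).erase i) i (-1) + h4 v jF ((Fs W).erase i) i 1) =
        2 * ∑ l ∈ Fs W, (if jF ((Fs W).erase l) = l then v ((Fs W).erase l) else 0) := by
      rw [Finset.mul_sum]
      refine Finset.sum_congr rfl fun i _ => ?_
      unfold h4
      by_cases h3 : i = jF ((Fs W).erase i)
      · rw [if_pos h3, if_pos h3.symm]
        ring
      · rw [if_neg h3, if_neg (fun hh => h3 hh.symm)]
        ring
    rw [h2, h1, mul_zero]
  · exact Finset.sum_eq_zero fun i _ => if_neg hQ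

theorem dn_fil6 (r : ℕ) (v : Finset ι → ℝ) (jF iF : Finset ι → ι) (h : MData r v jF iF)
    (W : Finset (ι × Bool)) (hW : Qs W = ∅ → (Fs W).card = r + 1) :
    dn (fil (h6 v jF)) W = 0 := by
  rw [fil_dn']
  by_cases hQ : Qs W = ∅
  · simp only [if_pos hQ]
    have h1 := sum_pairs_zero r v jF iF h (Fs W) (hW hQ)
    have h2 : ∑ i ∈ Fs W, (h6 v jF ((Fs W).erase i) i (-1) + h6 v jF ((Fs W).erase i) i 1) =
        ∑ l ∈ Fs W, (if jF ((Fs W).erase l) = l then v ((Fs W).erase l) else 0) := by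
      refine Finset.sum_congr rfl fun i _ => ?_
      unfold h6
      by_cases h3 : i = jF ((Fs W).erase i)
      · rw [if_pos h3, if_pos h3, if_pos h3.symm]
        ring
      · rw [if_neg h3, if_neg h3, if_neg (fun hh => h3 hh.symm)]
        ring
    rw [h2, h1]
  · exact Finset.sum_eq_zero fun i _ => if_neg hQ

end

end BG
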