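import Pool.Agent.Lib.MP_e26f2a_co.BG.Gamma
import Pool.Agent.Lib.MP_e26f2a_co.BG.Block
import Pool.Agent.Lib.MP_e26f2a_co.BG.PairCard

/-!
# The second function on the `N` side (MP_e26f2a_co, Biggs project)
-/

set_option autoImplicit false

namespace BG

open Finset

theorem ch_cases {ι : Type} [DecidableEq ι] [Fintype ι] (X : Finset (ι × Bool)) :
    ch X = 1 ∨ ch X = -1 := by
  have := abs_ch X
  rcases le_total 0 (ch X) with h | h
  · left; rwa [abs_of_nonneg h] at this
  · right; rw [abs_of_nonpos h] at this; linarith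

theorem pow_q {ι : Type} [DecidableEq ι] [Fintype ι] (X : Finset (ι × Bool)) :
    (-1:ℝ)^(Qs X).card = (-1)^X.card := by
  rw [card_pairs X, pow_add, pow_mul]; simp

/-- P11 the second function on the `N` side -/
theorem exists_gh (r : ℕ) : ∃ γ : Finset ((Fin 3 ⊕ Fin r) × Bool) → ℝ,
    (∀ V : Finset ((Fin 3 ⊕ Fin r) × Bool), γ V = 1 ∨ γ V = -1) ∧
    (∀ V : Finset ((Fin 3 ⊕ Fin r) × Bool), V.card = r+3 → γ Vᶜ = (-1)^(r+3+1) * γ V) ∧
    (∀ V : Finset ((Fin 3 ⊕ Fin r) × Bool), V.card = r+3+1 →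
      |sh γ V| ≤ ((r+3:ℕ):ℝ)-1) := by
  obtain ⟨t, t1, t2, t3⟩ := exists_block
  have pm : ∀ V : Finset ((Fin 3 ⊕ Fin r) × Bool),
      (t (blk V) : ℝ) * ch (rst V) = 1 ∨ (t (blk V) : ℝ) * ch (rst V) = -1 := by
    intro V
    rcases t1 (blk V) with h | h <;> rcases ch_cases (rst V) with h' | h' <;> rw [h, h'] <;> simp
  refine ⟨fun V => (t (blk V) : ℝ) * ch (rst V), pm, ?_, ?_⟩
  · intro V hV
    rw [card_blk_rst] at hV
    show (t (blk Vᶜ) : ℝ) * ch (rst Vᶜ) = _
    rw [blk_compl, rst_compl, t2, ch_compl, pow_q, ← hV]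
    push_cast
    ring
  · intro V hV
    have hV' := hV
    rw [card_blk_rst] at hV'
    have hc : (V.card : ℝ) - 2 = ((r+3:ℕ):ℝ) - 1 := by rw [hV]; push_cast; ring
    rw [← hc]
    have key : (∃ v ∈ V, (t (blk (V.erase v)) : ℝ) * ch (rst (V.erase v)) = 1) ∧
        (∃ v ∈ V, (t (blk (V.erase v)) : ℝ) * ch (rst (V.erase v)) = -1) := by
      by_cases hF : (Fs (rst V)).Nonempty
      · obtain ⟨i, hi⟩ := hF
        simp only [Fs, mem_filter, mem_univ, true_and] at hi
        obtain ⟨i1, i2⟩ := hi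
        have m1 := (mem_rst V _).1 i1
        have m2 := (mem_rst V _).1 i2
        have v1 : (t (blk (V.erase (Sum.inr i, true))) : ℝ) * ch (rst (V.erase (Sum.inr i, true)))
            = - ((t (blk V) : ℝ) * ch (rst V)) := by
          rw [blk_erase_inr V (i, true), rst_erase_inr V (i, true), ch_er_full_true _ _ i1 i2]
          ring
        have v2 : (t (blk (V.erase (Sum.inr i, false))) : ℝ) *
            ch (rst (V.erase (Sum.inr i, false))) = (t (blk V) : ℝ) * ch (rst V) := by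
          rw [blk_erase_inr V (i, false), rst_erase_inr V (i, false),
            ch_er_full_false _ _ i1 i2]
        rcases pm V with h | h
        · exact ⟨⟨_, m2, by rw [v2, h]⟩, ⟨_, m1, by rw [v1, h]⟩⟩
        · exact ⟨⟨_, m1, by rw [v1, h]; ring⟩, ⟨_, m2, by rw [v2, h]⟩⟩
      · rw [Finset.not_nonempty_iff_eq_empty] at hF
        have c1 := card_pairs (rst V)
        have c2 := card_univ_pairs (rst V)
        rw [hF, card_empty] at c1 c2
        rw [Fintype.card_fin] at c2
        obtain ⟨⟨b, hb, tb⟩, ⟨b', hb', tb'⟩⟩ := t3 (blk V) (by omega)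
        have m1 := (mem_blk V _).1 hb
        have m2 := (mem_blk V _).1 hb'
        have v1 : (t (blk (V.erase (Sum.inl b.1, b.2))) : ℝ) *
            ch (rst (V.erase (Sum.inl b.1, b.2))) = ch (rst V) := by
          rw [blk_erase_inl V b, rst_erase_inl V b, tb]; simp
        have v2 : (t (blk (V.erase (Sum.inl b'.1, b'.2))) : ℝ) *
            ch (rst (V.erase (Sum.inl b'.1, b'.2))) = - ch (rst V) := by
          rw [blk_erase_inl V b', rst_erase_inl V b', tb']; simp
        rcases ch_cases (rst V) with h | h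
        · exact ⟨⟨_, m1, by rw [v1, h]⟩, ⟨_, m2, by rw [v2, h]⟩⟩
        · exact ⟨⟨_, m2, by rw [v2, h]; ring⟩, ⟨_, m1, by rw [v1, h]⟩⟩
    exact abs_sh_le _ V (fun v _ => pm _) key.1 key.2

end BG
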