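import Mathlib
import Pool.Agent.Lib.MP_e26f2a_co.ChooseEven

/-!
# Perfect matchings of Johnson graphs by the revolving door Gray code (MP_e26f2a_co)

For `n.choose r` even the `r`-subsets of an `n`-set can be matched in pairs `F, μ F` which
differ by a swap of two elements (`BG.johnson_matching`).
-/

set_option autoImplicit false

namespace BG

open Finset

/-- revolving door list of the `r`-subsets of `range n` -/
def rdl : ℕ → ℕ → List (Finset ℕ)
  | _, 0 => [∅]
  | 0, _ + 1 => []
  | n + 1, r + 1 => rdl n (r + 1) ++ (rdl n r).reverse.map (insert n)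

theorem rdl_zero (n : ℕ) : rdl n 0 = [∅] := by
  cases n <;> rfl

theorem rdl_zero_succ (r : ℕ) : rdl 0 (r + 1) = [] := rfl

theorem rdl_succ (n r : ℕ) :
    rdl (n + 1) (r + 1) = rdl n (r + 1) ++ (rdl n r).reverse.map (insert n) := rfl

theorem mem_rdl (n : ℕ) : ∀ (r : ℕ) (F : Finset ℕ), F ∈ rdl n r ↔ F ⊆ range n ∧ F.card = r := by
  induction n with
  | zero =>
    intro r F
    cases r with
    | zero =>
      rw [rdl_zero, List.mem_singleton]
      constructor
      · rintro rfl; simp
      · rintro ⟨_, h⟩; exact card_eq_zero.mp h
    | succ r =>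
      rw [rdl_zero_succ]
      constructor
      · intro h; simp at h
      · rintro ⟨h1, h2⟩
        have h3 : F = ∅ := by
          rw [range_zero] at h1
          exact subset_empty.mp h1
        subst h3
        simp at h2
  | succ n ih =>
    intro r F
    cases r with
    | zero =>
      rw [rdl_zero, List.mem_singleton]
      constructor
      · rintro rfl; simp
      · rintro ⟨_, h⟩; exact card_eq_zero.mp h
    | succ r =>
      rw [rdl_succ, List.mem_append, ih (r + 1) F, List.mem_map]
      constructor
      · rintro (⟨h1, h2⟩ | ⟨G, hG, rfl⟩)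
        · exact ⟨h1.trans (range_subset_range.mpr (by omega)), h2⟩
        · rw [List.mem_reverse, ih r G] at hG
          obtain ⟨h1, h2⟩ := hG
          refine ⟨?_, ?_⟩
          · intro x hx
            rcases mem_insert.mp hx with rfl | hx
            · exact self_mem_range_succ _
            · exact range_subset_range.mpr (by omega) (h1 hx)
          · rw [card_insert_of_notMem (fun h => by
              have := mem_range.mp (h1 h)
              omega), h2]
      · rintro ⟨h1, h2⟩
        by_cases hn : n ∈ F
        · right
          refine ⟨F.erase n, ?_, insert_erase hn⟩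
          rw [List.mem_reverse, ih r]
          refine ⟨?_, ?_⟩
          · intro x hx
            obtain ⟨hx1, hx2⟩ := mem_erase.mp hx
            have := mem_range.mp (h1 hx2)
            exact mem_range.mpr (by omega)
          · rw [card_erase_of_mem hn, h2]; rfl
        · left
          refine ⟨?_, h2⟩
          intro x hx
          have := mem_range.mp (h1 hx)
          have h3 : x ≠ n := fun h => hn (h ▸ hx)
          exact mem_range.mpr (by omega)

theorem rdl_length (n : ℕ) : ∀ r : ℕ, (rdl n r).length = n.choose r := by
  induction n with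
  | zero =>
    intro r
    cases r with
    | zero => simp [rdl_zero]
    | succ r => simp [rdl_zero_succ]
  | succ n ih =>
    intro r
    cases r with
    | zero => simp [rdl_zero]
    | succ r =>
      rw [rdl_succ, List.length_append, List.length_map, List.length_reverse, ih, ih,
        Nat.choose_succ_succ, Nat.succ_eq_add_one]
      omega

theorem rdl_nodup (n : ℕ) : ∀ r : ℕ, (rdl n r).Nodup := by
  induction n with
  | zero =>
    intro r
    cases r with
    | zero => rw [rdl_zero]; exact List.nodup_singleton _
    | succ r => rw [rdl_zero_succ]; exact List.nodup_nil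
  | succ n ih =>
    intro r
    cases r with
    | zero => rw [rdl_zero]; exact List.nodup_singleton _
    | succ r =>
      rw [rdl_succ, List.nodup_append]
      refine ⟨ih _, ?_, ?_⟩
      · refine List.Nodup.map_on ?_ (List.nodup_reverse.mpr (ih r))
        intro F hF G hG h
        rw [List.mem_reverse, mem_rdl] at hF hG
        have hF' : n ∉ F := fun h => by
          have := mem_range.mp (hF.1 h)
          omega
        have hG' : n ∉ G := fun h => by
          have := mem_range.mp (hG.1 h)
          omega
        rw [← erase_insert hF', h, erase_insert hG']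
      · intro F hF G hG h
        rw [mem_rdl] at hF
        rw [List.mem_map] at hG
        obtain ⟨G', -, rfl⟩ := hG
        have : n ∈ F := h ▸ mem_insert_self _ _
        have := mem_range.mp (hF.1 this)
        omega

theorem rdl_head (n : ℕ) : ∀ r : ℕ, r ≤ n → (rdl n r).head? = some (range r) := by
  induction n with
  | zero =>
    intro r hr
    obtain rfl : r = 0 := by omega
    simp [rdl_zero]
  | succ n ih =>
    intro r hr
    cases r with
    | zero => simp [rdl_zero]
    | succ r =>
      rw [rdl_succ, List.head?_append]
      rcases Nat.lt_or_ge r n with h | h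
      · rw [ih (r + 1) (by omega)]; rfl
      · obtain rfl : r = n := by omega
        have h1 : rdl r (r + 1) = [] := by
          apply List.eq_nil_of_length_eq_zero
          rw [rdl_length, Nat.choose_succ_self]
        have h2 : rdl r r = [range r] := by
          have h3 : (rdl r r).length = 1 := by rw [rdl_length, Nat.choose_self]
          obtain ⟨F, hF⟩ := List.length_eq_one_iff.mp h3
          have h4 := ih r le_rfl
          rw [hF] at h4 ⊢
          simpa using h4
        rw [h1, h2]
        simp [range_add_one]

theorem rdl_last (n r : ℕ) (hr : r ≤ n) :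
    (rdl (n + 1) (r + 1)).getLast? = some (insert n (range r)) := by
  rw [rdl_succ, List.getLast?_append, List.getLast?_map, List.getLast?_reverse,
    rdl_head n r hr]
  rfl

/-- swap relation -/
def Sw {ι : Type} [DecidableEq ι] (F G : Finset ι) : Prop :=
  ∃ l i, l ∈ F ∧ i ∉ F ∧ G = insert i (F.erase l)

theorem Sw.symm {ι : Type} [DecidableEq ι] {F G : Finset ι} (h : Sw F G) : Sw G F := by
  obtain ⟨l, i, hl, hi, rfl⟩ := h
  have hli : l ≠ i := fun h => hi (h ▸ hl)
  refine ⟨i, l, mem_insert_self _ _, ?_, ?_⟩
  · rw [mem_insert, mem_erase]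
    rintro (h | ⟨h, -⟩)
    · exact hli h
    · exact h rfl
  · rw [erase_insert (fun h => hi (mem_of_mem_erase h)), insert_erase hl]

theorem rdl_chain (n : ℕ) : ∀ r : ℕ, (rdl n r).IsChain Sw := by
  induction n with
  | zero =>
    intro r
    cases r with
    | zero => rw [rdl_zero]; exact List.isChain_singleton _
    | succ r => rw [rdl_zero_succ]; exact List.isChain_nil
  | succ n ih =>
    intro r
    cases r with
    | zero => rw [rdl_zero]; exact List.isChain_singleton _
    | succ r =>
      rw [rdl_succ, List.isChain_append]
      refine ⟨ih _, ?_, ?_⟩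
      · rw [List.isChain_map, List.isChain_reverse]
        refine List.IsChain.imp_of_mem_imp ?_ (ih r)
        rintro F G hF hG h
        obtain ⟨l, i, hl, hi, rfl⟩ := h.symm
        have hi' := ((mem_rdl n r _).mp hF).1 (mem_insert_self _ _)
        have hl' := ((mem_rdl n r _).mp hG).1 hl
        have hi2 := mem_range.mp hi'
        have hl2 := mem_range.mp hl'
        refine ⟨l, i, mem_insert_of_mem hl, ?_, ?_⟩
        · rw [mem_insert]
          rintro (h | h)
          · omega
          · exact hi h
        · rw [erase_insert_of_ne (by omega), insert_comm]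
      · intro F hF G hG
        rw [List.head?_map, List.head?_reverse] at hG
        cases n with
        | zero =>
          rw [rdl_zero_succ] at hF
          simp at hF
        | succ n =>
          by_cases hr : r ≤ n
          · rw [rdl_last n r hr] at hF
            simp only [Option.mem_def, Option.some.injEq] at hF
            subst hF
            cases r with
            | zero =>
              rw [rdl_zero] at hG
              simp at hG
              subst hG
              refine ⟨n, n + 1, by simp, by simp, by simp⟩
            | succ r =>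
              rw [rdl_last n r (by omega)] at hG
              simp only [Option.map_some, Option.mem_def, Option.some.injEq] at hG
              subst hG
              refine ⟨r, n + 1, by simp, ?_, ?_⟩
              · simp only [mem_insert, mem_range, not_or]
                omega
              · rw [erase_insert_of_ne (by omega), range_add_one, erase_insert (by simp)]
          · have h1 : rdl (n + 1) (r + 1) = [] := by
              apply List.eq_nil_of_length_eq_zero
              rw [rdl_length, Nat.choose_eq_zero_of_lt (by omega)]
            rw [h1] at hF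
            simp at hF

/-- a chain of even length can be matched in consecutive pairs -/
theorem match_of_chain {α : Type} [DecidableEq α] (R : α → α → Prop)
    (hR : ∀ x y, R x y → R y x) : ∀ (k : ℕ) (L : List α), L.length = 2 * k → L.Nodup →
    L.IsChain R → ∃ (μ : α → α) (v : α → ℝ), (∀ x, v x = 1 ∨ v x = -1) ∧
      ∀ x ∈ L, μ x ∈ L ∧ μ (μ x) = x ∧ v (μ x) = - v x ∧ R x (μ x) := by
  intro k
  induction k with
  | zero =>
    intro L hL _ _
    have : L = [] := List.eq_nil_of_length_eq_zero hL
    subst this
    exact ⟨id, fun _ => 1, fun _ => Or.inl rfl, fun x hx => by simp at hx⟩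
  | succ k ih =>
    intro L hL hn hc
    match L, hL, hn, hc with
    | a :: b :: t, hL, hn, hc =>
      have ht : t.length = 2 * k := by
        simp only [List.length_cons] at hL
        omega
      rw [List.nodup_cons, List.nodup_cons] at hn
      obtain ⟨ha, hb, hn⟩ := hn
      rw [List.isChain_cons_cons] at hc
      obtain ⟨hab, hc⟩ := hc
      obtain ⟨μ, v, hv, hμ⟩ := ih t ht hn hc.tail
      have hab' : a ≠ b := fun h => ha (h ▸ List.mem_cons_self)
      have hat : a ∉ t := fun h => ha (List.mem_cons_of_mem _ h)
      refine ⟨fun x => if x = a then b else if x = b then a else μ x,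
        fun x => if x = a then 1 else if x = b then -1 else v x, ?_, ?_⟩
      · intro x
        dsimp only
        split_ifs
        · exact Or.inl rfl
        · exact Or.inr rfl
        · exact hv x
      · intro x hx
        dsimp only
        rcases List.mem_cons.mp hx with rfl | hx
        · simp [hab'.symm, hab]
        rcases List.mem_cons.mp hx with rfl | hx
        · simp [hab'.symm, hR _ _ hab]
        · have h1 : x ≠ a := fun h => hat (h ▸ hx)
          have h2 : x ≠ b := fun h => hb (h ▸ hx)
          obtain ⟨h3, h4, h5, h6⟩ := hμ x hx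
          have h7 : μ x ≠ a := fun h => hat (h ▸ h3)
          have h8 : μ x ≠ b := fun h => hb (h ▸ h3)
          rw [if_neg h1, if_neg h2, if_neg h7, if_neg h8, if_neg h7, if_neg h8, if_neg h1,
            if_neg h2]
          exact ⟨List.mem_cons_of_mem _ (List.mem_cons_of_mem _ h3), h4, h5, h6⟩

/-- the Johnson graph has a perfect matching as soon as the number of its vertices is even -/
theorem johnson_matching {ι : Type} [Fintype ι] [DecidableEq ι] (r : ℕ)
    (h : Even ((Fintype.card ι).choose r)) :
    ∃ (μ : Finset ι → Finset ι) (v : Finset ι → ℝ), (∀ F, v F = 1 ∨ v F = -1) ∧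
      ∀ F : Finset ι, F.card = r → (μ F).card = r ∧ μ (μ F) = F ∧ v (μ F) = - v F ∧
        ∃ l i, l ∈ F ∧ i ∉ F ∧ μ F = insert i (F.erase l) := by
  classical
  set n := Fintype.card ι with hn
  obtain ⟨k, hk⟩ := h
  obtain ⟨μ, v, hv, hμ⟩ := match_of_chain Sw (fun _ _ h => h.symm) k (rdl n r)
    (by rw [rdl_length, hk]; omega) (rdl_nodup n r) (rdl_chain n r)
  let e : ι ≃ Fin n := Fintype.equivFin ι
  let j : Finset ι → Finset ℕ := fun F => F.image fun i => (e i : ℕ)
  let q : Finset ℕ → Finset ι := fun G => univ.filter fun i => (e i : ℕ) ∈ G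
  have hinj : Function.Injective fun i : ι => (e i : ℕ) := fun a b hab =>
    e.injective (Fin.ext hab)
  have hmj : ∀ F i, (e i : ℕ) ∈ j F ↔ i ∈ F := by
    intro F i
    simp only [j, mem_image]
    constructor
    · rintro ⟨a, ha, hab⟩
      exact hinj hab ▸ ha
    · intro h
      exact ⟨i, h, rfl⟩
  have hmq : ∀ G i, i ∈ q G ↔ (e i : ℕ) ∈ G := by
    intro G i
    simp only [q, mem_filter, mem_univ, true_and]
  have hqj : ∀ F, q (j F) = F := by
    intro F
    ext i
    rw [hmq, hmj]
  have hjs : ∀ F, j F ⊆ range n := by
    intro F x hx
    simp only [j, mem_image] at hx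
    obtain ⟨i, -, rfl⟩ := hx
    exact mem_range.mpr (e i).2
  have hjq : ∀ G, G ⊆ range n → j (q G) = G := by
    intro G hG
    ext x
    constructor
    · intro hx
      simp only [j, mem_image] at hx
      obtain ⟨i, hi, rfl⟩ := hx
      exact (hmq G i).mp hi
    · intro hx
      have h1 := mem_range.mp (hG hx)
      have h2 : ((e (e.symm ⟨x, h1⟩) : Fin n) : ℕ) = x := by simp
      rw [← h2]
      rw [hmj, hmq, h2]
      exact hx
  have hjc : ∀ F, (j F).card = F.card := fun F => card_image_of_injective F hinj
  refine ⟨fun F => q (μ (j F)), fun F => v (j F), fun F => hv _, ?_⟩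
  intro F hF
  dsimp only
  have hm : j F ∈ rdl n r := (mem_rdl n r _).mpr ⟨hjs F, by rw [hjc, hF]⟩
  obtain ⟨h1, h2, h3, l, i, hl, hi, h4⟩ := hμ _ hm
  have h5 := (mem_rdl n r _).mp h1
  have h6 := hjq _ h5.1
  refine ⟨?_, ?_, ?_, ?_⟩
  · rw [← hjc, h6, h5.2]
  · rw [h6, h2, hqj]
  · rw [h6, h3]
  · have hln : l < n := mem_range.mp (hjs F hl)
    have hin : i < n := by
      have : i ∈ μ (j F) := by rw [h4]; exact mem_insert_self _ _
      exact mem_range.mp (h5.1 this)
    have hl2 : ((e (e.symm ⟨l, hln⟩) : Fin n) : ℕ) = l := by simp
    have hi2 : ((e (e.symm ⟨i, hin⟩) : Fin n) : ℕ) = i := by simp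
    refine ⟨e.symm ⟨l, hln⟩, e.symm ⟨i, hin⟩, ?_, ?_, ?_⟩
    · rw [← hmj, hl2]; exact hl
    · rw [← hmj, hi2]; exact hi
    · ext x
      rw [hmq, h4, mem_insert, mem_erase, mem_insert, mem_erase, hmj]
      have hx1 : (e x : ℕ) = i ↔ x = e.symm ⟨i, hin⟩ := by
        constructor
        · intro h
          exact hinj (by dsimp only; rw [h, hi2])
        · rintro rfl
          exact hi2
      have hx2 : (e x : ℕ) = l ↔ x = e.symm ⟨l, hln⟩ := by
        constructor
        · intro h
          exact hinj (by dsimp only; rw [h, hl2])
        · rintro rfl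
          exact hl2
      rw [hx1, Ne, Ne, hx2]

/-- the middle binomial coefficient `a.choose (a / 2)` is even unless `a + 1` is a power of two -/
theorem choose_half_even (a : ℕ) (h : ¬ ∃ r : ℕ, a + 1 = 2 ^ r) : Even (a.choose (a / 2)) := by
  rcases Nat.even_or_odd' a with ⟨m, rfl | rfl⟩
  · have hm : m ≠ 0 := by
      rintro rfl
      exact h ⟨0, rfl⟩
    rw [Nat.mul_div_cancel_left m (by norm_num)]
    exact even_iff_two_dvd.mpr (Nat.two_dvd_centralBinom_of_one_le (n := m) (by omega))
  · have h1 : (2 * m + 1) / 2 = m := by omega
    rw [h1]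
    apply OddG.choose_even
    rintro ⟨r, hr⟩
    exact h ⟨r + 1, by rw [pow_succ, ← hr]; omega⟩

/-- the matching of the middle level of the Johnson graph, `card ι + 1` not a power of two -/
theorem johnson_half {ι : Type} [Fintype ι] [DecidableEq ι]
    (h : ¬ ∃ r : ℕ, Fintype.card ι + 1 = 2 ^ r) :
    ∃ (μ : Finset ι → Finset ι) (v : Finset ι → ℝ), (∀ F, v F = 1 ∨ v F = -1) ∧
      ∀ F : Finset ι, F.card = Fintype.card ι / 2 →
        (μ F).card = Fintype.card ι / 2 ∧ μ (μ F) = F ∧ v (μ F) = - v F ∧
        ∃ l i, l ∈ F ∧ i ∉ F ∧ μ F = insert i (F.erase l) :=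
  johnson_matching _ (choose_half_even _ h)

end BG
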