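import Pool.Agent.Lib.MP_e26f2a_co.BG.EvenDefs
import Pool.Agent.Lib.MP_e26f2a_co.BG.Johnson

/-!
# The data of the perfect matching of the middle layer (MP_e26f2a_co, Biggs project)
-/

set_option autoImplicit false

namespace BG

open Finset

section
variable {ι : Type} [DecidableEq ι] [Fintype ι]

omit [Fintype ι] in
/-- swaps: the removed and the added element of `F ↦ insert i (F.erase l)` are determined -/
private theorem mdata_swap {F G : Finset ι} {l i l' i' : ι} (hl : l ∈ F) (hi : i ∉ F)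
    (hl' : l' ∈ G) (hG : G = insert i (F.erase l)) (hF : insert i' (G.erase l') = F) :
    i' = l ∧ l' = i := by
  have hli : l ≠ i := fun h => hi (h ▸ hl)
  have hlG : l ∉ G := by
    rw [hG, mem_insert, mem_erase]
    rintro (h | h)
    · exact hli h
    · exact h.1 rfl
  have h1 : i' = l := by
    have h2 : l ∈ insert i' (G.erase l') := hF ▸ hl
    rcases mem_insert.1 h2 with h | h
    · exact h.symm
    · exact absurd (mem_of_mem_erase h) hlG
  refine ⟨h1, ?_⟩
  by_contra hne
  have hiG : i ∈ G := by rw [hG]; exact mem_insert_self _ _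
  have h2 : i ∈ insert i' (G.erase l') := mem_insert_of_mem (mem_erase.2 ⟨fun h => hne h.symm, hiG⟩)
  rw [hF] at h2
  exact hi h2

/-- V1 -/
theorem exists_mdata (h : ¬ ∃ r : ℕ, Fintype.card ι + 1 = 2 ^ r) :
    ∃ (v : Finset ι → ℝ) (jF iF : Finset ι → ι), MData (Fintype.card ι / 2) v jF iF := by
  obtain ⟨μ, v, hv, hμ⟩ := johnson_half (ι := ι) h
  set r := Fintype.card ι / 2 with hr
  -- `ι` is nonempty
  have hne : Nonempty ι := by
    by_contra hcon
    rw [not_nonempty_iff] at hcon
    exact h ⟨0, by rw [Fintype.card_eq_zero]; rfl⟩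
  have hx : ∀ F : Finset ι, ∃ q : ι × ι, F.card = r →
      q.1 ∈ F ∧ q.2 ∉ F ∧ μ F = insert q.2 (F.erase q.1) := by
    intro F
    by_cases hF : F.card = r
    · obtain ⟨_, _, _, l, i, hl, hi, hm⟩ := hμ F hF
      exact ⟨(l, i), fun _ => ⟨hl, hi, hm⟩⟩
    · exact ⟨(hne.some, hne.some), fun h => absurd h hF⟩
  choose q hq using hx
  refine ⟨v, fun F => (q F).2, fun F => (q F).1, hv, fun F hF => (hq F hF).1,
    fun F hF => (hq F hF).2.1, fun F hF => ?_, fun F hF => ?_, fun F hF => ?_⟩
  · rw [← (hq F hF).2.2]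
    exact (hμ F hF).2.2.1
  · have h1 := hq F hF
    have hc := (hμ F hF).1
    have h2 := hq (μ F) hc
    have h3 := (hμ F hF).2.1
    rw [h2.2.2] at h3
    have h4 := mdata_swap h1.1 h1.2.1 h2.1 h1.2.2 h3
    change (q (insert (q F).2 (F.erase (q F).1))).2 = (q F).1
    rw [← h1.2.2]
    exact h4.1
  · have h1 := hq F hF
    have hc := (hμ F hF).1
    have h2 := hq (μ F) hc
    have h3 := (hμ F hF).2.1
    rw [h2.2.2] at h3
    have h4 := mdata_swap h1.1 h1.2.1 h2.1 h1.2.2 h3
    change (q (insert (q F).2 (F.erase (q F).1))).1 = (q F).2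
    rw [← h1.2.2]
    exact h4.2

end

end BG
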