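import Pool.Agent.Lib.MP_e26f2a_co.BG.PairSum

/-!
# The downward sum of the flow `fl`
-/

set_option autoImplicit false

namespace BG

open Finset

section
variable {ι : Type} [DecidableEq ι] [Fintype ι]

private theorem dn5_mem_Qs (X : Finset (ι × Bool)) (i : ι) :
    i ∈ Qs X ↔ ((i, true) ∈ X ∧ (i, false) ∉ X) ∨ ((i, true) ∉ X ∧ (i, false) ∈ X) := by
  simp [Qs]

private theorem dn5_mem_Fs (X : Finset (ι × Bool)) (i : ι) :
    i ∈ Fs X ↔ (i, true) ∈ X ∧ (i, false) ∈ X := by
  simp [Fs]

private theorem dn5_mem_Es (X : Finset (ι × Bool)) (i : ι) :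
    i ∈ Es X ↔ (i, true) ∉ X ∧ (i, false) ∉ X := by
  simp [Es]

private theorem dn5_mem_Ng (X : Finset (ι × Bool)) (i : ι) :
    i ∈ Ng X ↔ (i, true) ∉ X ∧ (i, false) ∈ X := by
  simp [Ng]

omit [Fintype ι] in
private theorem dn5_mem_erase (X : Finset (ι × Bool)) (i j : ι) (b c : Bool) :
    (j, c) ∈ X.erase (i, b) ↔ ¬ (j = i ∧ c = b) ∧ (j, c) ∈ X := by
  rw [Finset.mem_erase, Ne, Prod.mk.injEq]

/-- removal of the element of a split pair -/
private theorem dn5_split (τ : Finset ι → Finset ι → ℝ) (X : Finset (ι × Bool)) (i : ι) (b : Bool)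
    (hi : i ∈ Qs X) (hb : (i, b) ∈ X) :
    fl τ (X.erase (i, b)) (i, b) =
      if (Qs X).card = 2 then τ (Fs X) (Qs X ∪ Es X) / (2 * (((Es X).card : ℝ) + 1)) else 0 := by
  have hnb : (i, !b) ∉ X := by
    rw [dn5_mem_Qs] at hi
    cases b <;> simp_all
  have hQ : Qs (X.erase (i, b)) = (Qs X).erase i := by
    ext j
    rw [Finset.mem_erase, dn5_mem_Qs, dn5_mem_Qs, dn5_mem_erase, dn5_mem_erase]
    by_cases hj : j = i
    · subst hj
      cases b <;> simp_all
    · simp [hj]
  have hF : Fs (X.erase (i, b)) = Fs X := by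
    ext j
    rw [dn5_mem_Fs, dn5_mem_Fs, dn5_mem_erase, dn5_mem_erase]
    by_cases hj : j = i
    · subst hj
      cases b <;> simp_all
    · simp [hj]
  have hE : Es (X.erase (i, b)) = insert i (Es X) := by
    ext j
    rw [Finset.mem_insert, dn5_mem_Es, dn5_mem_Es, dn5_mem_erase, dn5_mem_erase]
    by_cases hj : j = i
    · subst hj
      cases b <;> simp_all
    · simp [hj]
  have hiE : i ∉ Es X := by
    rw [dn5_mem_Es]
    cases b <;> simp_all
  unfold fl
  rw [hQ, hF, hE]
  rw [if_neg (by simp)]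
  have hc : ((Qs X).erase i).card = (Qs X).card - 1 := Finset.card_erase_of_mem hi
  have hpos : 0 < (Qs X).card := Finset.card_pos.2 ⟨i, hi⟩
  by_cases h2 : (Qs X).card = 2
  · have h1 : ((Qs X).erase i).card = 1 := by omega
    rw [if_pos h1, if_pos h2, Finset.card_insert_of_notMem hiE]
    obtain ⟨j, hj⟩ := Finset.card_eq_one.1 h1
    rw [hj, Finset.sum_singleton]
    have hu : insert j (insert i (Es X)) = Qs X ∪ Es X := by
      rw [← Finset.insert_erase hi, hj]
      ext k
      simp only [Finset.mem_insert, Finset.mem_union, Finset.mem_singleton]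
      tauto
    rw [hu]
    push_cast
    ring
  · have h1 : ((Qs X).erase i).card ≠ 1 := by omega
    rw [if_neg h1, if_neg h2]

/-- removal of an element of a full pair -/
private theorem dn5_full (τ : Finset ι → Finset ι → ℝ) (X : Finset (ι × Bool)) (i : ι) (b : Bool)
    (hi : i ∈ Fs X) :
    fl τ (X.erase (i, b)) (i, b) =
      (if b then -1 else 1) * (ch X * (∑ j ∈ Qs X, sg X j * τ ((Fs X).erase i)
        (insert j (Es X))) / ((Qs X).card : ℝ)) := by
  have hi' := (dn5_mem_Fs X i).1 hi
  have hiQ : i ∉ Qs X := by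
    rw [dn5_mem_Qs]
    simp [hi'.1, hi'.2]
  have hQ : Qs (X.erase (i, b)) = insert i (Qs X) := by
    ext j
    rw [Finset.mem_insert, dn5_mem_Qs, dn5_mem_Qs, dn5_mem_erase, dn5_mem_erase]
    by_cases hj : j = i
    · subst hj
      cases b <;> simp_all
    · simp [hj]
  have hF : Fs (X.erase (i, b)) = (Fs X).erase i := by
    ext j
    rw [Finset.mem_erase, dn5_mem_Fs, dn5_mem_Fs, dn5_mem_erase, dn5_mem_erase]
    by_cases hj : j = i
    · subst hj
      cases b <;> simp_all
    · simp [hj]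
  have hE : Es (X.erase (i, b)) = Es X := by
    ext j
    rw [dn5_mem_Es, dn5_mem_Es, dn5_mem_erase, dn5_mem_erase]
    by_cases hj : j = i
    · subst hj
      cases b <;> simp_all
    · simp [hj]
  have hch : ch (X.erase (i, b)) = (if b then -1 else 1) * ch X := by
    have hiN : i ∉ Ng X := by
      rw [dn5_mem_Ng]
      simp [hi'.1]
    have hN : Ng (X.erase (i, b)) = if b then insert i (Ng X) else Ng X := by
      ext j
      rw [dn5_mem_Ng, dn5_mem_erase, dn5_mem_erase]
      by_cases hj : j = i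
      · subst hj
        cases b <;> simp_all [dn5_mem_Ng]
      · cases b <;> simp [hj, dn5_mem_Ng]
    unfold ch
    rw [hN]
    cases b
    · simp
    · simp only [if_true]
      rw [Finset.card_insert_of_notMem hiN, pow_succ]
      ring
  have hsg : ∀ j ∈ Qs X, sg (X.erase (i, b)) j = sg X j := by
    intro j hj
    have hji : j ≠ i := fun h => hiQ (h ▸ hj)
    unfold sg
    simp only [dn5_mem_erase, hji, false_and, not_false_eq_true, true_and]
  unfold fl
  rw [hQ, hF, hE, hch]
  rw [if_pos (Finset.mem_insert_self i (Qs X)), Finset.erase_insert hiQ,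
    Finset.card_insert_of_notMem hiQ]
  rw [Finset.sum_congr rfl (fun j hj => by rw [hsg j hj])]
  push_cast
  rw [show ((Qs X).card : ℝ) + 1 - 1 = (Qs X).card by ring]
  ring

/-- P8 -/
theorem dn_fl (τ : Finset ι → Finset ι → ℝ) (X : Finset (ι × Bool)) :
    dn (fl τ) X = if (Qs X).card = 2 then τ (Fs X) (Qs X ∪ Es X) / (((Es X).card : ℝ) + 1)
      else 0 := by
  unfold dn
  rw [sum_mem X (fun x => fl τ (X.erase x) x)]
  have h2 : ∑ i ∈ Fs X, (fl τ (X.erase (i, true)) (i, true)
      + fl τ (X.erase (i, false)) (i, false)) = 0 := by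
    apply Finset.sum_eq_zero
    intro i hi
    rw [dn5_full τ X i true hi, dn5_full τ X i false hi]
    simp
  have h1 : ∀ i ∈ Qs X, (if (i, true) ∈ X then fl τ (X.erase (i, true)) (i, true)
      else fl τ (X.erase (i, false)) (i, false)) =
      if (Qs X).card = 2 then τ (Fs X) (Qs X ∪ Es X) / (2 * (((Es X).card : ℝ) + 1)) else 0 := by
    intro i hi
    by_cases ht : (i, true) ∈ X
    · rw [if_pos ht, dn5_split τ X i true hi ht]
    · have hf : (i, false) ∈ X := by
        rw [dn5_mem_Qs] at hi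
        tauto
      rw [if_neg ht, dn5_split τ X i false hi hf]
  rw [h2, Finset.sum_congr rfl h1, add_zero, Finset.sum_const, nsmul_eq_mul]
  by_cases hc : (Qs X).card = 2
  · rw [if_pos hc, if_pos hc, hc]
    have hne : ((Es X).card : ℝ) + 1 ≠ 0 := by positivity
    push_cast
    field_simp
  · rw [if_neg hc, if_neg hc, mul_zero]

end

end BG
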