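import Pool.Agent.Lib.MP_e26f2a_co.BG.PairSum
import Pool.Agent.Lib.MP_e26f2a_co.BG.PairErase
import Pool.Agent.Lib.MP_e26f2a_co.BG.PairCard

/-!
# The flow on pairs: divergence and bounds (MP_e26f2a_co, Biggs project)
-/

set_option autoImplicit false

namespace BG

open Finset

section
variable {ι : Type} [DecidableEq ι] [Fintype ι]

private theorem pf_abs_ch (X : Finset (ι × Bool)) : |ch X| = 1 := by
  unfold ch
  rw [abs_pow, abs_neg, abs_one, one_pow]

private theorem pf_abs_sg (X : Finset (ι × Bool)) (i : ι) : |sg X i| ≤ 1 := by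
  unfold sg
  split_ifs <;> norm_num

private theorem pf_card (m : ℕ) (hι : Fintype.card ι = m) (X : Finset (ι × Bool))
    (hX : X.card = m + 1) : (Fs X).card = (Es X).card + 1 ∧
      (Qs X).card + 2 * (Es X).card + 1 = m := by
  have h1 := card_pairs X
  have h2 := card_univ_pairs X
  omega

private theorem pf_ch_sg (X : Finset (ι × Bool)) (i : ι) (h : Qs X = {i}) :
    ch X * sg X i = 1 := by
  have hi : i ∈ Qs X := by rw [h]; exact mem_singleton_self i
  have hN : ∀ j, j ∈ Ng X → j = i := by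
    intro j hj
    have h1 : j ∈ Qs X := by
      unfold Ng at hj
      unfold Qs
      simp only [mem_filter, mem_univ, true_and] at hj ⊢
      exact Or.inr hj
    rw [h] at h1
    exact mem_singleton.1 h1
  unfold Qs at hi
  simp only [mem_filter, mem_univ, true_and] at hi
  rcases hi with ⟨h1, h2⟩ | ⟨h1, h2⟩
  · have h3 : Ng X = ∅ := by
      rw [eq_empty_iff_forall_notMem]
      intro j hj
      have h4 := hN j hj
      subst h4
      unfold Ng at hj
      simp only [mem_filter, mem_univ, true_and] at hj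
      exact hj.1 h1
    unfold ch sg
    rw [h3, if_pos h1, if_neg h2]
    norm_num
  · have h3 : Ng X = {i} := by
      ext j
      rw [mem_singleton]
      refine ⟨hN j, ?_⟩
      rintro rfl
      unfold Ng
      simp only [mem_filter, mem_univ, true_and]
      exact ⟨h1, h2⟩
    unfold ch sg
    rw [h3, if_neg h1, if_pos h2]
    norm_num

private theorem pf_fl (τ : Finset ι → Finset ι → ℝ) (X : Finset (ι × Bool)) (i : ι) (b : Bool) :
    fl τ X (i, b) = if i ∈ Qs X then
      ch X * (∑ j ∈ (Qs X).erase i, sg X j * τ (Fs X) (insert j (Es X))) /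
        (((Qs X).card : ℝ) - 1)
      else if (Qs X).card = 1 then
        (∑ j ∈ Qs X, τ (Fs X) (insert j (Es X))) / (2 * ((Es X).card : ℝ))
      else 0 := rfl

private theorem pf_not (X : Finset (ι × Bool)) (i : ι) (h : i ∈ Es X) : i ∉ Qs X := by
  unfold Es at h
  unfold Qs
  simp only [mem_filter, mem_univ, true_and] at h ⊢
  tauto

private theorem pf_double (Q : Finset ι) (a : ι → ℝ) :
    ∑ l ∈ Q, ∑ j ∈ Q.erase l, a j = ((Q.card : ℝ) - 1) * ∑ j ∈ Q, a j := by
  have h1 : ∀ l ∈ Q, ∑ j ∈ Q.erase l, a j = (∑ j ∈ Q, a j) - a l := by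
    intro l hl
    rw [← Finset.add_sum_erase Q a hl]
    ring
  rw [Finset.sum_congr rfl h1, Finset.sum_sub_distrib, Finset.sum_const, nsmul_eq_mul]
  ring

/-- P5 -/
theorem sum_fl (m : ℕ) (hm : 3 ≤ m) (hι : Fintype.card ι = m) (τ : Finset ι → Finset ι → ℝ)
    (X : Finset (ι × Bool)) (hX : X.card = m+1) : ∑ x ∈ Xᶜ, fl τ X x = sh (tw τ) X := by
  obtain ⟨c1, c2⟩ := pf_card m hι X hX
  rw [sum_compl_mem, sh_tw]
  have h1 : (∑ i ∈ Qs X, if (i, true) ∈ X then fl τ X (i, false) else fl τ X (i, true)) =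
      (∑ l ∈ Qs X, ∑ j ∈ (Qs X).erase l, sg X j * τ (Fs X) (insert j (Es X))) *
        (ch X / (((Qs X).card : ℝ) - 1)) := by
    rw [Finset.sum_mul]
    refine Finset.sum_congr rfl fun i hi => ?_
    rw [pf_fl, pf_fl, if_pos hi, ite_self]
    ring
  have h2 : (∑ i ∈ Es X, (fl τ X (i, true) + fl τ X (i, false))) =
      if (Qs X).card = 1 then ((Es X).card : ℝ) *
        (2 * ((∑ j ∈ Qs X, τ (Fs X) (insert j (Es X))) / (2 * ((Es X).card : ℝ)))) else 0 := by
    have h3 : ∀ i ∈ Es X, fl τ X (i, true) + fl τ X (i, false) =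
        if (Qs X).card = 1 then
          2 * ((∑ j ∈ Qs X, τ (Fs X) (insert j (Es X))) / (2 * ((Es X).card : ℝ))) else 0 := by
      intro i hi
      rw [pf_fl, pf_fl, if_neg (pf_not X i hi)]
      split_ifs
      · ring
      · ring
    rw [Finset.sum_congr rfl h3, Finset.sum_const, nsmul_eq_mul]
    split_ifs
    · rfl
    · rw [mul_zero]
  rw [h1, h2, pf_double]
  by_cases hq : (Qs X).card = 1
  · obtain ⟨i, hi⟩ := Finset.card_eq_one.1 hq
    have hE : (1 : ℝ) ≤ ((Es X).card : ℝ) := by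
      have : 1 ≤ (Es X).card := by omega
      exact_mod_cast this
    have h5 := pf_ch_sg X i hi
    rw [if_pos hq, hi, Finset.sum_singleton, Finset.sum_singleton, Finset.card_singleton]
    have h6 : ch X * (sg X i * τ (Fs X) (insert i (Es X))) = τ (Fs X) (insert i (Es X)) := by
      rw [← mul_assoc, h5, one_mul]
    rw [h6, Nat.cast_one, sub_self, zero_mul, zero_mul, zero_add]
    field_simp
  · rw [if_neg hq, add_zero]
    by_cases h0 : (Qs X).card = 0
    · rw [Finset.card_eq_zero] at h0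
      rw [h0]
      simp
    · have h6 : (((Qs X).card : ℝ) - 1) ≠ 0 := by
        have : (2 : ℝ) ≤ ((Qs X).card : ℝ) := by
          have : 2 ≤ (Qs X).card := by omega
          exact_mod_cast this
        linarith
      field_simp

/-- P6 -/
theorem abs_sh_tw (m : ℕ) (hm : 3 ≤ m) (hι : Fintype.card ι = m) (τ : Finset ι → Finset ι → ℝ)
    (hτ : ∀ F E, |τ F E| ≤ 1)
    (X : Finset (ι × Bool)) (hX : X.card = m+1) : |sh (tw τ) X| ≤ (m:ℝ)-1 := by
  obtain ⟨c1, c2⟩ := pf_card m hι X hX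
  rw [sh_tw, abs_mul, pf_abs_ch, one_mul]
  have h1 : |∑ i ∈ Qs X, sg X i * τ (Fs X) (insert i (Es X))| ≤ ∑ _i ∈ Qs X, (1 : ℝ) := by
    refine (Finset.abs_sum_le_sum_abs _ _).trans (Finset.sum_le_sum fun i _ => ?_)
    rw [abs_mul]
    calc |sg X i| * |τ (Fs X) (insert i (Es X))| ≤ 1 * 1 :=
          mul_le_mul (pf_abs_sg X i) (hτ _ _) (abs_nonneg _) zero_le_one
      _ = 1 := one_mul 1
  refine h1.trans ?_
  rw [Finset.sum_const, nsmul_eq_mul, mul_one]
  have h2 : (Qs X).card + 1 ≤ m := by omega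
  have h3 : (((Qs X).card + 1 : ℕ) : ℝ) ≤ (m : ℝ) := by exact_mod_cast h2
  push_cast at h3
  linarith

/-- P7 -/
theorem abs_fl (m : ℕ) (hm : 3 ≤ m) (hι : Fintype.card ι = m) (τ : Finset ι → Finset ι → ℝ)
    (hτ : ∀ F E, |τ F E| ≤ 1)
    (X : Finset (ι × Bool)) (x : ι × Bool) (hX : X.card = m+1) (hx : x ∉ X) :
    |fl τ X x| ≤ 1 := by
  unfold fl
  split_ifs with h1 h2
  · rw [abs_div, abs_mul, pf_abs_ch, one_mul]
    have h3 : |∑ j ∈ (Qs X).erase x.1, sg X j * τ (Fs X) (insert j (Es X))| ≤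
        ∑ _j ∈ (Qs X).erase x.1, (1 : ℝ) := by
      refine (Finset.abs_sum_le_sum_abs _ _).trans (Finset.sum_le_sum fun i _ => ?_)
      rw [abs_mul]
      calc |sg X i| * |τ (Fs X) (insert i (Es X))| ≤ 1 * 1 :=
            mul_le_mul (pf_abs_sg X i) (hτ _ _) (abs_nonneg _) zero_le_one
        _ = 1 := one_mul 1
    have h4 : (1 : ℝ) ≤ ((Qs X).card : ℝ) := by
      have : 1 ≤ (Qs X).card := Finset.card_pos.2 ⟨_, h1⟩
      exact_mod_cast this
    have h5 : ∑ _j ∈ (Qs X).erase x.1, (1 : ℝ) = ((Qs X).card : ℝ) - 1 := by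
      rw [Finset.sum_const, nsmul_eq_mul, mul_one, Finset.card_erase_of_mem h1, Nat.cast_sub]
      · push_cast
        ring
      · exact Finset.card_pos.2 ⟨_, h1⟩
    rw [h5] at h3
    rw [abs_of_nonneg (by linarith : (0 : ℝ) ≤ ((Qs X).card : ℝ) - 1)]
    exact div_le_one_of_le₀ h3 (by linarith)
  · rw [abs_div]
    obtain ⟨i, hi⟩ := Finset.card_eq_one.1 h2
    obtain ⟨c1, c2⟩ := pf_card m hι X hX
    have hE : (1 : ℝ) ≤ ((Es X).card : ℝ) := by
      have : 1 ≤ (Es X).card := by omega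
      exact_mod_cast this
    rw [hi, Finset.sum_singleton, abs_of_pos (by linarith : (0 : ℝ) < 2 * ((Es X).card : ℝ))]
    refine div_le_one_of_le₀ ?_ (by linarith)
    exact (hτ _ _).trans (by linarith)
  · rw [abs_zero]
    exact zero_le_one

end

end BG
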