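import Pool.Agent.Lib.MP_e26f2a_co.BG.Pair

/-!
# An odd twist (MP_e26f2a_co, Biggs project)
-/

set_option autoImplicit false

namespace BG

open Finset

/-- P9 -/
theorem exists_odd_twist (ι : Type) [DecidableEq ι] [Fintype ι] :
    ∃ τ : Finset ι → Finset ι → ℝ, (∀ F E, τ E F = - τ F E) ∧ (∀ F, τ F F = 0) ∧
      (∀ F E, F ≠ E → τ F E = 1 ∨ τ F E = -1) := by
  let e := Fintype.equivFin (Finset ι)
  refine ⟨fun F E => if e F < e E then 1 else if e E < e F then -1 else 0, ?_, ?_, ?_⟩
  · intro F E
    rcases lt_trichotomy (e F) (e E) with h | h | h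
    · simp [h, not_lt.2 h.le]
    · simp [h]
    · simp [h, not_lt.2 h.le]
  · intro F
    simp
  · intro F E hFE
    have hne : e F ≠ e E := fun h => hFE (e.injective h)
    rcases lt_or_gt_of_ne hne with h | h
    · left
      simp [h]
    · right
      simp [h, not_lt.2 h.le]

end BG
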