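import Pool.Agent.Lib.MP_e26f2a_co.BG.OddScheme2
import Pool.Agent.Lib.MP_e26f2a_co.BG.PairFlow
import Pool.Agent.Lib.MP_e26f2a_co.BG.PairDn
import Pool.Agent.Lib.MP_e26f2a_co.BG.Twist
import Pool.Agent.Lib.MP_e26f2a_co.BG.GH

/-!
# Biggs' conjecture for odd `k >= 7` (MP_e26f2a_co)
-/

set_option autoImplicit false

namespace BG

open Finset

theorem tw_one {ι : Type} [DecidableEq ι] [Fintype ι] :
    tw (fun _ _ => (1:ℝ)) = (ch : Finset (ι × Bool) → ℝ) := by
  funext X; simp [tw]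

theorem abs_dn_fl {ι : Type} [DecidableEq ι] [Fintype ι] (τ : Finset ι → Finset ι → ℝ)
    (hτ : ∀ F E, |τ F E| ≤ 1) (X : Finset (ι × Bool)) : |dn (fl τ) X| ≤ 1 := by
  rw [dn_fl]
  split_ifs with h
  · have h1 : (0:ℝ) ≤ ((Es X).card : ℝ) := Nat.cast_nonneg _
    rw [abs_div, abs_of_pos (show (0:ℝ) < ((Es X).card : ℝ) + 1 by linarith),
      div_le_one (by linarith)]
    exact le_trans (hτ _ _) (by linarith)
  · simp

theorem FE_eq {ι : Type} [DecidableEq ι] [Fintype ι] (X : Finset (ι × Bool)) (h : Fs X = Es X) :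
    Fs X = ∅ ∧ Es X = ∅ := by
  have : Es X = ∅ := by
    rw [Finset.eq_empty_iff_forall_notMem]
    intro i hi
    have h2 : i ∈ Fs X := by rw [h]; exact hi
    simp only [Fs, Es, mem_filter, mem_univ, true_and] at hi h2
    exact hi.1 h2.1
  exact ⟨by rw [h, this], this⟩

theorem odd_case (m : ℕ) (hm : 3 ≤ m) : Col (2*m+1) := by
  obtain ⟨r, rfl⟩ : ∃ r, m = r + 3 := ⟨m-3, by omega⟩
  obtain ⟨τ, t1, t2, t3⟩ := exists_odd_twist (Fin (r+3))
  obtain ⟨γ, g1, g2, g3⟩ := exists_gh r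
  set κ : Finset (Fin (r+3)) → Finset (Fin (r+3)) → ℝ := fun F E => if F = ∅ ∧ E = ∅ then 1 else 0
    with hκ
  have hτ : ∀ F E, |τ F E| ≤ 1 := by
    intro F E
    by_cases h : F = E
    · subst h; rw [t2]; simp
    · rcases t3 F E h with h | h <;> rw [h] <;> simp
  have h1 : ∀ F E : Finset (Fin 3 ⊕ Fin r), |(fun _ _ => (1:ℝ)) F E| ≤ 1 := by intro F E; simp
  have hcP : Fintype.card (Fin (r+3)) = r+3 := by simp
  have hcN : Fintype.card (Fin 3 ⊕ Fin r) = r+3 := by simp [add_comm]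
  -- dichotomy on the P side
  have dich : ∀ X : Finset (Fin (r+3) × Bool),
      (tw τ X = 0 ∧ tw κ X = ch X) ∨ ((tw τ X = 1 ∨ tw τ X = -1) ∧ tw κ X = 0) := by
    intro X
    by_cases h : Fs X = Es X
    · left
      obtain ⟨hF, hE⟩ := FE_eq X h
      constructor
      · rw [tw, h, t2, mul_zero]
      · rw [tw, hF, hE]; simp [hκ]
    · right
      constructor
      · rw [tw]
        rcases ch_cases X with hc | hc <;> rcases t3 _ _ h with ht | ht <;> rw [hc, ht] <;> simp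
      · rw [tw]
        have : κ (Fs X) (Es X) = 0 := by
          simp only [hκ]
          rw [if_neg]
          rintro ⟨hF, hE⟩
          exact h (by rw [hF, hE])
        rw [this, mul_zero]
  have shκ : ∀ X : Finset (Fin (r+3) × Bool), sh (tw κ) X = 0 := by
    intro X
    rw [sh_tw]
    rw [Finset.sum_eq_zero, mul_zero]
    intro i _
    have : κ (Fs X) (insert i (Es X)) = 0 := by
      simp only [hκ]
      rw [if_neg]
      rintro ⟨_, hE⟩
      exact Finset.insert_ne_empty _ _ hE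
    rw [this, mul_zero]
  refine odd_scheme' (P := Fin (r+3) × Bool) (N := (Fin 3 ⊕ Fin r) × Bool) (r+3) hm ?_ ?_
    (fun X V => tw τ X * ch V + tw κ X * γ V) (sh (tw τ)) ch (fl τ) (fl (fun _ _ => 1))
    ?_ ?_ ?_ ?_ ?_ ?_ ?_ ?_ ?_ ?_ ?_ ?_ ?_ ?_
  · simp [mul_comm]
  · simp only [Fintype.card_prod, Fintype.card_sum, Fintype.card_fin, Fintype.card_bool]; ring
  · intro X V _ _
    rcases dich X with ⟨a, b⟩ | ⟨a, b⟩
    · rw [a, b]
      rcases ch_cases X with hc | hc <;> rcases g1 V with hg | hg <;> rw [hc, hg] <;> simp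
    · rw [b]
      rcases a with a | a <;> rcases ch_cases V with hc | hc <;> rw [a, hc] <;> simp
  · intro X V hX hV
    have e1 : tw τ Xᶜ = (-1)^(r+3) * (- tw τ X) := by
      rw [tw, tw, ch_compl, Fs_compl, Es_compl, pow_q, hX, t1]; ring
    have e2 : tw κ Xᶜ = (-1)^(r+3) * tw κ X := by
      rw [tw, tw, ch_compl, Fs_compl, Es_compl, pow_q, hX]
      have : κ (Es X) (Fs X) = κ (Fs X) (Es X) := by simp only [hκ, and_comm]
      rw [this]; ring
    have e3 : ch Vᶜ = (-1)^(r+3) * ch V := by rw [ch_compl, pow_q, hV]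
    have e4 := g2 V hV
    have e5 : (-1:ℝ)^(r+3) * (-1)^(r+3) = 1 := by rw [← pow_add]; simp
    rw [e1, e2, e3, e4, pow_succ]
    linear_combination (-(tw τ X * ch V + tw κ X * γ V)) * e5
  · intro X V _ hV
    have e1 : ∑ v ∈ V, (tw τ X * ch (V.erase v) + tw κ X * γ (V.erase v)) =
        tw τ X * sh ch V + tw κ X * sh γ V := by
      rw [Finset.sum_add_distrib, ← Finset.mul_sum, ← Finset.mul_sum]; rfl
    rw [e1]
    have e2 : |sh ch V| ≤ ((r+3:ℕ):ℝ) - 1 := by
      rw [← tw_one]; exact abs_sh_tw (r+3) hm hcN _ h1 V hV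
    have e3 := g3 V hV
    rcases dich X with ⟨a, b⟩ | ⟨a, b⟩
    · rw [a, b, zero_mul, zero_add, abs_mul, abs_ch, one_mul]; exact e3
    · rw [b, zero_mul, add_zero, abs_mul]
      rcases a with a | a <;> rw [a] <;> simpa using e2
  · intro X V _ _
    have e1 : ∑ x ∈ X, (tw τ (X.erase x) * ch V + tw κ (X.erase x) * γ V) =
        sh (tw τ) X * ch V + sh (tw κ) X * γ V := by
      rw [Finset.sum_add_distrib, ← Finset.sum_mul, ← Finset.sum_mul]; rfl
    rw [e1, shκ, zero_mul, add_zero]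
  · intro V _; rw [abs_ch]
  · intro X hX; exact abs_sh_tw (r+3) hm hcP τ hτ X hX
  · intro V hV; rw [← tw_one]; exact abs_sh_tw (r+3) hm hcN _ h1 V hV
  · intro X hX; exact sum_fl (r+3) hm hcP τ X hX
  · intro X x hX hx; exact abs_fl (r+3) hm hcP τ hτ X x hX hx
  · intro X _; exact abs_dn_fl τ hτ X
  · intro hr X hX
    rw [dn_fl, if_neg]
    intro h
    have := card_pairs X
    omega
  · intro V hV; rw [← tw_one]; exact sum_fl (r+3) hm hcN _ V hV
  · intro V v hV hv; exact abs_fl (r+3) hm hcN _ h1 V v hV hv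
  · intro V _; exact abs_dn_fl _ h1 V

end BG
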