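import Pool.Agent.Lib.MP_e26f2a_co.BG.EvenDefs
import Pool.Agent.Lib.MP_e26f2a_co.BG.PairSum
import Pool.Agent.Lib.MP_e26f2a_co.BG.PairErase

/-!
# Sums of the transfer flow `trf jF iF (c5 v) (-1) true` (MP_e26f2a_co, Biggs project)
-/

set_option autoImplicit false

namespace BG

open Finset

section
variable {ι : Type} [DecidableEq ι] [Fintype ι]

omit [Fintype ι] in
private theorem t5_mem_ins (X : Finset (ι × Bool)) (i j : ι) (b c : Bool) (h : j ≠ i) :
    (j, c) ∈ insert (i, b) X ↔ (j, c) ∈ X := by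
  rw [mem_insert]
  constructor
  · rintro (h1 | h1)
    · exact absurd (congrArg Prod.fst h1) h
    · exact h1
  · exact Or.inr

omit [Fintype ι] in
private theorem t5_sg_ne (X : Finset (ι × Bool)) (i j : ι) (b : Bool) (h : j ≠ i) :
    sg (insert (i, b) X) j = sg X j := by
  unfold sg
  simp only [t5_mem_ins X i j b _ h]

private theorem t5_Qs_fill (X : Finset (ι × Bool)) (i : ι) (b : Bool) (hi : i ∈ Qs X)
    (hb : (i, b) ∉ X) : Qs (insert (i, b) X) = (Qs X).erase i := by
  rw [pe_mem_Qs] at hi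
  ext j
  rw [mem_erase, pe_mem_Qs, pe_mem_Qs]
  by_cases h : j = i
  · subst h
    cases b <;> simp only [mem_insert, Prod.mk.injEq, true_and] <;> simp <;> tauto
  · simp only [t5_mem_ins X i j b _ h]
    tauto

private theorem t5_Fs_fill (X : Finset (ι × Bool)) (i : ι) (b : Bool) (hi : i ∈ Qs X)
    (hb : (i, b) ∉ X) : Fs (insert (i, b) X) = insert i (Fs X) := by
  rw [pe_mem_Qs] at hi
  ext j
  rw [mem_insert, pe_mem_Fs, pe_mem_Fs]
  by_cases h : j = i
  · subst h
    cases b <;> simp only [mem_insert, Prod.mk.injEq, true_and] <;> simp <;> tauto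
  · simp only [t5_mem_ins X i j b _ h]
    tauto

private theorem t5_Qs_new (X : Finset (ι × Bool)) (i : ι) (b : Bool) (hi : i ∈ Es X) :
    Qs (insert (i, b) X) = insert i (Qs X) := by
  rw [pe_mem_Es] at hi
  ext j
  rw [mem_insert, pe_mem_Qs, pe_mem_Qs]
  by_cases h : j = i
  · subst h
    cases b <;> simp only [mem_insert, Prod.mk.injEq, true_and] <;> simp <;> tauto
  · simp only [t5_mem_ins X i j b _ h]
    tauto

private theorem t5_Fs_new (X : Finset (ι × Bool)) (i : ι) (b : Bool) (hi : i ∈ Es X) :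
    Fs (insert (i, b) X) = Fs X := by
  rw [pe_mem_Es] at hi
  ext j
  rw [pe_mem_Fs, pe_mem_Fs]
  by_cases h : j = i
  · subst h
    cases b <;> simp only [mem_insert, Prod.mk.injEq, true_and] <;> simp <;> tauto
  · simp only [t5_mem_ins X i j b _ h]

private theorem t5_sg_new (X : Finset (ι × Bool)) (i : ι) (b : Bool) (hi : i ∈ Es X) :
    sg (insert (i, b) X) i = sb b := by
  rw [pe_mem_Es] at hi
  unfold sg sb
  cases b <;> simp only [mem_insert, Prod.mk.injEq, true_and] <;> simp [hi.1, hi.2]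

private theorem t5_sb (X : Finset (ι × Bool)) (i : ι) (b : Bool) (hi : i ∈ Qs X)
    (hb : (i, b) ∉ X) : sb b = - sg X i := by
  rw [pe_mem_Qs] at hi
  unfold sg sb
  cases b
  · have h1 : (i, true) ∈ X := by tauto
    simp [h1, hb]
  · have h1 : (i, false) ∈ X := by tauto
    simp [h1, hb]

private theorem t5_Qs_Es {X : Finset (ι × Bool)} {i : ι} (hi : i ∈ Es X) : i ∉ Qs X := by
  rw [pe_mem_Es] at hi
  rw [pe_mem_Qs]
  tauto

private theorem t5_Qs_Fs {X : Finset (ι × Bool)} {i : ι} (hi : i ∈ Qs X) : i ∉ Fs X := by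
  rw [pe_mem_Qs] at hi
  rw [pe_mem_Fs]
  tauto

private theorem t5_zero (jF iF : Finset ι → ι) (c : Finset (ι × Bool) → ℝ) (σ : ℝ) (ty : Bool)
    (X : Finset (ι × Bool)) (x : ι × Bool) (h : c (insert x X) = 0) :
    trf jF iF c σ ty X x = 0 := by
  unfold trf
  rw [h]
  simp

private theorem t5_c5 (v : Finset ι → ℝ) (W : Finset (ι × Bool)) (h : (Qs W).card ≠ 1) :
    c5 v W = 0 := by
  unfold c5
  rw [if_neg fun hh => h hh.1]

/-- a nonzero term comes from a set with one split pair -/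
private theorem t5_new_zero (v : Finset ι → ℝ) (jF iF : Finset ι → ι) (X : Finset (ι × Bool))
    (i : ι) (b : Bool) (hi : i ∈ Es X) (hQ : (Qs X).card ≠ 0) :
    trf jF iF (c5 v) (-1) true X (i, b) = 0 := by
  refine t5_zero _ _ _ _ _ _ _ (t5_c5 v _ ?_)
  rw [t5_Qs_new X i b hi, card_insert_of_notMem (t5_Qs_Es hi)]
  omega

/-- the term of a split pair -/
private theorem t5_fill (r : ℕ) (v : Finset ι → ℝ) (jF iF : Finset ι → ι) (h : MData r v jF iF)
    (X : Finset (ι × Bool)) (hF : (Fs X).card + 1 = r) (i j : ι) (hij : i ≠ j)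
    (hQ : Qs X = {i, j}) (b : Bool) (hb : (i, b) ∉ X) :
    trf jF iF (c5 v) (-1) true X (i, b) =
      if jF (insert i (Fs X)) = j ∧ iF (insert i (Fs X)) = i ∧ sg X i = - sg X j ∧
        sg X j = - v (insert i (Fs X)) then - v (insert i (Fs X)) else 0 := by
  have hi : i ∈ Qs X := by rw [hQ]; simp
  have hiF : i ∉ Fs X := t5_Qs_Fs hi
  have hc : (insert i (Fs X)).card = r := by rw [card_insert_of_notMem hiF, hF]
  have hQW : Qs (insert (i, b) X) = {j} := by
    rw [t5_Qs_fill X i b hi hb, hQ]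
    ext l
    rw [mem_erase, mem_insert, mem_singleton]
    constructor
    · rintro ⟨h1, h2 | h2⟩
      · exact absurd h2 h1
      · exact h2
    · rintro rfl
      exact ⟨hij.symm, Or.inr rfl⟩
  have hFW := t5_Fs_fill X i b hi hb
  have hsj : sg (insert (i, b) X) j = sg X j := t5_sg_ne X i j b hij.symm
  have hjn := h.mj _ hc
  have hne : i ≠ jF (insert i (Fs X)) := fun hh => hjn (hh ▸ mem_insert_self _ _)
  have hsb := t5_sb X i b hi hb
  have hS : Ssum (insert (i, b) X) = sg X j := by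
    unfold Ssum
    rw [hQW, sum_singleton, hsj]
  unfold trf c5
  rw [hQW, hFW, hS]
  simp only [mem_singleton, card_singleton, true_and]
  by_cases h1 : jF (insert i (Fs X)) = j
  · rw [if_pos h1, h1, hsj]
    have h2 : ¬ (i = j ∨ (true = false ∧ i = j ∧ i ≠ j)) := by
      rintro (h3 | h3)
      · exact hij h3
      · exact hij h3.2.1
    rw [if_neg h2, hsb, neg_neg, neg_one_mul]
    by_cases h3 : iF (insert i (Fs X)) = i
    · by_cases h4 : sg X i = - sg X j
      · by_cases h5 : sg X j = - v (insert i (Fs X))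
        · rw [if_pos ⟨h3.symm, h4⟩, if_pos h5, if_pos ⟨rfl, h3, h4, h5⟩]
        · rw [if_pos ⟨h3.symm, h4⟩, if_neg h5, if_neg (fun hh => h5 hh.2.2.2), neg_zero]
      · rw [if_neg (fun hh => h4 hh.2), if_neg (fun hh => h4 hh.2.2.1)]
    · rw [if_neg (fun hh => h3 hh.1.symm), if_neg (fun hh => h3 hh.2.1)]
  · rw [if_neg h1, if_neg (fun hh => h1 hh.1)]

omit [Fintype ι] in
/-- the matched partner of a set -/
private theorem t5_partner (r : ℕ) (v : Finset ι → ℝ) (jF iF : Finset ι → ι)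
    (h : MData r v jF iF) (F : Finset ι) (hF : F.card + 1 = r) (i j : ι)
    (hi : i ∉ F) (h1 : jF (insert i F) = j) (h2 : iF (insert i F) = i) :
    jF (insert j F) = i ∧ iF (insert j F) = j ∧ v (insert j F) = - v (insert i F) := by
  have hc : (insert i F).card = r := by rw [card_insert_of_notMem hi, hF]
  have e : insert (jF (insert i F)) ((insert i F).erase (iF (insert i F))) = insert j F := by
    rw [h1, h2, erase_insert hi]
  have a1 := h.vv _ hc
  have a2 := h.jj _ hc
  have a3 := h.ii _ hc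
  rw [e] at a1 a2 a3
  exact ⟨a2.trans h2, a3.trans h1, a1⟩

/-- V9 -/
theorem sum_tr5_0 (r : ℕ) (v : Finset ι → ℝ) (jF iF : Finset ι → ι) (h : MData r v jF iF)
    (X : Finset (ι × Bool)) (hQ : (Qs X).card = 0) (hF : (Fs X).card = r) :
    ∑ x ∈ Xᶜ, trf jF iF (c5 v) (-1) true X x = v (Fs X) := by
  have hQ0 : Qs X = ∅ := card_eq_zero.1 hQ
  rw [sum_compl_mem X, hQ0, sum_empty, zero_add]
  have hjn := h.mj _ hF
  have hjE : jF (Fs X) ∈ Es X := by
    rw [pe_mem_Es]
    rw [pe_mem_Fs] at hjn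
    have h1 : jF (Fs X) ∉ Qs X := by rw [hQ0]; simp
    rw [pe_mem_Qs] at h1
    tauto
  have hterm : ∀ i ∈ Es X, ∀ b : Bool, trf jF iF (c5 v) (-1) true X (i, b) =
      if i = jF (Fs X) then (if sb b = - v (Fs X) then v (Fs X) else 0) else 0 := by
    intro i hi b
    have hQW : Qs (insert (i, b) X) = {i} := by rw [t5_Qs_new X i b hi, hQ0]; rfl
    have hFW := t5_Fs_new X i b hi
    have hS : Ssum (insert (i, b) X) = sb b := by
      unfold Ssum
      rw [hQW, sum_singleton, t5_sg_new X i b hi]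
    unfold trf c5
    rw [hQW, hFW, hS]
    simp only [mem_singleton, card_singleton, true_and]
    by_cases h1 : i = jF (Fs X)
    · rw [if_pos h1.symm, if_pos (Or.inl h1), if_pos h1]
    · rw [if_neg (fun hh => h1 hh.symm), if_neg h1]
  rw [sum_eq_single_of_mem _ hjE]
  · rw [hterm _ hjE, hterm _ hjE, if_pos rfl, if_pos rfl]
    unfold sb
    rcases h.v1 (Fs X) with hv | hv <;> rw [hv] <;> norm_num
  · intro i hi hne
    rw [hterm i hi, hterm i hi, if_neg hne, if_neg hne, add_zero]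

theorem sum_tr5_2 (r : ℕ) (v : Finset ι → ℝ) (jF iF : Finset ι → ι) (h : MData r v jF iF)
    (X : Finset (ι × Bool)) (hQ : (Qs X).card = 2) (hF : (Fs X).card + 1 = r) :
    ∑ x ∈ Xᶜ, trf jF iF (c5 v) (-1) true X x = 0 := by
  obtain ⟨i, j, hij, hQ2⟩ := card_eq_two.1 hQ
  have hE : ∑ i ∈ Es X, (trf jF iF (c5 v) (-1) true X (i, true) +
      trf jF iF (c5 v) (-1) true X (i, false)) = 0 := by
    refine sum_eq_zero fun i hi => ?_
    rw [t5_new_zero v jF iF X i true hi (by omega), t5_new_zero v jF iF X i false hi (by omega),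
      add_zero]
  have hfill : ∀ i j : ι, i ≠ j → Qs X = {i, j} →
      (if (i, true) ∈ X then trf jF iF (c5 v) (-1) true X (i, false)
        else trf jF iF (c5 v) (-1) true X (i, true)) =
      if jF (insert i (Fs X)) = j ∧ iF (insert i (Fs X)) = i ∧ sg X i = - sg X j ∧
        sg X j = - v (insert i (Fs X)) then - v (insert i (Fs X)) else 0 := by
    intro i j hij hQ2
    have hi : i ∈ Qs X := by rw [hQ2]; simp
    rw [pe_mem_Qs] at hi
    by_cases h1 : (i, true) ∈ X
    · rw [if_pos h1]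
      exact t5_fill r v jF iF h X hF i j hij hQ2 false (by tauto)
    · rw [if_neg h1]
      exact t5_fill r v jF iF h X hF i j hij hQ2 true h1
  have hQ3 : Qs X = {j, i} := by rw [hQ2, pair_comm]
  have hiF : i ∉ Fs X := t5_Qs_Fs (by rw [hQ2]; simp)
  have hjF : j ∉ Fs X := t5_Qs_Fs (by rw [hQ2]; simp)
  rw [sum_compl_mem X, hE, add_zero]
  nth_rewrite 1 [hQ2]
  rw [sum_pair hij, hfill i j hij hQ2, hfill j i hij.symm hQ3]
  by_cases hc : jF (insert i (Fs X)) = j ∧ iF (insert i (Fs X)) = i ∧ sg X i = - sg X j ∧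
      sg X j = - v (insert i (Fs X))
  · obtain ⟨c1, c2, c3, c4⟩ := hc
    obtain ⟨p1, p2, p3⟩ := t5_partner r v jF iF h (Fs X) hF i j hiF c1 c2
    rw [if_pos ⟨c1, c2, c3, c4⟩, if_pos ⟨p1, p2, by rw [c3, neg_neg], by rw [p3, neg_neg, c3, c4,
      neg_neg]⟩, p3]
    ring
  · have hc' : ¬ (jF (insert j (Fs X)) = i ∧ iF (insert j (Fs X)) = j ∧ sg X j = - sg X i ∧
        sg X i = - v (insert j (Fs X))) := by
      rintro ⟨c1, c2, c3, c4⟩
      obtain ⟨p1, p2, p3⟩ := t5_partner r v jF iF h (Fs X) hF j i hjF c1 c2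
      exact hc ⟨p1, p2, by rw [c3, neg_neg], by rw [p3, neg_neg, c3, c4, neg_neg]⟩
    rw [if_neg hc, if_neg hc', add_zero]

theorem sum_tr5_n (v : Finset ι → ℝ) (jF iF : Finset ι → ι)
    (X : Finset (ι × Bool)) (h1 : (Qs X).card ≠ 0) (h3 : (Qs X).card ≠ 2) :
    ∑ x ∈ Xᶜ, trf jF iF (c5 v) (-1) true X x = 0 := by
  have hE : ∑ i ∈ Es X, (trf jF iF (c5 v) (-1) true X (i, true) +
      trf jF iF (c5 v) (-1) true X (i, false)) = 0 := by
    refine sum_eq_zero fun i hi => ?_
    rw [t5_new_zero v jF iF X i true hi h1, t5_new_zero v jF iF X i false hi h1, add_zero]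
  have hz : ∀ i ∈ Qs X, ∀ b : Bool, (i, b) ∉ X → trf jF iF (c5 v) (-1) true X (i, b) = 0 := by
    intro i hi b hb
    refine t5_zero _ _ _ _ _ _ _ (t5_c5 v _ ?_)
    rw [t5_Qs_fill X i b hi hb, card_erase_of_mem hi]
    omega
  rw [sum_compl_mem X, hE, add_zero]
  refine sum_eq_zero fun i hi => ?_
  have hi' := hi
  rw [pe_mem_Qs] at hi'
  by_cases h2 : (i, true) ∈ X
  · rw [if_pos h2]
    exact hz i hi false (by tauto)
  · rw [if_neg h2]
    exact hz i hi true h2

end

end BG
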