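import Pool.Agent.Lib.MP_e26f2a_co.BG.EvenDefs
import Pool.Agent.Lib.MP_e26f2a_co.BG.PairSum
import Pool.Agent.Lib.MP_e26f2a_co.BG.PairErase

/-!
# Sums of the transfer flow `A` (MP_e26f2a_co, Biggs project, piece V8)
-/

set_option autoImplicit false

namespace BG

open Finset

section
variable {ι : Type} [DecidableEq ι] [Fintype ι]

omit [Fintype ι] in
private theorem ta_ne (X : Finset (ι × Bool)) (i j : ι) (b c : Bool) (h : j ≠ i) :
    (j, c) ∈ insert (i, b) X ↔ (j, c) ∈ X := by
  rw [mem_insert]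
  constructor
  · rintro (h' | h')
    · rw [Prod.mk.injEq] at h'
      exact absurd h'.1 h
    · exact h'
  · exact fun h' => Or.inr h'

omit [Fintype ι] in
private theorem ta_bne (X : Finset (ι × Bool)) (i : ι) (b c : Bool) (h : c ≠ b) :
    (i, c) ∈ insert (i, b) X ↔ (i, c) ∈ X := by
  rw [mem_insert]
  constructor
  · rintro (h' | h')
    · rw [Prod.mk.injEq] at h'
      exact absurd h'.2 h
    · exact h'
  · exact fun h' => Or.inr h'

omit [Fintype ι] in
private theorem ta_sg_ne (X : Finset (ι × Bool)) (i j : ι) (b : Bool) (h : j ≠ i) :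
    sg (insert (i, b) X) j = sg X j := by
  unfold sg
  simp only [ta_ne X i j b _ h]

private theorem ta_Qs_split (X : Finset (ι × Bool)) (i : ι) (b : Bool) (h : (i, b) ∉ X)
    (hi : i ∈ Qs X) : Qs (insert (i, b) X) = (Qs X).erase i := by
  rw [pe_mem_Qs] at hi
  ext j
  rw [mem_erase, pe_mem_Qs, pe_mem_Qs]
  by_cases hj : j = i
  · subst hj
    have h0 := mem_insert_self (j, b) X
    cases b
    · rw [ta_bne X j false true (by decide)]
      tauto
    · rw [ta_bne X j true false (by decide)]
      tauto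
  · rw [ta_ne X i j b _ hj, ta_ne X i j b _ hj]
    tauto

private theorem ta_Fs_split (X : Finset (ι × Bool)) (i : ι) (b : Bool) (h : (i, b) ∉ X)
    (hi : i ∈ Qs X) : Fs (insert (i, b) X) = insert i (Fs X) := by
  rw [pe_mem_Qs] at hi
  ext j
  rw [mem_insert, pe_mem_Fs, pe_mem_Fs]
  by_cases hj : j = i
  · subst hj
    have h0 := mem_insert_self (j, b) X
    cases b
    · rw [ta_bne X j false true (by decide)]
      tauto
    · rw [ta_bne X j true false (by decide)]
      tauto
  · rw [ta_ne X i j b _ hj, ta_ne X i j b _ hj]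
    tauto

private theorem ta_Qs_empty (X : Finset (ι × Bool)) (i : ι) (b : Bool)
    (hi : i ∈ Es X) : Qs (insert (i, b) X) = insert i (Qs X) := by
  rw [pe_mem_Es] at hi
  ext j
  rw [mem_insert, pe_mem_Qs, pe_mem_Qs]
  by_cases hj : j = i
  · subst hj
    have h0 := mem_insert_self (j, b) X
    cases b
    · rw [ta_bne X j false true (by decide)]
      tauto
    · rw [ta_bne X j true false (by decide)]
      tauto
  · rw [ta_ne X i j b _ hj, ta_ne X i j b _ hj]
    tauto

private theorem ta_Fs_empty (X : Finset (ι × Bool)) (i : ι) (b : Bool)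
    (hi : i ∈ Es X) : Fs (insert (i, b) X) = Fs X := by
  rw [pe_mem_Es] at hi
  ext j
  rw [pe_mem_Fs, pe_mem_Fs]
  by_cases hj : j = i
  · subst hj
    have h0 := mem_insert_self (j, b) X
    cases b
    · rw [ta_bne X j false true (by decide)]
      tauto
    · rw [ta_bne X j true false (by decide)]
      tauto
  · rw [ta_ne X i j b _ hj, ta_ne X i j b _ hj]

private theorem ta_sg_empty (X : Finset (ι × Bool)) (i : ι) (b : Bool)
    (hi : i ∈ Es X) : sg (insert (i, b) X) i = sb b := by
  rw [pe_mem_Es] at hi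
  have h0 := mem_insert_self (i, b) X
  unfold sg sb
  cases b
  · rw [if_neg (fun hh => hi.1 ((ta_bne X i false true (by decide)).1 hh)), if_pos h0]
    norm_num
  · rw [if_pos h0, if_neg (fun hh => hi.2 ((ta_bne X i true false (by decide)).1 hh))]
    norm_num

private theorem ta_sg_split (X : Finset (ι × Bool)) (i : ι) (b : Bool) (h : (i, b) ∉ X)
    (hi : i ∈ Qs X) : - sb b = sg X i := by
  rw [pe_mem_Qs] at hi
  unfold sg sb
  cases b
  · have h1 : (i, true) ∈ X := by tauto
    rw [if_pos h1, if_neg h]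
    norm_num
  · have h1 : (i, false) ∈ X := by tauto
    rw [if_pos h1, if_neg h]
    norm_num

private theorem ta_zero (v : Finset ι → ℝ) (jF iF : Finset ι → ι) (X : Finset (ι × Bool))
    (x : ι × Bool) (h : (Qs (insert x X)).card ≠ 2) :
    trf jF iF (cA v) 1 true X x = 0 := by
  have h0 : cA v (insert x X) = 0 := by
    unfold cA
    exact if_neg (fun hh => h hh.1)
  unfold trf
  rw [h0, neg_zero]
  split_ifs <;> rfl

private theorem ta_ind (p : ℝ → Prop) (X : Finset (ι × Bool)) (i : ι) (hi : i ∈ Qs X)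
    (G : ι × Bool → ℝ) (h : ∀ b : Bool, (i, b) ∉ X → p (G (i, b))) :
    p (if (i, true) ∈ X then G (i, false) else G (i, true)) := by
  rw [pe_mem_Qs] at hi
  by_cases h1 : (i, true) ∈ X
  · rw [if_pos h1]
    exact h false (by tauto)
  · rw [if_neg h1]
    exact h true h1

/-- V8, part 0 -/
theorem sum_trA0 (v : Finset ι → ℝ) (jF iF : Finset ι → ι)
    (X : Finset (ι × Bool)) (h1 : (Qs X).card ≠ 1) (h3 : (Qs X).card ≠ 3) :
    ∑ x ∈ Xᶜ, trf jF iF (cA v) 1 true X x = 0 := by
  rw [sum_compl_mem]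
  have e1 : (∑ i ∈ Qs X, if (i, true) ∈ X then trf jF iF (cA v) 1 true X (i, false)
      else trf jF iF (cA v) 1 true X (i, true)) = 0 := by
    refine Finset.sum_eq_zero fun i hi => ?_
    refine ta_ind (fun t => t = 0) X i hi _ fun b hb => ?_
    refine ta_zero v jF iF X (i, b) ?_
    rw [ta_Qs_split X i b hb hi, card_erase_of_mem hi]
    omega
  have e2 : ∑ i ∈ Es X, (trf jF iF (cA v) 1 true X (i, true) +
      trf jF iF (cA v) 1 true X (i, false)) = 0 := by
    refine Finset.sum_eq_zero fun i hi => ?_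
    have hq : i ∉ Qs X := by
      rw [pe_mem_Es] at hi
      rw [pe_mem_Qs]
      tauto
    rw [ta_zero v jF iF X (i, true), ta_zero v jF iF X (i, false), add_zero]
    · rw [ta_Qs_empty X i false hi, card_insert_of_notMem hq]
      omega
    · rw [ta_Qs_empty X i true hi, card_insert_of_notMem hq]
      omega
  rw [e1, e2, add_zero]

/-- V8, part 1 -/
theorem sum_trA1 (r : ℕ) (v : Finset ι → ℝ) (jF iF : Finset ι → ι) (h : MData r v jF iF)
    (X : Finset (ι × Bool)) (hQ : (Qs X).card = 1) (hF : (Fs X).card = r) :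
    ∑ x ∈ Xᶜ, trf jF iF (cA v) 1 true X x = if jF (Fs X) ∈ Qs X then 0 else v (Fs X) := by
  obtain ⟨e, he⟩ := card_eq_one.1 hQ
  have heQ : e ∈ Qs X := by rw [he]; exact mem_singleton_self e
  rw [sum_compl_mem]
  have e1 : (∑ i ∈ Qs X, if (i, true) ∈ X then trf jF iF (cA v) 1 true X (i, false)
      else trf jF iF (cA v) 1 true X (i, true)) = 0 := by
    refine Finset.sum_eq_zero fun i hi => ?_
    refine ta_ind (fun t => t = 0) X i hi _ fun b hb => ?_
    refine ta_zero v jF iF X (i, b) ?_
    rw [ta_Qs_split X i b hb hi, card_erase_of_mem hi]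
    omega
  rw [e1, zero_add]
  have hsum : ∀ l ∈ Es X, ∀ b : Bool, trf jF iF (cA v) 1 true X (l, b) =
      if l = jF (Fs X) then (if sb b = - sg X e then v (Fs X) else 0) else 0 := by
    intro l hl b
    have hlQ : l ∉ Qs X := by
      rw [pe_mem_Es] at hl
      rw [pe_mem_Qs]
      tauto
    have hlF : l ∉ Fs X := by
      rw [pe_mem_Es] at hl
      rw [pe_mem_Fs]
      tauto
    have hne : e ≠ l := fun hh => hlQ (hh ▸ heQ)
    have hQW : Qs (insert (l, b) X) = insert l (Qs X) := ta_Qs_empty X l b hl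
    have hFW : Fs (insert (l, b) X) = Fs X := ta_Fs_empty X l b hl
    have hcard : (Qs (insert (l, b) X)).card = 2 := by
      rw [hQW, card_insert_of_notMem hlQ, hQ]
    have hS : Ssum (insert (l, b) X) = sb b + sg X e := by
      unfold Ssum
      rw [hQW, sum_insert hlQ, he, sum_singleton, ta_sg_empty X l b hl,
        ta_sg_ne X l e b hne]
    have hcA : cA v (insert (l, b) X) = if sb b = - sg X e then v (Fs X) else 0 := by
      unfold cA
      rw [hS, hFW]
      by_cases hs : sb b = - sg X e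
      · rw [if_pos hs, if_pos ⟨hcard, by rw [hs]; ring⟩]
      · rw [if_neg hs, if_neg (fun hh => hs (by linarith [hh.2]))]
    unfold trf
    rw [hFW, hQW, hcA]
    by_cases hj : l = jF (Fs X)
    · rw [if_pos (by rw [← hj]; exact mem_insert_self _ _), if_pos (Or.inl ⟨rfl, hj⟩), if_pos hj]
    · rw [if_neg hj]
      by_cases hj2 : jF (Fs X) ∈ insert l (Qs X)
      · rw [if_pos hj2, if_neg, if_neg]
        · rintro ⟨hh, -⟩
          exact hlF (by rw [show l = iF (Fs X) from hh]; exact h.mi _ hF)
        · rintro (hh | hh)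
          · exact hj hh.2
          · exact absurd hh.1 (by decide)
      · rw [if_neg hj2]
  have hpair : ∀ l ∈ Es X, trf jF iF (cA v) 1 true X (l, true) +
      trf jF iF (cA v) 1 true X (l, false) = if l = jF (Fs X) then v (Fs X) else 0 := by
    intro l hl
    rw [hsum l hl true, hsum l hl false]
    by_cases hj : l = jF (Fs X)
    · rw [if_pos hj, if_pos hj, if_pos hj]
      have hs : sg X e = 1 ∨ sg X e = -1 := by
        have heQ' := heQ
        rw [pe_mem_Qs] at heQ'
        unfold sg
        rcases heQ' with ⟨h1, h2⟩ | ⟨h1, h2⟩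
        · left; rw [if_pos h1, if_neg h2]; norm_num
        · right; rw [if_neg h1, if_pos h2]; norm_num
      unfold sb
      rcases hs with hs | hs <;> rw [hs] <;> norm_num
    · rw [if_neg hj, if_neg hj, if_neg hj, add_zero]
  rw [Finset.sum_congr rfl hpair]
  by_cases hj : jF (Fs X) ∈ Qs X
  · rw [if_pos hj]
    refine Finset.sum_eq_zero fun l hl => if_neg ?_
    rintro hh
    rw [← hh, pe_mem_Qs] at hj
    rw [pe_mem_Es] at hl
    tauto
  · rw [if_neg hj]
    have hjE : jF (Fs X) ∈ Es X := by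
      have h1 := h.mj _ hF
      rw [pe_mem_Fs] at h1
      rw [pe_mem_Qs] at hj
      rw [pe_mem_Es]
      tauto
    rw [Finset.sum_ite_eq' (Es X) (jF (Fs X)) (fun _ => v (Fs X)), if_pos hjE]

/-- V8, part 3 -/
theorem sum_trA3 (r : ℕ) (v : Finset ι → ℝ) (jF iF : Finset ι → ι) (h : MData r v jF iF)
    (X : Finset (ι × Bool)) (hQ : (Qs X).card = 3) (hF : (Fs X).card + 1 = r) :
    ∑ x ∈ Xᶜ, trf jF iF (cA v) 1 true X x = 0 := by
  classical
  rw [sum_compl_mem]
  have e2 : ∑ i ∈ Es X, (trf jF iF (cA v) 1 true X (i, true) +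
      trf jF iF (cA v) 1 true X (i, false)) = 0 := by
    refine Finset.sum_eq_zero fun i hi => ?_
    have hq : i ∉ Qs X := by
      rw [pe_mem_Es] at hi
      rw [pe_mem_Qs]
      tauto
    rw [ta_zero v jF iF X (i, true), ta_zero v jF iF X (i, false), add_zero]
    · rw [ta_Qs_empty X i false hi, card_insert_of_notMem hq]
      omega
    · rw [ta_Qs_empty X i true hi, card_insert_of_notMem hq]
      omega
  rw [e2, add_zero]
  have hQF : ∀ i ∈ Qs X, i ∉ Fs X := by
    intro i hi
    rw [pe_mem_Qs] at hi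
    rw [pe_mem_Fs]
    tauto
  have hcardG : ∀ i ∈ Qs X, (insert i (Fs X)).card = r := by
    intro i hi
    rw [card_insert_of_notMem (hQF i hi), hF]
  set T : ι → ℝ := fun i =>
    if jF (insert i (Fs X)) ∈ (Qs X).erase i ∧ i = iF (insert i (Fs X)) ∧
      sg X i = sg X (jF (insert i (Fs X))) ∧ ∑ j ∈ (Qs X).erase i, sg X j = 0
    then - v (insert i (Fs X)) else 0 with hT
  have e1 : (∑ i ∈ Qs X, if (i, true) ∈ X then trf jF iF (cA v) 1 true X (i, false)
      else trf jF iF (cA v) 1 true X (i, true)) = ∑ i ∈ Qs X, T i := by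
    refine Finset.sum_congr rfl fun i hi => ?_
    refine ta_ind (fun t => t = T i) X i hi _ fun b hb => ?_
    have hQW : Qs (insert (i, b) X) = (Qs X).erase i := ta_Qs_split X i b hb hi
    have hFW : Fs (insert (i, b) X) = insert i (Fs X) := ta_Fs_split X i b hb hi
    have hcard : (Qs (insert (i, b) X)).card = 2 := by
      rw [hQW, card_erase_of_mem hi, hQ]
    have hS : Ssum (insert (i, b) X) = ∑ j ∈ (Qs X).erase i, sg X j := by
      unfold Ssum
      rw [hQW]
      exact Finset.sum_congr rfl fun j hj => ta_sg_ne X i j b (ne_of_mem_erase hj)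
    have hcA : cA v (insert (i, b) X) =
        if ∑ j ∈ (Qs X).erase i, sg X j = 0 then v (insert i (Fs X)) else 0 := by
      unfold cA
      rw [hS, hFW]
      by_cases hs : ∑ j ∈ (Qs X).erase i, sg X j = 0
      · rw [if_pos hs, if_pos ⟨hcard, hs⟩]
      · rw [if_neg hs, if_neg (fun hh => hs hh.2)]
    have hsb := ta_sg_split X i b hb hi
    show trf jF iF (cA v) 1 true X (i, b) = T i
    rw [hT]
    unfold trf
    rw [hFW, hQW, hcA]
    simp only
    by_cases hj : jF (insert i (Fs X)) ∈ (Qs X).erase i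
    · rw [if_pos hj, if_neg]
      · rw [ta_sg_ne X i _ b (ne_of_mem_erase hj), hsb, one_mul]
        by_cases h1 : i = iF (insert i (Fs X)) ∧ sg X i = sg X (jF (insert i (Fs X)))
        · rw [if_pos h1]
          by_cases h2 : ∑ j ∈ (Qs X).erase i, sg X j = 0
          · rw [if_pos h2, if_pos ⟨hj, h1.1, h1.2, h2⟩]
          · rw [if_neg h2, if_neg (fun hh => h2 hh.2.2.2), neg_zero]
        · rw [if_neg h1, if_neg (fun hh => h1 ⟨hh.2.1, hh.2.2.1⟩)]
      · rintro (hh | hh)
        · have h3 : i = jF (insert i (Fs X)) := hh.2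
          rw [← h3] at hj
          exact notMem_erase _ _ hj
        · exact absurd hh.1 (by decide)
    · rw [if_neg hj, if_neg (fun hh => hj hh.1)]
  rw [e1]
  -- the partner
  have key : ∀ a ∈ Qs X, T a ≠ 0 → jF (insert a (Fs X)) ∈ Qs X ∧ jF (insert a (Fs X)) ≠ a ∧
      T (jF (insert a (Fs X))) = - T a ∧ jF (insert (jF (insert a (Fs X))) (Fs X)) = a := by
    intro a ha hTa
    have hc : jF (insert a (Fs X)) ∈ (Qs X).erase a ∧ a = iF (insert a (Fs X)) ∧
      sg X a = sg X (jF (insert a (Fs X))) ∧ ∑ j ∈ (Qs X).erase a, sg X j = 0 := by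
      by_contra hcon
      exact hTa (if_neg hcon)
    obtain ⟨h1, h2, h3, h4⟩ := hc
    have hjQ := mem_of_mem_erase h1
    have hja := ne_of_mem_erase h1
    have hG : insert (jF (insert a (Fs X))) ((insert a (Fs X)).erase (iF (insert a (Fs X))))
        = insert (jF (insert a (Fs X))) (Fs X) := by
      rw [← h2, erase_insert (hQF a ha)]
    have hr := hcardG a ha
    have hv := h.vv _ hr
    have hjj := h.jj _ hr
    have hii := h.ii _ hr
    rw [hG] at hv hjj hii
    rw [← h2] at hjj
    refine ⟨hjQ, hja, ?_, hjj⟩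
    have hTa' : T a = - v (insert a (Fs X)) := if_pos ⟨h1, h2, h3, h4⟩
    rw [hTa']
    have hsum1 := Finset.add_sum_erase (Qs X) (fun j => sg X j) ha
    have hsum2 := Finset.add_sum_erase (Qs X) (fun j => sg X j) hjQ
    have hc' : jF (insert (jF (insert a (Fs X))) (Fs X)) ∈ (Qs X).erase (jF (insert a (Fs X))) ∧
        jF (insert a (Fs X)) = iF (insert (jF (insert a (Fs X))) (Fs X)) ∧
        sg X (jF (insert a (Fs X))) = sg X (jF (insert (jF (insert a (Fs X))) (Fs X))) ∧
        ∑ j ∈ (Qs X).erase (jF (insert a (Fs X))), sg X j = 0 := by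
      rw [hjj]
      refine ⟨mem_erase.2 ⟨hja.symm, ha⟩, hii.symm, h3.symm, ?_⟩
      linarith
    have hTj : T (jF (insert a (Fs X))) = - v (insert (jF (insert a (Fs X))) (Fs X)) :=
      if_pos hc'
    rw [hTj, hv]
  refine Finset.sum_involution (fun a _ => if T a ≠ 0 then jF (insert a (Fs X)) else a)
    ?_ ?_ ?_ ?_
  · intro a ha
    by_cases hTa : T a ≠ 0
    · simp only [if_pos hTa]
      rw [(key a ha hTa).2.2.1, add_neg_cancel]
    · simp only [if_neg hTa]
      have : T a = 0 := not_not.1 hTa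
      rw [this, add_zero]
  · intro a ha hTa
    simp only [if_pos hTa]
    exact (key a ha hTa).2.1
  · intro a ha
    by_cases hTa : T a ≠ 0
    · simp only [if_pos hTa]
      exact (key a ha hTa).1
    · simp only [if_neg hTa]
      exact ha
  · intro a ha
    by_cases hTa : T a ≠ 0
    · have hk := key a ha hTa
      have h1 : T (jF (insert a (Fs X))) ≠ 0 := by
        rw [hk.2.2.1]
        exact neg_ne_zero.2 hTa
      simp only [if_pos hTa, if_pos h1]
      exact hk.2.2.2
    · simp only [if_neg hTa]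

end

end BG
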