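import Pool.Agent.Lib.MP_e26f2a_co.BG.EvenDefs
import Pool.Agent.Lib.MP_e26f2a_co.BG.PairSum

/-!
# Even case: the sums of the second transfer flow (MP_e26f2a_co, Biggs project, piece V10)
-/

set_option autoImplicit false

namespace BG

open Finset

section
variable {ι : Type} [DecidableEq ι] [Fintype ι]

private theorem tb_mem_Qs (X : Finset (ι × Bool)) (i : ι) :
    i ∈ Qs X ↔ ((i, true) ∈ X ∧ (i, false) ∉ X) ∨ ((i, true) ∉ X ∧ (i, false) ∈ X) := by
  unfold Qs
  rw [mem_filter]
  simp only [mem_univ, true_and]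

private theorem tb_mem_Fs (X : Finset (ι × Bool)) (i : ι) :
    i ∈ Fs X ↔ (i, true) ∈ X ∧ (i, false) ∈ X := by
  unfold Fs
  rw [mem_filter]
  simp only [mem_univ, true_and]

private theorem tb_mem_Es (X : Finset (ι × Bool)) (i : ι) :
    i ∈ Es X ↔ (i, true) ∉ X ∧ (i, false) ∉ X := by
  unfold Es
  rw [mem_filter]
  simp only [mem_univ, true_and]

omit [Fintype ι] in
private theorem tb_ins_ne (X : Finset (ι × Bool)) (i j : ι) (b c : Bool) (h : j ≠ i) :
    (j, c) ∈ insert (i, b) X ↔ (j, c) ∈ X := by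
  rw [mem_insert, Prod.mk.injEq]
  tauto

omit [Fintype ι] in
private theorem tb_ins_bne (X : Finset (ι × Bool)) (i : ι) (b c : Bool) (h : c ≠ b) :
    (i, c) ∈ insert (i, b) X ↔ (i, c) ∈ X := by
  rw [mem_insert, Prod.mk.injEq]
  tauto

omit [Fintype ι] in
private theorem tb_sg_ne (X : Finset (ι × Bool)) (i j : ι) (b : Bool) (h : j ≠ i) :
    sg (insert (i, b) X) j = sg X j := by
  unfold sg
  simp only [tb_ins_ne X i j b _ h]

private theorem tb_Qs_split (X : Finset (ι × Bool)) (i : ι) (b : Bool) (h : (i, b) ∉ X)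
    (hi : i ∈ Qs X) : Qs (insert (i, b) X) = (Qs X).erase i := by
  rw [tb_mem_Qs] at hi
  ext j
  rw [mem_erase, tb_mem_Qs, tb_mem_Qs]
  by_cases hj : j = i
  · subst hj
    cases b
    · rw [tb_ins_bne X j false true (by decide)]
      have := mem_insert_self (j, false) X
      tauto
    · rw [tb_ins_bne X j true false (by decide)]
      have := mem_insert_self (j, true) X
      tauto
  · rw [tb_ins_ne X i j b _ hj, tb_ins_ne X i j b _ hj]
    tauto

private theorem tb_Fs_split (X : Finset (ι × Bool)) (i : ι) (b : Bool) (h : (i, b) ∉ X)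
    (hi : i ∈ Qs X) : Fs (insert (i, b) X) = insert i (Fs X) := by
  rw [tb_mem_Qs] at hi
  ext j
  rw [mem_insert, tb_mem_Fs, tb_mem_Fs]
  by_cases hj : j = i
  · subst hj
    cases b
    · rw [tb_ins_bne X j false true (by decide)]
      have := mem_insert_self (j, false) X
      tauto
    · rw [tb_ins_bne X j true false (by decide)]
      have := mem_insert_self (j, true) X
      tauto
  · rw [tb_ins_ne X i j b _ hj, tb_ins_ne X i j b _ hj]
    tauto

private theorem tb_sg_split (X : Finset (ι × Bool)) (i : ι) (b : Bool) (h : (i, b) ∉ X)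
    (hi : i ∈ Qs X) : sg X i = - sb b := by
  rw [tb_mem_Qs] at hi
  unfold sg sb
  cases b
  · have h1 : (i, true) ∈ X := by tauto
    simp [h, h1]
  · have h1 : (i, false) ∈ X := by tauto
    simp [h, h1]

private theorem tb_Qs_empty (X : Finset (ι × Bool)) (i : ι) (b : Bool)
    (hi : i ∈ Es X) : Qs (insert (i, b) X) = insert i (Qs X) := by
  rw [tb_mem_Es] at hi
  ext j
  rw [mem_insert, tb_mem_Qs, tb_mem_Qs]
  by_cases hj : j = i
  · subst hj
    cases b
    · rw [tb_ins_bne X j false true (by decide)]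
      have := mem_insert_self (j, false) X
      tauto
    · rw [tb_ins_bne X j true false (by decide)]
      have := mem_insert_self (j, true) X
      tauto
  · rw [tb_ins_ne X i j b _ hj, tb_ins_ne X i j b _ hj]
    tauto

private theorem tb_Fs_empty (X : Finset (ι × Bool)) (i : ι) (b : Bool)
    (hi : i ∈ Es X) : Fs (insert (i, b) X) = Fs X := by
  rw [tb_mem_Es] at hi
  ext j
  rw [tb_mem_Fs, tb_mem_Fs]
  by_cases hj : j = i
  · subst hj
    cases b
    · rw [tb_ins_bne X j false true (by decide)]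
      tauto
    · rw [tb_ins_bne X j true false (by decide)]
      tauto
  · rw [tb_ins_ne X i j b _ hj, tb_ins_ne X i j b _ hj]

private theorem tb_sg_empty (X : Finset (ι × Bool)) (i : ι) (b : Bool)
    (hi : i ∈ Es X) : sg (insert (i, b) X) i = sb b := by
  rw [tb_mem_Es] at hi
  unfold sg sb
  cases b
  · have h1 : (i, true) ∉ insert (i, false) X := fun h' =>
      hi.1 ((tb_ins_bne X i false true (by decide)).1 h')
    rw [if_neg h1, if_pos (mem_insert_self _ _)]
    norm_num
  · have h1 : (i, false) ∉ insert (i, true) X := fun h' =>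
      hi.2 ((tb_ins_bne X i true false (by decide)).1 h')
    rw [if_neg h1, if_pos (mem_insert_self _ _)]
    norm_num

private theorem tb_not_Es_Qs {X : Finset (ι × Bool)} {i : ι} (hi : i ∈ Es X) : i ∉ Qs X := by
  rw [tb_mem_Es] at hi
  rw [tb_mem_Qs]
  tauto

private theorem tb_not_Es_Fs {X : Finset (ι × Bool)} {i : ι} (hi : i ∈ Es X) : i ∉ Fs X := by
  rw [tb_mem_Es] at hi
  rw [tb_mem_Fs]
  tauto

private theorem tb_not_Qs_Fs {X : Finset (ι × Bool)} {i : ι} (hi : i ∈ Qs X) : i ∉ Fs X := by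
  rw [tb_mem_Qs] at hi
  rw [tb_mem_Fs]
  tauto

/-- the missing point of a split pair -/
private def tb_m (X : Finset (ι × Bool)) (i : ι) : Bool := if (i, true) ∈ X then false else true

private theorem tb_m_not {X : Finset (ι × Bool)} {i : ι} (hi : i ∈ Qs X) :
    (i, tb_m X i) ∉ X := by
  rw [tb_mem_Qs] at hi
  unfold tb_m
  split_ifs with h
  · tauto
  · exact h

private theorem tb_sum (X : Finset (ι × Bool)) (G : ι × Bool → ℝ) :
    ∑ x ∈ Xᶜ, G x = (∑ i ∈ Qs X, G (i, tb_m X i)) + ∑ i ∈ Es X, (G (i, true) + G (i, false)) := by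
  rw [sum_compl_mem]
  congr 1
  refine sum_congr rfl fun i _ => ?_
  unfold tb_m
  split_ifs <;> rfl

private theorem tb_trf_zero (jF iF : Finset ι → ι) (c : Finset (ι × Bool) → ℝ) (σ : ℝ) (ty : Bool)
    (X : Finset (ι × Bool)) (x : ι × Bool) (h : c (insert x X) = 0) :
    trf jF iF c σ ty X x = 0 := by
  unfold trf
  rw [h]
  simp

private theorem tb_cB_card (r : ℕ) (v : Finset ι → ℝ) (jF : Finset ι → ι) (W : Finset (ι × Bool))
    (h : (Qs W).card ≠ 2) : cB r v jF W = 0 := by
  unfold cB
  rw [if_neg fun h' => h h'.1]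

/-- V10, other sets -/
theorem sum_trB0 (r : ℕ) (v : Finset ι → ℝ) (jF iF : Finset ι → ι)
    (X : Finset (ι × Bool)) (h1 : (Qs X).card ≠ 1) (h3 : (Qs X).card ≠ 3) :
    ∑ x ∈ Xᶜ, trf jF iF (cB r v jF) (-1) false X x = 0 := by
  rw [tb_sum, sum_eq_zero, sum_eq_zero, add_zero]
  · intro i hi
    have e : ∀ b, trf jF iF (cB r v jF) (-1) false X (i, b) = 0 := by
      intro b
      apply tb_trf_zero
      apply tb_cB_card
      rw [tb_Qs_empty X i b hi, card_insert_of_notMem (tb_not_Es_Qs hi)]
      omega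
    rw [e, e, add_zero]
  · intro i hi
    apply tb_trf_zero
    apply tb_cB_card
    rw [tb_Qs_split X i _ (tb_m_not hi) hi, card_erase_of_mem hi]
    omega

/-- V10, one split pair -/
theorem sum_trB1 (r : ℕ) (hr : 1 ≤ r) (v : Finset ι → ℝ) (jF iF : Finset ι → ι)
    (h : MData r v jF iF) (X : Finset (ι × Bool)) (hQ : (Qs X).card = 1) (hF : (Fs X).card = r)
    (hE : (Es X).card = r) :
    ∑ x ∈ Xᶜ, trf jF iF (cB r v jF) (-1) false X x =
      if jF (Fs X) ∈ Qs X ∧ Ssum X = v (Fs X) then v (Fs X) else 0 := by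
  obtain ⟨e, he⟩ := card_eq_one.1 hQ
  have hS : Ssum X = sg X e := by
    unfold Ssum
    rw [he, sum_singleton]
  have hr0 : (r : ℝ) ≠ 0 := by
    have : (1 : ℝ) ≤ r := by exact_mod_cast hr
    positivity
  rw [tb_sum]
  have hz : ∑ i ∈ Qs X, trf jF iF (cB r v jF) (-1) false X (i, tb_m X i) = 0 := by
    refine sum_eq_zero fun i hi => ?_
    apply tb_trf_zero
    apply tb_cB_card
    rw [tb_Qs_split X i _ (tb_m_not hi) hi, card_erase_of_mem hi]
    omega
  rw [hz, zero_add]
  by_cases hj : jF (Fs X) = e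
  · have h1 : ∀ i ∈ Es X, trf jF iF (cB r v jF) (-1) false X (i, true) +
        trf jF iF (cB r v jF) (-1) false X (i, false) =
        if sg X e = v (Fs X) then v (Fs X) / r else 0 := by
      intro i hi
      have hie : i ≠ e := by
        rintro rfl
        exact tb_not_Es_Qs hi (by rw [he]; exact mem_singleton_self _)
      have key : ∀ b, trf jF iF (cB r v jF) (-1) false X (i, b) =
          if sg X e = v (Fs X) ∧ sb b = -1 then v (Fs X) / r else 0 := by
        intro b
        have q1 : Qs (insert (i, b) X) = {i, e} := by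
          rw [tb_Qs_empty X i b hi, he]
        have q2 : Fs (insert (i, b) X) = Fs X := tb_Fs_empty X i b hi
        have q3 : sg (insert (i, b) X) e = sg X e := tb_sg_ne X i e b hie.symm
        have q4 : Ssum (insert (i, b) X) = sb b + sg X e := by
          unfold Ssum
          rw [q1, sum_pair hie, q3, tb_sg_empty X i b hi]
        have q5 : (Qs (insert (i, b) X)).card = 2 := by
          rw [q1, card_pair hie]
        unfold trf
        rw [q2, hj, if_pos (by rw [q1]; simp), if_pos (Or.inr ⟨rfl, by rw [q1]; simp, hie⟩)]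
        unfold cB
        rw [q2, hj, q3, q4, q5]
        have q6 : sb b + sg X e - sg X e = sb b := by ring
        rw [q6]
        simp
      rw [key, key]
      have s1 : sb true = 1 := by simp [sb]
      have s2 : sb false = -1 := by simp [sb]
      rw [s1, s2]
      have s3 : ¬ ((1 : ℝ) = -1) := by norm_num
      simp [s3]
    rw [sum_congr rfl h1, sum_const, hE, hS]
    have h2 : jF (Fs X) ∈ Qs X := by rw [hj, he]; exact mem_singleton_self _
    by_cases h3 : sg X e = v (Fs X)
    · rw [if_pos h3, if_pos ⟨h2, h3⟩, nsmul_eq_mul]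
      field_simp
    · rw [if_neg h3, if_neg fun h' => h3 h'.2, smul_zero]
  · have h2 : jF (Fs X) ∉ Qs X := by rw [he, mem_singleton]; exact hj
    rw [if_neg fun h' => h2 h'.1]
    refine sum_eq_zero fun i hi => ?_
    have key : ∀ b, trf jF iF (cB r v jF) (-1) false X (i, b) = 0 := by
      intro b
      have q1 : Qs (insert (i, b) X) = insert i (Qs X) := tb_Qs_empty X i b hi
      have q2 : Fs (insert (i, b) X) = Fs X := tb_Fs_empty X i b hi
      unfold trf
      rw [q2]
      split_ifs with c1 c2 c3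
      · exfalso
        rcases c2 with c2 | c2
        · exact absurd c2.1 (by decide)
        · rw [q1, mem_insert] at c1
          rcases c1 with c1 | c1
          · exact c2.2.2 c1.symm
          · exact h2 c1
      · exfalso
        have c4 : i = iF (Fs X) := c3.1
        have c5 := h.mi (Fs X) hF
        rw [← c4] at c5
        exact tb_not_Es_Fs hi c5
      · rfl
      · rfl
    rw [key, key, add_zero]

/-- the value of the flow when a split pair is filled -/
private theorem tb_fill (r : ℕ) (v : Finset ι → ℝ) (jF iF : Finset ι → ι)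
    (X : Finset (ι × Bool)) (hQ : (Qs X).card = 3) (i : ι) (hi : i ∈ Qs X) (b : Bool)
    (hb : (i, b) ∉ X) :
    trf jF iF (cB r v jF) (-1) false X (i, b) =
      if jF (insert i (Fs X)) ∈ (Qs X).erase i ∧ i = iF (insert i (Fs X)) ∧
          sg X i = - sg X (jF (insert i (Fs X))) ∧
          sg X (jF (insert i (Fs X))) = v (insert i (Fs X)) ∧
          Ssum X - sg X i - sg X (jF (insert i (Fs X))) = -1 then
        - (v (insert i (Fs X)) / r) else 0 := by
  have q1 : Qs (insert (i, b) X) = (Qs X).erase i := tb_Qs_split X i b hb hi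
  have q2 : Fs (insert (i, b) X) = insert i (Fs X) := tb_Fs_split X i b hb hi
  have q3 : sg X i = - sb b := tb_sg_split X i b hb hi
  have q4 : Ssum (insert (i, b) X) = Ssum X - sg X i := by
    unfold Ssum
    rw [q1, ← add_sum_erase (Qs X) (sg X) hi]
    have : ∑ j ∈ (Qs X).erase i, sg (insert (i, b) X) j = ∑ j ∈ (Qs X).erase i, sg X j :=
      sum_congr rfl fun j hj => tb_sg_ne X i j b (mem_erase.1 hj).1
    rw [this]
    ring
  have q5 : (Qs (insert (i, b) X)).card = 2 := by
    rw [q1, card_erase_of_mem hi, hQ]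
  unfold trf cB
  rw [q2, q5, q4, q1]
  set j := jF (insert i (Fs X)) with hjdef
  by_cases c1 : j ∈ (Qs X).erase i
  · have q6 : sg (insert (i, b) X) j = sg X j := tb_sg_ne X i j b (mem_erase.1 c1).1
    rw [q6, if_pos c1]
    have c2 : ¬ ((false = true ∧ (i, b).1 = j) ∨
        (false = false ∧ (i, b).1 ∈ (Qs X).erase i ∧ (i, b).1 ≠ j)) := by
      rintro (c2 | c2)
      · exact absurd c2.1 (by decide)
      · exact (mem_erase.1 c2.2.1).1 rfl
    rw [if_neg c2]
    by_cases c3 : i = iF (insert i (Fs X)) ∧ sg X i = - sg X j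
    · have c4 : (i, b).1 = iF (insert i (Fs X)) ∧ - sb (i, b).2 = -1 * sg X j := by
        refine ⟨c3.1, ?_⟩
        show - sb b = -1 * sg X j
        rw [← q3, c3.2]
        ring
      rw [if_pos c4]
      by_cases c5 : sg X j = v (insert i (Fs X)) ∧ Ssum X - sg X i - sg X j = -1
      · rw [if_pos ⟨rfl, c5⟩, if_pos ⟨c1, c3.1, c3.2, c5.1, c5.2⟩]
      · rw [if_neg fun h' => c5 h'.2, if_neg fun h' => c5 h'.2.2.2, neg_zero]
    · have c4 : ¬ ((i, b).1 = iF (insert i (Fs X)) ∧ - sb (i, b).2 = -1 * sg X j) := by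
        rintro ⟨c5, c6⟩
        apply c3
        refine ⟨c5, ?_⟩
        have c6 : - sb b = -1 * sg X j := c6
        rw [q3, c6]
        ring
      rw [if_neg c4, if_neg fun h' => c3 ⟨h'.2.1, h'.2.2.1⟩]
  · rw [if_neg c1, if_neg fun h' => c1 h'.1]

/-- V10, three split pairs -/
theorem sum_trB3 (r : ℕ) (v : Finset ι → ℝ) (jF iF : Finset ι → ι) (h : MData r v jF iF)
    (X : Finset (ι × Bool)) (hQ : (Qs X).card = 3) (hF : (Fs X).card + 1 = r) :
    ∑ x ∈ Xᶜ, trf jF iF (cB r v jF) (-1) false X x = 0 := by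
  rw [tb_sum]
  have hz : ∑ i ∈ Es X, (trf jF iF (cB r v jF) (-1) false X (i, true) +
      trf jF iF (cB r v jF) (-1) false X (i, false)) = 0 := by
    refine sum_eq_zero fun i hi => ?_
    have e : ∀ b, trf jF iF (cB r v jF) (-1) false X (i, b) = 0 := by
      intro b
      apply tb_trf_zero
      apply tb_cB_card
      rw [tb_Qs_empty X i b hi, card_insert_of_notMem (tb_not_Es_Qs hi)]
      omega
    rw [e, e, add_zero]
  rw [hz, add_zero]
  set f : ι → ℝ := fun i => trf jF iF (cB r v jF) (-1) false X (i, tb_m X i) with hf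
  have hfi : ∀ i ∈ Qs X, f i = if jF (insert i (Fs X)) ∈ (Qs X).erase i ∧
        i = iF (insert i (Fs X)) ∧
          sg X i = - sg X (jF (insert i (Fs X))) ∧
          sg X (jF (insert i (Fs X))) = v (insert i (Fs X)) ∧
          Ssum X - sg X i - sg X (jF (insert i (Fs X))) = -1 then
        - (v (insert i (Fs X)) / r) else 0 := fun i hi =>
    tb_fill r v jF iF X hQ i hi _ (tb_m_not hi)
  -- the partner
  have hp : ∀ i ∈ Qs X, f i ≠ 0 → jF (insert i (Fs X)) ∈ Qs X ∧ jF (insert i (Fs X)) ≠ i ∧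
      jF (insert (jF (insert i (Fs X))) (Fs X)) = i ∧ f (jF (insert i (Fs X))) = - f i := by
    intro i hi hne
    have hfi' := hfi i hi
    by_cases hc : jF (insert i (Fs X)) ∈ (Qs X).erase i ∧
        i = iF (insert i (Fs X)) ∧
          sg X i = - sg X (jF (insert i (Fs X))) ∧
          sg X (jF (insert i (Fs X))) = v (insert i (Fs X)) ∧
          Ssum X - sg X i - sg X (jF (insert i (Fs X))) = -1
    swap
    · rw [if_neg hc] at hfi'
      exact absurd hfi' hne
    rw [if_pos hc] at hfi'
    obtain ⟨c1, c2, c3, c4, c5⟩ := hc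
    have hcard : (insert i (Fs X)).card = r := by
      rw [card_insert_of_notMem (tb_not_Qs_Fs hi), hF]
    have k1 := h.vv _ hcard
    have k2 := h.jj _ hcard
    have k3 := h.ii _ hcard
    rw [← c2, erase_insert (tb_not_Qs_Fs hi)] at k1 k2 k3
    set j := jF (insert i (Fs X)) with hj
    have hjQ : j ∈ Qs X := (mem_erase.1 c1).2
    have hji : j ≠ i := (mem_erase.1 c1).1
    refine ⟨hjQ, hji, k2, ?_⟩
    rw [hfi j hjQ, k2, k3, hfi', if_pos, k1]
    · ring
    · refine ⟨mem_erase.2 ⟨hji.symm, hi⟩, rfl, ?_, ?_, ?_⟩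
      · rw [c3, neg_neg]
      · rw [k1, ← c4, c3]
      · linarith
  rw [← sum_filter_ne_zero]
  refine sum_involution (fun i _ => jF (insert i (Fs X))) ?_ ?_ ?_ ?_
  · intro i hi
    obtain ⟨h1, h2⟩ := mem_filter.1 hi
    show f i + f (jF (insert i (Fs X))) = 0
    rw [(hp i h1 h2).2.2.2]
    ring
  · intro i hi _
    obtain ⟨h1, h2⟩ := mem_filter.1 hi
    exact (hp i h1 h2).2.1
  · intro i hi
    obtain ⟨h1, h2⟩ := mem_filter.1 hi
    refine mem_filter.2 ⟨(hp i h1 h2).1, ?_⟩
    show f (jF (insert i (Fs X))) ≠ 0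
    rw [(hp i h1 h2).2.2.2]
    exact neg_ne_zero.2 h2
  · intro i hi
    obtain ⟨h1, h2⟩ := mem_filter.1 hi
    exact (hp i h1 h2).2.2.1

end

end BG
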