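import Pool.Agent.Lib.MP_e26f2a_co.BG.EvenDefs
import Pool.Agent.Lib.MP_e26f2a_co.BG.PairSum
import Pool.Agent.Lib.MP_e26f2a_co.BG.PairErase

/-!
# The transfer flow is balanced (MP_e26f2a_co, Biggs project, piece V7)
-/

set_option autoImplicit false

namespace BG

open Finset

section
variable {ι : Type} [DecidableEq ι] [Fintype ι]

/-- V7 -/
theorem dn_trf (r : ℕ) (v : Finset ι → ℝ) (jF iF : Finset ι → ι) (h : MData r v jF iF)
    (c : Finset (ι × Bool) → ℝ) (σ : ℝ) (hσ : σ = 1 ∨ σ = -1) (ty : Bool)
    (W : Finset (ι × Bool)) (hF : c W ≠ 0 → (Fs W).card = r)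
    (hQ : c W ≠ 0 → ty = false → (Qs W).card = 2) : dn (trf jF iF c σ ty) W = 0 := by
  have e1 : dn (trf jF iF c σ ty) W = ∑ x ∈ W,
      (if jF (Fs W) ∈ Qs W then
        if (ty = true ∧ x.1 = jF (Fs W)) ∨ (ty = false ∧ x.1 ∈ Qs W ∧ x.1 ≠ jF (Fs W)) then c W
        else if x.1 = iF (Fs W) ∧ - sb x.2 = σ * sg W (jF (Fs W)) then - c W else 0
      else 0) := by
    unfold dn
    refine Finset.sum_congr rfl fun x hx => ?_
    unfold trf
    rw [Finset.insert_erase hx]
  rw [e1]
  by_cases hj : jF (Fs W) ∈ Qs W
  swap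
  · simp only [if_neg hj, Finset.sum_const_zero]
  simp only [if_pos hj]
  by_cases hc : c W = 0
  · simp only [hc, neg_zero, ite_self, Finset.sum_const_zero]
  have hcard := hF hc
  have hi : iF (Fs W) ∈ Fs W := h.mi _ hcard
  have hdis : ∀ l, l ∈ Fs W → l ∉ Qs W := by
    intro l hl hl'
    rw [pe_mem_Fs] at hl
    rw [pe_mem_Qs] at hl'
    tauto
  set j := jF (Fs W) with hjdef
  set i := iF (Fs W) with hidef
  rw [sum_mem]
  have e2 : (∑ q ∈ Qs W, if (q, true) ∈ W then
        (if (ty = true ∧ (q, true).1 = j) ∨ (ty = false ∧ (q, true).1 ∈ Qs W ∧ (q, true).1 ≠ j)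
          then c W else if (q, true).1 = i ∧ - sb (q, true).2 = σ * sg W j then - c W else 0)
      else (if (ty = true ∧ (q, false).1 = j) ∨ (ty = false ∧ (q, false).1 ∈ Qs W ∧
          (q, false).1 ≠ j)
          then c W else if (q, false).1 = i ∧ - sb (q, false).2 = σ * sg W j then - c W else 0)) =
      c W := by
    have e3 : ∀ q ∈ Qs W, (if (q, true) ∈ W then
        (if (ty = true ∧ (q, true).1 = j) ∨ (ty = false ∧ (q, true).1 ∈ Qs W ∧ (q, true).1 ≠ j)
          then c W else if (q, true).1 = i ∧ - sb (q, true).2 = σ * sg W j then - c W else 0)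
      else (if (ty = true ∧ (q, false).1 = j) ∨ (ty = false ∧ (q, false).1 ∈ Qs W ∧
          (q, false).1 ≠ j)
          then c W else if (q, false).1 = i ∧ - sb (q, false).2 = σ * sg W j then - c W else 0)) =
        if (ty = true ∧ q = j) ∨ (ty = false ∧ q ≠ j) then c W else 0 := by
      intro q hq
      have hqi : q ≠ i := by
        rintro rfl
        exact hdis _ hi hq
      simp only [hq, hqi, false_and, if_false, true_and, ite_self]
    rw [Finset.sum_congr rfl e3]
    cases ty with
    | true =>
      simp only [true_and, reduceCtorEq, false_and, or_false]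
      rw [Finset.sum_ite_eq' (Qs W) j (fun _ => c W), if_pos hj]
    | false =>
      simp only [reduceCtorEq, false_and, true_and, false_or]
      rw [← Finset.sum_filter, Finset.sum_const, Finset.filter_ne', Finset.card_erase_of_mem hj,
        hQ hc rfl]
      simp
  have e4 : (∑ l ∈ Fs W,
      ((if (ty = true ∧ (l, true).1 = j) ∨ (ty = false ∧ (l, true).1 ∈ Qs W ∧ (l, true).1 ≠ j)
          then c W else if (l, true).1 = i ∧ - sb (l, true).2 = σ * sg W j then - c W else 0) +
       (if (ty = true ∧ (l, false).1 = j) ∨ (ty = false ∧ (l, false).1 ∈ Qs W ∧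
          (l, false).1 ≠ j)
          then c W else if (l, false).1 = i ∧ - sb (l, false).2 = σ * sg W j then - c W else 0))) =
      - c W := by
    have e5 : ∀ l ∈ Fs W,
      ((if (ty = true ∧ (l, true).1 = j) ∨ (ty = false ∧ (l, true).1 ∈ Qs W ∧ (l, true).1 ≠ j)
          then c W else if (l, true).1 = i ∧ - sb (l, true).2 = σ * sg W j then - c W else 0) +
       (if (ty = true ∧ (l, false).1 = j) ∨ (ty = false ∧ (l, false).1 ∈ Qs W ∧
          (l, false).1 ≠ j)
          then c W else if (l, false).1 = i ∧ - sb (l, false).2 = σ * sg W j then - c W else 0)) =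
        if l = i then - c W else 0 := by
      intro l hl
      have hlQ := hdis l hl
      have hlj : l ≠ j := by
        rintro rfl
        exact hlQ hj
      simp only [hlQ, hlj, false_and, and_false, or_self, if_false]
      by_cases hli : l = i
      · simp only [hli, true_and, if_true, sb, Bool.false_eq_true, if_false]
        have hsg : sg W j = 1 ∨ sg W j = -1 := by
          rw [pe_mem_Qs] at hj
          unfold sg
          rcases hj with ⟨h1, h2⟩ | ⟨h1, h2⟩
          · left; rw [if_pos h1, if_neg h2]; norm_num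
          · right; rw [if_neg h1, if_pos h2]; norm_num
        rcases hσ with rfl | rfl <;> rcases hsg with hs | hs <;> rw [hs] <;> norm_num
      · simp only [hli, false_and, if_false, add_zero]
    rw [Finset.sum_congr rfl e5, Finset.sum_ite_eq' (Fs W) i (fun _ => - c W), if_pos hi]
  rw [e2, e4]
  ring

end

end BG
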