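import Pool.Agent.Lib.MP_e26f2a_co.BG.EvenDefs
import Pool.Agent.Lib.MP_e26f2a_co.BG.PairSum
import Pool.Agent.Lib.MP_e26f2a_co.BG.PairErase
import Pool.Agent.Lib.MP_e26f2a_co.BG.PairCard

/-!
# Even case: the upper star sums (MP_e26f2a_co, Biggs project, piece V15, helper26)
-/

set_option autoImplicit false

namespace BG

open Finset

section
variable {ι : Type} [DecidableEq ι] [Fintype ι]

private theorem ups_ins (Y : Finset (ι × Bool)) (i : ι) (b : Bool) (hi : i ∈ Es Y) :
    Qs (insert (i, b) Y) = insert i (Qs Y) ∧ ch (insert (i, b) Y) = ch Y * sb b := by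
  rw [pe_mem_Es] at hi
  have h0 : (i, b) ∉ Y := by cases b <;> tauto
  have h1 : (i, b) ∈ insert (i, b) Y := mem_insert_self _ _
  have h2 : i ∈ Qs (insert (i, b) Y) := by
    rw [pe_mem_Qs]
    cases b
    · right
      refine ⟨?_, h1⟩
      rw [mem_insert]
      rintro (h | h)
      · simp at h
      · exact hi.1 h
    · left
      refine ⟨h1, ?_⟩
      rw [mem_insert]
      rintro (h | h)
      · simp at h
      · exact hi.2 h
  have h3 := Qs_erase_split _ i b h1 h2
  have h4 := ch_erase_split _ i b h1 h2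
  rw [erase_insert h0] at h3 h4
  refine ⟨?_, ?_⟩
  · rw [h3, insert_erase h2]
  · have h5 : sg (insert (i, b) Y) i = sb b := by
      unfold sg sb
      cases b
      · simp [hi.1]
      · simp [hi.2]
    rw [h4, h5, mul_assoc]
    unfold sb
    cases b <;> simp

omit [DecidableEq ι] [Fintype ι] in
private theorem ups_v (v : Finset ι → ℝ) (hv : ∀ F : Finset ι, v F = 1 ∨ v F = -1)
    (F : Finset ι) : |v F| ≤ 1 := by
  rcases hv F with h | h <;> rw [h] <;> simp

private theorem ups_f0 (i0 : ι) (v : Finset ι → ℝ) (hv : ∀ F : Finset ι, v F = 1 ∨ v F = -1)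
    (X : Finset (ι × Bool)) : |fE0 i0 v X| ≤ 1 := by
  unfold fE0
  split_ifs
  · exact ups_v v hv _
  · rw [abs_neg, abs_ch]
  · rw [abs_ch]

private theorem ups_f1 (v : Finset ι → ℝ) (hv : ∀ F : Finset ι, v F = 1 ∨ v F = -1)
    (X : Finset (ι × Bool)) : |fE1 v X| ≤ 1 := by
  unfold fE1
  split_ifs
  · exact ups_v v hv _
  · rw [abs_ch]

/-- the sum over the split pairs -/
private theorem ups_Q (Y : Finset (ι × Bool)) (G : ι × Bool → ℝ) (hG : ∀ x, |G x| ≤ 1) :
    |∑ i ∈ Qs Y, if (i, true) ∈ Y then G (i, false) else G (i, true)| ≤ ((Qs Y).card : ℝ) := by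
  refine (abs_sum_le_sum_abs _ _).trans ?_
  have : ∀ i ∈ Qs Y, |if (i, true) ∈ Y then G (i, false) else G (i, true)| ≤ 1 := by
    intro i _
    split_ifs
    · exact hG _
    · exact hG _
  refine (sum_le_sum this).trans ?_
  simp

/-- one empty pair -/
private theorem ups_e (i0 : ι) (v : Finset ι → ℝ) (Y : Finset (ι × Bool)) (i : ι)
    (hi : i ∈ Es Y) : fE0 i0 v (insert (i, true) Y) + fE0 i0 v (insert (i, false) Y) = 0 ∨
      (fE0 i0 v (insert (i, true) Y) + fE0 i0 v (insert (i, false) Y) = -2 * ch Y ∧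
        insert i (Qs Y) = univ) := by
  obtain ⟨hT1, hT2⟩ := ups_ins Y i true hi
  obtain ⟨hF1, hF2⟩ := ups_ins Y i false hi
  have hne : insert i (Qs Y) ≠ ∅ := insert_ne_empty _ _
  have sT : sb true = 1 := by simp [sb]
  have sF : sb false = -1 := by simp [sb]
  rw [sT] at hT2
  rw [sF] at hF2
  unfold fE0
  rw [hT1, hF1, if_neg hne, if_neg hne, hT2, hF2]
  by_cases hu : insert i (Qs Y) = univ
  · rw [pe_mem_Es] at hi
    by_cases h0 : i = i0
    · left
      have hpp : pos i0 (insert (i, true) Y) ↔ pos i0 (insert (i, false) Y) := by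
        unfold pos
        apply forall_congr'
        intro j
        apply imp_congr_right
        intro hj
        have hj' : j ≠ i := by rw [h0]; exact hj
        simp [hj']
      by_cases hp : pos i0 (insert (i, false) Y)
      · rw [if_pos ⟨hu, hpp.2 hp⟩, if_pos ⟨hu, hp⟩]
        ring
      · rw [if_neg (fun h => hp (hpp.1 h.2)), if_neg (fun h => hp h.2)]
        ring
    · have hp : ¬ pos i0 (insert (i, false) Y) := by
        intro h
        have := h i h0
        rw [mem_insert] at this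
        rcases this with h | h
        · simp at h
        · exact hi.1 h
      by_cases hq : pos i0 (insert (i, true) Y)
      · right
        rw [if_pos ⟨hu, hq⟩, if_neg (fun h => hp h.2)]
        exact ⟨by ring, hu⟩
      · left
        rw [if_neg (fun h => hq h.2), if_neg (fun h => hp h.2)]
        ring
  · left
    rw [if_neg (fun h => hu h.1), if_neg (fun h => hu h.1)]
    ring

/-- V15 upper star sums -/
theorem abs_u0 (a : ℕ) (ha : 3 ≤ a) (hι : Fintype.card ι = a) (i0 : ι) (v : Finset ι → ℝ)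
    (hv : ∀ F : Finset ι, v F = 1 ∨ v F = -1) (Y : Finset (ι × Bool)) (hY : Y.card = a - 1) :
    |fE1 v Y + ∑ y ∈ Yᶜ, fE0 i0 v (insert y Y)| ≤ (a:ℝ) := by
  have hc := card_pairs Y
  have hcu := card_univ_pairs Y
  rw [hι] at hcu
  rw [sum_compl_mem Y (fun y => fE0 i0 v (insert y Y))]
  have hQ := ups_Q Y (fun y => fE0 i0 v (insert y Y)) (fun x => ups_f0 i0 v hv _)
  have hQa : ((Qs Y).card : ℝ) ≤ (a : ℝ) - 1 := by
    have : (Qs Y).card + 1 ≤ a := by omega
    have h2 : ((Qs Y).card : ℝ) + 1 ≤ a := by exact_mod_cast this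
    linarith
  have hf := ups_f1 v hv Y
  by_cases hE : ∀ i ∈ Es Y,
      fE0 i0 v (insert (i, true) Y) + fE0 i0 v (insert (i, false) Y) = 0
  · rw [sum_eq_zero hE, add_zero]
    refine (abs_add_le _ _).trans ?_
    linarith
  · push Not at hE
    obtain ⟨i, hi, hne⟩ := hE
    obtain ⟨h1, hu⟩ := (ups_e i0 v Y i hi).resolve_left hne
    have hiQ : i ∉ Qs Y := by
      rw [pe_mem_Es] at hi
      rw [pe_mem_Qs]
      tauto
    have h2 : (Qs Y).card + 1 = a := by
      rw [← card_insert_of_notMem hiQ, hu, card_univ, hι]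
    have h3 : (Es Y).card = 1 := by omega
    have h4 : Es Y = {i} := by
      obtain ⟨j, hj⟩ := card_eq_one.1 h3
      rw [hj] at hi ⊢
      rw [mem_singleton.1 hi]
    have h5 : fE1 v Y = ch Y := by
      unfold fE1
      rw [if_neg]
      intro h
      rw [h, card_empty] at h2
      omega
    rw [h4, sum_singleton, h1, h5]
    have h6 : ch Y + ((∑ i ∈ Qs Y, if (i, true) ∈ Y then fE0 i0 v (insert (i, false) Y)
        else fE0 i0 v (insert (i, true) Y)) + -2 * ch Y) =
        (∑ i ∈ Qs Y, if (i, true) ∈ Y then fE0 i0 v (insert (i, false) Y)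
        else fE0 i0 v (insert (i, true) Y)) + - ch Y := by ring
    rw [h6]
    refine (abs_add_le _ _).trans ?_
    rw [abs_neg, abs_ch]
    linarith

theorem abs_u1 (a : ℕ) (ha : 3 ≤ a) (hι : Fintype.card ι = a) (v : Finset ι → ℝ)
    (hv : ∀ F : Finset ι, v F = 1 ∨ v F = -1) (Y : Finset (ι × Bool)) (hY : Y.card = a - 2) :
    |∑ y ∈ Yᶜ, fE1 v (insert y Y)| ≤ (a:ℝ) := by
  have hc := card_pairs Y
  rw [sum_compl_mem Y (fun y => fE1 v (insert y Y))]
  have hQ := ups_Q Y (fun y => fE1 v (insert y Y)) (fun x => ups_f1 v hv _)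
  have hQa : ((Qs Y).card : ℝ) ≤ (a : ℝ) := by
    have : (Qs Y).card ≤ a := by omega
    exact_mod_cast this
  have hE : ∑ i ∈ Es Y, (fE1 v (insert (i, true) Y) + fE1 v (insert (i, false) Y)) = 0 := by
    refine sum_eq_zero fun i hi => ?_
    obtain ⟨hT1, hT2⟩ := ups_ins Y i true hi
    obtain ⟨hF1, hF2⟩ := ups_ins Y i false hi
    have hne : insert i (Qs Y) ≠ ∅ := insert_ne_empty _ _
    unfold fE1
    rw [hT1, hF1, if_neg hne, if_neg hne, hT2, hF2]
    simp [sb]
  rw [hE, add_zero]
  exact hQ.trans hQa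

end

end BG
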