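import Pool.Agent.Lib.MP_e26f2a_co.BG.EvenPair
import Pool.Agent.Lib.MP_e26f2a_co.BG.MData
import Pool.Agent.Lib.MP_e26f2a_co.BG.EvenSh
import Pool.Agent.Lib.MP_e26f2a_co.BG.K1
import Pool.Agent.Lib.MP_e26f2a_co.BG.K2
import Pool.Agent.Lib.MP_e26f2a_co.BG.KC
import Pool.Agent.Lib.MP_e26f2a_co.BG.K3
import Pool.Agent.Lib.MP_e26f2a_co.BG.TrDn
import Pool.Agent.Lib.MP_e26f2a_co.BG.TrA
import Pool.Agent.Lib.MP_e26f2a_co.BG.Tr5
import Pool.Agent.Lib.MP_e26f2a_co.BG.TrB
import Pool.Agent.Lib.MP_e26f2a_co.BG.Fil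
import Pool.Agent.Lib.MP_e26f2a_co.BG.BdE0
import Pool.Agent.Lib.MP_e26f2a_co.BG.BdE1
import Pool.Agent.Lib.MP_e26f2a_co.BG.BdO1
import Pool.Agent.Lib.MP_e26f2a_co.BG.Ups
import Pool.Agent.Lib.MP_e26f2a_co.BG.GH
import Pool.Agent.Lib.MP_e26f2a_co.BG.OddCase
import Pool.Agent.Lib.MP_e26f2a_co.BG.Col5
import Pool.Agent.Lib.MP_e26f2a_co.BG.Col6

/-!
# Biggs' conjecture on the odd graphs: even case and final theorem (MP_e26f2a_co)
-/

set_option autoImplicit false

namespace BG

open Finset

theorem dn_add {T : Type} [DecidableEq T] (f g : Finset T → T → ℝ) (X : Finset T) :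
    dn (fun X x => f X x + g X x) X = dn f X + dn g X := by
  unfold dn; rw [Finset.sum_add_distrib]

theorem ch_one {ι : Type} [DecidableEq ι] [Fintype ι] (X : Finset (ι × Bool))
    (h : (Qs X).card = 1) : ch X = Ssum X := by
  obtain ⟨i, hi⟩ := Finset.card_eq_one.1 h
  have hiQ : i ∈ Qs X := by rw [hi]; exact Finset.mem_singleton_self i
  have hN : ∀ j ∈ Ng X, j = i := by
    intro j hj
    have : j ∈ Qs X := by
      simp only [Ng, Qs, mem_filter, mem_univ, true_and] at hj ⊢
      exact Or.inr hj
    rw [hi] at this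
    exact Finset.mem_singleton.1 this
  unfold Ssum
  rw [hi, Finset.sum_singleton]
  have hiQ' := hiQ
  simp only [Qs, mem_filter, mem_univ, true_and] at hiQ'
  rcases hiQ' with ⟨h1, h2⟩ | ⟨h1, h2⟩
  · have e : Ng X = ∅ := by
      rw [Finset.eq_empty_iff_forall_notMem]
      intro j hj
      have := hN j hj
      subst this
      simp only [Ng, mem_filter, mem_univ, true_and] at hj
      exact hj.1 h1
    rw [ch, e, sg, if_pos h1, if_neg h2]; simp
  · have e : Ng X = {i} := by
      ext j
      rw [Finset.mem_singleton]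
      constructor
      · exact hN j
      · rintro rfl
        simp only [Ng, mem_filter, mem_univ, true_and]
        exact ⟨h1, h2⟩
    rw [ch, e, sg, if_neg h1, if_pos h2]; simp

theorem fE0_cases {ι : Type} [DecidableEq ι] [Fintype ι] (i0 : ι) (v : Finset ι → ℝ)
    (hv : ∀ F : Finset ι, v F = 1 ∨ v F = -1) (X : Finset (ι × Bool)) :
    fE0 i0 v X = 1 ∨ fE0 i0 v X = -1 := by
  unfold fE0
  split_ifs
  · exact hv _
  · rcases ch_cases X with h | h <;> rw [h] <;> simp
  · exact ch_cases X

theorem fE1_cases {ι : Type} [DecidableEq ι] [Fintype ι] (v : Finset ι → ℝ)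
    (hv : ∀ F : Finset ι, v F = 1 ∨ v F = -1) (X : Finset (ι × Bool)) :
    fE1 v X = 1 ∨ fE1 v X = -1 := by
  unfold fE1
  split_ifs
  · exact hv _
  · exact ch_cases X

/-- `a` even -/
theorem even_case_e (r : ℕ) (hr : 2 ≤ r) (h2 : ¬ ∃ s : ℕ, 2 * r + 1 = 2 ^ s) :
    Col (2 * (2 * r) + 2) := by
  obtain ⟨v, jF, iF, hM⟩ := exists_mdata (ι := Fin (2*r)) (by simpa using h2)
  have hc : Fintype.card (Fin (2*r)) = 2*r := by simp
  rw [hc, show 2 * r / 2 = r by omega] at hM
  have i0 : Fin (2*r) := ⟨0, by omega⟩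
  refine even_pair (ι := Fin (2*r)) (2*r) (by omega) hc (fE0 i0 v) (fE1 v)
    (fun X x => k1f X x + k3f i0 X x + k4f v jF iF X x)
    (fun X x => k1f X x + k2f X x + kcf i0 X x + k5f v jF iF X x)
    (fun X _ => fE0_cases i0 v hM.v1 X) (fun X _ => fE1_cases v hM.v1 X) ?_ ?_ ?_ ?_
    (fun X x hX hx => abs_b0e r hr hc i0 v jF iF hM X x hX hx)
    (fun X x hX hx => abs_b1e r hr hc i0 v jF iF hM X x hX hx)
    (fun Y hY => abs_u0 (2*r) (by omega) hc i0 v hM.v1 Y hY)
    (fun Y hY => abs_u1 (2*r) (by omega) hc v hM.v1 Y hY)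
  · intro X hX
    have c1 := card_pairs X
    have c2 := card_univ_pairs X
    rw [hc] at c2
    rw [Finset.sum_add_distrib, Finset.sum_add_distrib, sum_k1f, sum_k3f, sh_fE0]
    have h4 : ∑ x ∈ Xᶜ, k4f v jF iF X x = if (Qs X).card = 1 then v (Fs X) else 0 := by
      unfold k4f
      rw [Finset.sum_add_distrib, sum_fil4]
      by_cases q1 : (Qs X).card = 1
      · rw [sum_trA1 r v jF iF hM X q1 (by omega), if_pos q1]
        by_cases hj : jF (Fs X) ∈ Qs X
        · rw [if_pos ⟨q1, hj⟩, if_pos hj, add_zero]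
        · rw [if_neg (fun hh => hj hh.2), if_neg hj, zero_add]
      · rw [if_neg (fun hh => q1 hh.1), if_neg q1, zero_add]
        by_cases q3 : (Qs X).card = 3
        · exact sum_trA3 r v jF iF hM X q3 (by omega)
        · exact sum_trA0 v jF iF X q1 q3
    rw [h4]
    split_ifs <;> ring
  · intro X hX
    have c1 := card_pairs X
    have c2 := card_univ_pairs X
    rw [hc] at c2
    rw [Finset.sum_add_distrib, Finset.sum_add_distrib, Finset.sum_add_distrib, sum_k1f, sum_k2f,
      sum_kcf, sh_fE1]
    have h5 : ∑ x ∈ Xᶜ, k5f v jF iF X x = if (Qs X).card = 0 then v (Fs X) else 0 := by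
      unfold k5f
      by_cases q0 : (Qs X).card = 0
      · rw [if_pos q0]; exact sum_tr5_0 r v jF iF hM X q0 (by omega)
      · rw [if_neg q0]
        by_cases q2 : (Qs X).card = 2
        · exact sum_tr5_2 r v jF iF hM X q2 (by omega)
        · exact sum_tr5_n v jF iF X q0 q2
    rw [h5]
    have q1 : (Qs X).card ≠ 1 := by omega
    rw [if_neg q1, if_neg q1]
    unfold fE0
    by_cases q0 : (Qs X).card = 0
    · have e0 : Qs X = ∅ := Finset.card_eq_zero.1 q0
      have e1 : ¬ (Qs X = univ) := by
        intro hh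
        have := congrArg Finset.card hh
        rw [Finset.card_univ, hc] at this
        omega
      have e2 : ¬ (2 ≤ (Qs X).card ∧ (Es X).Nonempty) := by intro hh; omega
      rw [if_neg e2, if_neg e1, if_pos q0, if_pos e0]; ring
    · have e0 : ¬ (Qs X = ∅) := fun hh => q0 (Finset.card_eq_zero.2 hh)
      rw [if_neg q0, if_neg e0]
      by_cases e1 : Qs X = univ
      · have e2 : ¬ (2 ≤ (Qs X).card ∧ (Es X).Nonempty) := by
          rintro ⟨_, hh⟩
          have := congrArg Finset.card e1
          rw [Finset.card_univ, hc] at this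
          have := Finset.card_pos.2 hh
          omega
        rw [if_neg e2, if_pos e1]
        by_cases e3 : pos i0 X
        · rw [if_pos e3, if_pos ⟨e1, e3⟩]; ring
        · rw [if_neg e3, if_neg (fun hh => e3 hh.2)]; ring
      · have e2 : 2 ≤ (Qs X).card ∧ (Es X).Nonempty := by
          refine ⟨by omega, ?_⟩
          rw [← Finset.card_pos]
          have : (Qs X).card ≠ 2 * r := by
            intro hh
            apply e1
            exact Finset.eq_univ_of_card _ (by rw [hh, hc])
          omega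
        rw [if_pos e2, if_neg e1, if_neg (fun hh => e1 hh.1)]; ring
  · intro X hX
    have c1 := card_pairs X
    have c2 := card_univ_pairs X
    rw [hc] at c2
    rw [dn_add (fun X x => k1f X x + k3f i0 X x) (k4f v jF iF), dn_add, dn_k1f, dn_k3f]
    have h4 : dn (k4f v jF iF) X = 0 := by
      have : k4f v jF iF = fun X x => fil (h4 v jF) X x + trf jF iF (cA v) 1 true X x := rfl
      rw [this, dn_add, dn_fil4 r v jF iF hM X, dn_trf r v jF iF hM _ _ (Or.inl rfl) _ X]
      · ring
      · intro hh
        have : (Qs X).card = 2 := by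
          by_contra hcon
          exact hh (by unfold cA; rw [if_neg (fun h => hcon h.1)])
        omega
      · intro _ hh; exact absurd hh (by simp)
      · intro hh; rw [hh, Finset.card_empty] at c1; omega
    rw [h4]; ring
  · intro X hX
    have c1 := card_pairs X
    have c2 := card_univ_pairs X
    rw [hc] at c2
    rw [dn_add (fun X x => k1f X x + k2f X x + kcf i0 X x) (k5f v jF iF),
      dn_add (fun X x => k1f X x + k2f X x) (kcf i0), dn_add, dn_k1f, dn_k2f, dn_kcf]
    have h5 : dn (k5f v jF iF) X = 0 := by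
      have : k5f v jF iF = trf jF iF (c5 v) (-1) true := rfl
      rw [this, dn_trf r v jF iF hM _ _ (Or.inr rfl) _ X]
      · intro hh
        have : (Qs X).card = 1 := by
          by_contra hcon
          exact hh (by unfold c5; rw [if_neg (fun h => hcon h.1)])
        omega
      · intro _ hh; exact absurd hh (by simp)
    rw [h5]; ring

/-- `a` odd -/
theorem even_case_o (r : ℕ) (hr : 2 ≤ r) (h2 : ¬ ∃ s : ℕ, 2 * r + 1 + 1 = 2 ^ s) :
    Col (2 * (2 * r + 1) + 2) := by
  obtain ⟨v, jF, iF, hM⟩ := exists_mdata (ι := Fin (2*r+1)) (by simpa using h2)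
  have hc : Fintype.card (Fin (2*r+1)) = 2*r+1 := by simp
  rw [hc, show (2 * r + 1) / 2 = r by omega] at hM
  have i0 : Fin (2*r+1) := ⟨0, by omega⟩
  refine even_pair (ι := Fin (2*r+1)) (2*r+1) (by omega) hc (fE0 i0 v) (fE1 v)
    (fun X x => k1f X x + k3f i0 X x)
    (fun X x => k1f X x + k2f X x + kcf i0 X x + k6f r v jF iF X x)
    (fun X _ => fE0_cases i0 v hM.v1 X) (fun X _ => fE1_cases v hM.v1 X) ?_ ?_ ?_ ?_
    (fun X x hX hx => abs_k13 i0 X x (by rw [hc]; omega))
    (fun X x hX hx => abs_b1o r hr hc i0 v jF iF hM X x hX hx)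
    (fun Y hY => abs_u0 (2*r+1) (by omega) hc i0 v hM.v1 Y hY)
    (fun Y hY => abs_u1 (2*r+1) (by omega) hc v hM.v1 Y hY)
  · intro X hX
    have c1 := card_pairs X
    have q1 : (Qs X).card ≠ 1 := by omega
    rw [Finset.sum_add_distrib, sum_k1f, sum_k3f, sh_fE0, if_neg q1, if_neg q1]
  · intro X hX
    have c1 := card_pairs X
    have c2 := card_univ_pairs X
    rw [hc] at c2
    rw [Finset.sum_add_distrib, Finset.sum_add_distrib, Finset.sum_add_distrib, sum_k1f, sum_k2f,
      sum_kcf, sh_fE1]
    have h6 : ∑ x ∈ Xᶜ, k6f r v jF iF X x =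
        if (Qs X).card = 1 then v (Fs X) + Ssum X else 0 := by
      unfold k6f
      rw [Finset.sum_add_distrib, Finset.sum_add_distrib, sum_fil6]
      by_cases q1 : (Qs X).card = 1
      · rw [sum_trA1 r v jF iF hM X q1 (by omega), if_pos q1, if_pos q1,
          sum_trB1 r (by omega) v jF iF hM X q1 (by omega) (by omega)]
        by_cases hj : jF (Fs X) ∈ Qs X
        · rw [if_pos hj, if_pos hj]
          have e1 := ch_one X q1
          by_cases hs : Ssum X = v (Fs X)
          · rw [if_pos ⟨hj, hs⟩, hs]; ring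
          · rw [if_neg (fun hh => hs hh.2)]
            have : Ssum X = - v (Fs X) := by
              rw [← e1] at hs ⊢
              rcases ch_cases X with h | h <;> rcases hM.v1 (Fs X) with h' | h'
              · exact absurd (by rw [h, h']) hs
              · rw [h, h']; norm_num
              · rw [h, h']
              · exact absurd (by rw [h, h']) hs
            rw [this]; ring
        · rw [if_neg hj, if_neg hj, if_neg (fun hh => hj hh.1)]; ring
      · rw [if_neg q1, if_neg q1]
        by_cases q3 : (Qs X).card = 3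
        · rw [sum_trA3 r v jF iF hM X q3 (by omega), sum_trB3 r v jF iF hM X q3 (by omega)]; ring
        · rw [sum_trA0 v jF iF X q1 q3, sum_trB0 r v jF iF X q1 q3]; ring
    rw [h6]
    have q0 : (Qs X).card ≠ 0 := by omega
    have e0 : ¬ (Qs X = ∅) := fun hh => q0 (Finset.card_eq_zero.2 hh)
    unfold fE0
    rw [if_neg e0]
    by_cases q1 : (Qs X).card = 1
    · have e1 : ¬ (Qs X = univ) := by
        intro hh
        have := congrArg Finset.card hh
        rw [Finset.card_univ, hc] at this
        omega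
      have e2 : ¬ (2 ≤ (Qs X).card ∧ (Es X).Nonempty) := by intro hh; omega
      rw [if_pos q1, if_pos q1, if_pos q1, if_neg e2, if_neg e1, if_neg (fun hh => e1 hh.1),
        ch_one X q1]
      ring
    · rw [if_neg q1, if_neg q1, if_neg q1]
      by_cases e1 : Qs X = univ
      · have e2 : ¬ (2 ≤ (Qs X).card ∧ (Es X).Nonempty) := by
          rintro ⟨_, hh⟩
          have := congrArg Finset.card e1
          rw [Finset.card_univ, hc] at this
          have := Finset.card_pos.2 hh
          omega
        rw [if_neg e2, if_pos e1]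
        by_cases e3 : pos i0 X
        · rw [if_pos e3, if_pos ⟨e1, e3⟩]; ring
        · rw [if_neg e3, if_neg (fun hh => e3 hh.2)]; ring
      · have e2 : 2 ≤ (Qs X).card ∧ (Es X).Nonempty := by
          refine ⟨by omega, ?_⟩
          rw [← Finset.card_pos]
          have : (Qs X).card ≠ 2 * r + 1 := by
            intro hh
            apply e1
            exact Finset.eq_univ_of_card _ (by rw [hh, hc])
          omega
        rw [if_pos e2, if_neg e1, if_neg (fun hh => e1 hh.1)]; ring
  · intro X hX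
    rw [dn_add, dn_k1f, dn_k3f]; ring
  · intro X hX
    have c1 := card_pairs X
    have c2 := card_univ_pairs X
    rw [hc] at c2
    rw [dn_add (fun X x => k1f X x + k2f X x + kcf i0 X x) (k6f r v jF iF),
      dn_add (fun X x => k1f X x + k2f X x) (kcf i0), dn_add, dn_k1f, dn_k2f, dn_kcf]
    have h6 : dn (k6f r v jF iF) X = 0 := by
      have : k6f r v jF iF = fun X x => fil (h6 v jF) X x +
        (trf jF iF (cA v) 1 true X x + trf jF iF (cB r v jF) (-1) false X x) := rfl
      rw [this, dn_add (fil (h6 v jF)) (fun X x => trf jF iF (cA v) 1 true X x +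
        trf jF iF (cB r v jF) (-1) false X x), dn_add, dn_fil6 r v jF iF hM X,
        dn_trf r v jF iF hM _ _ (Or.inl rfl) _ X, dn_trf r v jF iF hM _ _ (Or.inr rfl) _ X]
      · ring
      · intro hh
        have : (Qs X).card = 2 := by
          by_contra hcon
          exact hh (by unfold cB; rw [if_neg (fun h => hcon h.1)])
        omega
      · intro hh _
        by_contra hcon
        exact hh (by unfold cB; rw [if_neg (fun h => hcon h.1)])
      · intro hh
        have : (Qs X).card = 2 := by
          by_contra hcon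
          exact hh (by unfold cA; rw [if_neg (fun h => hcon h.1)])
        omega
      · intro _ hh; exact absurd hh (by simp)
      · intro hh; rw [hh, Finset.card_empty] at c1; omega
    rw [h6]; ring


/-- the even case -/
theorem even_case (a : ℕ) (ha : 4 ≤ a) (h2 : ¬ ∃ s : ℕ, a + 1 = 2 ^ s) : Col (2 * a + 2) := by
  rcases Nat.even_or_odd' a with ⟨r, rfl | rfl⟩
  · exact even_case_e r (by omega) h2
  · exact even_case_o r (by omega) h2

/-- Biggs' conjecture -/
theorem biggs (k : ℕ) (h2 : 2 ≤ k) (h3 : k ≠ 3) (hp : ¬ ∃ n : ℕ, k = 2^n) : Col k := by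
  rcases Nat.even_or_odd' k with ⟨h, hk | hk⟩
  · subst hk
    have h4 : ¬ ∃ r : ℕ, h = 2^r := by
      rintro ⟨r, hr⟩
      exact hp ⟨r+1, by rw [pow_succ, ← hr]; ring⟩
    by_cases h5 : 5 ≤ h
    · obtain ⟨a, rfl⟩ : ∃ a, h = a + 1 := ⟨h-1, by omega⟩
      exact even_case a (by omega) h4
    · have : h = 1 ∨ h = 2 ∨ h = 3 ∨ h = 4 := by omega
      rcases this with rfl | rfl | rfl | rfl
      · exact (h4 ⟨0, by norm_num⟩).elim
      · exact (h4 ⟨1, by norm_num⟩).elim
      · exact col6
      · exact (h4 ⟨2, by norm_num⟩).elim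
  · subst hk
    by_cases h5 : 3 ≤ h
    · exact odd_case h h5
    · have : h = 1 ∨ h = 2 := by omega
      rcases this with rfl | rfl
      · exact (h3 rfl).elim
      · exact col5

end BG
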