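import Pool.Agent.Lib.MP_e26f2a_co.BG.Pair

set_option autoImplicit false

namespace BG

open Finset

theorem abs_sh_le {T : Type} [DecidableEq T] (g : Finset T → ℝ) (V : Finset T)
    (h : ∀ v ∈ V, g (V.erase v) = 1 ∨ g (V.erase v) = -1)
    (h1 : ∃ v ∈ V, g (V.erase v) = 1) (h2 : ∃ v ∈ V, g (V.erase v) = -1) :
    |sh g V| ≤ (V.card:ℝ) - 2 := by
  obtain ⟨a, ha, ga⟩ := h1
  obtain ⟨b, hb, gb⟩ := h2
  have hab : b ≠ a := by rintro rfl; rw [ga] at gb; norm_num at gb
  have hb' : b ∈ V.erase a := mem_erase.2 ⟨hab, hb⟩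
  unfold sh
  rw [← Finset.add_sum_erase V _ ha, ← Finset.add_sum_erase (V.erase a) _ hb', ga, gb]
  have e : (1:ℝ) + (-1 + ∑ x ∈ (V.erase a).erase b, g (V.erase x)) =
      ∑ x ∈ (V.erase a).erase b, g (V.erase x) := by ring
  rw [e]
  refine le_trans (Finset.abs_sum_le_sum_abs _ _) ?_
  refine le_trans (Finset.sum_le_card_nsmul _ _ 1 ?_) ?_
  · intro x hx
    have hx' : x ∈ V := mem_of_mem_erase (mem_of_mem_erase hx)
    rcases h x hx' with h | h <;> rw [h] <;> simp
  · rw [card_erase_of_mem hb', card_erase_of_mem ha, nsmul_eq_mul, mul_one]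
    have : 2 ≤ V.card := by
      have h1 : 0 < (V.erase a).card := card_pos.2 ⟨b, hb'⟩
      rw [card_erase_of_mem ha] at h1
      omega
    rw [show V.card - 1 - 1 = V.card - 2 by omega, Nat.cast_sub this]
    norm_num

section
variable {r : ℕ}

/-- block part -/
def blk (V : Finset ((Fin 3 ⊕ Fin r) × Bool)) : Finset (Fin 3 × Bool) :=
  univ.filter fun p => (Sum.inl p.1, p.2) ∈ V

/-- rest -/
def rst (V : Finset ((Fin 3 ⊕ Fin r) × Bool)) : Finset (Fin r × Bool) :=
  univ.filter fun p => (Sum.inr p.1, p.2) ∈ V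

theorem mem_blk (V : Finset ((Fin 3 ⊕ Fin r) × Bool)) (p : Fin 3 × Bool) :
    p ∈ blk V ↔ (Sum.inl p.1, p.2) ∈ V := by simp [blk]

theorem mem_rst (V : Finset ((Fin 3 ⊕ Fin r) × Bool)) (p : Fin r × Bool) :
    p ∈ rst V ↔ (Sum.inr p.1, p.2) ∈ V := by simp [rst]

theorem blk_compl (V : Finset ((Fin 3 ⊕ Fin r) × Bool)) : blk Vᶜ = (blk V)ᶜ := by
  ext p; simp [mem_blk]

theorem rst_compl (V : Finset ((Fin 3 ⊕ Fin r) × Bool)) : rst Vᶜ = (rst V)ᶜ := by
  ext p; simp [mem_rst]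

theorem blk_erase_inl (V : Finset ((Fin 3 ⊕ Fin r) × Bool)) (p : Fin 3 × Bool) :
    blk (V.erase (Sum.inl p.1, p.2)) = (blk V).erase p := by
  ext q
  simp only [mem_blk, mem_erase, ne_eq, Prod.mk.injEq, Sum.inl.injEq]
  rw [Prod.ext_iff]

theorem rst_erase_inl (V : Finset ((Fin 3 ⊕ Fin r) × Bool)) (p : Fin 3 × Bool) :
    rst (V.erase (Sum.inl p.1, p.2)) = rst V := by
  ext q
  simp [mem_rst, mem_erase]

theorem blk_erase_inr (V : Finset ((Fin 3 ⊕ Fin r) × Bool)) (p : Fin r × Bool) :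
    blk (V.erase (Sum.inr p.1, p.2)) = blk V := by
  ext q
  simp [mem_blk, mem_erase]

theorem rst_erase_inr (V : Finset ((Fin 3 ⊕ Fin r) × Bool)) (p : Fin r × Bool) :
    rst (V.erase (Sum.inr p.1, p.2)) = (rst V).erase p := by
  ext q
  simp only [mem_rst, mem_erase, ne_eq, Prod.mk.injEq, Sum.inr.injEq]
  rw [Prod.ext_iff]

theorem card_blk_rst (V : Finset ((Fin 3 ⊕ Fin r) × Bool)) :
    V.card = (blk V).card + (rst V).card := by
  have e : V = (blk V).image (fun p => ((Sum.inl p.1 : Fin 3 ⊕ Fin r), p.2)) ∪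
      (rst V).image (fun p => ((Sum.inr p.1 : Fin 3 ⊕ Fin r), p.2)) := by
    ext ⟨i, b⟩
    simp only [mem_union, mem_image, mem_blk, mem_rst, Prod.mk.injEq, Prod.exists]
    rcases i with i | i
    · simp
    · simp
  have d : Disjoint ((blk V).image (fun p => ((Sum.inl p.1 : Fin 3 ⊕ Fin r), p.2)))
      ((rst V).image (fun p => ((Sum.inr p.1 : Fin 3 ⊕ Fin r), p.2))) := by
    rw [Finset.disjoint_left]
    rintro ⟨i, b⟩ h1 h2
    simp only [mem_image, Prod.mk.injEq] at h1 h2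
    obtain ⟨_, _, h1, _⟩ := h1
    obtain ⟨_, _, h2, _⟩ := h2
    rw [← h1] at h2
    exact absurd h2 (by simp)
  conv_lhs => rw [e]
  rw [card_union_of_disjoint d, card_image_of_injective, card_image_of_injective]
  · rintro ⟨i, b⟩ ⟨j, c⟩ h
    simp only [Prod.mk.injEq, Sum.inr.injEq] at h
    exact Prod.ext h.1 h.2
  · rintro ⟨i, b⟩ ⟨j, c⟩ h
    simp only [Prod.mk.injEq, Sum.inl.injEq] at h
    exact Prod.ext h.1 h.2

end

theorem ch_er_full_true {ι : Type} [DecidableEq ι] [Fintype ι] (X : Finset (ι × Bool)) (i : ι)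
    (h1 : (i, true) ∈ X) (h2 : (i, false) ∈ X) : ch (X.erase (i, true)) = - ch X := by
  have e : Ng (X.erase (i, true)) = insert i (Ng X) := by
    ext j
    simp only [Ng, mem_filter, mem_univ, true_and, mem_erase, ne_eq, Prod.mk.injEq, mem_insert,
      and_true, reduceCtorEq, and_false, not_false_eq_true]
    by_cases hj : j = i
    · subst hj; simp [h2]
    · simp [hj]
  have hn : i ∉ Ng X := by simp [Ng, h1]
  rw [ch, ch, e, card_insert_of_notMem hn, pow_succ]; ring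

theorem ch_er_full_false {ι : Type} [DecidableEq ι] [Fintype ι] (X : Finset (ι × Bool)) (i : ι)
    (h1 : (i, true) ∈ X) (h2 : (i, false) ∈ X) : ch (X.erase (i, false)) = ch X := by
  have e : Ng (X.erase (i, false)) = Ng X := by
    ext j
    simp only [Ng, mem_filter, mem_univ, true_and, mem_erase, ne_eq, Prod.mk.injEq,
      and_true, reduceCtorEq, and_false, not_false_eq_true]
    by_cases hj : j = i
    · subst hj; simp [h1]
    · simp [hj]
  rw [ch, ch, e]

end BG
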