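import Pool.Agent.Lib.MP_e26f2a_co.BG.Engine

set_option autoImplicit false
set_option linter.unusedSectionVars false

namespace BG

open Finset

section iface
variable {P N : Type} [Fintype P] [DecidableEq P] [Fintype N] [DecidableEq N]

/-- the `P`-part of `A` -/
def XX (A : Finset (Option (P ⊕ N))) : Finset P := univ.filter fun p => some (Sum.inl p) ∈ A
/-- the `N`-part of the complement of `A` -/
def VV (A : Finset (Option (P ⊕ N))) : Finset N := univ.filter fun v => some (Sum.inr v) ∉ A

theorem mem_XX (A : Finset (Option (P ⊕ N))) (p : P) : p ∈ XX A ↔ some (Sum.inl p) ∈ A := by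
  simp [XX]

theorem mem_VV (A : Finset (Option (P ⊕ N))) (v : N) : v ∈ VV A ↔ some (Sum.inr v) ∉ A := by
  simp [VV]

theorem sum_compl_code (A : Finset (Option (P ⊕ N))) (g : Option (P ⊕ N) → ℝ) :
    ∑ x ∈ Aᶜ, g x = (∑ p ∈ (XX A)ᶜ, g (some (Sum.inl p))) + (∑ v ∈ VV A, g (some (Sum.inr v))) +
      (if none ∈ A then 0 else g none) := by
  have e1 : ∑ x ∈ Aᶜ, g x = ∑ x, if x ∉ A then g x else 0 := by
    rw [← Finset.sum_filter]
    refine Finset.sum_congr ?_ fun _ _ => rfl
    ext x; simp
  have e2 : ∑ p ∈ (XX A)ᶜ, g (some (Sum.inl p)) =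
      ∑ p, if some (Sum.inl p) ∉ A then g (some (Sum.inl p)) else 0 := by
    rw [← Finset.sum_filter]
    refine Finset.sum_congr ?_ fun _ _ => rfl
    ext x; simp [XX]
  have e3 : ∑ v ∈ VV A, g (some (Sum.inr v)) =
      ∑ v, if some (Sum.inr v) ∉ A then g (some (Sum.inr v)) else 0 := by
    rw [← Finset.sum_filter]
    rfl
  rw [e1, e2, e3, Fintype.sum_option, Fintype.sum_sum_type]
  by_cases h : none ∈ A
  · simp [h]
  · simp [h]
    ring

theorem card_code (A : Finset (Option (P ⊕ N))) :
    A.card + (VV A).card = (XX A).card + Fintype.card N + (if none ∈ A then 1 else 0) := by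
  have e1 := sum_compl_code A (fun _ => (1:ℝ))
  simp only [Finset.sum_const, nsmul_eq_mul, mul_one] at e1
  have e2 := Finset.card_add_card_compl A
  have e3 := Finset.card_add_card_compl (XX A)
  have e4 : Fintype.card (Option (P ⊕ N)) = Fintype.card P + Fintype.card N + 1 := by
    simp
  rw [e4] at e2
  by_cases h : none ∈ A
  · simp only [h, if_true] at e1 ⊢
    have e5 : Aᶜ.card = (XX A)ᶜ.card + (VV A).card + 0 := by exact_mod_cast e1
    omega
  · simp only [h, if_false] at e1 ⊢
    have e5 : Aᶜ.card = (XX A)ᶜ.card + (VV A).card + 1 := by exact_mod_cast e1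
    omega

theorem XX_nb_P (A : Finset (Option (P ⊕ N))) (p : P) :
    XX ((insert (some (Sum.inl p)) A)ᶜ) = (insert p (XX A))ᶜ := by
  ext q; simp [XX]

theorem VV_nb_P (A : Finset (Option (P ⊕ N))) (p : P) :
    VV ((insert (some (Sum.inl p)) A)ᶜ) = (VV A)ᶜ := by
  ext q; simp [VV]

theorem XX_nb_N (A : Finset (Option (P ⊕ N))) (v : N) :
    XX ((insert (some (Sum.inr v)) A)ᶜ) = (XX A)ᶜ := by
  ext q; simp [XX]

theorem VV_nb_N (A : Finset (Option (P ⊕ N))) (v : N) :
    VV ((insert (some (Sum.inr v)) A)ᶜ) = insert v (VV A)ᶜ := by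
  ext q; simp [VV]; tauto

theorem XX_nb_z (A : Finset (Option (P ⊕ N))) : XX ((insert none A)ᶜ) = (XX A)ᶜ := by
  ext q; simp [XX]

theorem VV_nb_z (A : Finset (Option (P ⊕ N))) : VV ((insert none A)ᶜ) = (VV A)ᶜ := by
  ext q; simp [VV]

/-- the edge function on darts -/
noncomputable def FF (n : ℕ) (a : Finset P → Finset N → P → ℝ) (b : Finset P → Finset N → N → ℝ)
    (s : Finset P → Finset N → ℝ) (A : Finset (Option (P ⊕ N))) : Option (P ⊕ N) → ℝ
  | some (Sum.inl p) => if n ≤ (XX A).card + (VV A).card then a (XX A) (VV A) p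
      else a (insert p (XX A))ᶜ (VV A)ᶜ p
  | some (Sum.inr v) => if n < (XX A).card + (VV A).card then b (XX A) ((VV A).erase v) v
      else b (XX A)ᶜ (VV A)ᶜ v
  | none => if n ≤ (XX A).card + (VV A).card then s (XX A) (VV A) else s (XX A)ᶜ (VV A)ᶜ

/-- sign function: `t` = value at ties -/
def SS (n : ℕ) (t : Finset P → Finset N → Bool) (A : Finset (Option (P ⊕ N))) : Bool :=
  if n < (XX A).card + (VV A).card then true
  else if (XX A).card + (VV A).card < n then false else t (XX A) (VV A)

theorem SS_pos (n : ℕ) (t : Finset P → Finset N → Bool) (A : Finset (Option (P ⊕ N)))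
    (h : n < (XX A).card + (VV A).card) : SS n t A = true := by
  simp [SS, h]

theorem SS_neg (n : ℕ) (t : Finset P → Finset N → Bool) (A : Finset (Option (P ⊕ N)))
    (h : (XX A).card + (VV A).card < n) : SS n t A = false := by
  have h' : ¬ n < (XX A).card + (VV A).card := by omega
  simp [SS, h, h']

theorem SS_tie (n : ℕ) (t : Finset P → Finset N → Bool) (A : Finset (Option (P ⊕ N)))
    (h : (XX A).card + (VV A).card = n) : SS n t A = t (XX A) (VV A) := by
  have h' : ¬ n < (XX A).card + (VV A).card := by omega
  have h'' : ¬ (XX A).card + (VV A).card < n := by omega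
  simp [SS, h', h'']

/-- A3 interface -/
theorem interface
    (n e : ℕ) (hP : Fintype.card P = n) (hN : Fintype.card N = n)
    (he : e ≤ 1) (hpar : (n + 1 + e) % 2 = 0)
    (a : Finset P → Finset N → P → ℝ) (b : Finset P → Finset N → N → ℝ)
    (s γ : Finset P → Finset N → ℝ)
    (ba : ∀ (X : Finset P) (V : Finset N) (x : P), n ≤ X.card + V.card →
      (V.card = X.card ∨ V.card = X.card + 1) → x ∉ X → |a X V x| ≤ 1)
    (bb : ∀ (X : Finset P) (V : Finset N) (v : N), n ≤ X.card + V.card →
      (X.card = V.card ∨ X.card = V.card + 1) → v ∉ V → |b X V v| ≤ 1)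
    (bs : ∀ (X : Finset P) (V : Finset N), n ≤ X.card + V.card → X.card = V.card → |s X V| ≤ 1)
    (n0 : ∀ (X : Finset P) (V : Finset N), n < X.card + V.card → V.card = X.card →
      (∑ x ∈ Xᶜ, a X V x) + (∑ v ∈ V, b X (V.erase v) v) + s X V = (e:ℝ))
    (n1 : ∀ (X : Finset P) (V : Finset N), n < X.card + V.card → V.card = X.card + 1 →
      (∑ x ∈ Xᶜ, a X V x) + (∑ v ∈ V, b X (V.erase v) v) = (e:ℝ))
    (p0 : ∀ (X : Finset P) (V : Finset N), n < X.card + V.card → X.card = V.card →
      (∑ x ∈ X, a (X.erase x) V x) + (∑ v ∈ Vᶜ, b X V v) + s X V = (e:ℝ))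
    (p1 : ∀ (X : Finset P) (V : Finset N), n < X.card + V.card → X.card = V.card + 1 →
      (∑ x ∈ X, a (X.erase x) V x) + (∑ v ∈ Vᶜ, b X V v) = (e:ℝ))
    (hγ : ∀ (X : Finset P) (V : Finset N), X.card + V.card = n →
      (V.card = X.card ∨ V.card = X.card + 1) → γ X V = 1 ∨ γ X V = -1)
    (ta : ∀ (X : Finset P) (V : Finset N), X.card + V.card = n →
      (V.card = X.card ∨ V.card = X.card + 1) → ∀ x, x ∉ X → a X V x = γ X V)
    (tb : ∀ (X : Finset P) (V : Finset N), X.card + V.card = n →
      (X.card = V.card ∨ X.card = V.card + 1) → ∀ v, v ∉ V → b X V v = - γ Xᶜ Vᶜ)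
    (ts : ∀ (X : Finset P) (V : Finset N), X.card + V.card = n → X.card = V.card →
      s X V = 1 ∧ e = 1 ∧ γ Xᶜ Vᶜ = - γ X V) :
    Col (n+1) := by
  classical
  have hG : Fintype.card (Option (P ⊕ N)) = 2*n+1 := by
    simp only [Fintype.card_option, Fintype.card_sum, hP, hN]; omega
  -- cardinalities
  have hX : ∀ X : Finset P, X.card + Xᶜ.card = n := fun X => by
    rw [Finset.card_add_card_compl, hP]
  have hV : ∀ V : Finset N, V.card + Vᶜ.card = n := fun V => by
    rw [Finset.card_add_card_compl, hN]
  have hc : ∀ A : Finset (Option (P ⊕ N)), A.card = n →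
      (VV A).card = (XX A).card + (if none ∈ A then 1 else 0) := by
    intro A hA
    have := card_code A
    rw [hA, hN] at this
    omega
  have hc2 : ∀ A : Finset (Option (P ⊕ N)), A.card = n →
      ((VV A).card = (XX A).card ∨ (VV A).card = (XX A).card + 1) := by
    intro A hA
    have := hc A hA
    split_ifs at this <;> omega
  have hins : ∀ (X : Finset P) (p : P), p ∉ X → (insert p X)ᶜ.card + X.card + 1 = n := by
    intro X p hp
    have h1 := hX (insert p X)
    rw [Finset.card_insert_of_notMem hp] at h1
    omega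
  have hinsV : ∀ (V : Finset N) (v : N), v ∈ V → (insert v Vᶜ).card + V.card = n + 1 := by
    intro V v hv
    have h1 := hV V
    rw [Finset.card_insert_of_notMem (by simpa using hv)]
    omega
  refine engine n e hG he hpar (FF n a b s) (SS n fun X V => decide (γ X V = 1))
    (SS n fun X V => decide (γ X V = -1)) ?_ ?_ ?_ ?_ ?_
  · -- symmetry
    rintro A (_ | (p | v)) hA hx
    · -- z
      simp only [FF, XX_nb_z, VV_nb_z, compl_compl]
      have h1 := hX (XX A)
      have h2 := hV (VV A)
      have h3 := hc A hA
      rw [if_neg hx] at h3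
      rcases lt_trichotomy ((XX A).card + (VV A).card) n with h | h | h
      · rw [if_pos (by omega), if_neg (by omega)]
      · rw [if_pos (by omega), if_pos (by omega), (ts (XX A) (VV A) h (by omega)).1,
          (ts (XX A)ᶜ (VV A)ᶜ (by omega) (by omega)).1]
      · rw [if_neg (by omega), if_pos (by omega)]
    · -- P
      have hp : p ∉ XX A := by rw [mem_XX]; exact hx
      simp only [FF, XX_nb_P, VV_nb_P, compl_compl]
      have h1 := hins (XX A) p hp
      have h2 := hV (VV A)
      have h4 : (insert p (insert p (XX A))ᶜ)ᶜ = XX A := nb_nb (XX A) p hp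
      rw [h4]
      by_cases h : n ≤ (XX A).card + (VV A).card
      · rw [if_neg (by omega), if_pos h]
      · rw [if_pos (by omega), if_neg h]
    · -- N
      have hv : v ∈ VV A := by rw [mem_VV]; exact hx
      simp only [FF, XX_nb_N, VV_nb_N, compl_compl]
      have h1 := hX (XX A)
      have h2 := hinsV (VV A) v hv
      have h4 : (insert v (VV A)ᶜ)ᶜ = (VV A).erase v := by
        ext w; simp
      have h5 : (insert v (VV A)ᶜ).erase v = (VV A)ᶜ := by
        rw [Finset.erase_insert]; simpa using hv
      rw [h4, h5]
      by_cases h : n < (XX A).card + (VV A).card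
      · rw [if_neg (by omega), if_pos h]
      · rw [if_pos (by omega), if_neg h]
  · -- bounds
    rintro A (_ | (p | v)) hA hx
    · have h1 := hX (XX A)
      have h2 := hV (VV A)
      have h3 := hc A hA
      rw [if_neg hx] at h3
      simp only [FF]
      split_ifs with h
      · exact bs _ _ h (by omega)
      · exact bs _ _ (by omega) (by omega)
    · have hp : p ∉ XX A := by rw [mem_XX]; exact hx
      have h1 := hins (XX A) p hp
      have h2 := hV (VV A)
      have h3 := hc2 A hA
      simp only [FF]
      split_ifs with h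
      · exact ba _ _ _ h h3 hp
      · exact ba _ _ _ (by omega) (by omega) (by simp)
    · have hv : v ∈ VV A := by rw [mem_VV]; exact hx
      have h1 := hX (XX A)
      have h2 := hV (VV A)
      have h3 := hc2 A hA
      have h4 := Finset.card_erase_of_mem hv
      have h5 : 0 < (VV A).card := Finset.card_pos.2 ⟨v, hv⟩
      simp only [FF]
      split_ifs with h
      · exact bb _ _ _ (by omega) (by omega) (by simp)
      · exact bb _ _ _ (by omega) (by omega) (by simpa using hv)
  · -- sums
    intro A hA
    rw [sum_compl_code]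
    have h1 := hX (XX A)
    have h2 := hV (VV A)
    have h3 := hc A hA
    rcases lt_trichotomy ((XX A).card + (VV A).card) n with h | h | h
    · have e1 : ∀ p ∈ (XX A)ᶜ, FF n a b s A (some (Sum.inl p)) =
          a ((XX A)ᶜ.erase p) (VV A)ᶜ p := by
        intro p _
        simp only [FF]
        rw [if_neg (by omega)]
        congr 1
        ext q; simp
      have e2 : ∀ v ∈ VV A, FF n a b s A (some (Sum.inr v)) = b (XX A)ᶜ (VV A)ᶜ v := by
        intro v _
        simp only [FF]
        rw [if_neg (by omega)]
      rw [Finset.sum_congr rfl e1, Finset.sum_congr rfl e2]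
      by_cases hz : none ∈ A
      · rw [if_pos hz] at h3 ⊢
        have := p1 (XX A)ᶜ (VV A)ᶜ (by omega) (by omega)
        rw [compl_compl] at this
        rw [add_zero]; exact this
      · rw [if_neg hz] at h3 ⊢
        have := p0 (XX A)ᶜ (VV A)ᶜ (by omega) (by omega)
        rw [compl_compl] at this
        have e3 : FF n a b s A none = s (XX A)ᶜ (VV A)ᶜ := by
          simp only [FF]
          rw [if_neg (by omega)]
        rw [e3]; exact this
    · have e1 : ∀ p ∈ (XX A)ᶜ, FF n a b s A (some (Sum.inl p)) = γ (XX A) (VV A) := by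
        intro p hp
        simp only [FF]
        rw [if_pos (by omega)]
        exact ta _ _ h (hc2 A hA) p (by simpa using hp)
      have e2 : ∀ v ∈ VV A, FF n a b s A (some (Sum.inr v)) = - γ (XX A) (VV A) := by
        intro v hv
        simp only [FF]
        rw [if_neg (by omega)]
        have := tb (XX A)ᶜ (VV A)ᶜ (by omega) (by have := hc2 A hA; omega) v (by simpa using hv)
        rw [this, compl_compl, compl_compl]
      rw [Finset.sum_congr rfl e1, Finset.sum_congr rfl e2]
      simp only [Finset.sum_const, nsmul_eq_mul]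
      have e5 : (XX A)ᶜ.card = (VV A).card := by omega
      rw [e5]
      by_cases hz : none ∈ A
      · rw [if_pos hz] at h3 ⊢
        have : e = 0 := by omega
        rw [this]; push_cast; ring
      · rw [if_neg hz] at h3 ⊢
        obtain ⟨t1, t2, t3⟩ := ts (XX A) (VV A) h (by omega)
        have e3 : FF n a b s A none = 1 := by
          simp only [FF]
          rw [if_pos (by omega)]; exact t1
        rw [e3, t2]; push_cast; ring
    · have e1 : ∀ p ∈ (XX A)ᶜ, FF n a b s A (some (Sum.inl p)) = a (XX A) (VV A) p := by
        intro p _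
        simp only [FF]
        rw [if_pos (by omega)]
      have e2 : ∀ v ∈ VV A, FF n a b s A (some (Sum.inr v)) = b (XX A) ((VV A).erase v) v := by
        intro v _
        simp only [FF]
        rw [if_pos (by omega)]
      rw [Finset.sum_congr rfl e1, Finset.sum_congr rfl e2]
      by_cases hz : none ∈ A
      · rw [if_pos hz] at h3 ⊢
        rw [add_zero]
        exact n1 (XX A) (VV A) (by omega) (by omega)
      · rw [if_neg hz] at h3 ⊢
        have e3 : FF n a b s A none = s (XX A) (VV A) := by
          simp only [FF]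
          rw [if_pos (by omega)]
        rw [e3]
        exact n0 (XX A) (VV A) (by omega) (by omega)
  · -- first sign
    rintro A (_ | (p | v)) hA hx hF
    · have h1 := hX (XX A)
      have h2 := hV (VV A)
      have h3 := hc A hA
      rw [if_neg hx] at h3
      have hXB := XX_nb_z A
      have hVB := VV_nb_z A
      rcases lt_trichotomy ((XX A).card + (VV A).card) n with h | h | h
      · rw [SS_neg _ _ A h, SS_pos _ _ _ (by rw [hXB, hVB]; omega)]; simp
      · rw [SS_tie _ _ A h, SS_tie _ _ _ (by rw [hXB, hVB]; omega), hXB, hVB]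
        obtain ⟨t1, t2, t3⟩ := ts (XX A) (VV A) h (by omega)
        rw [t3]
        rcases hγ (XX A) (VV A) h (by omega) with g | g
        · rw [g]; norm_num
        · rw [g]; norm_num
      · rw [SS_pos _ _ A h, SS_neg _ _ _ (by rw [hXB, hVB]; omega)]; simp
    · have hp : p ∉ XX A := by rw [mem_XX]; exact hx
      have h1 := hins (XX A) p hp
      have h2 := hV (VV A)
      have h3 := hc2 A hA
      have hXB := XX_nb_P A p
      have hVB := VV_nb_P A p
      rcases lt_trichotomy ((XX A).card + (VV A).card) n with h | h | h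
      · rw [SS_neg _ _ A h]
        by_cases h' : (XX A).card + (VV A).card + 1 = n
        · -- the neighbour is a tie
          rw [SS_tie _ _ _ (by rw [hXB, hVB]; omega), hXB, hVB]
          simp only [FF] at hF
          rw [if_neg (by omega), ta _ _ (by omega) (by omega) p (by simp)] at hF
          rcases hγ (insert p (XX A))ᶜ (VV A)ᶜ (by omega) (by omega) with g | g
          · rw [g]; norm_num
          · exact absurd g hF
        · rw [SS_pos _ _ _ (by rw [hXB, hVB]; omega)]; simp
      · rw [SS_tie _ _ A h, SS_neg _ _ _ (by rw [hXB, hVB]; omega)]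
        simp only [FF] at hF
        rw [if_pos (by omega), ta _ _ (by omega) (by omega) p hp] at hF
        rcases hγ (XX A) (VV A) h h3 with g | g
        · simp [g]
        · exact absurd g hF
      · rw [SS_pos _ _ A h, SS_neg _ _ _ (by rw [hXB, hVB]; omega)]; simp
    · have hv : v ∈ VV A := by rw [mem_VV]; exact hx
      have h1 := hX (XX A)
      have h2 := hinsV (VV A) v hv
      have h2' := hV (VV A)
      have h3 := hc2 A hA
      have h4 := Finset.card_erase_of_mem hv
      have h5 : 0 < (VV A).card := Finset.card_pos.2 ⟨v, hv⟩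
      have hXB := XX_nb_N A v
      have hVB := VV_nb_N A v
      rcases lt_trichotomy ((XX A).card + (VV A).card) n with h | h | h
      · rw [SS_neg _ _ A h, SS_pos _ _ _ (by rw [hXB, hVB]; omega)]; simp
      · rw [SS_tie _ _ A h, SS_pos _ _ _ (by rw [hXB, hVB]; omega)]
        simp only [FF] at hF
        rw [if_neg (by omega), tb _ _ (by omega) (by omega) v (by simpa using hv), compl_compl,
          compl_compl] at hF
        rcases hγ (XX A) (VV A) h h3 with g | g
        · exact absurd (by rw [g]) hF
        · rw [g]; norm_num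
      · rw [SS_pos _ _ A h]
        by_cases h' : (XX A).card + (VV A).card = n + 1
        · rw [SS_tie _ _ _ (by rw [hXB, hVB]; omega), hXB, hVB]
          simp only [FF] at hF
          have h6 : ((VV A).erase v)ᶜ = insert v (VV A)ᶜ := by
            ext w; simp
          rw [if_pos (by omega), tb _ _ (by omega) (by omega) v (by simp), h6] at hF
          rcases hγ (XX A)ᶜ (insert v (VV A)ᶜ) (by omega) (by omega) with g | g
          · exact absurd (by rw [g]) hF
          · rw [g]; norm_num
        · rw [SS_neg _ _ _ (by rw [hXB, hVB]; omega)]; simp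
  · -- second sign
    rintro A (_ | (p | v)) hA hx hF
    · have h1 := hX (XX A)
      have h2 := hV (VV A)
      have h3 := hc A hA
      rw [if_neg hx] at h3
      have hXB := XX_nb_z A
      have hVB := VV_nb_z A
      rcases lt_trichotomy ((XX A).card + (VV A).card) n with h | h | h
      · rw [SS_neg _ _ A h, SS_pos _ _ _ (by rw [hXB, hVB]; omega)]; simp
      · exfalso
        simp only [FF] at hF
        rw [if_pos (by omega)] at hF
        exact hF (ts (XX A) (VV A) h (by omega)).1
      · rw [SS_pos _ _ A h, SS_neg _ _ _ (by rw [hXB, hVB]; omega)]; simp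
    · have hp : p ∉ XX A := by rw [mem_XX]; exact hx
      have h1 := hins (XX A) p hp
      have h2 := hV (VV A)
      have h3 := hc2 A hA
      have hXB := XX_nb_P A p
      have hVB := VV_nb_P A p
      rcases lt_trichotomy ((XX A).card + (VV A).card) n with h | h | h
      · rw [SS_neg _ _ A h]
        by_cases h' : (XX A).card + (VV A).card + 1 = n
        · rw [SS_tie _ _ _ (by rw [hXB, hVB]; omega), hXB, hVB]
          simp only [FF] at hF
          rw [if_neg (by omega), ta _ _ (by omega) (by omega) p (by simp)] at hF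
          rcases hγ (insert p (XX A))ᶜ (VV A)ᶜ (by omega) (by omega) with g | g
          · exact absurd g hF
          · rw [g]; norm_num
        · rw [SS_pos _ _ _ (by rw [hXB, hVB]; omega)]; simp
      · rw [SS_tie _ _ A h, SS_neg _ _ _ (by rw [hXB, hVB]; omega)]
        simp only [FF] at hF
        rw [if_pos (by omega), ta _ _ (by omega) (by omega) p hp] at hF
        rcases hγ (XX A) (VV A) h h3 with g | g
        · exact absurd g hF
        · simp [g]
      · rw [SS_pos _ _ A h, SS_neg _ _ _ (by rw [hXB, hVB]; omega)]; simp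
    · have hv : v ∈ VV A := by rw [mem_VV]; exact hx
      have h1 := hX (XX A)
      have h2 := hinsV (VV A) v hv
      have h2' := hV (VV A)
      have h3 := hc2 A hA
      have h4 := Finset.card_erase_of_mem hv
      have h5 : 0 < (VV A).card := Finset.card_pos.2 ⟨v, hv⟩
      have hXB := XX_nb_N A v
      have hVB := VV_nb_N A v
      rcases lt_trichotomy ((XX A).card + (VV A).card) n with h | h | h
      · rw [SS_neg _ _ A h, SS_pos _ _ _ (by rw [hXB, hVB]; omega)]; simp
      · rw [SS_tie _ _ A h, SS_pos _ _ _ (by rw [hXB, hVB]; omega)]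
        simp only [FF] at hF
        rw [if_neg (by omega), tb _ _ (by omega) (by omega) v (by simpa using hv), compl_compl,
          compl_compl] at hF
        rcases hγ (XX A) (VV A) h h3 with g | g
        · rw [g]; norm_num
        · exact absurd (by rw [g]; norm_num) hF
      · rw [SS_pos _ _ A h]
        by_cases h' : (XX A).card + (VV A).card = n + 1
        · rw [SS_tie _ _ _ (by rw [hXB, hVB]; omega), hXB, hVB]
          simp only [FF] at hF
          have h6 : ((VV A).erase v)ᶜ = insert v (VV A)ᶜ := by
            ext w; simp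
          rw [if_pos (by omega), tb _ _ (by omega) (by omega) v (by simp), h6] at hF
          rcases hγ (XX A)ᶜ (insert v (VV A)ᶜ) (by omega) (by omega) with g | g
          · rw [g]; norm_num
          · exact absurd (by rw [g]; norm_num) hF
        · rw [SS_neg _ _ _ (by rw [hXB, hVB]; omega)]; simp

end iface

end BG
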