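import Pool.Agent.Lib.MP_e26f2a_co.BG.Interface

set_option autoImplicit false
set_option linter.unusedSectionVars false

namespace BG

open Finset

section odds
variable {P N : Type} [Fintype P] [DecidableEq P] [Fintype N] [DecidableEq N]

/-- the `P` edges -/
noncomputable def oA (m : ℕ) (α : Finset P → ℝ) (β : Finset N → ℝ) (f : Finset P → P → ℝ)
    (X : Finset P) (V : Finset N) (x : P) : ℝ :=
  if X.card = m then
    if V.card = m then α X * β V else (1 - α X * sh β V)/m
  else if X.card = m+1 then
    if V.card = m+1 then ((m:ℝ)-2)/(m*(m+2)) + sh β V * f X x / m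
    else 2/(m*(m-1)) - f X x * sh (sh β) V / (m*(m-1))
  else 1/(2*m+1)

/-- the `N` edges -/
noncomputable def oB (m : ℕ) (α : Finset P → ℝ) (β : Finset N → ℝ) (f : Finset P → P → ℝ)
    (X : Finset P) (V : Finset N) (_v : N) : ℝ :=
  if X.card = m then α X * β V
  else if X.card = m+1 then
    if V.card = m then (1 - sh α X * β V)/m
    else ((m:ℝ)-2)/(m*(m+2)) + sh α X * sh β V / (m*(m-1))
  else if X.card = m+2 ∧ V.card = m+1 then 2/(m*(m-1)) - dn f X * sh β V / (m*(m-1))
  else 1/(2*m+1)

/-- the special edges -/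
noncomputable def oS (m : ℕ) (β : Finset N → ℝ) (f : Finset P → P → ℝ)
    (X : Finset P) (V : Finset N) : ℝ :=
  if X.card = m then 1
  else if X.card = m+1 then -1/m - (m-1) * (((m:ℝ)-2)/(m*(m+2)))
  else if X.card = m+2 then
    1 - (m-2)/(2*m+1) - 2*(m+2)/(m*(m-1)) + dn f X * sh (sh β) V / (m*(m-1))
  else 1/(2*m+1)

theorem odd_scheme
    (m : ℕ) (hm : 3 ≤ m) (hP : Fintype.card P = 2*m) (hN : Fintype.card N = 2*m)
    (α : Finset P → ℝ) (β : Finset N → ℝ) (f : Finset P → P → ℝ) (w : ℝ)
    (hα : ∀ X : Finset P, X.card = m → α X = 1 ∨ α X = -1)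
    (hβ : ∀ V : Finset N, V.card = m → β V = 1 ∨ β V = -1)
    (hanti : ∀ (X : Finset P) (V : Finset N), X.card = m → V.card = m →
      α Xᶜ * β Vᶜ = - (α X * β V))
    (hA : ∀ X : Finset P, X.card = m+1 → |sh α X| ≤ (m:ℝ) - 1)
    (hB : ∀ V : Finset N, V.card = m+1 → |sh β V| ≤ (m:ℝ) - 1)
    (hB2 : ∀ V : Finset N, V.card = m+2 → |sh (sh β) V| ≤ ((m:ℝ)-2)*((m:ℝ)+1))
    (hf : ∀ X : Finset P, X.card = m+1 → ∑ x ∈ Xᶜ, f X x = sh α X)
    (hf1 : ∀ (X : Finset P) (x : P), X.card = m+1 → x ∉ X → |f X x| ≤ 1)
    (hw : ∀ X : Finset P, X.card = m+2 → |dn f X| ≤ w)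
    (hw2 : |1 - ((m:ℝ)-2)/(2*(m:ℝ)+1) - 2*((m:ℝ)+2)/((m:ℝ)*((m:ℝ)-1))|
      + w * (((m:ℝ)-2)*((m:ℝ)+1)) / ((m:ℝ)*((m:ℝ)-1)) ≤ 1) :
    Col (2*m+1) := by
  have hmr : (3:ℝ) ≤ m := by exact_mod_cast hm
  have hm0 : (0:ℝ) < m := by linarith
  have hm1 : (0:ℝ) < (m:ℝ) - 1 := by linarith
  have hm2 : (0:ℝ) < (m:ℝ) + 2 := by linarith
  have hmm : (0:ℝ) < (m:ℝ) * ((m:ℝ)-1) := mul_pos hm0 hm1
  have h2m : (0:ℝ) < 2*(m:ℝ)+1 := by linarith
  have ne0 : (m:ℝ) ≠ 0 := hm0.ne'
  have ne1 : (m:ℝ) - 1 ≠ 0 := hm1.ne'
  have ne2 : (m:ℝ) + 2 ≠ 0 := hm2.ne'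
  have ne3 : 2*(m:ℝ)+1 ≠ 0 := h2m.ne'
  have hXc : ∀ X : Finset P, (Xᶜ.card : ℝ) = 2*m - X.card := by
    intro X
    have h := Finset.card_add_card_compl X
    rw [hP] at h
    have h' : (X.card:ℝ) + (Xᶜ.card:ℝ) = 2*m := by exact_mod_cast h
    linarith
  have hVc : ∀ V : Finset N, (Vᶜ.card : ℝ) = 2*m - V.card := by
    intro V
    have h := Finset.card_add_card_compl V
    rw [hN] at h
    have h' : (V.card:ℝ) + (Vᶜ.card:ℝ) = 2*m := by exact_mod_cast h
    linarith
  have hr1 : ((m:ℝ)-2)/(m*(m+2)) ≤ 1/m := by
    rw [div_le_div_iff₀ (by positivity) hm0]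
    nlinarith
  have hr1' : 0 ≤ ((m:ℝ)-2)/(m*(m+2)) := div_nonneg (by linarith) (by positivity)
  have habα : ∀ X : Finset P, X.card = m → |α X| = 1 := by
    intro X hX
    rcases hα X hX with h | h <;> rw [h] <;> norm_num
  have habβ : ∀ V : Finset N, V.card = m → |β V| = 1 := by
    intro V hV
    rcases hβ V hV with h | h <;> rw [h] <;> norm_num
  have hb0 : |1/(2*(m:ℝ)+1)| ≤ 1 := by
    rw [abs_of_nonneg (by positivity), div_le_one h2m]; linarith
  have hw3 : w ≤ 3/2 := by
    have h1 := abs_nonneg (1 - ((m:ℝ)-2)/(2*(m:ℝ)+1) - 2*((m:ℝ)+2)/((m:ℝ)*((m:ℝ)-1)))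
    have h2 : w * (((m:ℝ)-2)*((m:ℝ)+1)) / ((m:ℝ)*((m:ℝ)-1)) ≤ 1 := by linarith
    rw [div_le_one hmm] at h2
    by_contra h3
    push Not at h3
    have h4 : 0 < ((m:ℝ)-2)*((m:ℝ)+1) := by nlinarith
    have h5 : 3/2 * (((m:ℝ)-2)*((m:ℝ)+1)) < w * (((m:ℝ)-2)*((m:ℝ)+1)) :=
      mul_lt_mul_of_pos_right h3 h4
    nlinarith
  refine interface (2*m) 1 hP hN (le_refl 1) (by omega) (oA m α β f) (oB m α β f) (oS m β f)
    (fun X V => α X * β V) ?_ ?_ ?_ ?_ ?_ ?_ ?_ ?_ ?_ ?_ ?_
  · -- bounds of `a`
    intro X V x h1 h2 hx
    unfold oA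
    split_ifs with g1 g2 g3 g4
    · rw [abs_mul, habα X g1, habβ V g2]; norm_num
    · have g5 := hB V (by omega)
      have g6 : |α X * sh β V| ≤ (m:ℝ) - 1 := by rw [abs_mul, habα X g1, one_mul]; exact g5
      rw [abs_div, abs_of_pos hm0, div_le_one hm0]
      have g7 := abs_le.1 g6
      rw [abs_le]; constructor <;> linarith [g7.1, g7.2]
    · have g5 := hB V g4
      have g6 := hf1 X x g3 hx
      have g7 : |sh β V * f X x / m| ≤ ((m:ℝ)-1)/m := by
        rw [abs_div, abs_of_pos hm0, abs_mul]
        apply div_le_div_of_nonneg_right _ hm0.le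
        calc |sh β V| * |f X x| ≤ ((m:ℝ)-1) * 1 :=
              mul_le_mul g5 g6 (abs_nonneg _) hm1.le
          _ = _ := mul_one _
      have g8 : ((m:ℝ)-1)/m = 1 - 1/m := by field_simp
      rw [g8] at g7
      have g9 := abs_le.1 g7
      rw [abs_le]; constructor <;> linarith [g9.1, g9.2]
    · have g5 := hB2 V (by omega)
      have g6 := hf1 X x g3 hx
      have g7 : |f X x * sh (sh β) V| ≤ ((m:ℝ)-2)*((m:ℝ)+1) := by
        rw [abs_mul]
        calc |f X x| * |sh (sh β) V| ≤ 1 * (((m:ℝ)-2)*((m:ℝ)+1)) :=
              mul_le_mul g6 g5 (abs_nonneg _) zero_le_one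
          _ = _ := one_mul _
      have g8 := abs_le.1 g7
      rw [← sub_div, abs_div, abs_of_pos hmm, div_le_one hmm, abs_le]
      constructor <;> nlinarith [g8.1, g8.2]
    · exact hb0
  · -- bounds of `b`
    intro X V v h1 h2 hv
    unfold oB
    split_ifs with g1 g2 g3 g4
    · rw [abs_mul, habα X g1, habβ V (by omega)]; norm_num
    · have g5 := hA X (by omega)
      have g6 : |sh α X * β V| ≤ (m:ℝ) - 1 := by rw [abs_mul, habβ V g3, mul_one]; exact g5
      rw [abs_div, abs_of_pos hm0, div_le_one hm0]
      have g7 := abs_le.1 g6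
      rw [abs_le]; constructor <;> linarith [g7.1, g7.2]
    · have g5 := hA X g2
      have g6 := hB V (by omega)
      have g7 : |sh α X * sh β V / (m*(m-1))| ≤ ((m:ℝ)-1)/m := by
        rw [abs_div, abs_of_pos hmm, abs_mul, div_le_div_iff₀ hmm hm0]
        have : |sh α X| * |sh β V| ≤ ((m:ℝ)-1) * ((m:ℝ)-1) :=
          mul_le_mul g5 g6 (abs_nonneg _) hm1.le
        nlinarith
      have g8 : ((m:ℝ)-1)/m = 1 - 1/m := by field_simp
      rw [g8] at g7
      have g9 := abs_le.1 g7
      rw [abs_le]; constructor <;> linarith [g9.1, g9.2]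
    · have g5 := hw X g4.1
      have g6 := hB V g4.2
      have g7 : |dn f X * sh β V| ≤ 3/2 * ((m:ℝ)-1) := by
        rw [abs_mul]
        exact mul_le_mul (g5.trans hw3) g6 (abs_nonneg _) (by norm_num)
      have g8 := abs_le.1 g7
      rw [← sub_div, abs_div, abs_of_pos hmm, div_le_one hmm, abs_le]
      constructor <;> nlinarith [g8.1, g8.2]
    · exact hb0
  · -- bounds of `s`
    intro X V h1 h2
    unfold oS
    split_ifs with g1 g2 g3
    · norm_num
    · have e1 : -1/(m:ℝ) - (m-1) * (((m:ℝ)-2)/(m*(m+2))) =
          -(((m:ℝ)+2 + (m-1)*(m-2))/(m*(m+2))) := by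
        field_simp
        ring
      rw [e1, abs_neg, abs_of_nonneg (div_nonneg (by nlinarith) (by positivity)),
        div_le_one (by positivity)]
      nlinarith
    · have g5 := hw X g3
      have g6 := hB2 V (by omega)
      have g7 : |dn f X * sh (sh β) V / (m*(m-1))| ≤
          w * (((m:ℝ)-2)*((m:ℝ)+1)) / ((m:ℝ)*((m:ℝ)-1)) := by
        rw [abs_div, abs_of_pos hmm, abs_mul]
        apply div_le_div_of_nonneg_right _ hmm.le
        exact mul_le_mul g5 g6 (abs_nonneg _) (le_trans (abs_nonneg _) g5)
      exact (abs_add_le _ _).trans (by linarith)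
    · exact hb0
  · -- n0
    intro X V h1 h2
    have hX := hXc X
    by_cases g1 : X.card = m + 1
    · have hV : V.card = m + 1 := by omega
      have e1 : ∀ x ∈ Xᶜ, oA m α β f X V x =
          ((m:ℝ)-2)/(m*(m+2)) + sh β V / m * f X x := by
        intro x _
        unfold oA
        rw [if_neg (by omega), if_pos g1, if_pos hV]
        ring
      have e2 : ∀ v ∈ V, oB m α β f X (V.erase v) v =
          1/m - sh α X / m * β (V.erase v) := by
        intro v hv
        have := Finset.card_erase_of_mem hv
        unfold oB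
        rw [if_neg (by omega), if_pos g1, if_pos (by omega)]
        ring
      have e3 : oS m β f X V = -1/m - (m-1) * (((m:ℝ)-2)/(m*(m+2))) := by
        unfold oS
        rw [if_neg (by omega), if_pos g1]
      rw [Finset.sum_congr rfl e1, Finset.sum_congr rfl e2, e3, Finset.sum_add_distrib,
        ← Finset.mul_sum, hf X g1, Finset.sum_sub_distrib, ← Finset.mul_sum]
      simp only [Finset.sum_const, nsmul_eq_mul]
      rw [hX, g1, hV]
      show _ + (_ - sh α X / m * sh β V) + _ = _
      push_cast
      field_simp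
      ring
    · by_cases g2 : X.card = m + 2
      · have hV : V.card = m + 2 := by omega
        have e1 : ∀ x ∈ Xᶜ, oA m α β f X V x = 1/(2*m+1) := by
          intro x _
          unfold oA
          rw [if_neg (by omega), if_neg (by omega)]
        have e2 : ∀ v ∈ V, oB m α β f X (V.erase v) v =
            2/(m*(m-1)) - dn f X / (m*(m-1)) * sh β (V.erase v) := by
          intro v hv
          have := Finset.card_erase_of_mem hv
          unfold oB
          rw [if_neg (by omega), if_neg g1, if_pos ⟨g2, by omega⟩]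
          ring
        have e3 : oS m β f X V = 1 - (m-2)/(2*m+1) - 2*(m+2)/(m*(m-1)) +
            dn f X * sh (sh β) V / (m*(m-1)) := by
          unfold oS
          rw [if_neg (by omega), if_neg g1, if_pos g2]
        rw [Finset.sum_congr rfl e1, Finset.sum_congr rfl e2, e3,
          Finset.sum_sub_distrib, ← Finset.mul_sum]
        simp only [Finset.sum_const, nsmul_eq_mul]
        rw [hX, g2, hV]
        show _ + (_ - dn f X / (m*(m-1)) * sh (sh β) V) + _ = _
        push_cast
        field_simp
        ring
      · have e1 : ∀ x ∈ Xᶜ, oA m α β f X V x = 1/(2*m+1) := by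
          intro x _
          unfold oA
          rw [if_neg (by omega), if_neg g1]
        have e2 : ∀ v ∈ V, oB m α β f X (V.erase v) v = 1/(2*m+1) := by
          intro v hv
          unfold oB
          rw [if_neg (by omega), if_neg g1, if_neg (fun h => g2 h.1)]
        have e3 : oS m β f X V = 1/(2*m+1) := by
          unfold oS
          rw [if_neg (by omega), if_neg g1, if_neg g2]
        rw [Finset.sum_congr rfl e1, Finset.sum_congr rfl e2, e3]
        simp only [Finset.sum_const, nsmul_eq_mul]
        rw [hX, h2]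
        push_cast
        field_simp
        ring
  · -- n1
    intro X V h1 h2
    have hX := hXc X
    by_cases g0 : X.card = m
    · have hV : V.card = m + 1 := by omega
      have e1 : ∀ x ∈ Xᶜ, oA m α β f X V x = (1 - α X * sh β V)/m := by
        intro x _
        unfold oA
        rw [if_pos g0, if_neg (by omega)]
      have e2 : ∀ v ∈ V, oB m α β f X (V.erase v) v = α X * β (V.erase v) := by
        intro v hv
        unfold oB
        rw [if_pos g0]
      rw [Finset.sum_congr rfl e1, Finset.sum_congr rfl e2, ← Finset.mul_sum]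
      simp only [Finset.sum_const, nsmul_eq_mul]
      rw [hX, g0]
      show _ + α X * sh β V = _
      push_cast
      field_simp
      ring
    · by_cases g1 : X.card = m + 1
      · have hV : V.card = m + 2 := by omega
        have e1 : ∀ x ∈ Xᶜ, oA m α β f X V x =
            2/(m*(m-1)) - sh (sh β) V / (m*(m-1)) * f X x := by
          intro x _
          unfold oA
          rw [if_neg (by omega), if_pos g1, if_neg (by omega)]
          ring
        have e2 : ∀ v ∈ V, oB m α β f X (V.erase v) v =
            ((m:ℝ)-2)/(m*(m+2)) + sh α X / (m*(m-1)) * sh β (V.erase v) := by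
          intro v hv
          have := Finset.card_erase_of_mem hv
          unfold oB
          rw [if_neg (by omega), if_pos g1, if_neg (by omega)]
          ring
        rw [Finset.sum_congr rfl e1, Finset.sum_congr rfl e2, Finset.sum_sub_distrib,
          Finset.sum_add_distrib, ← Finset.mul_sum, ← Finset.mul_sum, hf X g1]
        simp only [Finset.sum_const, nsmul_eq_mul]
        rw [hX, g1, hV]
        show _ + (_ + sh α X / (m*(m-1)) * sh (sh β) V) = _
        push_cast
        field_simp
        ring
      · have e1 : ∀ x ∈ Xᶜ, oA m α β f X V x = 1/(2*m+1) := by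
          intro x _
          unfold oA
          rw [if_neg g0, if_neg g1]
        have e2 : ∀ v ∈ V, oB m α β f X (V.erase v) v = 1/(2*m+1) := by
          intro v hv
          have := Finset.card_erase_of_mem hv
          unfold oB
          rw [if_neg g0, if_neg g1, if_neg (by omega)]
        rw [Finset.sum_congr rfl e1, Finset.sum_congr rfl e2]
        simp only [Finset.sum_const, nsmul_eq_mul]
        rw [hX, h2]
        push_cast
        field_simp
        ring
  · -- p0
    intro X V h1 h2
    have hV := hVc V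
    by_cases g1 : X.card = m + 1
    · have hVm : V.card = m + 1 := by omega
      have e1 : ∀ x ∈ X, oA m α β f (X.erase x) V x =
          1/m - sh β V / m * α (X.erase x) := by
        intro x hx
        have := Finset.card_erase_of_mem hx
        unfold oA
        rw [if_pos (by omega), if_neg (by omega)]
        ring
      have e2 : ∀ v ∈ Vᶜ, oB m α β f X V v =
          ((m:ℝ)-2)/(m*(m+2)) + sh α X * sh β V / (m*(m-1)) := by
        intro v hv
        unfold oB
        rw [if_neg (by omega), if_pos g1, if_neg (by omega)]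
      have e3 : oS m β f X V = -1/m - (m-1) * (((m:ℝ)-2)/(m*(m+2))) := by
        unfold oS
        rw [if_neg (by omega), if_pos g1]
      rw [Finset.sum_congr rfl e1, Finset.sum_congr rfl e2, e3, Finset.sum_sub_distrib,
        ← Finset.mul_sum]
      simp only [Finset.sum_const, nsmul_eq_mul]
      rw [hV, g1, hVm]
      show _ - sh β V / m * sh α X + _ + _ = _
      push_cast
      field_simp
      ring
    · by_cases g2 : X.card = m + 2
      · have hVm : V.card = m + 2 := by omega
        have e1 : ∀ x ∈ X, oA m α β f (X.erase x) V x =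
            2/(m*(m-1)) - sh (sh β) V / (m*(m-1)) * f (X.erase x) x := by
          intro x hx
          have := Finset.card_erase_of_mem hx
          unfold oA
          rw [if_neg (by omega), if_pos (by omega), if_neg (by omega)]
          ring
        have e2 : ∀ v ∈ Vᶜ, oB m α β f X V v = 1/(2*m+1) := by
          intro v hv
          unfold oB
          rw [if_neg (by omega), if_neg g1, if_neg (by omega)]
        have e3 : oS m β f X V = 1 - (m-2)/(2*m+1) - 2*(m+2)/(m*(m-1)) +
            dn f X * sh (sh β) V / (m*(m-1)) := by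
          unfold oS
          rw [if_neg (by omega), if_neg g1, if_pos g2]
        rw [Finset.sum_congr rfl e1, Finset.sum_congr rfl e2, e3,
          Finset.sum_sub_distrib, ← Finset.mul_sum]
        simp only [Finset.sum_const, nsmul_eq_mul]
        rw [hV, g2, hVm]
        show _ - sh (sh β) V / (m*(m-1)) * dn f X + _ + _ = _
        push_cast
        field_simp
        ring
      · have e1 : ∀ x ∈ X, oA m α β f (X.erase x) V x = 1/(2*m+1) := by
          intro x hx
          have := Finset.card_erase_of_mem hx
          unfold oA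
          rw [if_neg (by omega), if_neg (by omega)]
        have e2 : ∀ v ∈ Vᶜ, oB m α β f X V v = 1/(2*m+1) := by
          intro v hv
          unfold oB
          rw [if_neg (by omega), if_neg g1, if_neg (fun h => g2 h.1)]
        have e3 : oS m β f X V = 1/(2*m+1) := by
          unfold oS
          rw [if_neg (by omega), if_neg g1, if_neg g2]
        rw [Finset.sum_congr rfl e1, Finset.sum_congr rfl e2, e3]
        simp only [Finset.sum_const, nsmul_eq_mul]
        rw [hV, h2]
        push_cast
        field_simp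
        ring
  · -- p1
    intro X V h1 h2
    have hV := hVc V
    by_cases g1 : X.card = m + 1
    · have hVm : V.card = m := by omega
      have e1 : ∀ x ∈ X, oA m α β f (X.erase x) V x = β V * α (X.erase x) := by
        intro x hx
        have := Finset.card_erase_of_mem hx
        unfold oA
        rw [if_pos (by omega), if_pos hVm]
        ring
      have e2 : ∀ v ∈ Vᶜ, oB m α β f X V v = (1 - sh α X * β V)/m := by
        intro v hv
        unfold oB
        rw [if_neg (by omega), if_pos g1, if_pos hVm]
      rw [Finset.sum_congr rfl e1, Finset.sum_congr rfl e2, ← Finset.mul_sum]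
      simp only [Finset.sum_const, nsmul_eq_mul]
      rw [hV, hVm]
      show β V * sh α X + _ = _
      push_cast
      field_simp
      ring
    · by_cases g2 : X.card = m + 2
      · have hVm : V.card = m + 1 := by omega
        have e1 : ∀ x ∈ X, oA m α β f (X.erase x) V x =
            ((m:ℝ)-2)/(m*(m+2)) + sh β V / m * f (X.erase x) x := by
          intro x hx
          have := Finset.card_erase_of_mem hx
          unfold oA
          rw [if_neg (by omega), if_pos (by omega), if_pos hVm]
          ring
        have e2 : ∀ v ∈ Vᶜ, oB m α β f X V v =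
            2/(m*(m-1)) - dn f X * sh β V / (m*(m-1)) := by
          intro v hv
          unfold oB
          rw [if_neg (by omega), if_neg g1, if_pos ⟨g2, hVm⟩]
        rw [Finset.sum_congr rfl e1, Finset.sum_congr rfl e2, Finset.sum_add_distrib,
          ← Finset.mul_sum]
        simp only [Finset.sum_const, nsmul_eq_mul]
        rw [hV, g2, hVm]
        show _ + sh β V / m * dn f X + _ = _
        push_cast
        field_simp
        ring
      · have e1 : ∀ x ∈ X, oA m α β f (X.erase x) V x = 1/(2*m+1) := by
          intro x hx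
          have := Finset.card_erase_of_mem hx
          unfold oA
          rw [if_neg (by omega), if_neg (by omega)]
        have e2 : ∀ v ∈ Vᶜ, oB m α β f X V v = 1/(2*m+1) := by
          intro v hv
          unfold oB
          rw [if_neg (by omega), if_neg g1, if_neg (fun h => g2 h.1)]
        rw [Finset.sum_congr rfl e1, Finset.sum_congr rfl e2]
        simp only [Finset.sum_const, nsmul_eq_mul]
        rw [hV, h2]
        push_cast
        field_simp
        ring
  · -- ties
    intro X V h1 h2
    have hX : X.card = m := by omega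
    have hV : V.card = m := by omega
    show α X * β V = 1 ∨ α X * β V = -1
    rcases hα X hX with h | h <;> rcases hβ V hV with h' | h' <;> rw [h, h'] <;> norm_num
  · intro X V h1 h2 x _
    have hX : X.card = m := by omega
    have hV : V.card = m := by omega
    unfold oA
    rw [if_pos hX, if_pos hV]
  · intro X V h1 h2 v _
    have hX : X.card = m := by omega
    have hV : V.card = m := by omega
    show _ = -(α Xᶜ * β Vᶜ)
    rw [hanti X V hX hV, neg_neg]
    unfold oB
    rw [if_pos hX]
  · intro X V h1 h2
    have hX : X.card = m := by omega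
    have hV : V.card = m := by omega
    refine ⟨?_, rfl, hanti X V hX hV⟩
    unfold oS
    rw [if_pos hX]

end odds

end BG
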