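import Pool.Agent.Lib.MP_e26f2a_co.BG.Interface

set_option autoImplicit false
set_option linter.unusedSectionVars false

namespace BG

open Finset

section odds
variable {P N : Type} [Fintype P] [DecidableEq P] [Fintype N] [DecidableEq N]

/-- the `P` edges -/
noncomputable def pA (m : ℕ) (c : Finset P → Finset N → ℝ) (β : Finset N → ℝ)
    (f : Finset P → P → ℝ) (g : Finset N → N → ℝ)
    (X : Finset P) (V : Finset N) (x : P) : ℝ :=
  if X.card = m then
    if V.card = m then c X V else (1 - ∑ v ∈ V, c X (V.erase v))/m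
  else if X.card = m+1 then
    if V.card = m+1 then ((m:ℝ)-2)/(m*(m+2)) + sh β V * f X x / m
    else 2/(m*(m-1)) - f X x * dn g V / m
  else 1/(2*m+1)

/-- the `N` edges -/
noncomputable def pB (m : ℕ) (c : Finset P → Finset N → ℝ) (A : Finset P → ℝ)
    (f : Finset P → P → ℝ) (g : Finset N → N → ℝ)
    (X : Finset P) (V : Finset N) (v : N) : ℝ :=
  if X.card = m then c X V
  else if X.card = m+1 then
    if V.card = m then (1 - ∑ x ∈ X, c (X.erase x) V)/m
    else ((m:ℝ)-2)/(m*(m+2)) + A X * g V v / m
  else if X.card = m+2 ∧ V.card = m+1 then 2/(m*(m-1)) - dn f X * g V v / m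
  else 1/(2*m+1)

/-- the special edges -/
noncomputable def pS (m : ℕ) (f : Finset P → P → ℝ) (g : Finset N → N → ℝ)
    (X : Finset P) (V : Finset N) : ℝ :=
  if X.card = m then 1
  else if X.card = m+1 then -1/m - (m-1) * (((m:ℝ)-2)/(m*(m+2)))
  else if X.card = m+2 then
    1 - (m-2)/(2*m+1) - 2*(m+2)/(m*(m-1)) + dn f X * dn g V / m
  else 1/(2*m+1)

/-- B1 odd scheme -/
theorem odd_scheme'
    (m : ℕ) (hm : 3 ≤ m) (hP : Fintype.card P = 2*m) (hN : Fintype.card N = 2*m)
    (c : Finset P → Finset N → ℝ) (A : Finset P → ℝ) (β : Finset N → ℝ)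
    (f : Finset P → P → ℝ) (g : Finset N → N → ℝ)
    (hc : ∀ (X : Finset P) (V : Finset N), X.card = m → V.card = m → c X V = 1 ∨ c X V = -1)
    (hanti : ∀ (X : Finset P) (V : Finset N), X.card = m → V.card = m → c Xᶜ Vᶜ = - c X V)
    (hcV : ∀ (X : Finset P) (V : Finset N), X.card = m → V.card = m+1 →
      |∑ v ∈ V, c X (V.erase v)| ≤ (m:ℝ) - 1)
    (hcX : ∀ (X : Finset P) (V : Finset N), X.card = m+1 → V.card = m →
      ∑ x ∈ X, c (X.erase x) V = A X * β V)
    (hβ : ∀ V : Finset N, V.card = m → |β V| ≤ 1)
    (hA : ∀ X : Finset P, X.card = m+1 → |A X| ≤ (m:ℝ) - 1)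
    (hB : ∀ V : Finset N, V.card = m+1 → |sh β V| ≤ (m:ℝ) - 1)
    (hf : ∀ X : Finset P, X.card = m+1 → ∑ x ∈ Xᶜ, f X x = A X)
    (hf1 : ∀ (X : Finset P) (x : P), X.card = m+1 → x ∉ X → |f X x| ≤ 1)
    (hf2 : ∀ X : Finset P, X.card = m+2 → |dn f X| ≤ 1)
    (hf3 : m = 3 → ∀ X : Finset P, X.card = m+2 → dn f X = 0)
    (hg : ∀ V : Finset N, V.card = m+1 → ∑ v ∈ Vᶜ, g V v = sh β V)
    (hg1 : ∀ (V : Finset N) (v : N), V.card = m+1 → v ∉ V → |g V v| ≤ 1)
    (hg2 : ∀ V : Finset N, V.card = m+2 → |dn g V| ≤ 1) :
    Col (2*m+1) := by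
  have hmr : (3:ℝ) ≤ m := by exact_mod_cast hm
  have hm0 : (0:ℝ) < m := by linarith
  have hm1 : (0:ℝ) < (m:ℝ) - 1 := by linarith
  have hm2 : (0:ℝ) < (m:ℝ) + 2 := by linarith
  have hmm : (0:ℝ) < (m:ℝ) * ((m:ℝ)-1) := mul_pos hm0 hm1
  have h2m : (0:ℝ) < 2*(m:ℝ)+1 := by linarith
  have ne0 : (m:ℝ) ≠ 0 := hm0.ne'
  have ne1 : (m:ℝ) - 1 ≠ 0 := hm1.ne'
  have ne2 : (m:ℝ) + 2 ≠ 0 := hm2.ne'
  have ne3 : 2*(m:ℝ)+1 ≠ 0 := h2m.ne'
  have hXc : ∀ X : Finset P, (Xᶜ.card : ℝ) = 2*m - X.card := by
    intro X
    have h := Finset.card_add_card_compl X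
    rw [hP] at h
    have h' : (X.card:ℝ) + (Xᶜ.card:ℝ) = 2*m := by exact_mod_cast h
    linarith
  have hVc : ∀ V : Finset N, (Vᶜ.card : ℝ) = 2*m - V.card := by
    intro V
    have h := Finset.card_add_card_compl V
    rw [hN] at h
    have h' : (V.card:ℝ) + (Vᶜ.card:ℝ) = 2*m := by exact_mod_cast h
    linarith
  have hr1 : ((m:ℝ)-2)/(m*(m+2)) ≤ 1/m := by
    rw [div_le_div_iff₀ (by positivity) hm0]
    nlinarith
  have hr1' : 0 ≤ ((m:ℝ)-2)/(m*(m+2)) := div_nonneg (by linarith) (by positivity)
  have hb0 : |1/(2*(m:ℝ)+1)| ≤ 1 := by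
    rw [abs_of_nonneg (by positivity), div_le_one h2m]; linarith
  have h8 : ((m:ℝ)-1)/m = 1 - 1/m := by field_simp
  have h9 : 2/((m:ℝ)*(m-1)) + 1/m ≤ 1 := by
    rw [div_add_div _ _ hmm.ne' ne0, div_le_one (by positivity)]
    nlinarith [mul_nonneg hm0.le (sub_nonneg.2 hmr), mul_pos hm0 hmm]
  have h9' : 0 ≤ 2/((m:ℝ)*(m-1)) := by positivity
  have hpr : ∀ s t : ℝ, |s| ≤ (m:ℝ) - 1 → |t| ≤ 1 → |s * t / m| ≤ 1 - 1/m := by
    intro s t hs ht
    rw [abs_div, abs_of_pos hm0, abs_mul, ← h8]
    apply div_le_div_of_nonneg_right _ hm0.le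
    calc |s| * |t| ≤ ((m:ℝ)-1) * 1 := mul_le_mul hs ht (abs_nonneg _) hm1.le
      _ = _ := mul_one _
  have hpr1 : ∀ s t : ℝ, |s| ≤ 1 → |t| ≤ 1 → |s * t / m| ≤ 1/m := by
    intro s t hs ht
    rw [abs_div, abs_of_pos hm0, abs_mul]
    apply div_le_div_of_nonneg_right _ hm0.le
    calc |s| * |t| ≤ 1 * 1 := mul_le_mul hs ht (abs_nonneg _) zero_le_one
      _ = _ := mul_one _
  refine interface (2*m) 1 hP hN (le_refl 1) (by omega) (pA m c β f g) (pB m c A f g) (pS m f g)
    c ?_ ?_ ?_ ?_ ?_ ?_ ?_ ?_ ?_ ?_ ?_
  · -- bounds of `a`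
    intro X V x h1 h2 hx
    unfold pA
    split_ifs with g1 g2 g3 g4
    · rcases hc X V g1 g2 with h | h <;> rw [h] <;> norm_num
    · have g6 := hcV X V g1 (by omega)
      rw [abs_div, abs_of_pos hm0, div_le_one hm0]
      have g7 := abs_le.1 g6
      rw [abs_le]; constructor <;> linarith [g7.1, g7.2]
    · have g9 := abs_le.1 (hpr _ _ (hB V g4) (hf1 X x g3 hx))
      rw [abs_le]; constructor <;> linarith [g9.1, g9.2]
    · have g9 := abs_le.1 (hpr1 _ _ (hf1 X x g3 hx) (hg2 V (by omega)))
      rw [abs_le]; constructor <;> linarith [g9.1, g9.2]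
    · exact hb0
  · -- bounds of `b`
    intro X V v h1 h2 hv
    unfold pB
    split_ifs with g1 g2 g3 g4
    · rcases hc X V g1 (by omega) with h | h <;> rw [h] <;> norm_num
    · have g6 : |∑ x ∈ X, c (X.erase x) V| ≤ (m:ℝ) - 1 := by
        rw [hcX X V g2 g3, abs_mul]
        calc |A X| * |β V| ≤ ((m:ℝ)-1) * 1 :=
              mul_le_mul (hA X g2) (hβ V g3) (abs_nonneg _) hm1.le
          _ = _ := mul_one _
      rw [abs_div, abs_of_pos hm0, div_le_one hm0]
      have g7 := abs_le.1 g6
      rw [abs_le]; constructor <;> linarith [g7.1, g7.2]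
    · have g9 := abs_le.1 (hpr _ _ (hA X g2) (hg1 V v (by omega) hv))
      rw [abs_le]; constructor <;> linarith [g9.1, g9.2]
    · have g9 := abs_le.1 (hpr1 _ _ (hf2 X g4.1) (hg1 V v g4.2 hv))
      rw [abs_le]; constructor <;> linarith [g9.1, g9.2]
    · exact hb0
  · -- bounds of `s`
    intro X V h1 h2
    unfold pS
    split_ifs with g1 g2 g3
    · norm_num
    · have e1 : -1/(m:ℝ) - (m-1) * (((m:ℝ)-2)/(m*(m+2))) =
          -(((m:ℝ)+2 + (m-1)*(m-2))/(m*(m+2))) := by
        field_simp
        ring
      rw [e1, abs_neg, abs_of_nonneg (div_nonneg (by nlinarith) (by positivity)),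
        div_le_one (by positivity)]
      nlinarith
    · rcases Nat.lt_or_ge m 4 with hm4 | hm4
      · have hm3 : m = 3 := by omega
        rw [hf3 hm3 X g3, hm3]
        norm_num
      · have hm4' : (4:ℝ) ≤ m := by exact_mod_cast hm4
        have g9 := abs_le.1 (hpr1 _ _ (hf2 X g3) (hg2 V (by omega)))
        have g10 : 2*((m:ℝ)+2)/(m*(m-1)) ≤ 1 := by
          rw [div_le_one hmm]; nlinarith
        have g11 : 1/(m:ℝ) ≤ 2*((m:ℝ)+2)/(m*(m-1)) := by
          rw [div_le_div_iff₀ hm0 hmm]; nlinarith
        have g12 : ((m:ℝ)-2)/(2*m+1) ≤ 1/2 := by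
          rw [div_le_div_iff₀ h2m (by norm_num)]; linarith
        have g13 : 0 ≤ ((m:ℝ)-2)/(2*m+1) := div_nonneg (by linarith) h2m.le
        have g14 : 1/(m:ℝ) ≤ 1/4 := one_div_le_one_div_of_le (by norm_num) hm4'
        rw [abs_le]; constructor <;> linarith [g9.1, g9.2]
    · exact hb0
  · -- n0
    intro X V h1 h2
    have hX := hXc X
    by_cases g1 : X.card = m + 1
    · have hV : V.card = m + 1 := by omega
      have e1 : ∀ x ∈ Xᶜ, pA m c β f g X V x =
          ((m:ℝ)-2)/(m*(m+2)) + sh β V / m * f X x := by
        intro x _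
        unfold pA
        rw [if_neg (by omega), if_pos g1, if_pos hV]
        ring
      have e2 : ∀ v ∈ V, pB m c A f g X (V.erase v) v =
          1/m - A X / m * β (V.erase v) := by
        intro v hv
        have := Finset.card_erase_of_mem hv
        unfold pB
        rw [if_neg (by omega), if_pos g1, if_pos (by omega), hcX X (V.erase v) g1 (by omega)]
        ring
      have e3 : pS m f g X V = -1/m - (m-1) * (((m:ℝ)-2)/(m*(m+2))) := by
        unfold pS
        rw [if_neg (by omega), if_pos g1]
      rw [Finset.sum_congr rfl e1, Finset.sum_congr rfl e2, e3, Finset.sum_add_distrib,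
        ← Finset.mul_sum, hf X g1, Finset.sum_sub_distrib, ← Finset.mul_sum]
      simp only [Finset.sum_const, nsmul_eq_mul]
      rw [hX, g1, hV]
      show _ + (_ - A X / m * sh β V) + _ = _
      push_cast
      field_simp
      ring
    · by_cases g2 : X.card = m + 2
      · have hV : V.card = m + 2 := by omega
        have e1 : ∀ x ∈ Xᶜ, pA m c β f g X V x = 1/(2*m+1) := by
          intro x _
          unfold pA
          rw [if_neg (by omega), if_neg (by omega)]
        have e2 : ∀ v ∈ V, pB m c A f g X (V.erase v) v =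
            2/(m*(m-1)) - dn f X / m * g (V.erase v) v := by
          intro v hv
          have := Finset.card_erase_of_mem hv
          unfold pB
          rw [if_neg (by omega), if_neg g1, if_pos ⟨g2, by omega⟩]
          ring
        have e3 : pS m f g X V = 1 - (m-2)/(2*m+1) - 2*(m+2)/(m*(m-1)) +
            dn f X * dn g V / m := by
          unfold pS
          rw [if_neg (by omega), if_neg g1, if_pos g2]
        rw [Finset.sum_congr rfl e1, Finset.sum_congr rfl e2, e3,
          Finset.sum_sub_distrib, ← Finset.mul_sum]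
        simp only [Finset.sum_const, nsmul_eq_mul]
        rw [hX, g2, hV]
        show _ + (_ - dn f X / m * dn g V) + _ = _
        push_cast
        field_simp
        ring
      · have e1 : ∀ x ∈ Xᶜ, pA m c β f g X V x = 1/(2*m+1) := by
          intro x _
          unfold pA
          rw [if_neg (by omega), if_neg g1]
        have e2 : ∀ v ∈ V, pB m c A f g X (V.erase v) v = 1/(2*m+1) := by
          intro v hv
          unfold pB
          rw [if_neg (by omega), if_neg g1, if_neg (fun h => g2 h.1)]
        have e3 : pS m f g X V = 1/(2*m+1) := by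
          unfold pS
          rw [if_neg (by omega), if_neg g1, if_neg g2]
        rw [Finset.sum_congr rfl e1, Finset.sum_congr rfl e2, e3]
        simp only [Finset.sum_const, nsmul_eq_mul]
        rw [hX, h2]
        push_cast
        field_simp
        ring
  · -- n1
    intro X V h1 h2
    have hX := hXc X
    by_cases g0 : X.card = m
    · have hV : V.card = m + 1 := by omega
      have e1 : ∀ x ∈ Xᶜ, pA m c β f g X V x = (1 - ∑ v ∈ V, c X (V.erase v))/m := by
        intro x _
        unfold pA
        rw [if_pos g0, if_neg (by omega)]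
      have e2 : ∀ v ∈ V, pB m c A f g X (V.erase v) v = c X (V.erase v) := by
        intro v hv
        unfold pB
        rw [if_pos g0]
      rw [Finset.sum_congr rfl e1, Finset.sum_congr rfl e2]
      simp only [Finset.sum_const, nsmul_eq_mul]
      rw [hX, g0]
      push_cast
      field_simp
      ring
    · by_cases g1 : X.card = m + 1
      · have hV : V.card = m + 2 := by omega
        have e1 : ∀ x ∈ Xᶜ, pA m c β f g X V x =
            2/(m*(m-1)) - dn g V / m * f X x := by
          intro x _
          unfold pA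
          rw [if_neg (by omega), if_pos g1, if_neg (by omega)]
          ring
        have e2 : ∀ v ∈ V, pB m c A f g X (V.erase v) v =
            ((m:ℝ)-2)/(m*(m+2)) + A X / m * g (V.erase v) v := by
          intro v hv
          have := Finset.card_erase_of_mem hv
          unfold pB
          rw [if_neg (by omega), if_pos g1, if_neg (by omega)]
          ring
        rw [Finset.sum_congr rfl e1, Finset.sum_congr rfl e2, Finset.sum_sub_distrib,
          Finset.sum_add_distrib, ← Finset.mul_sum, ← Finset.mul_sum, hf X g1]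
        simp only [Finset.sum_const, nsmul_eq_mul]
        rw [hX, g1, hV]
        show _ + (_ + A X / m * dn g V) = _
        push_cast
        field_simp
        ring
      · have e1 : ∀ x ∈ Xᶜ, pA m c β f g X V x = 1/(2*m+1) := by
          intro x _
          unfold pA
          rw [if_neg g0, if_neg g1]
        have e2 : ∀ v ∈ V, pB m c A f g X (V.erase v) v = 1/(2*m+1) := by
          intro v hv
          have := Finset.card_erase_of_mem hv
          unfold pB
          rw [if_neg g0, if_neg g1, if_neg (by omega)]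
        rw [Finset.sum_congr rfl e1, Finset.sum_congr rfl e2]
        simp only [Finset.sum_const, nsmul_eq_mul]
        rw [hX, h2]
        push_cast
        field_simp
        ring
  · -- p0
    intro X V h1 h2
    have hV := hVc V
    by_cases g1 : X.card = m + 1
    · have hVm : V.card = m + 1 := by omega
      have e1 : ∀ x ∈ X, pA m c β f g (X.erase x) V x =
          1/m - 1/m * (∑ v ∈ V, c (X.erase x) (V.erase v)) := by
        intro x hx
        have := Finset.card_erase_of_mem hx
        unfold pA
        rw [if_pos (by omega), if_neg (by omega)]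
        ring
      have e2 : ∀ v ∈ Vᶜ, pB m c A f g X V v =
          ((m:ℝ)-2)/(m*(m+2)) + A X / m * g V v := by
        intro v hv
        unfold pB
        rw [if_neg (by omega), if_pos g1, if_neg (by omega)]
        ring
      have e3 : pS m f g X V = -1/m - (m-1) * (((m:ℝ)-2)/(m*(m+2))) := by
        unfold pS
        rw [if_neg (by omega), if_pos g1]
      have e4 : ∑ x ∈ X, ∑ v ∈ V, c (X.erase x) (V.erase v) = A X * sh β V := by
        rw [Finset.sum_comm]
        have e5 : ∀ v ∈ V, ∑ x ∈ X, c (X.erase x) (V.erase v) = A X * β (V.erase v) := by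
          intro v hv
          have := Finset.card_erase_of_mem hv
          exact hcX X (V.erase v) g1 (by omega)
        rw [Finset.sum_congr rfl e5, ← Finset.mul_sum]
        rfl
      rw [Finset.sum_congr rfl e1, Finset.sum_congr rfl e2, e3, Finset.sum_sub_distrib,
        ← Finset.mul_sum, e4, Finset.sum_add_distrib, ← Finset.mul_sum, hg V hVm]
      simp only [Finset.sum_const, nsmul_eq_mul]
      rw [hV, g1, hVm]
      push_cast
      field_simp
      ring
    · by_cases g2 : X.card = m + 2
      · have hVm : V.card = m + 2 := by omega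
        have e1 : ∀ x ∈ X, pA m c β f g (X.erase x) V x =
            2/(m*(m-1)) - dn g V / m * f (X.erase x) x := by
          intro x hx
          have := Finset.card_erase_of_mem hx
          unfold pA
          rw [if_neg (by omega), if_pos (by omega), if_neg (by omega)]
          ring
        have e2 : ∀ v ∈ Vᶜ, pB m c A f g X V v = 1/(2*m+1) := by
          intro v hv
          unfold pB
          rw [if_neg (by omega), if_neg g1, if_neg (by omega)]
        have e3 : pS m f g X V = 1 - (m-2)/(2*m+1) - 2*(m+2)/(m*(m-1)) +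
            dn f X * dn g V / m := by
          unfold pS
          rw [if_neg (by omega), if_neg g1, if_pos g2]
        rw [Finset.sum_congr rfl e1, Finset.sum_congr rfl e2, e3,
          Finset.sum_sub_distrib, ← Finset.mul_sum]
        simp only [Finset.sum_const, nsmul_eq_mul]
        rw [hV, g2, hVm]
        show _ - dn g V / m * dn f X + _ + _ = _
        push_cast
        field_simp
        ring
      · have e1 : ∀ x ∈ X, pA m c β f g (X.erase x) V x = 1/(2*m+1) := by
          intro x hx
          have := Finset.card_erase_of_mem hx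
          unfold pA
          rw [if_neg (by omega), if_neg (by omega)]
        have e2 : ∀ v ∈ Vᶜ, pB m c A f g X V v = 1/(2*m+1) := by
          intro v hv
          unfold pB
          rw [if_neg (by omega), if_neg g1, if_neg (fun h => g2 h.1)]
        have e3 : pS m f g X V = 1/(2*m+1) := by
          unfold pS
          rw [if_neg (by omega), if_neg g1, if_neg g2]
        rw [Finset.sum_congr rfl e1, Finset.sum_congr rfl e2, e3]
        simp only [Finset.sum_const, nsmul_eq_mul]
        rw [hV, h2]
        push_cast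
        field_simp
        ring
  · -- p1
    intro X V h1 h2
    have hV := hVc V
    by_cases g1 : X.card = m + 1
    · have hVm : V.card = m := by omega
      have e1 : ∀ x ∈ X, pA m c β f g (X.erase x) V x = c (X.erase x) V := by
        intro x hx
        have := Finset.card_erase_of_mem hx
        unfold pA
        rw [if_pos (by omega), if_pos hVm]
      have e2 : ∀ v ∈ Vᶜ, pB m c A f g X V v = (1 - ∑ x ∈ X, c (X.erase x) V)/m := by
        intro v hv
        unfold pB
        rw [if_neg (by omega), if_pos g1, if_pos hVm]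
      rw [Finset.sum_congr rfl e1, Finset.sum_congr rfl e2]
      simp only [Finset.sum_const, nsmul_eq_mul]
      rw [hV, hVm]
      push_cast
      field_simp
      ring
    · by_cases g2 : X.card = m + 2
      · have hVm : V.card = m + 1 := by omega
        have e1 : ∀ x ∈ X, pA m c β f g (X.erase x) V x =
            ((m:ℝ)-2)/(m*(m+2)) + sh β V / m * f (X.erase x) x := by
          intro x hx
          have := Finset.card_erase_of_mem hx
          unfold pA
          rw [if_neg (by omega), if_pos (by omega), if_pos hVm]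
          ring
        have e2 : ∀ v ∈ Vᶜ, pB m c A f g X V v =
            2/(m*(m-1)) - dn f X / m * g V v := by
          intro v hv
          unfold pB
          rw [if_neg (by omega), if_neg g1, if_pos ⟨g2, hVm⟩]
          ring
        rw [Finset.sum_congr rfl e1, Finset.sum_congr rfl e2, Finset.sum_add_distrib,
          Finset.sum_sub_distrib, ← Finset.mul_sum, ← Finset.mul_sum, hg V hVm]
        simp only [Finset.sum_const, nsmul_eq_mul]
        rw [hV, g2, hVm]
        show _ + sh β V / m * dn f X + _ = _
        push_cast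
        field_simp
        ring
      · have e1 : ∀ x ∈ X, pA m c β f g (X.erase x) V x = 1/(2*m+1) := by
          intro x hx
          have := Finset.card_erase_of_mem hx
          unfold pA
          rw [if_neg (by omega), if_neg (by omega)]
        have e2 : ∀ v ∈ Vᶜ, pB m c A f g X V v = 1/(2*m+1) := by
          intro v hv
          unfold pB
          rw [if_neg (by omega), if_neg g1, if_neg (fun h => g2 h.1)]
        rw [Finset.sum_congr rfl e1, Finset.sum_congr rfl e2]
        simp only [Finset.sum_const, nsmul_eq_mul]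
        rw [hV, h2]
        push_cast
        field_simp
        ring
  · -- ties
    intro X V h1 h2
    exact hc X V (by omega) (by omega)
  · intro X V h1 h2 x _
    have hX : X.card = m := by omega
    have hV : V.card = m := by omega
    unfold pA
    rw [if_pos hX, if_pos hV]
  · intro X V h1 h2 v _
    have hX : X.card = m := by omega
    have hV : V.card = m := by omega
    rw [hanti X V hX hV, neg_neg]
    unfold pB
    rw [if_pos hX]
  · intro X V h1 h2
    have hX : X.card = m := by omega
    have hV : V.card = m := by omega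
    refine ⟨?_, rfl, hanti X V hX hV⟩
    unfold pS
    rw [if_pos hX]

end odds

end BG
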