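import Pool.Agent.Lib.MP_e26f2a_co.BG.Base

/-!
# Sign functions on a ground set of pairs (MP_e26f2a_co, Biggs project)

Ground set `ι × Bool`. A pair `i` is split, full or empty in `X`; `ch X` is the product of the
signs of the split pairs, `tw τ X = ch X * τ (full pairs) (empty pairs)`, and `fl τ` is the flow
which carries the shadow sums of `tw τ` one level up.
-/

set_option autoImplicit false

namespace BG

open Finset

section
variable {ι : Type} [DecidableEq ι] [Fintype ι]

/-- split pairs -/
def Qs (X : Finset (ι × Bool)) : Finset ι :=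
  univ.filter fun i => ((i, true) ∈ X ∧ (i, false) ∉ X) ∨ ((i, true) ∉ X ∧ (i, false) ∈ X)

/-- full pairs -/
def Fs (X : Finset (ι × Bool)) : Finset ι :=
  univ.filter fun i => (i, true) ∈ X ∧ (i, false) ∈ X

/-- empty pairs -/
def Es (X : Finset (ι × Bool)) : Finset ι :=
  univ.filter fun i => (i, true) ∉ X ∧ (i, false) ∉ X

/-- pairs with negative sign -/
def Ng (X : Finset (ι × Bool)) : Finset ι :=
  univ.filter fun i => (i, true) ∉ X ∧ (i, false) ∈ X

/-- sign of a split pair, `0` at unsplit pairs -/
noncomputable def sg (X : Finset (ι × Bool)) (i : ι) : ℝ :=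
  (if (i, true) ∈ X then 1 else 0) - (if (i, false) ∈ X then 1 else 0)

/-- product of the signs of the split pairs -/
noncomputable def ch (X : Finset (ι × Bool)) : ℝ := (-1) ^ (Ng X).card

/-- twisted sign function -/
noncomputable def tw (τ : Finset ι → Finset ι → ℝ) (X : Finset (ι × Bool)) : ℝ :=
  ch X * τ (Fs X) (Es X)

/-- the flow -/
noncomputable def fl (τ : Finset ι → Finset ι → ℝ) (X : Finset (ι × Bool)) (x : ι × Bool) : ℝ :=
  if x.1 ∈ Qs X then
    ch X * (∑ j ∈ (Qs X).erase x.1, sg X j * τ (Fs X) (insert j (Es X))) / (((Qs X).card : ℝ) - 1)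
  else if (Qs X).card = 1 then
    (∑ j ∈ Qs X, τ (Fs X) (insert j (Es X))) / (2 * ((Es X).card : ℝ))
  else 0

end

end BG
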