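import Pool.Agent.Lib.MP_e26f2a_co.BG.Base

set_option autoImplicit false

namespace BG

open Finset

/-- two disjoint vertices: the unique element outside both -/
theorem out_elem {G : Type} [Fintype G] [DecidableEq G] (n : ℕ) (hG : Fintype.card G = 2*n+1)
    (A B : Finset G) (hA : A.card = n) (hB : B.card = n) (hAB : Disjoint A B) :
    ∃ x, univ \ (A ∪ B) = {x} ∧ x ∉ A ∧ B = (insert x A)ᶜ := by
  have h1 : (univ \ (A ∪ B)).card = 1 := by
    rw [Finset.card_sdiff_of_subset (Finset.subset_univ _), Finset.card_union_of_disjoint hAB, hA,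
      hB, Finset.card_univ, hG]
    omega
  obtain ⟨x, hx⟩ := Finset.card_eq_one.1 h1
  have h2 : ∀ y, (y ∉ A ∧ y ∉ B) ↔ y = x := by
    intro y
    have : y ∈ univ \ (A ∪ B) ↔ y ∈ ({x} : Finset G) := by rw [hx]
    simpa [Finset.mem_sdiff, Finset.mem_union, not_or] using this
  refine ⟨x, hx, ((h2 x).2 rfl).1, ?_⟩
  ext y
  rw [Finset.mem_compl, Finset.mem_insert, not_or]
  constructor
  · intro hy
    refine ⟨?_, fun h => Finset.disjoint_left.1 hAB h hy⟩
    rintro rfl
    exact ((h2 y).2 rfl).2 hy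
  · rintro ⟨h3, h4⟩
    by_contra h5
    exact h3 ((h2 y).1 ⟨h4, h5⟩)

/-- A1 transfer -/
theorem transfer {G : Type} [Fintype G] [DecidableEq G] (n : ℕ) (hG : Fintype.card G = 2*n+1)
    (col : Finset G → G → ℕ)
    (h1 : ∀ (A : Finset G) (x : G), A.card = n → x ∉ A → col A x < n+1)
    (h2 : ∀ (A : Finset G) (x : G), A.card = n → x ∉ A → col ((insert x A)ᶜ) x = col A x)
    (h3 : ∀ (A : Finset G) (x y : G), A.card = n → x ∉ A → y ∉ A → x ≠ y → col A x ≠ col A y) :
    Col (n+1) := by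
  classical
  have hcardX : Fintype.card G = Fintype.card (Fin (2*(n+1)-1)) := by
    rw [hG, Fintype.card_fin]; omega
  let e : Fin (2*(n+1)-1) ≃ G := (Fintype.equivOfCardEq hcardX).symm
  let P : Finset (Fin (2*(n+1)-1)) → Finset G := fun s => s.map e.toEmbedding
  have hcard : ∀ s : Finset (Fin (2*(n+1)-1)), s.card = n + 1 - 1 → (P s).card = n := by
    intro s hs
    show (s.map e.toEmbedding).card = n
    rw [Finset.card_map, hs]; omega
  have hdis : ∀ s t : Finset (Fin (2*(n+1)-1)), Disjoint s t → Disjoint (P s) (P t) :=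
    fun s t h => (Finset.disjoint_map _).2 h
  have hval : ∀ s t : Finset (Fin (2*(n+1)-1)), s.card = n + 1 - 1 → t.card = n + 1 - 1 →
      Disjoint s t → ∃ x, x ∉ P s ∧ P t = (insert x (P s))ᶜ ∧
        ∀ f : G → ℕ, ∑ y ∈ univ \ (P s ∪ P t), f y = f x := by
    intro s t hs ht hst
    obtain ⟨x, hx1, hx2, hx3⟩ := out_elem n hG (P s) (P t) (hcard s hs) (hcard t ht) (hdis s t hst)
    exact ⟨x, hx2, hx3, fun f => by rw [hx1, Finset.sum_singleton]⟩
  refine ⟨fun s t => ⟨(∑ x ∈ univ \ (P s ∪ P t), col (P s) x) % (n+1),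
    Nat.mod_lt _ (Nat.succ_pos n)⟩, ?_, ?_⟩
  · intro s t hs ht hst
    apply Fin.ext
    show (∑ x ∈ univ \ (P s ∪ P t), col (P s) x) % (n+1) =
      (∑ x ∈ univ \ (P t ∪ P s), col (P t) x) % (n+1)
    obtain ⟨x, hx1, hx2, hx3⟩ := hval s t hs ht hst
    rw [Finset.union_comm (P t) (P s), hx3, hx3, hx2, h2 (P s) x (hcard s hs) hx1]
  · intro s t u hs ht hu hst hsu htu he
    have he' := congrArg Fin.val he
    have he2 : (∑ x ∈ univ \ (P s ∪ P t), col (P s) x) % (n+1) =
      (∑ x ∈ univ \ (P s ∪ P u), col (P s) x) % (n+1) := he'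
    obtain ⟨x, hx1, hx2, hx3⟩ := hval s t hs ht hst
    obtain ⟨y, hy1, hy2, hy3⟩ := hval s u hs hu hsu
    have hxy : x ≠ y := by
      rintro rfl
      apply htu
      have h4 : P t = P u := by rw [hx2, hy2]
      exact Finset.map_injective _ h4
    have b1 := h1 (P s) x (hcard s hs) hx1
    have b2 := h1 (P s) y (hcard s hs) hy1
    rw [hx3, hy3, Nat.mod_eq_of_lt b1, Nat.mod_eq_of_lt b2] at he2
    exact h3 (P s) x y (hcard s hs) hx1 hy1 hxy he2

end BG
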